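import Mathlib

/-!
A factorisation lemma of Cohen type: if the Cesàro means of the powers of a contraction `m` of a
Banach algebra send `x` to `0`, then `x = f * y`, where `f` is a limit of polynomials in `m` that
is sent to `0` by the Cesàro means.
-/

set_option autoImplicit false

open Filter Topology

namespace Pool.Agent.H770R2.Cohen

variable {A : Type*} [NormedRing A] [NormedAlgebra ℂ A]

/-- Cesàro mean of the powers `1, m, …, m ^ n`. -/
noncomputable def av (m : A) (n : ℕ) : A :=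
  ((n : ℂ) + 1)⁻¹ • ∑ j ∈ Finset.range (n + 1), m ^ j

theorem norm_pow_le_one [NormOneClass A] {m : A} (hm : ‖m‖ ≤ 1) (j : ℕ) : ‖m ^ j‖ ≤ 1 :=
  (norm_pow_le m j).trans (pow_le_one₀ (norm_nonneg _) hm)

theorem norm_inv_nat (n : ℕ) : ‖((n : ℂ) + 1)⁻¹‖ = ((n : ℝ) + 1)⁻¹ := by
  rw [norm_inv]
  congr 1
  have : ((n : ℂ) + 1) = (((n + 1 : ℕ) : ℝ) : ℂ) := by push_cast; ring
  rw [this, Complex.norm_real, Real.norm_of_nonneg (by positivity)]
  push_cast
  ring

theorem norm_av_le [NormOneClass A] {m : A} (hm : ‖m‖ ≤ 1) (n : ℕ) : ‖av m n‖ ≤ 1 := by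
  unfold av
  rw [norm_smul, norm_inv_nat]
  have h1 : ‖∑ j ∈ Finset.range (n + 1), m ^ j‖ ≤ (n : ℝ) + 1 := by
    refine (norm_sum_le _ _).trans ?_
    refine (Finset.sum_le_sum (fun j _ => norm_pow_le_one hm j)).trans ?_
    simp
  have h2 : (0 : ℝ) < (n : ℝ) + 1 := by positivity
  rw [inv_mul_le_iff₀ h2, mul_one]
  exact h1

theorem av_commute (m : A) (n : ℕ) {c : A} (hc : Commute c m) : Commute c (av m n) := by
  unfold av
  refine Commute.smul_right ?_ _
  exact Commute.sum_right _ _ _ (fun j _ => hc.pow_right j)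

theorem av_commute_av (m : A) (n k : ℕ) : Commute (av m n) (av m k) :=
  av_commute m k (av_commute m n (Commute.refl m)).symm

theorem tendsto_inv : Tendsto (fun n : ℕ => ((n : ℝ) + 1)⁻¹) atTop (𝓝 0) := by
  have := tendsto_one_div_add_atTop_nhds_zero_nat (𝕜 := ℝ)
  simpa using this

theorem one_sub_mul_av [NormOneClass A] {m : A} (hm : ‖m‖ ≤ 1) :
    Tendsto (fun n => (1 - m) * av m n) atTop (𝓝 0) := by
  rw [tendsto_zero_iff_norm_tendsto_zero]
  have h1 : ∀ n : ℕ, ‖(1 - m) * av m n‖ ≤ 2 * ((n : ℝ) + 1)⁻¹ := by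
    intro n
    unfold av
    rw [mul_smul_comm, norm_smul, norm_inv_nat, mul_neg_geom_sum, mul_comm]
    refine mul_le_mul_of_nonneg_right ?_ (by positivity)
    refine (norm_sub_le _ _).trans ?_
    rw [norm_one]
    linarith [norm_pow_le_one hm (n + 1)]
  refine squeeze_zero (fun _ => norm_nonneg _) h1 ?_
  simpa using tendsto_inv.const_mul 2

theorem one_sub_av_mul_av [NormOneClass A] {m : A} (hm : ‖m‖ ≤ 1) (k : ℕ) :
    Tendsto (fun n => (1 - av m k) * av m n) atTop (𝓝 0) := by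
  have h1 : ∃ b : A, 1 - av m k = b * (1 - m) := by
    refine ⟨((k : ℂ) + 1)⁻¹ • ∑ j ∈ Finset.range (k + 1), ∑ i ∈ Finset.range j, m ^ i, ?_⟩
    have h2 : (1 : A) = ((k : ℂ) + 1)⁻¹ • ∑ j ∈ Finset.range (k + 1), (1 : A) := by
      rw [Finset.sum_const, Finset.card_range, ← Nat.cast_smul_eq_nsmul ℂ, smul_smul]
      push_cast
      rw [inv_mul_cancel₀, one_smul]
      exact_mod_cast Nat.succ_ne_zero k
    unfold av
    nth_rewrite 1 [h2]
    rw [← smul_sub, ← Finset.sum_sub_distrib, smul_mul_assoc, Finset.sum_mul]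
    congr 1
    refine Finset.sum_congr rfl fun j _ => ?_
    rw [geom_sum_mul_neg]
  obtain ⟨b, hb⟩ := h1
  have h3 := (one_sub_mul_av hm).const_mul b
  rw [mul_zero] at h3
  refine h3.congr fun n => ?_
  rw [hb, mul_assoc]

theorem norm_le_two_mul {a w z : A} (ha : ‖a‖ ≤ 1 / 2) (h : w = z + a * w) : ‖w‖ ≤ 2 * ‖z‖ := by
  have h1 : ‖w‖ ≤ ‖z‖ + ‖a * w‖ := by
    calc ‖w‖ = ‖z + a * w‖ := by rw [← h]
      _ ≤ _ := norm_add_le _ _
  have h2 : ‖a * w‖ ≤ 1 / 2 * ‖w‖ :=
    (norm_mul_le _ _).trans (mul_le_mul_of_nonneg_right ha (norm_nonneg _))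
  linarith

theorem step [CompleteSpace A] [NormOneClass A] {m : A} (hm : ‖m‖ ≤ 1) {S : Set A}
    (hleft : ∀ a : A, ∀ y ∈ S, a * y ∈ S) {x f y : A} {t : ℝ} (ht : 0 < t)
    (hfy : f * y = x) (hy : y ∈ S)
    (h1 : Tendsto (fun n => av m n * y) atTop (𝓝 0))
    (h2 : Tendsto (fun n => (f - (t : ℂ) • (1 : A)) * av m n) atTop (𝓝 0)) :
    ∃ f' y' : A, f' * y' = x ∧ y' ∈ S ∧ Tendsto (fun n => av m n * y') atTop (𝓝 0) ∧
      Tendsto (fun n => (f' - ((t / 2 : ℝ) : ℂ) • (1 : A)) * av m n) atTop (𝓝 0) ∧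
      ‖f' - f‖ ≤ t ∧ ‖y' - y‖ ≤ t := by
  have e1 : ∀ᶠ n in atTop, ‖av m n * y‖ < t := by
    have := h1.norm
    rw [norm_zero] at this
    exact this.eventually_lt_const ht
  have e2 : ∀ᶠ n in atTop, ‖(f - (t : ℂ) • (1 : A)) * av m n‖ < t := by
    have := h2.norm
    rw [norm_zero] at this
    exact this.eventually_lt_const ht
  obtain ⟨n, hn1, hn2⟩ := (e1.and e2).exists
  set a : A := (1 / 2 : ℂ) • av m n with ha
  have hna : ‖a‖ ≤ 1 / 2 := by
    rw [ha, norm_smul]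
    have : ‖(1 / 2 : ℂ)‖ = 1 / 2 := by norm_num
    rw [this]
    have := norm_av_le hm n
    linarith
  have hna1 : ‖a‖ < 1 := by linarith
  set u : Aˣ := Units.oneSub a hna1 with hu
  have huv : (u : A) = 1 - a := rfl
  have hcomm : ∀ N, Commute (av m N) (1 - a) := by
    intro N
    refine (Commute.one_right _).sub_right ?_
    exact (av_commute_av m N n).smul_right _
  have hcu : ∀ N, Commute (av m N) (↑u⁻¹ : A) := by
    intro N
    have : Commute (av m N) (u : A) := hcomm N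
    exact this.units_inv_right
  refine ⟨f * (1 - a), ↑u⁻¹ * y, ?_, hleft _ _ hy, ?_, ?_, ?_, ?_⟩
  · rw [← huv, mul_assoc, ← mul_assoc (u : A), Units.mul_inv, one_mul, hfy]
  · have h3 := h1.const_mul (↑u⁻¹ : A)
    rw [mul_zero] at h3
    refine h3.congr fun N => ?_
    rw [← mul_assoc, ← mul_assoc, (hcu N).eq]
  · have h3 := (h2.mul_const (1 - a)).add ((one_sub_av_mul_av hm n).const_smul ((t / 2 : ℝ) : ℂ))
    rw [zero_mul, smul_zero, add_zero] at h3
    refine h3.congr fun N => ?_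
    rw [mul_assoc, (hcomm N).eq, ← mul_assoc, ← smul_mul_assoc, ← add_mul]
    congr 1
    rw [ha]
    simp only [sub_mul, mul_sub, smul_sub, mul_one, smul_mul_assoc, one_mul, mul_smul_comm,
      smul_smul]
    push_cast
    have h4 : (t : ℂ) • (1 : A) = (t / 2 : ℂ) • (1 : A) + (t / 2 : ℂ) • (1 : A) := by
      rw [← add_smul]; ring_nf
    rw [h4]
    have h5 : (1 / 2 * (t : ℂ)) = (t : ℂ) / 2 := by ring
    rw [h5]
    abel
  · have h3 : f * (1 - a) - f = - ((1 / 2 : ℂ) • ((f - (t : ℂ) • (1 : A)) * av m n) +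
        ((t / 2 : ℝ) : ℂ) • av m n) := by
      rw [ha]
      simp only [sub_mul, mul_sub, smul_sub, mul_one, smul_mul_assoc, one_mul, mul_smul_comm,
        smul_smul]
      push_cast
      have h5 : (1 / 2 * (t : ℂ)) = (t : ℂ) / 2 := by ring
      rw [h5]
      abel
    rw [h3, norm_neg]
    refine (norm_add_le _ _).trans ?_
    rw [norm_smul, norm_smul, Complex.norm_real, Real.norm_of_nonneg (by positivity)]
    have h6 : ‖(1 / 2 : ℂ)‖ = 1 / 2 := by norm_num
    rw [h6]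
    have h7 := norm_av_le hm n
    have h8 : t / 2 * ‖av m n‖ ≤ t / 2 := by
      have : 0 ≤ t / 2 := by positivity
      nlinarith
    linarith
  · have h3 : ‖(↑u⁻¹ : A) * y - y‖ ≤ 2 * ‖a * y‖ := by
      refine norm_le_two_mul hna ?_
      have h4 : (u : A) * (↑u⁻¹ * y) = y := by rw [← mul_assoc, Units.mul_inv, one_mul]
      rw [huv, sub_mul, one_mul] at h4
      rw [mul_sub]
      have h5 : (↑u⁻¹ : A) * y = y + a * (↑u⁻¹ * y) := by
        rw [← sub_eq_iff_eq_add]; exact h4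
      nth_rewrite 1 [h5]
      abel
    have h9 : 2 * ‖a * y‖ = ‖av m n * y‖ := by
      rw [ha, smul_mul_assoc, norm_smul]
      have h6 : ‖(1 / 2 : ℂ)‖ = 1 / 2 := by norm_num
      rw [h6]; ring
    linarith

/-- Cohen type factorisation, left version. -/
theorem cohen_left [CompleteSpace A] [NormOneClass A] {m : A} (hm : ‖m‖ ≤ 1) {S : Set A}
    (hS : IsClosed S) (hleft : ∀ a : A, ∀ y ∈ S, a * y ∈ S) {x : A} (hx : x ∈ S)
    (h1 : Tendsto (fun n => av m n * x) atTop (𝓝 0)) :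
    ∃ f y : A, y ∈ S ∧ x = f * y ∧ Tendsto (fun n => f * av m n) atTop (𝓝 0) := by
  let P : ℕ → A × A → Prop := fun k p => p.1 * p.2 = x ∧ p.2 ∈ S ∧
    Tendsto (fun n => av m n * p.2) atTop (𝓝 0) ∧
    Tendsto (fun n => (p.1 - (((1 / 2 : ℝ) ^ k : ℝ) : ℂ) • (1 : A)) * av m n) atTop (𝓝 0)
  have hstep : ∀ (k : ℕ) (p : A × A), ∃ q : A × A, P k p → P (k + 1) q ∧
      ‖q.1 - p.1‖ ≤ (1 / 2 : ℝ) ^ k ∧ ‖q.2 - p.2‖ ≤ (1 / 2 : ℝ) ^ k := by
    intro k p
    by_cases hp : P k p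
    · obtain ⟨f', y', a1, a2, a3, a4, a5, a6⟩ := step hm hleft (t := (1 / 2 : ℝ) ^ k)
        (by positivity) hp.1 hp.2.1 hp.2.2.1 hp.2.2.2
      refine ⟨(f', y'), fun _ => ⟨⟨a1, a2, a3, ?_⟩, a5, a6⟩⟩
      have : (1 / 2 : ℝ) ^ k / 2 = (1 / 2 : ℝ) ^ (k + 1) := by rw [pow_succ]; ring
      rw [this] at a4
      exact a4
    · exact ⟨p, fun h => absurd h hp⟩
  choose F hF using hstep
  let s : ℕ → A × A := fun k => Nat.rec (1, x) (fun k p => F k p) k
  have hs0 : s 0 = (1, x) := rfl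
  have hs1 : ∀ k, s (k + 1) = F k (s k) := fun k => rfl
  have hP : ∀ k, P k (s k) := by
    intro k
    induction k with
    | zero =>
      rw [hs0]
      refine ⟨one_mul x, hx, h1, ?_⟩
      simp
    | succ k ih =>
      rw [hs1]
      exact (hF k (s k) ih).1
  have hd1 : ∀ k, dist (s k).1 (s (k + 1)).1 ≤ 1 * (1 / 2 : ℝ) ^ k := by
    intro k
    rw [dist_comm, dist_eq_norm, one_mul, hs1]
    exact (hF k (s k) (hP k)).2.1
  have hd2 : ∀ k, dist (s k).2 (s (k + 1)).2 ≤ 1 * (1 / 2 : ℝ) ^ k := by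
    intro k
    rw [dist_comm, dist_eq_norm, one_mul, hs1]
    exact (hF k (s k) (hP k)).2.2
  obtain ⟨f, hf⟩ := cauchySeq_tendsto_of_complete
    (cauchySeq_of_le_geometric (1 / 2) 1 (by norm_num) hd1)
  obtain ⟨y, hy⟩ := cauchySeq_tendsto_of_complete
    (cauchySeq_of_le_geometric (1 / 2) 1 (by norm_num) hd2)
  refine ⟨f, y, hS.mem_of_tendsto hy (Eventually.of_forall fun k => (hP k).2.1), ?_, ?_⟩
  · have t1 : Tendsto (fun k => (s k).1 * (s k).2) atTop (𝓝 x) :=
      tendsto_const_nhds.congr fun k => (hP k).1.symm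
    exact tendsto_nhds_unique t1 (hf.mul hy)
  · rw [Metric.tendsto_atTop]
    intro ε hε
    have g1 : ∀ᶠ k in atTop, ‖f - (s k).1‖ < ε / 3 := by
      have := (hf.const_sub f).norm
      rw [sub_self, norm_zero] at this
      exact this.eventually_lt_const (by positivity)
    have g2 : ∀ᶠ k : ℕ in atTop, (1 / 2 : ℝ) ^ k < ε / 3 :=
      (tendsto_pow_atTop_nhds_zero_of_lt_one (by norm_num) (by norm_num)).eventually_lt_const
        (by positivity)
    obtain ⟨k, hk1, hk2⟩ := (g1.and g2).exists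
    have g3 : ∀ᶠ n in atTop,
        ‖((s k).1 - (((1 / 2 : ℝ) ^ k : ℝ) : ℂ) • (1 : A)) * av m n‖ < ε / 3 := by
      have := (hP k).2.2.2.norm
      rw [norm_zero] at this
      exact this.eventually_lt_const (by positivity)
    obtain ⟨N, hN⟩ := eventually_atTop.1 g3
    refine ⟨N, fun n hn => ?_⟩
    rw [dist_zero_right]
    have e : f * av m n = (f - (s k).1) * av m n +
        ((s k).1 - (((1 / 2 : ℝ) ^ k : ℝ) : ℂ) • (1 : A)) * av m n +
        (((1 / 2 : ℝ) ^ k : ℝ) : ℂ) • av m n := by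
      simp only [sub_mul, smul_mul_assoc, one_mul]
      abel
    rw [e]
    have hav := norm_av_le hm n
    have b1 : ‖(f - (s k).1) * av m n‖ < ε / 3 := by
      refine lt_of_le_of_lt (norm_mul_le _ _) ?_
      refine lt_of_le_of_lt (mul_le_of_le_one_right (norm_nonneg _) hav) hk1
    have b3 : ‖(((1 / 2 : ℝ) ^ k : ℝ) : ℂ) • av m n‖ < ε / 3 := by
      rw [norm_smul, Complex.norm_real, Real.norm_of_nonneg (by positivity)]
      exact lt_of_le_of_lt (mul_le_of_le_one_right (by positivity) hav) hk2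
    have b2 := hN n hn
    calc _ ≤ _ := norm_add₃_le
      _ < ε / 3 + ε / 3 + ε / 3 := by gcongr
      _ = ε := by ring

theorem av_op (m : A) (n : ℕ) : av (MulOpposite.op m) n = MulOpposite.op (av m n) := by
  unfold av
  simp

/-- Cohen type factorisation, right version. -/
theorem cohen_right [CompleteSpace A] [NormOneClass A] {m : A} (hm : ‖m‖ ≤ 1) {S : Set A}
    (hS : IsClosed S) (hright : ∀ a : A, ∀ y ∈ S, y * a ∈ S) {x : A} (hx : x ∈ S)
    (h1 : Tendsto (fun n => x * av m n) atTop (𝓝 0)) :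
    ∃ f y : A, y ∈ S ∧ x = y * f ∧ Tendsto (fun n => av m n * f) atTop (𝓝 0) := by
  have h1' : Tendsto (fun n => av (MulOpposite.op m) n * MulOpposite.op x) atTop (𝓝 0) := by
    have := (MulOpposite.continuous_op.tendsto (0 : A)).comp h1
    rw [MulOpposite.op_zero] at this
    refine this.congr fun n => ?_
    simp [av_op]
  obtain ⟨f, y, hy, hxy, hf⟩ := cohen_left (A := Aᵐᵒᵖ) (m := MulOpposite.op m)
    (by rw [MulOpposite.norm_op]; exact hm) (S := MulOpposite.unop ⁻¹' S) (hS.preimage MulOpposite.continuous_unop)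
    (fun a y hy => by
      simp only [Set.mem_preimage, MulOpposite.unop_mul] at hy ⊢
      exact hright _ _ hy) (x := MulOpposite.op x) (by simpa using hx) h1'
  refine ⟨MulOpposite.unop f, MulOpposite.unop y, hy, ?_, ?_⟩
  · have := congrArg MulOpposite.unop hxy
    simpa using this
  · have := (MulOpposite.continuous_unop.tendsto (0 : Aᵐᵒᵖ)).comp hf
    rw [MulOpposite.unop_zero] at this
    refine this.congr fun n => ?_
    simp [av_op]

end Pool.Agent.H770R2.Cohen
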