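import Mathlib

/-!
The Banach algebra `ℓ¹(G)` of a discrete group, on the type `lp (fun _ : G => ℂ) 1`.
-/

set_option autoImplicit false

open scoped ENNReal

namespace Pool.Agent.H770R2

/-- The Banach space `ℓ¹(G)`. -/
abbrev L1 (G : Type) : Type := lp (fun _ : G => ℂ) 1

namespace L1

variable {G : Type}

theorem hasSum_norm (x : L1 G) : HasSum (fun i => ‖x i‖) ‖x‖ := by
  have := lp.hasSum_norm (p := 1) (by simp) x
  simpa using this

theorem summable_norm (x : L1 G) : Summable (fun i => ‖x i‖) := (hasSum_norm x).summable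

theorem norm_eq (x : L1 G) : ‖x‖ = ∑' i, ‖x i‖ := (hasSum_norm x).tsum_eq.symm

theorem norm_apply_le (x : L1 G) (i : G) : ‖x i‖ ≤ ‖x‖ := by
  have := sum_le_hasSum {i} (fun _ _ => norm_nonneg _) (hasSum_norm x)
  simpa using this

theorem mem_of_summable (f : G → ℂ) (hf : Summable (fun i => ‖f i‖)) :
    Memℓp f (1 : ℝ≥0∞) := by
  refine memℓp_gen ?_
  simpa using hf

/-- an element of `ℓ¹` from an absolutely summable family -/
noncomputable def mk (f : G → ℂ) (hf : Summable (fun i => ‖f i‖)) : L1 G :=
  ⟨f, mem_of_summable f hf⟩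

@[simp] theorem mk_apply (f : G → ℂ) (hf : Summable (fun i => ‖f i‖)) (i : G) :
    mk f hf i = f i := rfl

open Classical in
/-- the point mass at `g` -/
noncomputable def δ (g : G) : L1 G := lp.single 1 g (1 : ℂ)

open Classical in
theorem δ_apply (g x : G) : δ g x = if x = g then 1 else 0 := by
  unfold δ
  rw [lp.single_apply]
  by_cases h : x = g
  · subst h; simp
  · simp [h]

@[simp] theorem norm_δ (g : G) : ‖δ g‖ = 1 := by
  classical
  unfold δ
  rw [lp.norm_single (by simp)]
  simp

theorem hasSum_δ (x : L1 G) : HasSum (fun g => x g • δ g) x := by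
  classical
  have h := lp.hasSum_single (E := fun _ : G => ℂ) (p := 1) (by simp) x
  convert h using 2 with g
  ext y
  rw [lp.coeFn_smul, Pi.smul_apply, δ_apply, lp.single_apply]
  by_cases hy : y = g
  · subst hy; simp
  · simp [hy]

/-- the coordinate functional -/
noncomputable def coord (i : G) : L1 G →L[ℂ] ℂ := lp.evalCLM ℂ (fun _ : G => ℂ) 1 i

@[simp] theorem coord_apply (i : G) (x : L1 G) : coord i x = x i := rfl

/-- Two continuous linear maps agreeing on the point masses are equal. -/
theorem clm_ext {E : Type*} [AddCommMonoid E] [Module ℂ E] [TopologicalSpace E] [T2Space E]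
    {f g : L1 G →L[ℂ] E} (h : ∀ x : G, f (δ x) = g (δ x)) : f = g := by
  ext x
  have hx := hasSum_δ x
  rw [← (hx.map f f.continuous).tsum_eq, ← (hx.map g g.continuous).tsum_eq]
  congr 1
  ext i
  simp [h]

/-- Every closed submodule containing the point masses is everything. -/
theorem mem_of_δ (S : Submodule ℂ (L1 G)) (hS : IsClosed (S : Set (L1 G))) (h : ∀ g, δ g ∈ S)
    (x : L1 G) : x ∈ S := by
  have hx := hasSum_δ x
  exact hS.mem_of_tendsto hx (Filter.Eventually.of_forall fun F =>
    S.sum_mem fun i _ => S.smul_mem _ (h i))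

/-- Composition with a permutation, a linear isometry. -/
noncomputable def tr (σ : Equiv.Perm G) : L1 G →ₗᵢ[ℂ] L1 G where
  toFun f := mk (fun x => f (σ x)) ((σ.summable_iff (f := fun x => ‖f x‖)).2 (summable_norm f))
  map_add' f g := by ext x; rfl
  map_smul' c f := by ext x; rfl
  norm_map' f := by
    rw [norm_eq, norm_eq]
    exact σ.tsum_eq (fun x => ‖f x‖)

@[simp] theorem tr_apply (σ : Equiv.Perm G) (f : L1 G) (x : G) : tr σ f x = f (σ x) := rfl

theorem norm_tr_le (σ : Equiv.Perm G) :
    ‖(tr σ : L1 G →ₗᵢ[ℂ] L1 G).toContinuousLinearMap‖ ≤ 1 :=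
  LinearIsometry.norm_toContinuousLinearMap_le _

section Mul
variable [Group G]

/-- left translation by `g` -/
noncomputable def lt (g : G) : L1 G →L[ℂ] L1 G := (tr (Equiv.mulLeft g⁻¹)).toContinuousLinearMap

theorem norm_lt_le (g : G) : ‖(lt g : L1 G →L[ℂ] L1 G)‖ ≤ 1 := norm_tr_le _

theorem lt_apply (g : G) (f : L1 G) (x : G) : lt g f x = f (g⁻¹ * x) := rfl

theorem lt_δ (g h : G) : lt g (δ h) = δ (g * h) := by
  classical
  ext x
  rw [lt_apply, δ_apply, δ_apply]
  congr 1
  rw [inv_mul_eq_iff_eq_mul]

theorem summable_conv (a : L1 G) : Summable fun g => a g • (lt g : L1 G →L[ℂ] L1 G) := by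
  refine Summable.of_norm_bounded (summable_norm a) (fun g => ?_)
  rw [norm_smul]
  exact mul_le_of_le_one_right (norm_nonneg _) (norm_lt_le _)

/-- Left convolution by `a`, as an operator. -/
noncomputable def conv (a : L1 G) : L1 G →L[ℂ] L1 G := ∑' g, a g • lt g

theorem norm_conv_le (a : L1 G) : ‖conv a‖ ≤ ‖a‖ := by
  unfold conv
  rw [norm_eq]
  refine tsum_of_norm_bounded (summable_norm a).hasSum (fun g => ?_)
  rw [norm_smul]
  exact mul_le_of_le_one_right (norm_nonneg _) (norm_lt_le _)

/-- Convolution as a bilinear operator. -/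
noncomputable def convL : L1 G →L[ℂ] L1 G →L[ℂ] L1 G :=
  LinearMap.mkContinuous
    { toFun := conv
      map_add' := fun a b => by
        unfold conv
        rw [← (summable_conv a).tsum_add (summable_conv b)]
        congr 1
        ext1 g
        rw [lp.coeFn_add, Pi.add_apply, add_smul]
      map_smul' := fun c a => by
        unfold conv
        simp only [RingHom.id_apply]
        rw [← (summable_conv a).tsum_const_smul]
        congr 1
        ext1 g
        rw [lp.coeFn_smul, Pi.smul_apply, smul_eq_mul, mul_smul] }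
    1 (fun a => by simpa using norm_conv_le a)

theorem convL_apply (a b : L1 G) : convL a b = conv a b := rfl

theorem conv_δ (g : G) : conv (δ g) = lt g := by
  classical
  unfold conv
  rw [tsum_eq_single g]
  · simp [δ_apply]
  · intro h hg
    simp [δ_apply, hg]

noncomputable instance : Mul (L1 G) := ⟨fun a b => conv a b⟩

theorem mul_def (a b : L1 G) : a * b = convL a b := rfl

theorem mul_apply (a b : L1 G) (x : G) : (a * b) x = ∑' y, a y * b (y⁻¹ * x) := by
  have h1 : HasSum (fun g => a g • (lt g : L1 G →L[ℂ] L1 G)) (conv a) := (summable_conv a).hasSum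
  have h2 := (h1.mapL (ContinuousLinearMap.apply ℂ (L1 G) b)).mapL (coord x)
  exact h2.tsum_eq.symm

theorem δ_mul (g : G) (b : L1 G) : δ g * b = lt g b := by
  rw [mul_def, convL_apply, conv_δ]

theorem δ_mul_δ (g h : G) : (δ g * δ h : L1 G) = δ (g * h) := by
  rw [δ_mul, lt_δ]

theorem lt_mul (g h : G) (c : L1 G) : lt (g * h) c = lt g (lt h c) := by
  ext x
  rw [lt_apply, lt_apply, lt_apply, mul_inv_rev, mul_assoc]

theorem lt_mul' (g : G) (b c : L1 G) : lt g b * c = lt g (b * c) := by
  have key : (convL.flip c).comp (lt g) = (lt g).comp (convL.flip c) := by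
    refine clm_ext fun h => ?_
    simp only [ContinuousLinearMap.comp_apply, ContinuousLinearMap.flip_apply, ← mul_def]
    rw [lt_δ, δ_mul, δ_mul, lt_mul]
  exact congrArg (fun T : L1 G →L[ℂ] L1 G => T b) key

theorem mul_assoc' (a b c : L1 G) : a * b * c = a * (b * c) := by
  have key : (convL.flip c).comp (convL.flip b) = convL.flip (b * c) := by
    refine clm_ext fun g => ?_
    simp only [ContinuousLinearMap.comp_apply, ContinuousLinearMap.flip_apply, ← mul_def]
    rw [δ_mul, δ_mul, lt_mul']
  exact congrArg (fun T : L1 G →L[ℂ] L1 G => T a) key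

theorem mul_δ_one (a : L1 G) : a * δ 1 = a := by
  have key : convL.flip (δ 1) = ContinuousLinearMap.id ℂ (L1 G) := by
    refine clm_ext fun g => ?_
    simp only [ContinuousLinearMap.flip_apply, ← mul_def, ContinuousLinearMap.id_apply]
    rw [δ_mul_δ, mul_one]
  exact congrArg (fun T : L1 G →L[ℂ] L1 G => T a) key

theorem δ_one_mul (a : L1 G) : δ 1 * a = a := by
  rw [δ_mul]
  ext x
  rw [lt_apply, inv_one, one_mul]

noncomputable instance : NormedRing (L1 G) where
  mul := fun a b => a * b
  one := δ 1
  mul_assoc := mul_assoc'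
  one_mul := δ_one_mul
  mul_one := mul_δ_one
  left_distrib a b c := by
    change convL a (b + c) = convL a b + convL a c
    exact map_add _ _ _
  right_distrib a b c := by
    change convL (a + b) c = convL a c + convL b c
    rw [map_add]; rfl
  zero_mul a := by
    change convL 0 a = 0
    rw [map_zero]; rfl
  mul_zero a := by
    change convL a 0 = 0
    exact map_zero _
  dist_eq := fun a b => by
    rw [dist_eq_norm]
    rw [← norm_neg, neg_sub, sub_eq_add_neg, add_comm]
  norm_mul_le a b := by
    change ‖conv a b‖ ≤ _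
    exact (ContinuousLinearMap.le_opNorm _ _).trans
      (mul_le_mul_of_nonneg_right (norm_conv_le a) (norm_nonneg _))

theorem one_def : (1 : L1 G) = δ 1 := rfl

theorem smul_mul'' (c : ℂ) (a b : L1 G) : (c • a) * b = c • (a * b) :=
  congrArg (fun T : L1 G →L[ℂ] L1 G => T b) (map_smul (convL : L1 G →L[ℂ] L1 G →L[ℂ] L1 G) c a)

theorem mul_smul'' (c : ℂ) (a b : L1 G) : a * (c • b) = c • (a * b) :=
  map_smul (conv a) c b

instance : NormOneClass (L1 G) := ⟨by rw [one_def, norm_δ]⟩

noncomputable instance : NormedAlgebra ℂ (L1 G) where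
  __ := (inferInstance : Module ℂ (L1 G))
  algebraMap := 
    { toFun := fun c => c • (1 : L1 G)
      map_one' := one_smul _ _
      map_mul' := fun a b => by
        rw [smul_mul'', mul_smul'', mul_one, mul_smul]
      map_zero' := zero_smul _ _
      map_add' := fun a b => add_smul _ _ _ }
  commutes' := fun c a => by
    change (c • (1 : L1 G)) * a = a * (c • (1 : L1 G))
    rw [smul_mul'', mul_smul'', mul_one, one_mul]
  smul_def' := fun c a => by
    change c • a = (c • (1 : L1 G)) * a
    rw [smul_mul'', one_mul]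
  norm_smul_le := fun c a => norm_smul_le c a

theorem mul_apply' (a b : L1 G) (x : G) : (a * b) x = ∑' y, a y * b (y⁻¹ * x) := mul_apply a b x

end Mul

end L1

end Pool.Agent.H770R2
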