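import Mathlib
import Pool.Agent.H770R2.L1

/-!
Pairing of `ℓ¹(G)` with bounded functions.
-/

set_option autoImplicit false

open Filter Topology

namespace Pool.Agent.H770R2

namespace L1

variable {G : Type}

theorem summable_pair (a : L1 G) {f : G → ℂ} {C : ℝ} (hC : ∀ x, ‖f x‖ ≤ C) :
    Summable (fun x => a x * f x) := by
  refine Summable.of_norm_bounded ((summable_norm a).mul_right C) (fun x => ?_)
  rw [norm_mul]
  exact mul_le_mul_of_nonneg_left (hC x) (norm_nonneg _)

/-- The pairing with a bounded function. -/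
noncomputable def pair (f : G → ℂ) (C : ℝ) (hC : ∀ x, ‖f x‖ ≤ C) : L1 G →L[ℂ] ℂ :=
  LinearMap.mkContinuous
    { toFun := fun a => ∑' x, a x * f x
      map_add' := fun a b => by
        rw [← (summable_pair a hC).tsum_add (summable_pair b hC)]
        congr 1
        ext1 x
        rw [lp.coeFn_add, Pi.add_apply, add_mul]
      map_smul' := fun c a => by
        simp only [RingHom.id_apply, smul_eq_mul]
        rw [← tsum_mul_left]
        congr 1
        ext1 x
        rw [lp.coeFn_smul, Pi.smul_apply, smul_eq_mul, mul_assoc] }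
    C (fun a => by
      simp only [LinearMap.coe_mk, AddHom.coe_mk]
      rw [mul_comm]
      refine tsum_of_norm_bounded ((hasSum_norm a).mul_right C) (fun x => ?_)
      rw [norm_mul]
      exact mul_le_mul_of_nonneg_left (hC x) (norm_nonneg _))

theorem pair_apply (f : G → ℂ) (C : ℝ) (hC : ∀ x, ‖f x‖ ≤ C) (a : L1 G) :
    pair f C hC a = ∑' x, a x * f x := rfl

theorem pair_δ (f : G → ℂ) (C : ℝ) (hC : ∀ x, ‖f x‖ ≤ C) (g : G) :
    pair f C hC (δ g) = f g := by
  classical
  rw [pair_apply, tsum_eq_single g]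
  · simp [δ_apply]
  · intro h hg
    simp [δ_apply, hg]

theorem norm_pair_le (f : G → ℂ) (C : ℝ) (hC : ∀ x, ‖f x‖ ≤ C) (a : L1 G) :
    ‖pair f C hC a‖ ≤ C * ‖a‖ := by
  rw [pair_apply, mul_comm]
  refine tsum_of_norm_bounded ((hasSum_norm a).mul_right C) (fun x => ?_)
  rw [norm_mul]
  exact mul_le_mul_of_nonneg_left (hC x) (norm_nonneg _)

/-- The norm of `a` is attained by the pairing with a function bounded by `1`. -/
theorem exists_pair_eq (a : L1 G) : ∃ (f : G → ℂ) (hC : ∀ x, ‖f x‖ ≤ 1),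
    pair f 1 hC a = (‖a‖ : ℂ) := by
  classical
  let f : G → ℂ := fun x => if a x = 0 then 0 else (starRingEnd ℂ) (a x) / (‖a x‖ : ℂ)
  have hf : ∀ x, ‖f x‖ ≤ 1 := by
    intro x
    by_cases h : a x = 0
    · simp [f, h]
    · simp only [f, h, if_false]
      rw [norm_div, RCLike.norm_conj, Complex.norm_real, norm_norm, div_self]
      exact norm_ne_zero_iff.2 h
  refine ⟨f, hf, ?_⟩
  rw [pair_apply, norm_eq, Complex.ofReal_tsum]
  congr 1
  ext1 x
  by_cases h : a x = 0
  · simp [h]
  · simp only [f, h, if_false]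
    have h1 : (‖a x‖ : ℂ) ≠ 0 := by exact_mod_cast norm_ne_zero_iff.2 h
    rw [mul_div_assoc', Complex.mul_conj, Complex.normSq_eq_norm_sq, div_eq_iff h1]
    push_cast
    ring

section Mul
variable [Group G]

/-- `(star b f)(x) = ∑ b(h) f(x h)`. -/
noncomputable def star (b : L1 G) (f : G → ℂ) (x : G) : ℂ := ∑' h, b h * f (x * h)

theorem star_eq (b : L1 G) (f : G → ℂ) (C : ℝ) (hC : ∀ x, ‖f x‖ ≤ C) (x : G) :
    star b f x = pair (fun h => f (x * h)) C (fun h => hC _) b := rfl

theorem norm_star_le (b : L1 G) (f : G → ℂ) (C : ℝ) (hC : ∀ x, ‖f x‖ ≤ C) (x : G) :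
    ‖star b f x‖ ≤ C * ‖b‖ := by
  rw [star_eq b f C hC]
  exact norm_pair_le _ _ _ _

theorem pair_mul (f : G → ℂ) (C D : ℝ) (hC : ∀ x, ‖f x‖ ≤ C) (b : L1 G)
    (hD : ∀ x, ‖star b f x‖ ≤ D) (a : L1 G) :
    pair f C hC (a * b) = pair (star b f) D hD a := by
  have key : (pair f C hC).comp (convL.flip b) = pair (star b f) D hD := by
    refine clm_ext fun g => ?_
    rw [ContinuousLinearMap.comp_apply, ContinuousLinearMap.flip_apply, ← mul_def, δ_mul, pair_δ,
      pair_apply]
    unfold star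
    rw [← (Equiv.mulLeft g).tsum_eq]
    congr 1
    ext1 h
    rw [lt_apply]
    simp
  exact congrArg (fun T : L1 G →L[ℂ] ℂ => T a) key

/-- The character of `ℓ¹(G)` given by a unitary character of `G`. -/
noncomputable def char (χ : G →* ℂ) (hχ : ∀ g, ‖χ g‖ = 1) : L1 G →L[ℂ] ℂ :=
  pair χ 1 (fun g => (hχ g).le)

theorem char_δ (χ : G →* ℂ) (hχ : ∀ g, ‖χ g‖ = 1) (g : G) : char χ hχ (δ g) = χ g :=
  pair_δ _ _ _ _

theorem char_one (χ : G →* ℂ) (hχ : ∀ g, ‖χ g‖ = 1) : char χ hχ 1 = 1 := by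
  rw [one_def, char_δ, map_one]

theorem char_mul (χ : G →* ℂ) (hχ : ∀ g, ‖χ g‖ = 1) (a b : L1 G) :
    char χ hχ (a * b) = char χ hχ a * char χ hχ b := by
  have k1 : ∀ g : G, char χ hχ (δ g * b) = χ g * char χ hχ b := by
    intro g
    have key : (char χ hχ).comp (lt g) = χ g • char χ hχ := by
      refine clm_ext fun h => ?_
      simp only [ContinuousLinearMap.comp_apply, _root_.smul_apply, smul_eq_mul]
      rw [lt_δ, char_δ, char_δ, map_mul]
    rw [δ_mul]
    exact congrArg (fun T : L1 G →L[ℂ] ℂ => T b) key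
  have key : (char χ hχ).comp (convL.flip b) = char χ hχ b • char χ hχ := by
    refine clm_ext fun g => ?_
    simp only [ContinuousLinearMap.comp_apply, _root_.smul_apply, smul_eq_mul,
      ContinuousLinearMap.flip_apply, ← mul_def]
    rw [k1, char_δ, mul_comm]
  have := congrArg (fun T : L1 G →L[ℂ] ℂ => T a) key
  simp only [ContinuousLinearMap.comp_apply, _root_.smul_apply, smul_eq_mul,
    ContinuousLinearMap.flip_apply, ← mul_def] at this
  rw [this, mul_comm]

/-- Pointwise multiplication by a unitary character. -/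
noncomputable def twist (χ : G →* ℂ) (hχ : ∀ g, ‖χ g‖ = 1) : L1 G →ₗᵢ[ℂ] L1 G where
  toFun a := mk (fun x => χ x * a x) (by
    simpa only [norm_mul, hχ, one_mul] using summable_norm a)
  map_add' a b := by
    ext x
    change χ x * (a x + b x) = χ x * a x + χ x * b x
    ring
  map_smul' c a := by
    ext x
    change χ x * (c * a x) = c * (χ x * a x)
    ring
  norm_map' a := by
    rw [norm_eq, norm_eq]
    congr 1
    ext1 x
    change ‖χ x * a x‖ = _
    rw [norm_mul, hχ, one_mul]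

theorem twist_apply (χ : G →* ℂ) (hχ : ∀ g, ‖χ g‖ = 1) (a : L1 G) (x : G) :
    twist χ hχ a x = χ x * a x := rfl

theorem twist_δ (χ : G →* ℂ) (hχ : ∀ g, ‖χ g‖ = 1) (g : G) :
    twist χ hχ (δ g) = χ g • δ g := by
  classical
  ext x
  rw [twist_apply, lp.coeFn_smul, Pi.smul_apply, δ_apply, smul_eq_mul]
  by_cases h : x = g
  · subst h; rfl
  · simp [h]

theorem twist_one (χ : G →* ℂ) (hχ : ∀ g, ‖χ g‖ = 1) : twist χ hχ (1 : L1 G) = 1 := by
  rw [one_def, twist_δ, map_one, one_smul]

theorem twist_mul (χ : G →* ℂ) (hχ : ∀ g, ‖χ g‖ = 1) (a b : L1 G) :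
    twist χ hχ (a * b) = twist χ hχ a * twist χ hχ b := by
  have k1 : ∀ g : G, twist χ hχ (δ g * b) = (χ g • δ g) * twist χ hχ b := by
    intro g
    ext x
    rw [twist_apply, smul_mul'', δ_mul, δ_mul, lp.coeFn_smul, Pi.smul_apply, lt_apply, lt_apply,
      twist_apply, smul_eq_mul, ← mul_assoc, ← map_mul, mul_inv_cancel_left]
  have key : (twist χ hχ).toContinuousLinearMap.comp (convL.flip b) =
      (convL.flip (twist χ hχ b)).comp (twist χ hχ).toContinuousLinearMap := by
    refine clm_ext fun g => ?_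
    simp only [ContinuousLinearMap.comp_apply, ContinuousLinearMap.flip_apply, ← mul_def,
      LinearIsometry.coe_toContinuousLinearMap]
    rw [k1, twist_δ]
  exact congrArg (fun T : L1 G →L[ℂ] L1 G => T a) key

theorem twist_pow (χ : G →* ℂ) (hχ : ∀ g, ‖χ g‖ = 1) (a : L1 G) (n : ℕ) :
    twist χ hχ (a ^ n) = twist χ hχ a ^ n := by
  induction n with
  | zero => rw [pow_zero, pow_zero, twist_one]
  | succ n ih => rw [pow_succ, pow_succ, twist_mul, ih]

end Mul

end L1

end Pool.Agent.H770R2
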