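import Mathlib
import Pool.Agent.H770R2.L1
import Pool.Agent.H770R2.Pair

/-!
The ergodic lemma: averages of `μ ^ j * c * ν ^ l` over `j + l = n` tend to `0` in `ℓ¹(G)`,
where `μ` is a probability measure charging every point, `ν` is its product with the conjugate
of a unitary character, and `c` is in the kernel of that character.
-/

set_option autoImplicit false

open Filter Topology

namespace Pool.Agent.H770R2

namespace L1

variable {G : Type}

theorem variance (p : G → ℝ) (hp : HasSum p 1) (z : G → ℂ) (m : ℂ)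
    (hm : HasSum (fun x => (p x : ℂ) * z x) m) (S : ℝ)
    (hS : HasSum (fun x => p x * ‖z x‖ ^ 2) S) :
    HasSum (fun x => p x * ‖z x - m‖ ^ 2) (S - ‖m‖ ^ 2) := by
  have h1 : HasSum (fun x => ((starRingEnd ℂ) m * ((p x : ℂ) * z x)).re)
      ((starRingEnd ℂ) m * m).re := Complex.hasSum_re (hm.mul_left _)
  have h2 : ((starRingEnd ℂ) m * m).re = ‖m‖ ^ 2 := by
    rw [mul_comm, Complex.mul_conj, Complex.ofReal_re, Complex.normSq_eq_norm_sq]
  rw [h2] at h1
  have h3 : HasSum (fun x => p x * ‖m‖ ^ 2) (‖m‖ ^ 2) := by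
    simpa using hp.mul_right (‖m‖ ^ 2)
  have h4 := (hS.sub (h1.mul_left 2)).add h3
  have h5 : S - 2 * ‖m‖ ^ 2 + ‖m‖ ^ 2 = S - ‖m‖ ^ 2 := by ring
  rw [h5] at h4
  have e : (fun x => p x * ‖z x - m‖ ^ 2) = fun x =>
      p x * ‖z x‖ ^ 2 - 2 * ((starRingEnd ℂ) m * ((p x : ℂ) * z x)).re + p x * ‖m‖ ^ 2 := by
    funext x
    rw [← Complex.normSq_eq_norm_sq, ← Complex.normSq_eq_norm_sq, ← Complex.normSq_eq_norm_sq]
    simp only [Complex.normSq_apply, Complex.sub_re, Complex.sub_im, Complex.mul_re,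
      Complex.mul_im, Complex.conj_re, Complex.conj_im, Complex.ofReal_re, Complex.ofReal_im]
    ring
  rw [e]
  exact h4

/-- `p`-mass bounded functions are summable. -/
theorem summable_bdd {p : G → ℝ} (h0 : ∀ x, 0 ≤ p x) (hp : Summable p) {φ : G → ℝ} {C : ℝ}
    (hφ : ∀ x, |φ x| ≤ C) : Summable (fun x => p x * φ x) := by
  refine Summable.of_norm_bounded (hp.mul_right C) (fun x => ?_)
  rw [norm_mul, Real.norm_of_nonneg (h0 x), Real.norm_eq_abs]
  exact mul_le_mul_of_nonneg_left (hφ x) (h0 x)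

theorem summable_bddC {p : G → ℝ} (h0 : ∀ x, 0 ≤ p x) (hp : Summable p) {z : G → ℂ} {C : ℝ}
    (hz : ∀ x, ‖z x‖ ≤ C) : Summable (fun x => (p x : ℂ) * z x) := by
  refine Summable.of_norm_bounded (hp.mul_right C) (fun x => ?_)
  rw [norm_mul, Complex.norm_real, Real.norm_of_nonneg (h0 x)]
  exact mul_le_mul_of_nonneg_left (hz x) (h0 x)

theorem sq_bdd {z : G → ℂ} {C : ℝ} (hz : ∀ x, ‖z x‖ ≤ C) (x : G) : |‖z x‖ ^ 2| ≤ C ^ 2 := by
  rw [abs_of_nonneg (by positivity)]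
  exact pow_le_pow_left₀ (norm_nonneg _) (hz x) 2

/-- the mean minus the square of the mean dominates each term -/
theorem variance_term {p : G → ℝ} (h0 : ∀ x, 0 ≤ p x) (hp : HasSum p 1) {z : G → ℂ} {C : ℝ}
    (hz : ∀ x, ‖z x‖ ≤ C) (g : G) :
    p g * ‖z g - ∑' x, (p x : ℂ) * z x‖ ^ 2 ≤
      (∑' x, p x * ‖z x‖ ^ 2) - ‖∑' x, (p x : ℂ) * z x‖ ^ 2 := by
  have h := variance p hp z _ (summable_bddC h0 hp.summable hz).hasSum _
    (summable_bdd h0 hp.summable (sq_bdd hz)).hasSum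
  have := sum_le_hasSum {g} (fun x _ => mul_nonneg (h0 x) (by positivity)) h
  simpa using this

theorem variance_nonneg {p : G → ℝ} (h0 : ∀ x, 0 ≤ p x) (hp : HasSum p 1) {z : G → ℂ} {C : ℝ}
    (hz : ∀ x, ‖z x‖ ≤ C) :
    ‖∑' x, (p x : ℂ) * z x‖ ^ 2 ≤ ∑' x, p x * ‖z x‖ ^ 2 := by
  have h := variance p hp z _ (summable_bddC h0 hp.summable hz).hasSum _
    (summable_bdd h0 hp.summable (sq_bdd hz)).hasSum
  have := h.nonneg (fun x => mul_nonneg (h0 x) (by positivity))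
  linarith

variable [Group G]

/-- An element of `ℓ¹(G)` that is a probability measure. -/
structure IsProb (a : L1 G) (p : G → ℝ) : Prop where
  eq : ∀ x, a x = (p x : ℂ)
  nonneg : ∀ x, 0 ≤ p x
  sum : HasSum p 1

theorem IsProb.norm {a : L1 G} {p : G → ℝ} (h : IsProb a p) : ‖a‖ = 1 := by
  rw [norm_eq]
  have : (fun i => ‖a i‖) = p := by
    ext x
    rw [h.eq, Complex.norm_real, Real.norm_of_nonneg (h.nonneg x)]
  rw [this, h.sum.tsum_eq]

/-- real version of `star` -/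
noncomputable def rstar (p : G → ℝ) (φ : G → ℝ) (x : G) : ℝ := ∑' h, p h * φ (x * h)

theorem rstar_bdd {p : G → ℝ} (h0 : ∀ x, 0 ≤ p x) (hp : HasSum p 1) {φ : G → ℝ} {C : ℝ}
    (hφ : ∀ x, |φ x| ≤ C) (x : G) : |rstar p φ x| ≤ C := by
  have : HasSum (fun h => p h * C) C := by simpa using hp.mul_right C
  unfold rstar
  rw [← Real.norm_eq_abs]
  refine tsum_of_norm_bounded this (fun h => ?_)
  rw [norm_mul, Real.norm_of_nonneg (h0 h), Real.norm_eq_abs]
  exact mul_le_mul_of_nonneg_left (hφ _) (h0 h)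

theorem star_ofReal {a : L1 G} {p : G → ℝ} (h : IsProb a p) (φ : G → ℝ) (x : G) :
    star a (fun x => (φ x : ℂ)) x = (rstar p φ x : ℂ) := by
  unfold star rstar
  rw [Complex.ofReal_tsum]
  congr 1
  ext1 y
  rw [h.eq]
  push_cast
  ring

/-- the integral of a real function -/
noncomputable def E (p : G → ℝ) (φ : G → ℝ) : ℝ := ∑' x, p x * φ x

theorem pair_ofReal {a : L1 G} {p : G → ℝ} (h : IsProb a p) (φ : G → ℝ) (C : ℝ)
    (hC : ∀ x, ‖(φ x : ℂ)‖ ≤ C) : pair (fun x => (φ x : ℂ)) C hC a = (E p φ : ℂ) := by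
  rw [pair_apply]
  unfold E
  rw [Complex.ofReal_tsum]
  congr 1
  ext1 y
  rw [h.eq]
  push_cast
  ring

theorem IsProb.mul {a b : L1 G} {p q : G → ℝ} (ha : IsProb a p) (hb : IsProb b q) :
    IsProb (a * b) (fun x => ((a * b) x).re) := by
  have h1 : ∀ x, (a * b) x = ((∑' y, p y * q (y⁻¹ * x) : ℝ) : ℂ) := by
    intro x
    rw [mul_apply, Complex.ofReal_tsum]
    congr 1
    ext1 y
    rw [ha.eq, hb.eq]
    push_cast
    ring
  have h2 : ∀ x, ((a * b) x).re = ∑' y, p y * q (y⁻¹ * x) := by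
    intro x
    rw [h1, Complex.ofReal_re]
  refine ⟨fun x => ?_, fun x => ?_, ?_⟩
  · rw [h2, h1]
  · simp only
    rw [h2]
    exact tsum_nonneg fun y => mul_nonneg (ha.nonneg _) (hb.nonneg _)
  · have h3 : char (1 : G →* ℂ) (by simp) (a * b) = 1 := by
      rw [char_mul]
      have e1 : ∀ {c : L1 G} {r : G → ℝ}, IsProb c r → char (1 : G →* ℂ) (by simp) c = 1 := by
        intro c r hc
        unfold char
        rw [pair_apply]
        have : (fun x => c x * (1 : G →* ℂ) x) = fun x => (r x : ℂ) := by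
          ext x
          rw [hc.eq]; simp
        rw [this, ← Complex.ofReal_tsum, hc.sum.tsum_eq, Complex.ofReal_one]
      rw [e1 ha, e1 hb, one_mul]
    have h4 : HasSum (fun x => (a * b) x) (1 : ℂ) := by
      have := (summable_pair (a * b) (f := (1 : G →* ℂ)) (C := 1) (by simp)).hasSum
      have e : ∑' x, (a * b) x * (1 : G →* ℂ) x = 1 := h3
      rw [e] at this
      simpa using this
    have := Complex.hasSum_re h4
    simpa using this

theorem isProb_one : IsProb (1 : L1 G) (fun x => ((1 : L1 G) x).re) := by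
  classical
  have h : ∀ x, (1 : L1 G) x = ((if x = 1 then 1 else 0 : ℝ) : ℂ) := by
    intro x
    rw [one_def, δ_apply]
    by_cases hx : x = 1 <;> simp [hx]
  have h' : ∀ x, ((1 : L1 G) x).re = (if x = 1 then 1 else 0 : ℝ) := by
    intro x; rw [h, Complex.ofReal_re]
  refine ⟨fun x => ?_, fun x => ?_, ?_⟩
  · rw [h', h]
  · simp only
    rw [h']; split_ifs <;> norm_num
  · have : (fun x => ((1 : L1 G) x).re) = fun x => (if x = 1 then 1 else 0 : ℝ) := by
      ext x; exact h' x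
    rw [this]
    exact hasSum_ite_eq 1 1

theorem IsProb.pow {a : L1 G} {p : G → ℝ} (ha : IsProb a p) (n : ℕ) :
    IsProb (a ^ n) (fun x => ((a ^ n) x).re) := by
  induction n with
  | zero => simpa using isProb_one
  | succ n ih =>
    have := ih.mul ha
    simpa [pow_succ] using this

theorem E_mul {a b : L1 G} {p q r : G → ℝ} (ha : IsProb a p) (hb : IsProb b q)
    (hab : IsProb (a * b) r) {φ : G → ℝ} {C : ℝ} (hφ : ∀ x, |φ x| ≤ C) :
    E r φ = E p (rstar q φ) := by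
  have hC : ∀ x, ‖(φ x : ℂ)‖ ≤ C := by
    intro x; rw [Complex.norm_real, Real.norm_eq_abs]; exact hφ x
  have h1 := pair_ofReal hab φ C hC
  have hs : ∀ x, star b (fun x => (φ x : ℂ)) x = (rstar q φ x : ℂ) := star_ofReal hb φ
  have hC2 : ∀ x, ‖(rstar q φ x : ℂ)‖ ≤ C := by
    intro x; rw [Complex.norm_real, Real.norm_eq_abs]
    exact rstar_bdd hb.nonneg hb.sum hφ x
  have h2 := pair_ofReal ha (rstar q φ) C hC2
  have h3 := pair_mul (fun x => (φ x : ℂ)) C C hC b (fun x => by rw [hs]; exact hC2 x) a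
  have h4 : (star b fun x => (φ x : ℂ)) = fun x => (rstar q φ x : ℂ) := by
    ext x; exact hs x
  rw [h1] at h3
  have h5 : ((E r φ : ℝ) : ℂ) = ((E p (rstar q φ) : ℝ) : ℂ) := by
    rw [h3, ← h2]
    simp only [h4]
  exact_mod_cast h5

theorem E_sub {p : G → ℝ} (h0 : ∀ x, 0 ≤ p x) (hp : HasSum p 1) {φ ψ : G → ℝ} {C D : ℝ}
    (hφ : ∀ x, |φ x| ≤ C) (hψ : ∀ x, |ψ x| ≤ D) :
    E p (fun x => φ x - ψ x) = E p φ - E p ψ := by
  unfold E
  rw [← (summable_bdd h0 hp.summable hφ).tsum_sub (summable_bdd h0 hp.summable hψ)]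
  congr 1
  ext1 x
  ring

theorem E_const_mul {p : G → ℝ} (K : ℝ) {φ : G → ℝ} :
    E p (fun x => K * φ x) = K * E p φ := by
  unfold E
  rw [← tsum_mul_left]
  congr 1
  ext1 x
  ring

theorem E_mono {p : G → ℝ} (h0 : ∀ x, 0 ≤ p x) (hp : HasSum p 1) {φ ψ : G → ℝ} {C D : ℝ}
    (hφ : ∀ x, |φ x| ≤ C) (hψ : ∀ x, |ψ x| ≤ D) (h : ∀ x, φ x ≤ ψ x) : E p φ ≤ E p ψ :=
  (summable_bdd h0 hp.summable hφ).tsum_le_tsum
    (fun x => mul_le_mul_of_nonneg_left (h x) (h0 x)) (summable_bdd h0 hp.summable hψ)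

theorem E_nonneg {p : G → ℝ} (h0 : ∀ x, 0 ≤ p x) {φ : G → ℝ} (h : ∀ x, 0 ≤ φ x) : 0 ≤ E p φ :=
  tsum_nonneg fun x => mul_nonneg (h0 x) (h x)

theorem E_le {p : G → ℝ} (h0 : ∀ x, 0 ≤ p x) (hp : HasSum p 1) {φ : G → ℝ} {C : ℝ}
    (hφ : ∀ x, |φ x| ≤ C) : E p φ ≤ C := by
  have h1 : HasSum (fun x => p x * C) C := by simpa using hp.mul_right C
  exact hasSum_le (fun x => mul_le_mul_of_nonneg_left (le_of_abs_le (hφ x)) (h0 x))
    (summable_bdd h0 hp.summable hφ).hasSum h1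

theorem norm_pair_sq_le {a : L1 G} {p : G → ℝ} (ha : IsProb a p) (f : G → ℂ) (C : ℝ)
    (hC : ∀ x, ‖f x‖ ≤ C) : ‖pair f C hC a‖ ^ 2 ≤ E p (fun x => ‖f x‖ ^ 2) := by
  have := variance_nonneg ha.nonneg ha.sum hC
  have e : pair f C hC a = ∑' x, (p x : ℂ) * f x := by
    rw [pair_apply]
    congr 1
    ext1 x
    rw [ha.eq]
  rw [e]
  exact this

end L1

end Pool.Agent.H770R2
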