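import Mathlib
import Pool.Agent.H770R2.L1
import Pool.Agent.H770R2.Pair
import Pool.Agent.H770R2.Ergodic

/-!
The ergodic lemma, main estimate.
-/

set_option autoImplicit false

open Filter Topology

namespace Pool.Agent.H770R2

namespace L1

variable {G : Type} [Group G]

/-- the complex conjugate of a character -/
noncomputable def cj (χ : G →* ℂ) : G →* ℂ := ((starRingEnd ℂ : ℂ →+* ℂ) : ℂ →* ℂ).comp χ

theorem cj_apply (χ : G →* ℂ) (g : G) : cj χ g = (starRingEnd ℂ) (χ g) := rfl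

theorem norm_cj {χ : G →* ℂ} (hχ : ∀ g, ‖χ g‖ = 1) (g : G) : ‖cj χ g‖ = 1 := by
  rw [cj_apply, RCLike.norm_conj, hχ]

theorem cj_mul {χ : G →* ℂ} (hχ : ∀ g, ‖χ g‖ = 1) (g : G) : χ g * cj χ g = 1 := by
  rw [cj_apply, Complex.mul_conj, Complex.normSq_eq_norm_sq, hχ]
  simp

section main

variable {μ : L1 G} {w : G → ℝ} (hμ : IsProb μ w) (hw : ∀ g, 0 < w g)
  (χ : G →* ℂ) (hχ : ∀ g, ‖χ g‖ = 1)

/-- the twisted measure -/
noncomputable def nu (μ : L1 G) (χ : G →* ℂ) (hχ : ∀ g, ‖χ g‖ = 1) : L1 G :=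
  twist (cj χ) (norm_cj hχ) μ

theorem nu_apply (x : G) : nu μ χ hχ x = cj χ x * μ x := rfl

include hμ in
theorem norm_nu : ‖nu μ χ hχ‖ = 1 := by
  unfold nu
  rw [LinearIsometry.norm_map, hμ.norm]

include hμ in
theorem star_nu (F : G → ℂ) (x : G) :
    star (nu μ χ hχ) F x = ∑' h, (w h : ℂ) * (cj χ h * F (x * h)) := by
  unfold star
  congr 1
  ext1 h
  rw [nu_apply, hμ.eq]
  ring

include hμ in
theorem norm_star_nu {F : G → ℂ} (hF : ∀ x, ‖F x‖ ≤ 1) (x : G) :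
    ‖star (nu μ χ hχ) F x‖ ≤ 1 := by
  have := norm_star_le (nu μ χ hχ) F 1 hF x
  rwa [norm_nu hμ, one_mul] at this

include hμ in
theorem norm_iter {f : G → ℂ} (hf : ∀ x, ‖f x‖ ≤ 1) (l : ℕ) :
    ∀ x, ‖((star (nu μ χ hχ))^[l] f) x‖ ≤ 1 := by
  induction l with
  | zero => simpa using hf
  | succ l ih =>
    intro x
    rw [Function.iterate_succ_apply']
    exact norm_star_nu hμ χ hχ ih x

include hμ in
theorem pair_mul_pow {f : G → ℂ} (hf : ∀ x, ‖f x‖ ≤ 1) (a : L1 G) (l : ℕ) :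
    pair f 1 hf (a * nu μ χ hχ ^ l) =
      pair ((star (nu μ χ hχ))^[l] f) 1 (norm_iter hμ χ hχ hf l) a := by
  induction l generalizing f with
  | zero => simp
  | succ l ih =>
    rw [pow_succ, ← mul_assoc, pair_mul f 1 1 hf (nu μ χ hχ) (norm_star_nu hμ χ hχ hf), ih]
    rfl

/-- the element `c_g` -/
noncomputable def cg (χ : G →* ℂ) (g : G) : L1 G := cj χ g • δ g - 1

theorem star_cg (F : G → ℂ) (hF : ∀ x, ‖F x‖ ≤ 1) (g x : G) :
    star (cg χ g) F x = cj χ g * F (x * g) - F x := by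
  rw [star_eq _ F 1 hF, cg, map_sub, map_smul, pair_δ, one_def, pair_δ, mul_one, smul_eq_mul]

include hχ in
theorem norm_star_cg {F : G → ℂ} (hF : ∀ x, ‖F x‖ ≤ 1) (g x : G) :
    ‖star (cg χ g) F x‖ ≤ 2 := by
  rw [star_cg χ F hF]
  refine (norm_sub_le _ _).trans ?_
  rw [norm_mul, norm_cj hχ]
  linarith [hF x, hF (x * g)]

/-- the variance function -/
noncomputable def V (w : G → ℝ) (b : L1 G) (F : G → ℂ) (x : G) : ℝ :=
  rstar w (fun y => ‖F y‖ ^ 2) x - ‖star b F x‖ ^ 2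

include hμ in
theorem V_ge {F : G → ℂ} (hF : ∀ x, ‖F x‖ ≤ 1) (x h : G) :
    w h * ‖cj χ h * F (x * h) - star (nu μ χ hχ) F x‖ ^ 2 ≤ V w (nu μ χ hχ) F x := by
  have hz : ∀ h, ‖cj χ h * F (x * h)‖ ≤ 1 := by
    intro h
    rw [norm_mul, norm_cj hχ, one_mul]
    exact hF _
  have := variance_term hμ.nonneg hμ.sum hz h
  rw [← star_nu hμ χ hχ F x] at this
  refine this.trans (le_of_eq ?_)
  unfold V rstar
  congr 2
  ext1 y
  rw [norm_mul, norm_cj hχ, one_mul]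

include hμ hw in
theorem sq_le_V {F : G → ℂ} (hF : ∀ x, ‖F x‖ ≤ 1) (g x : G) :
    ‖star (cg χ g) F x‖ ^ 2 ≤ (2 / w g + 2 / w 1) * V w (nu μ χ hχ) F x := by
  have h1 := V_ge hμ χ hχ hF x g
  have h2 := V_ge hμ χ hχ hF x 1
  rw [map_one, one_mul, mul_one] at h2
  rw [star_cg χ F hF]
  set m := star (nu μ χ hχ) F x
  set v := V w (nu μ χ hχ) F x
  have h3 : ‖cj χ g * F (x * g) - m‖ ^ 2 ≤ v / w g := by
    rw [le_div_iff₀ (hw g), mul_comm]; exact h1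
  have h4 : ‖F x - m‖ ^ 2 ≤ v / w 1 := by
    rw [le_div_iff₀ (hw 1), mul_comm]; exact h2
  have h5 : ‖cj χ g * F (x * g) - F x‖ ≤ ‖cj χ g * F (x * g) - m‖ + ‖F x - m‖ := by
    have : cj χ g * F (x * g) - F x = (cj χ g * F (x * g) - m) - (F x - m) := by ring
    rw [this]
    exact norm_sub_le _ _
  have h6 : ‖cj χ g * F (x * g) - F x‖ ^ 2 ≤
      2 * ‖cj χ g * F (x * g) - m‖ ^ 2 + 2 * ‖F x - m‖ ^ 2 := by
    have h7 := pow_le_pow_left₀ (norm_nonneg _) h5 2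
    nlinarith [sq_nonneg (‖cj χ g * F (x * g) - m‖ - ‖F x - m‖)]
  calc _ ≤ _ := h6
    _ ≤ 2 * (v / w g) + 2 * (v / w 1) := by linarith
    _ = _ := by ring

include hμ in
theorem E_V {F : G → ℂ} (hF : ∀ x, ‖F x‖ ≤ 1) (j : ℕ) :
    E (fun x => ((μ ^ j) x).re) (V w (nu μ χ hχ) F) =
      E (fun x => ((μ ^ (j + 1)) x).re) (fun x => ‖F x‖ ^ 2) -
      E (fun x => ((μ ^ j) x).re) (fun x => ‖star (nu μ χ hχ) F x‖ ^ 2) := by
  have hb : ∀ x, |‖F x‖ ^ 2| ≤ 1 := by simpa using sq_bdd hF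
  have hb2 : ∀ x, |‖star (nu μ χ hχ) F x‖ ^ 2| ≤ 1 := by
    simpa using sq_bdd (norm_star_nu hμ χ hχ hF)
  have hj := hμ.pow j
  have hj1 : IsProb (μ ^ j * μ) (fun x => ((μ ^ (j + 1)) x).re) := by
    have := hμ.pow (j + 1)
    rwa [pow_succ] at this
  rw [E_mul hj hμ hj1 hb]
  exact E_sub hj.nonneg hj.sum (rstar_bdd hμ.nonneg hμ.sum hb) hb2

include hμ hw in
theorem term_le {f : G → ℂ} (hf : ∀ x, ‖f x‖ ≤ 1) (g : G) (j l : ℕ) :
    ‖pair f 1 hf (μ ^ j * cg χ g * nu μ χ hχ ^ l)‖ ^ 2 ≤ (2 / w g + 2 / w 1) *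
      (E (fun x => ((μ ^ (j + 1)) x).re) (fun x => ‖((star (nu μ χ hχ))^[l] f) x‖ ^ 2) -
       E (fun x => ((μ ^ j) x).re) (fun x => ‖((star (nu μ χ hχ))^[l + 1] f) x‖ ^ 2)) := by
  have hF := norm_iter hμ χ hχ hf l
  rw [pair_mul_pow hμ χ hχ hf]
  rw [pair_mul _ 1 2 hF (cg χ g) (norm_star_cg χ hχ hF g)]
  refine (norm_pair_sq_le (hμ.pow j) _ _ _).trans ?_
  have e : (fun x => ‖((star (nu μ χ hχ))^[l + 1] f) x‖ ^ 2) =
      fun x => ‖star (nu μ χ hχ) ((star (nu μ χ hχ))^[l] f) x‖ ^ 2 := by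
    rw [Function.iterate_succ_apply']
  rw [e, ← E_V hμ χ hχ hF j, ← E_const_mul]
  have hj := hμ.pow j
  set F := (star (nu μ χ hχ))^[l] f
  have hK : 0 ≤ 2 / w g + 2 / w 1 := by
    have := hw g; have := hw 1; positivity
  have hVb : ∀ x, |V w (nu μ χ hχ) F x| ≤ 2 := by
    intro x
    have hb : ∀ x, |‖F x‖ ^ 2| ≤ 1 := by simpa using sq_bdd hF
    have hb2 : |‖star (nu μ χ hχ) F x‖ ^ 2| ≤ 1 := by
      simpa using sq_bdd (norm_star_nu hμ χ hχ hF) x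
    have h3 := rstar_bdd hμ.nonneg hμ.sum hb x
    unfold V
    refine (abs_sub _ _).trans ?_
    linarith
  refine E_mono hj.nonneg hj.sum (C := 2 ^ 2) (D := (2 / w g + 2 / w 1) * 2)
    (sq_bdd (norm_star_cg χ hχ hF g)) (fun x => ?_) (fun x => sq_le_V hμ hw χ hχ hF g x)
  rw [abs_mul, abs_of_nonneg hK]
  exact mul_le_mul_of_nonneg_left (hVb x) hK

include hμ hw in
theorem norm_sum_sq_le (g : G) (n : ℕ) :
    ‖∑ l ∈ Finset.range (n + 1), μ ^ (n - l) * cg χ g * nu μ χ hχ ^ l‖ ^ 2 ≤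
      (2 / w g + 2 / w 1) * (n + 1) := by
  obtain ⟨f, hf, hfe⟩ := exists_pair_eq
    (∑ l ∈ Finset.range (n + 1), μ ^ (n - l) * cg χ g * nu μ χ hχ ^ l)
  set a := ∑ l ∈ Finset.range (n + 1), μ ^ (n - l) * cg χ g * nu μ χ hχ ^ l with ha
  have hK : 0 ≤ 2 / w g + 2 / w 1 := by
    have := hw g; have := hw 1; positivity
  have h1 : ‖a‖ = ‖pair f 1 hf a‖ := by
    rw [hfe, Complex.norm_real, norm_norm]
  have h2 : ‖a‖ ≤ ∑ l ∈ Finset.range (n + 1),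
      ‖pair f 1 hf (μ ^ (n - l) * cg χ g * nu μ χ hχ ^ l)‖ := by
    rw [h1, ha, map_sum]
    exact norm_sum_le _ _
  let T : ℕ → ℝ := fun l => E (fun x => ((μ ^ (n + 1 - l)) x).re)
    (fun x => ‖((star (nu μ χ hχ))^[l] f) x‖ ^ 2)
  have h3 : ∀ l ∈ Finset.range (n + 1),
      ‖pair f 1 hf (μ ^ (n - l) * cg χ g * nu μ χ hχ ^ l)‖ ^ 2 ≤
      (2 / w g + 2 / w 1) * (T l - T (l + 1)) := by
    intro l hl
    have hl' : l ≤ n := by
      have := Finset.mem_range.1 hl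
      omega
    have := term_le hμ hw χ hχ hf g (n - l) l
    have e1 : n - l + 1 = n + 1 - l := by omega
    have e2 : n + 1 - (l + 1) = n - l := by omega
    simp only [T, e2]
    rw [e1] at this
    exact this
  have h4 : ∑ l ∈ Finset.range (n + 1), (T l - T (l + 1)) = T 0 - T (n + 1) :=
    Finset.sum_range_sub' T (n + 1)
  have h5 : 0 ≤ T (n + 1) := by
    refine E_nonneg (hμ.pow _).nonneg (fun x => by positivity)
  have h6 : T 0 ≤ 1 := by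
    refine E_le (hμ.pow _).nonneg (hμ.pow _).sum (C := 1) ?_
    simpa using sq_bdd hf
  have h7 := sq_sum_le_card_mul_sum_sq (s := Finset.range (n + 1))
    (f := fun l => ‖pair f 1 hf (μ ^ (n - l) * cg χ g * nu μ χ hχ ^ l)‖)
  have h8 : ∑ l ∈ Finset.range (n + 1),
      ‖pair f 1 hf (μ ^ (n - l) * cg χ g * nu μ χ hχ ^ l)‖ ^ 2 ≤ 2 / w g + 2 / w 1 := by
    refine (Finset.sum_le_sum h3).trans ?_
    rw [← Finset.mul_sum, h4]
    nlinarith
  have h9 := pow_le_pow_left₀ (norm_nonneg _) h2 2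
  rw [Finset.card_range] at h7
  have h10 : (0 : ℝ) ≤ (n : ℝ) + 1 := by positivity
  push_cast at h7
  nlinarith

end main

end L1

end Pool.Agent.H770R2
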