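import Mathlib
import Pool.Agent.H770R2.L1
import Pool.Agent.H770R2.Pair
import Pool.Agent.H770R2.Ergodic
import Pool.Agent.H770R2.Ergodic2

/-!
The ergodic lemma: convergence on the kernel of the character, and the version for a pair of
characters.
-/

set_option autoImplicit false

open Filter Topology

namespace Pool.Agent.H770R2

/-- The two-sided Cesàro means `(n + 1)⁻¹ ∑_{l ≤ n} m₁ ^ (n - l) * c * m₂ ^ l`. -/
noncomputable def Q {A : Type*} [NormedRing A] [NormedAlgebra ℂ A] (m₁ m₂ : A) (n : ℕ) :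
    A →ₗ[ℂ] A where
  toFun c := ((n : ℂ) + 1)⁻¹ • ∑ l ∈ Finset.range (n + 1), m₁ ^ (n - l) * c * m₂ ^ l
  map_add' a b := by
    simp only [mul_add, add_mul, Finset.sum_add_distrib, smul_add]
  map_smul' t a := by
    simp only [mul_smul_comm, smul_mul_assoc, ← Finset.smul_sum, RingHom.id_apply]
    rw [smul_comm]

theorem Q_apply {A : Type*} [NormedRing A] [NormedAlgebra ℂ A] (m₁ m₂ : A) (n : ℕ) (c : A) :
    Q m₁ m₂ n c =
      ((n : ℂ) + 1)⁻¹ • ∑ l ∈ Finset.range (n + 1), m₁ ^ (n - l) * c * m₂ ^ l := rfl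

theorem norm_inv_nat' (n : ℕ) : ‖((n : ℂ) + 1)⁻¹‖ = ((n : ℝ) + 1)⁻¹ := by
  rw [norm_inv]
  congr 1
  have : ((n : ℂ) + 1) = (((n + 1 : ℕ) : ℝ) : ℂ) := by push_cast; ring
  rw [this, Complex.norm_real, Real.norm_of_nonneg (by positivity)]
  push_cast
  ring

theorem norm_Q_le {A : Type*} [NormedRing A] [NormedAlgebra ℂ A] [NormOneClass A] {m₁ m₂ : A}
    (h₁ : ‖m₁‖ ≤ 1) (h₂ : ‖m₂‖ ≤ 1) (n : ℕ) (c : A) : ‖Q m₁ m₂ n c‖ ≤ ‖c‖ := by
  have hp : ∀ {m : A}, ‖m‖ ≤ 1 → ∀ j : ℕ, ‖m ^ j‖ ≤ 1 := fun {m} hm j =>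
    (norm_pow_le m j).trans (pow_le_one₀ (norm_nonneg _) hm)
  rw [Q_apply, norm_smul, norm_inv_nat']
  have h3 : ‖∑ l ∈ Finset.range (n + 1), m₁ ^ (n - l) * c * m₂ ^ l‖ ≤ ((n : ℝ) + 1) * ‖c‖ := by
    refine (norm_sum_le _ _).trans ?_
    have : ∀ l ∈ Finset.range (n + 1), ‖m₁ ^ (n - l) * c * m₂ ^ l‖ ≤ ‖c‖ := by
      intro l _
      calc _ ≤ ‖m₁ ^ (n - l)‖ * ‖c‖ * ‖m₂ ^ l‖ :=
            (norm_mul_le _ _).trans (mul_le_mul_of_nonneg_right (norm_mul_le _ _) (norm_nonneg _))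
        _ ≤ 1 * ‖c‖ * 1 := by
            gcongr
            · exact hp h₁ _
            · exact hp h₂ _
        _ = _ := by ring
    refine (Finset.sum_le_sum this).trans ?_
    simp
  have h4 : (0 : ℝ) < (n : ℝ) + 1 := by positivity
  rw [inv_mul_le_iff₀ h4]
  exact h3

namespace L1

variable {G : Type}

/-- Uniformly bounded operators that tend to zero on the point masses tend to zero pointwise. -/
theorem tendsto_of_δ (T : ℕ → L1 G →ₗ[ℂ] L1 G) (C : ℝ) (hT : ∀ n x, ‖T n x‖ ≤ C * ‖x‖)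
    (h : ∀ g, Tendsto (fun n => T n (δ g)) atTop (𝓝 0)) (a : L1 G) :
    Tendsto (fun n => T n a) atTop (𝓝 0) := by
  have hC : 0 ≤ C ∨ ∀ x : L1 G, ‖x‖ = 0 := by
    by_cases hC : 0 ≤ C
    · exact Or.inl hC
    · right
      intro x
      have := (norm_nonneg _).trans (hT 0 x)
      by_contra hx
      have hx' : 0 < ‖x‖ := lt_of_le_of_ne (norm_nonneg _) (Ne.symm hx)
      nlinarith
  let S : Submodule ℂ (L1 G) :=
    { carrier := {a | Tendsto (fun n => T n a) atTop (𝓝 0)}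
      add_mem' := fun {a b} ha hb => by
        have := Tendsto.add ha hb
        simpa using this
      zero_mem' := by simp
      smul_mem' := fun c a ha => by
        have := Tendsto.const_smul ha c
        simpa using this }
  have hS : IsClosed (S : Set (L1 G)) := by
    refine isClosed_of_closure_subset fun a ha => ?_
    change Tendsto (fun n => T n a) atTop (𝓝 0)
    rw [Metric.tendsto_atTop]
    intro ε hε
    have hC1 : 0 < |C| + 1 := by positivity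
    obtain ⟨b, hb, hab⟩ := Metric.mem_closure_iff.1 ha (ε / 2 / (|C| + 1)) (by positivity)
    obtain ⟨N, hN⟩ := Metric.tendsto_atTop.1 (hb : Tendsto (fun n => T n b) atTop (𝓝 0)) (ε / 2)
      (by positivity)
    refine ⟨N, fun n hn => ?_⟩
    have h1 := hN n hn
    rw [dist_zero_right] at h1 ⊢
    have e : T n a = T n (a - b) + T n b := by rw [map_sub]; abel
    rw [e]
    rw [dist_eq_norm] at hab
    have h2 : ‖T n (a - b)‖ ≤ (|C| + 1) * ‖a - b‖ := (hT n _).trans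
      (mul_le_mul_of_nonneg_right (by linarith [le_abs_self C]) (norm_nonneg _))
    have h3 : (|C| + 1) * ‖a - b‖ < ε / 2 := by
      rw [lt_div_iff₀ hC1] at hab
      linarith
    calc _ ≤ _ := norm_add_le _ _
      _ < ε / 2 + ε / 2 := by linarith
      _ = ε := by ring
  exact mem_of_δ S hS h a

variable [Group G]

/-- **The ergodic lemma**, one character. -/
theorem tendsto_Q {μ : L1 G} {w : G → ℝ} (hμ : IsProb μ w) (hw : ∀ g, 0 < w g)
    (χ : G →* ℂ) (hχ : ∀ g, ‖χ g‖ = 1) {c : L1 G} (hc : char χ hχ c = 0) :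
    Tendsto (fun n => Q μ (nu μ χ hχ) n c) atTop (𝓝 0) := by
  have hμ1 : ‖μ‖ ≤ 1 := hμ.norm.le
  have hν1 : ‖nu μ χ hχ‖ ≤ 1 := (norm_nu hμ χ hχ).le
  -- the case of `c_g`
  have h1 : ∀ g, Tendsto (fun n => Q μ (nu μ χ hχ) n (cg χ g)) atTop (𝓝 0) := by
    intro g
    rw [tendsto_zero_iff_norm_tendsto_zero]
    have hK : 0 ≤ 2 / w g + 2 / w 1 := by
      have := hw g; have := hw 1; positivity
    have h2 : ∀ n : ℕ, ‖Q μ (nu μ χ hχ) n (cg χ g)‖ ≤
        Real.sqrt ((2 / w g + 2 / w 1) * ((n : ℝ) + 1)⁻¹) := by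
      intro n
      refine Real.le_sqrt_of_sq_le ?_
      rw [Q_apply, norm_smul, norm_inv_nat', mul_pow]
      have h3 := norm_sum_sq_le hμ hw χ hχ g n
      have h4 : (0 : ℝ) < (n : ℝ) + 1 := by positivity
      calc _ ≤ (((n : ℝ) + 1)⁻¹) ^ 2 * ((2 / w g + 2 / w 1) * (n + 1)) :=
            mul_le_mul_of_nonneg_left h3 (by positivity)
        _ = _ := by field_simp
    refine squeeze_zero (fun _ => norm_nonneg _) h2 ?_
    have h5 : Tendsto (fun n : ℕ => ((n : ℝ) + 1)⁻¹) atTop (𝓝 0) := by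
      have := tendsto_one_div_add_atTop_nhds_zero_nat (𝕜 := ℝ)
      simpa using this
    have h6 := (h5.const_mul (2 / w g + 2 / w 1)).sqrt
    simpa using h6
  -- the operators `a ↦ Q (a - φ(a))`
  let P : L1 G →ₗ[ℂ] L1 G := LinearMap.id - (char χ hχ).toLinearMap.smulRight (1 : L1 G)
  have hP : ∀ a, P a = a - char χ hχ a • (1 : L1 G) := fun a => rfl
  have h2 := tendsto_of_δ (fun n => (Q μ (nu μ χ hχ) n).comp P) 2 (fun n x => by
    rw [LinearMap.comp_apply]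
    refine (norm_Q_le hμ1 hν1 n _).trans ?_
    rw [hP]
    refine (norm_sub_le _ _).trans ?_
    rw [norm_smul, norm_one, mul_one]
    have := norm_pair_le χ 1 (fun g => (hχ g).le) x
    have e : char χ hχ x = pair χ 1 (fun g => (hχ g).le) x := rfl
    rw [e]
    linarith) (fun g => by
    have e : ∀ n, (Q μ (nu μ χ hχ) n).comp P (δ g) = χ g • Q μ (nu μ χ hχ) n (cg χ g) := by
      intro n
      rw [LinearMap.comp_apply, ← map_smul, hP, char_δ, cg, smul_sub, smul_smul, cj_mul hχ,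
        one_smul]
    simp only [e]
    have := (h1 g).const_smul (χ g)
    simpa using this) c
  refine h2.congr fun n => ?_
  rw [LinearMap.comp_apply, hP, hc, zero_smul, sub_zero]

theorem twist_twist (χ₁ χ₂ : G →* ℂ) (h₁ : ∀ g, ‖χ₁ g‖ = 1) (h₂ : ∀ g, ‖χ₂ g‖ = 1)
    (h₃ : ∀ g, ‖(χ₁ * χ₂) g‖ = 1) (a : L1 G) :
    twist χ₁ h₁ (twist χ₂ h₂ a) = twist (χ₁ * χ₂) h₃ a := by
  ext x
  rw [twist_apply, twist_apply, twist_apply, MonoidHom.mul_apply, mul_assoc]

/-- **The ergodic lemma**, pairs of characters. -/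
theorem tendsto_Q₂ {μ : L1 G} {w : G → ℝ} (hμ : IsProb μ w) (hw : ∀ g, 0 < w g)
    (χ₁ χ₂ : G →* ℂ) (h₁ : ∀ g, ‖χ₁ g‖ = 1) (h₂ : ∀ g, ‖χ₂ g‖ = 1)
    {c : L1 G} (hc : char χ₂ h₂ c = 0) :
    Tendsto (fun n => Q (nu μ χ₁ h₁) (nu μ χ₂ h₂) n c) atTop (𝓝 0) := by
  set χ : G →* ℂ := χ₂ * cj χ₁ with hχdef
  have hχ : ∀ g, ‖χ g‖ = 1 := by
    intro g
    rw [hχdef, MonoidHom.mul_apply, norm_mul, h₂, norm_cj h₁, one_mul]
  have e1 : twist χ₁ h₁ (nu μ χ₁ h₁) = μ := by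
    ext x
    rw [twist_apply, nu_apply, ← mul_assoc, cj_mul h₁, one_mul]
  have e2 : twist χ₁ h₁ (nu μ χ₂ h₂) = nu μ χ hχ := by
    ext x
    rw [twist_apply, nu_apply, nu_apply, ← mul_assoc]
    congr 1
    rw [cj_apply, cj_apply, hχdef, MonoidHom.mul_apply, cj_apply, map_mul, Complex.conj_conj,
      mul_comm]
  have e3 : ∀ n (c : L1 G), twist χ₁ h₁ (Q (nu μ χ₁ h₁) (nu μ χ₂ h₂) n c) =
      Q μ (nu μ χ hχ) n (twist χ₁ h₁ c) := by
    intro n c
    rw [Q_apply, Q_apply, map_smul, map_sum]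
    congr 1
    refine Finset.sum_congr rfl fun l _ => ?_
    rw [twist_mul, twist_mul, twist_pow, twist_pow, e1, e2]
  have e4 : char χ hχ (twist χ₁ h₁ c) = 0 := by
    rw [← hc]
    unfold char
    rw [pair_apply, pair_apply]
    congr 1
    ext1 x
    rw [twist_apply, hχdef, MonoidHom.mul_apply]
    have := cj_mul h₁ x
    linear_combination (χ₂ x * c x) * this
  have h3 := tendsto_Q hμ hw χ hχ e4
  rw [tendsto_zero_iff_norm_tendsto_zero] at h3 ⊢
  refine h3.congr fun n => ?_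
  rw [← e3, LinearIsometry.norm_map]

end L1

end Pool.Agent.H770R2
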