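import Mathlib
import Pool.Agent.H770R2.Cohen
import Pool.Agent.H770R2.Ergodic3

/-!
Decomposition of the elements of a closed two-sided ideal on which the two-sided Cesàro means tend
to zero, and the resulting factorisation.
-/

set_option autoImplicit false

open Filter Topology

namespace Pool.Agent.H770R2

open Cohen

/-- An approximation scheme gives an exact decomposition. -/
theorem exists_decomp {A : Type*} [NormedAddCommGroup A] [CompleteSpace A]
    (S L R : AddSubgroup A) (hL : IsClosed (L : Set A)) (hR : IsClosed (R : Set A))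
    (h : ∀ c ∈ S, ∀ ε : ℝ, 0 < ε → ∃ X ∈ L, ∃ X' ∈ R, ∃ c' ∈ S, c = X + X' + c' ∧
      ‖X‖ ≤ 2 * ‖c‖ ∧ ‖X'‖ ≤ 2 * ‖c‖ ∧ ‖c'‖ ≤ ε) (c : A) (hc : c ∈ S) :
    ∃ X ∈ L, ∃ X' ∈ R, c = X + X' := by
  -- state: (partial X, partial X', remainder)
  have hstep : ∀ (k : ℕ) (p : A × A × A), ∃ q : A × A × A,
      (p.1 ∈ L ∧ p.2.1 ∈ R ∧ p.2.2 ∈ S ∧ c = p.1 + p.2.1 + p.2.2 ∧
        ‖p.2.2‖ ≤ (‖c‖ + 1) * (1 / 2 : ℝ) ^ k) →
      (q.1 ∈ L ∧ q.2.1 ∈ R ∧ q.2.2 ∈ S ∧ c = q.1 + q.2.1 + q.2.2 ∧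
        ‖q.2.2‖ ≤ (‖c‖ + 1) * (1 / 2 : ℝ) ^ (k + 1)) ∧
      ‖q.1 - p.1‖ ≤ 2 * (‖c‖ + 1) * (1 / 2 : ℝ) ^ k ∧
      ‖q.2.1 - p.2.1‖ ≤ 2 * (‖c‖ + 1) * (1 / 2 : ℝ) ^ k := by
    intro k p
    by_cases hp : (p.1 ∈ L ∧ p.2.1 ∈ R ∧ p.2.2 ∈ S ∧ c = p.1 + p.2.1 + p.2.2 ∧
        ‖p.2.2‖ ≤ (‖c‖ + 1) * (1 / 2 : ℝ) ^ k)
    · obtain ⟨h1, h2, h3, h4, h5⟩ := hp
      obtain ⟨X, hX, X', hX', c', hc', e, n1, n2, n3⟩ := h p.2.2 h3
        ((‖c‖ + 1) * (1 / 2 : ℝ) ^ (k + 1)) (by positivity)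
      refine ⟨(p.1 + X, p.2.1 + X', c'), fun _ => ⟨⟨L.add_mem h1 hX, R.add_mem h2 hX', hc', ?_,
        n3⟩, ?_, ?_⟩⟩
      · simp only
        nth_rewrite 1 [h4]
        rw [e]
        abel
      · simp only [add_sub_cancel_left]
        linarith
      · simp only [add_sub_cancel_left]
        linarith
    · exact ⟨p, fun h => absurd h hp⟩
  choose F hF using hstep
  let s : ℕ → A × A × A := fun k => Nat.rec (0, 0, c) (fun k p => F k p) k
  have hs0 : s 0 = (0, 0, c) := rfl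
  have hs1 : ∀ k, s (k + 1) = F k (s k) := fun k => rfl
  have hP : ∀ k, (s k).1 ∈ L ∧ (s k).2.1 ∈ R ∧ (s k).2.2 ∈ S ∧
      c = (s k).1 + (s k).2.1 + (s k).2.2 ∧
      ‖(s k).2.2‖ ≤ (‖c‖ + 1) * (1 / 2 : ℝ) ^ k := by
    intro k
    induction k with
    | zero =>
      rw [hs0]
      refine ⟨L.zero_mem, R.zero_mem, hc, by simp, ?_⟩
      simp
    | succ k ih =>
      rw [hs1]
      exact (hF k (s k) ih).1
  have hd1 : ∀ k, dist (s k).1 (s (k + 1)).1 ≤ 2 * (‖c‖ + 1) * (1 / 2 : ℝ) ^ k := by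
    intro k
    rw [dist_comm, dist_eq_norm, hs1]
    exact (hF k (s k) (hP k)).2.1
  have hd2 : ∀ k, dist (s k).2.1 (s (k + 1)).2.1 ≤ 2 * (‖c‖ + 1) * (1 / 2 : ℝ) ^ k := by
    intro k
    rw [dist_comm, dist_eq_norm, hs1]
    exact (hF k (s k) (hP k)).2.2
  obtain ⟨X, hX⟩ := cauchySeq_tendsto_of_complete
    (cauchySeq_of_le_geometric (1 / 2) _ (by norm_num) hd1)
  obtain ⟨X', hX'⟩ := cauchySeq_tendsto_of_complete
    (cauchySeq_of_le_geometric (1 / 2) _ (by norm_num) hd2)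
  have hr : Tendsto (fun k => (s k).2.2) atTop (𝓝 0) := by
    rw [tendsto_zero_iff_norm_tendsto_zero]
    refine squeeze_zero (fun _ => norm_nonneg _) (fun k => (hP k).2.2.2.2) ?_
    have := (tendsto_pow_atTop_nhds_zero_of_lt_one (r := (1 / 2 : ℝ)) (by norm_num)
      (by norm_num)).const_mul (‖c‖ + 1)
    simpa using this
  refine ⟨X, hL.mem_of_tendsto hX (Eventually.of_forall fun k => (hP k).1),
    X', hR.mem_of_tendsto hX' (Eventually.of_forall fun k => (hP k).2.1), ?_⟩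
  have t1 : Tendsto (fun k => (s k).1 + (s k).2.1 + (s k).2.2) atTop (𝓝 (X + X' + 0)) :=
    (hX.add hX').add hr
  have t2 : Tendsto (fun k => (s k).1 + (s k).2.1 + (s k).2.2) atTop (𝓝 c) :=
    tendsto_const_nhds.congr fun k => (hP k).2.2.2.1
  rw [add_zero] at t1
  exact tendsto_nhds_unique t2 t1

section

variable {A : Type*} [NormedRing A] [NormedAlgebra ℂ A]

theorem one_sub_pow_mul_av [NormOneClass A] {m : A} (hm : ‖m‖ ≤ 1) (k : ℕ) :
    Tendsto (fun n => (1 - m ^ k) * av m n) atTop (𝓝 0) := by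
  have h3 := (one_sub_mul_av hm).const_mul (∑ i ∈ Finset.range k, m ^ i)
  rw [mul_zero] at h3
  refine h3.congr fun n => ?_
  rw [← geom_sum_mul_neg, mul_assoc]

theorem av_mul_one_sub_pow [NormOneClass A] {m : A} (hm : ‖m‖ ≤ 1) (k : ℕ) :
    Tendsto (fun n => av m n * (1 - m ^ k)) atTop (𝓝 0) := by
  refine (one_sub_pow_mul_av hm k).congr fun n => ?_
  have : Commute (av m n) (1 - m ^ k) :=
    (Commute.one_right _).sub_right ((av_commute m n (Commute.refl m)).symm.pow_right k)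
  exact this.eq.symm

/-- the elements of `S` killed in the limit by the left Cesàro means -/
def leftNull (S : Submodule ℂ A) (m : A) : AddSubgroup A where
  carrier := {x | x ∈ S ∧ Tendsto (fun n => av m n * x) atTop (𝓝 0)}
  add_mem' := fun {a b} ha hb => ⟨S.add_mem ha.1 hb.1, by
    have := ha.2.add hb.2
    simpa [mul_add] using this⟩
  zero_mem' := ⟨S.zero_mem, by simp⟩
  neg_mem' := fun {a} ha => ⟨S.neg_mem ha.1, by
    have := ha.2.neg
    simpa using this⟩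

/-- the elements of `S` killed in the limit by the right Cesàro means -/
def rightNull (S : Submodule ℂ A) (m : A) : AddSubgroup A where
  carrier := {x | x ∈ S ∧ Tendsto (fun n => x * av m n) atTop (𝓝 0)}
  add_mem' := fun {a b} ha hb => ⟨S.add_mem ha.1 hb.1, by
    have := ha.2.add hb.2
    simpa [add_mul] using this⟩
  zero_mem' := ⟨S.zero_mem, by simp⟩
  neg_mem' := fun {a} ha => ⟨S.neg_mem ha.1, by
    have := ha.2.neg
    simpa using this⟩

/-- The set of points where contractions tend to zero is closed. -/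
theorem isClosed_null {T : ℕ → A → A} (hsub : ∀ n x y, T n (x - y) = T n x - T n y)
    (hT : ∀ n x, ‖T n x‖ ≤ ‖x‖) :
    IsClosed {x : A | Tendsto (fun n => T n x) atTop (𝓝 0)} := by
  refine isClosed_of_closure_subset fun a ha => ?_
  change Tendsto (fun n => T n a) atTop (𝓝 0)
  rw [Metric.tendsto_atTop]
  intro ε hε
  obtain ⟨b, hb, hab⟩ := Metric.mem_closure_iff.1 ha (ε / 2) (by positivity)
  obtain ⟨N, hN⟩ := Metric.tendsto_atTop.1 (hb : Tendsto (fun n => T n b) atTop (𝓝 0)) (ε / 2)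
    (by positivity)
  refine ⟨N, fun n hn => ?_⟩
  have h1 := hN n hn
  rw [dist_zero_right] at h1 ⊢
  have e : T n a = T n (a - b) + T n b := by rw [hsub]; abel
  rw [e]
  rw [dist_eq_norm] at hab
  calc _ ≤ _ := norm_add_le _ _
    _ < ε / 2 + ε / 2 := by linarith [hT n (a - b)]
    _ = ε := by ring

theorem isClosed_leftNull [NormOneClass A] {S : Submodule ℂ A} (hS : IsClosed (S : Set A)) {m : A}
    (hm : ‖m‖ ≤ 1) : IsClosed (leftNull S m : Set A) := by
  have : (leftNull S m : Set A) = (S : Set A) ∩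
      {x : A | Tendsto (fun n => av m n * x) atTop (𝓝 0)} := rfl
  rw [this]
  refine hS.inter (isClosed_null (T := fun n x => av m n * x) (fun n x y => mul_sub _ _ _)
    (fun n x => (norm_mul_le _ _).trans ?_))
  exact mul_le_of_le_one_left (norm_nonneg _) (norm_av_le hm n)

theorem isClosed_rightNull [NormOneClass A] {S : Submodule ℂ A} (hS : IsClosed (S : Set A)) {m : A}
    (hm : ‖m‖ ≤ 1) : IsClosed (rightNull S m : Set A) := by
  have : (rightNull S m : Set A) = (S : Set A) ∩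
      {x : A | Tendsto (fun n => x * av m n) atTop (𝓝 0)} := rfl
  rw [this]
  refine hS.inter (isClosed_null (T := fun n x => x * av m n) (fun n x y => sub_mul _ _ _)
    (fun n x => (norm_mul_le _ _).trans ?_))
  exact mul_le_of_le_one_right (norm_nonneg _) (norm_av_le hm n)

theorem rearrange [NormOneClass A] {m₁ m₂ : A} (n : ℕ) (c : A) :
    c = (1 - av m₁ n) * c + ((n : ℂ) + 1)⁻¹ • ∑ l ∈ Finset.range (n + 1),
      m₁ ^ (n - l) * c * (1 - m₂ ^ l) + Q m₁ m₂ n c := by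
  rw [Q_apply, add_assoc, ← smul_add, ← Finset.sum_add_distrib]
  have h1 : ∀ l ∈ Finset.range (n + 1), m₁ ^ (n - l) * c * (1 - m₂ ^ l) +
      m₁ ^ (n - l) * c * m₂ ^ l = m₁ ^ (n - l) * c := by
    intro l _
    rw [mul_sub, mul_one, sub_add_cancel]
  rw [Finset.sum_congr rfl h1, sub_mul, one_mul, ← Finset.sum_mul]
  have h2 : ∑ l ∈ Finset.range (n + 1), m₁ ^ (n - l) = ∑ j ∈ Finset.range (n + 1), m₁ ^ j := by
    have := Finset.sum_range_reflect (fun j => m₁ ^ j) (n + 1)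
    simpa using this
  rw [h2]
  unfold av
  rw [smul_mul_assoc, sub_add_cancel]

/-- **The decomposition**. -/
theorem decomp [NormOneClass A] [CompleteSpace A] {m₁ m₂ : A} (h₁ : ‖m₁‖ ≤ 1) (h₂ : ‖m₂‖ ≤ 1)
    {S : Submodule ℂ A} (hS : IsClosed (S : Set A)) (hl : ∀ a : A, ∀ y ∈ S, a * y ∈ S)
    (hr : ∀ a : A, ∀ y ∈ S, y * a ∈ S)
    (hQ : ∀ c ∈ S, Tendsto (fun n => Q m₁ m₂ n c) atTop (𝓝 0)) {c : A} (hc : c ∈ S) :
    ∃ X X' : A, X ∈ S ∧ X' ∈ S ∧ c = X + X' ∧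
      Tendsto (fun n => av m₁ n * X) atTop (𝓝 0) ∧
      Tendsto (fun n => X' * av m₂ n) atTop (𝓝 0) := by
  obtain ⟨X, hX, X', hX', e⟩ := exists_decomp S.toAddSubgroup (leftNull S m₁) (rightNull S m₂)
    (isClosed_leftNull hS h₁) (isClosed_rightNull hS h₂) (fun c hc ε hε => by
      have hc : c ∈ S := hc
      have h3 := (hQ c hc).norm
      rw [norm_zero] at h3
      obtain ⟨n, hn⟩ := (h3.eventually_lt_const hε).exists
      have hterm : ∀ l ∈ Finset.range (n + 1), ‖m₁ ^ (n - l) * c * (1 - m₂ ^ l)‖ ≤ 2 * ‖c‖ := by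
        intro l _
        have p1 : ‖m₁ ^ (n - l)‖ ≤ 1 := norm_pow_le_one h₁ _
        have p2 : ‖1 - m₂ ^ l‖ ≤ 2 := by
          refine (norm_sub_le _ _).trans ?_
          rw [norm_one]
          linarith [norm_pow_le_one h₂ l]
        calc _ ≤ ‖m₁ ^ (n - l)‖ * ‖c‖ * ‖1 - m₂ ^ l‖ :=
              (norm_mul_le _ _).trans (mul_le_mul_of_nonneg_right (norm_mul_le _ _)
                (norm_nonneg _))
          _ ≤ 1 * ‖c‖ * 2 := by gcongr
          _ = _ := by ring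
      refine ⟨(1 - av m₁ n) * c, ⟨hl _ _ hc, ?_⟩, ((n : ℂ) + 1)⁻¹ • ∑ l ∈ Finset.range (n + 1),
        m₁ ^ (n - l) * c * (1 - m₂ ^ l), ⟨S.smul_mem _ (S.sum_mem fun l _ => hr _ _ (hl _ _ hc)),
          ?_⟩, Q m₁ m₂ n c, ?_, rearrange n c, ?_, ?_, hn.le⟩
      · have h4 := (one_sub_av_mul_av h₁ n).mul_const c
        rw [zero_mul] at h4
        refine h4.congr fun N => ?_
        rw [← mul_assoc]
        congr 1
        have : Commute (av m₁ N) (1 - av m₁ n) :=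
          (Commute.one_right _).sub_right (av_commute_av _ _ _)
        exact this.eq.symm
      · have h4 : Tendsto (fun N => ((n : ℂ) + 1)⁻¹ • ∑ l ∈ Finset.range (n + 1),
            (m₁ ^ (n - l) * c) * ((1 - m₂ ^ l) * av m₂ N)) atTop (𝓝 (((n : ℂ) + 1)⁻¹ •
            ∑ l ∈ Finset.range (n + 1), (m₁ ^ (n - l) * c) * 0)) := by
          refine Tendsto.const_smul (tendsto_finsetSum _ fun l _ => ?_) _
          exact (one_sub_pow_mul_av h₂ l).const_mul _
        simp only [mul_zero, Finset.sum_const_zero, smul_zero] at h4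
        refine h4.congr fun N => ?_
        rw [smul_mul_assoc, Finset.sum_mul]
        congr 1
        refine Finset.sum_congr rfl fun l _ => ?_
        rw [← mul_assoc]
      · change Q m₁ m₂ n c ∈ S
        rw [Q_apply]
        exact S.smul_mem _ (S.sum_mem fun l _ => hr _ _ (hl _ _ hc))
      · refine (norm_mul_le _ _).trans (mul_le_mul_of_nonneg_right ?_ (norm_nonneg _))
        refine (norm_sub_le _ _).trans ?_
        rw [norm_one]
        linarith [norm_av_le h₁ n]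
      · rw [norm_smul, norm_inv_nat']
        have h4 : (0 : ℝ) < (n : ℝ) + 1 := by positivity
        rw [inv_mul_le_iff₀ h4]
        refine (norm_sum_le _ _).trans ((Finset.sum_le_sum hterm).trans ?_)
        simp) c hc
  exact ⟨X, X', hX.1, hX'.1, e, hX.2, hX'.2⟩

/-- **The factorisation**. -/
theorem factor [NormOneClass A] [CompleteSpace A] {m₁ m₂ : A} (h₁ : ‖m₁‖ ≤ 1) (h₂ : ‖m₂‖ ≤ 1)
    {S : Submodule ℂ A} (hS : IsClosed (S : Set A)) (hl : ∀ a : A, ∀ y ∈ S, a * y ∈ S)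
    (hr : ∀ a : A, ∀ y ∈ S, y * a ∈ S)
    (hQ : ∀ c ∈ S, Tendsto (fun n => Q m₁ m₂ n c) atTop (𝓝 0)) {c : A} (hc : c ∈ S) :
    ∃ f y y' f' : A, y ∈ S ∧ y' ∈ S ∧ c = f * y + y' * f' ∧
      Tendsto (fun n => f * av m₁ n) atTop (𝓝 0) ∧
      Tendsto (fun n => av m₂ n * f') atTop (𝓝 0) := by
  obtain ⟨X, X', hX, hX', e, t1, t2⟩ := decomp h₁ h₂ hS hl hr hQ hc
  obtain ⟨f, y, hy, e1, t3⟩ := cohen_left h₁ hS hl hX t1
  obtain ⟨f', y', hy', e2, t4⟩ := cohen_right h₂ hS hr hX' t2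
  exact ⟨f, y, y', f', hy, hy', by rw [e, e1, e2], t3, t4⟩

end

end Pool.Agent.H770R2
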