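import Mathlib
import Pool.Agent.H770R2.Decomp

/-!
Closed two-sided ideals of codimension two in `ℓ¹(G)`, for a countable group `G`, are idempotent.
-/

set_option autoImplicit false

open Filter Topology

namespace Pool.Agent.H770R2

open Cohen

namespace L1

variable {G : Type} [Group G]

theorem exists_isProb [Countable G] : ∃ (μ : L1 G) (w : G → ℝ), IsProb μ w ∧ ∀ g, 0 < w g := by
  have := Encodable.ofCountable G
  obtain ⟨ε, hε, c, hc, -⟩ := posSumOfEncodable (ε := 1) one_pos G
  have hc0 : 0 < c := lt_of_lt_of_le (hε 1) (by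
    have := sum_le_hasSum {(1 : G)} (fun i _ => (hε i).le) hc
    simpa using this)
  have hsum : HasSum (fun g => ε g / c) 1 := by
    have := hc.div_const c
    rwa [div_self hc0.ne'] at this
  refine ⟨mk (fun g => ((ε g / c : ℝ) : ℂ)) ?_, fun g => ε g / c, ⟨fun x => rfl, fun x => ?_,
    hsum⟩, fun g => div_pos (hε g) hc0⟩
  · refine hsum.summable.congr fun g => ?_
    rw [Complex.norm_real, Real.norm_of_nonneg (div_pos (hε g) hc0).le]
  · exact (div_pos (hε x) hc0).le

theorem char_nu {μ : L1 G} {w : G → ℝ} (hμ : IsProb μ w) (χ : G →* ℂ) (hχ : ∀ g, ‖χ g‖ = 1) :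
    char χ hχ (nu μ χ hχ) = 1 := by
  unfold char
  rw [pair_apply]
  have : (fun x => nu μ χ hχ x * χ x) = fun x => (w x : ℂ) := by
    ext x
    rw [nu_apply, hμ.eq]
    linear_combination (w x : ℂ) * cj_mul hχ x
  rw [this, ← Complex.ofReal_tsum, hμ.sum.tsum_eq, Complex.ofReal_one]

theorem char_pow (χ : G →* ℂ) (hχ : ∀ g, ‖χ g‖ = 1) (a : L1 G) (n : ℕ) :
    char χ hχ (a ^ n) = char χ hχ a ^ n := by
  induction n with
  | zero => rw [pow_zero, pow_zero, char_one]
  | succ n ih => rw [pow_succ, pow_succ, char_mul, ih]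

theorem char_av (χ : G →* ℂ) (hχ : ∀ g, ‖χ g‖ = 1) {m : L1 G} (hm : char χ hχ m = 1) (n : ℕ) :
    char χ hχ (av m n) = 1 := by
  unfold av
  rw [map_smul, map_sum]
  simp only [char_pow, hm, one_pow, Finset.sum_const, Finset.card_range, nsmul_eq_mul, mul_one,
    smul_eq_mul]
  push_cast
  rw [inv_mul_cancel₀]
  exact_mod_cast Nat.succ_ne_zero n

theorem char_eq_zero_left (χ : G →* ℂ) (hχ : ∀ g, ‖χ g‖ = 1) {m f : L1 G}
    (hm : char χ hχ m = 1) (h : Tendsto (fun n => f * av m n) atTop (𝓝 0)) :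
    char χ hχ f = 0 := by
  have h1 := ((char χ hχ).continuous.tendsto 0).comp h
  rw [map_zero] at h1
  refine tendsto_nhds_unique ?_ h1
  refine tendsto_const_nhds.congr fun n => ?_
  rw [Function.comp_apply, char_mul, char_av χ hχ hm, mul_one]

theorem char_eq_zero_right (χ : G →* ℂ) (hχ : ∀ g, ‖χ g‖ = 1) {m f : L1 G}
    (hm : char χ hχ m = 1) (h : Tendsto (fun n => av m n * f) atTop (𝓝 0)) :
    char χ hχ f = 0 := by
  have h1 := ((char χ hχ).continuous.tendsto 0).comp h
  rw [map_zero] at h1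
  refine tendsto_nhds_unique ?_ h1
  refine tendsto_const_nhds.congr fun n => ?_
  rw [Function.comp_apply, char_mul, char_av χ hχ hm, one_mul]

/-- The common kernel of finitely many (separated) unitary characters is idempotent. -/
theorem kernel_idem [Countable G] {ι : Type} [Fintype ι] [DecidableEq ι] (χ : ι → (G →* ℂ))
    (hχ : ∀ i g, ‖χ i g‖ = 1) (e : ι → L1 G)
    (he : ∀ i j, char (χ i) (hχ i) (e j) = if i = j then 1 else 0) (hsum : ∑ i, e i = 1)
    (I : Submodule ℂ (L1 G)) (hI : ∀ x, x ∈ I ↔ ∀ i, char (χ i) (hχ i) x = 0) (x : L1 G)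
    (hx : x ∈ I) :
    x ∈ Submodule.span ℂ {h : L1 G | ∃ a ∈ I, ∃ b ∈ I, h = a * b} := by
  obtain ⟨μ, w, hμ, hw⟩ := exists_isProb (G := G)
  have hIc : IsClosed (I : Set (L1 G)) := by
    have : (I : Set (L1 G)) = ⋂ i, (char (χ i) (hχ i)) ⁻¹' {0} := by
      ext x
      simp [hI]
    rw [this]
    exact isClosed_iInter fun i => isClosed_singleton.preimage (char (χ i) (hχ i)).continuous
  have hl : ∀ a : L1 G, ∀ y ∈ I, a * y ∈ I := by
    intro a y hy
    rw [hI] at hy ⊢
    intro i
    rw [char_mul, hy i, mul_zero]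
  have hr : ∀ a : L1 G, ∀ y ∈ I, y * a ∈ I := by
    intro a y hy
    rw [hI] at hy ⊢
    intro i
    rw [char_mul, hy i, zero_mul]
  have key : ∀ i j, e i * x * e j ∈
      Submodule.span ℂ {h : L1 G | ∃ a ∈ I, ∃ b ∈ I, h = a * b} := by
    intro i j
    obtain ⟨f, y, y', f', hy, hy', e1, t1, t2⟩ := factor (m₁ := nu μ (χ i) (hχ i))
      (m₂ := nu μ (χ j) (hχ j)) (norm_nu hμ _ _).le (norm_nu hμ _ _).le hIc hl hr
      (fun c hc => tendsto_Q₂ hμ hw (χ i) (χ j) (hχ i) (hχ j) ((hI c).1 hc j)) hx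
    have hf := char_eq_zero_left (χ i) (hχ i) (char_nu hμ _ _) t1
    have hf' := char_eq_zero_right (χ j) (hχ j) (char_nu hμ _ _) t2
    have e2 : e i * x * e j = (e i * f) * (y * e j) + (e i * y') * (f' * e j) := by
      rw [e1]
      noncomm_ring
    rw [e2]
    refine Submodule.add_mem _ (Submodule.subset_span ⟨_, ?_, _, hr _ _ hy, rfl⟩)
      (Submodule.subset_span ⟨_, hl _ _ hy', _, ?_, rfl⟩)
    · rw [hI]
      intro k
      rw [char_mul, he]
      by_cases hk : k = i
      · subst hk; rw [hf, mul_zero]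
      · rw [if_neg hk, zero_mul]
    · rw [hI]
      intro k
      rw [char_mul, he]
      by_cases hk : k = j
      · subst hk; rw [hf', zero_mul]
      · rw [if_neg hk, mul_zero]
  have e3 : x = ∑ i, ∑ j, e i * x * e j := by
    calc x = 1 * x * 1 := by rw [one_mul, mul_one]
      _ = (∑ i, e i) * x * (∑ j, e j) := by rw [hsum]
      _ = _ := by
        rw [Finset.sum_mul, Finset.sum_mul]
        refine Finset.sum_congr rfl fun i _ => ?_
        rw [Finset.mul_sum]
  rw [e3]
  exact Submodule.sum_mem _ fun i _ => Submodule.sum_mem _ fun j _ => key i j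

/-- A vector on which right multiplication is scalar modulo a right ideal gives a character. -/
theorem exists_algHom (I : Submodule ℂ (L1 G)) (hr : ∀ a : L1 G, ∀ y ∈ I, y * a ∈ I)
    (v : L1 G) (hv : v ∉ I) (h : ∀ a, ∃ c : ℂ, v * a - c • v ∈ I) :
    ∃ φ : L1 G →ₐ[ℂ] ℂ, ∀ a, v * a - φ a • v ∈ I := by
  choose c hc using h
  have huniq : ∀ {s t : ℂ}, s • v - t • v ∈ I → s = t := by
    intro s t hst
    by_contra hne
    apply hv
    rw [← sub_smul] at hst
    have := I.smul_mem (s - t)⁻¹ hst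
    rwa [smul_smul, inv_mul_cancel₀ (sub_ne_zero.2 hne), one_smul] at this
  have hcu : ∀ a t, v * a - t • v ∈ I → c a = t := by
    intro a t ht
    apply huniq
    have := I.sub_mem ht (hc a)
    rwa [sub_sub_sub_cancel_left] at this
  let L : L1 G →ₗ[ℂ] ℂ :=
    { toFun := c
      map_add' := fun a b => by
        refine hcu _ _ ?_
        have := I.add_mem (hc a) (hc b)
        rw [mul_add, add_smul]
        convert this using 1
        abel
      map_smul' := fun t a => by
        refine hcu _ _ ?_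
        have := I.smul_mem t (hc a)
        rw [mul_smul'', RingHom.id_apply, smul_eq_mul, mul_smul, ← smul_sub]
        exact this }
  have hL1 : L 1 = 1 := hcu _ _ (by rw [mul_one, one_smul, sub_self]; exact I.zero_mem)
  have hLm : ∀ a b, L (a * b) = L a * L b := by
    intro a b
    refine hcu _ _ ?_
    have h1 := hr b _ (hc a)
    have h2 := I.smul_mem (c a) (hc b)
    have h3 := I.add_mem h1 h2
    have e : (v * a - c a • v) * b + c a • (v * b - c b • v) = v * (a * b) - (c a * c b) • v := by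
      rw [sub_mul, smul_sub, smul_smul, smul_mul_assoc, mul_assoc]
      abel
    rw [e] at h3
    exact h3
  exact ⟨AlgHom.ofLinearMap L hL1 hLm, hc⟩

/-- A character of `ℓ¹(G)` comes from a unitary character of `G`. -/
theorem exists_char (φ : L1 G →ₐ[ℂ] ℂ) : ∃ (χ : G →* ℂ) (hχ : ∀ g, ‖χ g‖ = 1),
    (∀ a, φ a = char χ hχ a) ∧ ∀ g, χ g = φ (δ g) := by
  have hb : ∀ a, ‖φ a‖ ≤ ‖a‖ := fun a => AlgHom.norm_apply_le_self φ a
  let χ : G →* ℂ :=
    { toFun := fun g => φ (δ g)
      map_one' := by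
        change φ (δ 1) = 1
        rw [← one_def, map_one]
      map_mul' := fun g h => by
        change φ (δ (g * h)) = φ (δ g) * φ (δ h)
        rw [← δ_mul_δ, map_mul] }
  have h1 : ∀ g, ‖χ g‖ ≤ 1 := fun g => (hb (δ g)).trans (norm_δ g).le
  have h2 : ∀ g, ‖χ g‖ = 1 := by
    intro g
    refine le_antisymm (h1 g) ?_
    have h3 : ‖χ g‖ * ‖χ g⁻¹‖ = 1 := by rw [← norm_mul, ← map_mul, mul_inv_cancel, map_one,
      norm_one]
    have h4 := h1 g⁻¹
    have h5 := norm_nonneg (χ g)
    nlinarith [norm_nonneg (χ g⁻¹)]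
  refine ⟨χ, h2, ?_, fun g => rfl⟩
  let φc : L1 G →L[ℂ] ℂ := LinearMap.mkContinuous φ.toLinearMap 1 (fun a => by
    rw [one_mul]; exact hb a)
  have key : φc = char χ h2 := by
    refine clm_ext fun g => ?_
    rw [char_δ]
    rfl
  intro a
  have := congrArg (fun T : L1 G →L[ℂ] ℂ => T a) key
  exact this

end L1

end Pool.Agent.H770R2
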