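import Mathlib
import Pool.Agent.H770R2.Codim2

/-!
Closed two-sided ideals of codimension two in `ℓ¹(G)`: classification.
-/

set_option autoImplicit false

open Filter Topology

namespace Pool.Agent.H770R2

open Cohen

namespace L1

variable {G : Type} [Group G]

/-- A point mass that is not scalar modulo `I`. -/
theorem exists_not_scalar (I : Submodule ℂ (L1 G)) (hIc : IsClosed (I : Set (L1 G)))
    (hfin : Module.finrank ℂ (L1 G ⧸ I) = 2) : ∃ g : G, ∀ c : ℂ, δ g - c • (1 : L1 G) ∉ I := by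
  by_contra hcon
  push Not at hcon
  have := hIc
  have hfd : FiniteDimensional ℂ (L1 G ⧸ I) := Module.finite_of_finrank_pos (by omega)
  let W : Submodule ℂ (L1 G ⧸ I) := Submodule.span ℂ {I.mkQ (1 : L1 G)}
  have hWc : IsClosed (W : Set (L1 G ⧸ I)) := Submodule.closed_of_finiteDimensional W
  have hK : IsClosed ((W.comap I.mkQ : Submodule ℂ (L1 G)) : Set (L1 G)) := by
    have hcont : Continuous (I.mkQ : L1 G → L1 G ⧸ I) := continuous_quot_mk
    exact hWc.preimage hcont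
  have h1 : ∀ a : L1 G, a ∈ W.comap I.mkQ := by
    refine mem_of_δ _ hK fun g => ?_
    obtain ⟨c, hc⟩ := hcon g
    rw [Submodule.mem_comap]
    have : I.mkQ (δ g) = c • I.mkQ (1 : L1 G) := by
      rw [← map_smul, ← sub_eq_zero, ← map_sub]
      rwa [← LinearMap.mem_ker, Submodule.ker_mkQ]
    rw [this]
    exact W.smul_mem _ (Submodule.mem_span_singleton_self _)
  have h2 : W = ⊤ := by
    rw [eq_top_iff]
    intro q _
    obtain ⟨a, rfl⟩ := I.mkQ_surjective q
    exact h1 a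
  have h3 : Module.finrank ℂ W ≤ 1 := by
    have := finrank_span_le_card (R := ℂ) ({I.mkQ (1 : L1 G)} : Set (L1 G ⧸ I))
    simpa [W] using this
  rw [h2, finrank_top, hfin] at h3
  omega

/-- Every element is a combination of `1` and `u` modulo `I`. -/
theorem exists_coords (I : Submodule ℂ (L1 G)) (hfin : Module.finrank ℂ (L1 G ⧸ I) = 2)
    (h1 : (1 : L1 G) ∉ I) (u : L1 G) (hu : ∀ c : ℂ, u - c • (1 : L1 G) ∉ I) (a : L1 G) :
    ∃ x y : ℂ, a - (x • (1 : L1 G) + y • u) ∈ I := by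
  have hli : LinearIndependent ℂ ![I.mkQ (1 : L1 G), I.mkQ u] := by
    rw [LinearIndependent.pair_iff]
    intro s t hst
    have hmem : s • (1 : L1 G) + t • u ∈ I := by
      rw [← map_smul, ← map_smul, ← map_add] at hst
      rwa [← LinearMap.mem_ker, Submodule.ker_mkQ] at hst
    by_cases ht : t = 0
    · subst ht
      rw [zero_smul, add_zero] at hmem
      refine ⟨?_, rfl⟩
      by_contra hs
      apply h1
      have := I.smul_mem s⁻¹ hmem
      rwa [smul_smul, inv_mul_cancel₀ hs, one_smul] at this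
    · exfalso
      apply hu (-(t⁻¹ * s))
      have := I.smul_mem t⁻¹ hmem
      rw [smul_add, smul_smul, smul_smul, inv_mul_cancel₀ ht, one_smul] at this
      rw [neg_smul, sub_neg_eq_add, add_comm]
      exact this
  have htop := hli.span_eq_top_of_card_eq_finrank (by rw [hfin]; rfl)
  have ha : I.mkQ a ∈ Submodule.span ℂ (Set.range ![I.mkQ (1 : L1 G), I.mkQ u]) := by
    rw [htop]; trivial
  rw [Matrix.range_cons, Matrix.range_cons, Matrix.range_empty, Set.union_empty,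
    Set.singleton_union, Submodule.mem_span_pair] at ha
  obtain ⟨x, y, hxy⟩ := ha
  refine ⟨x, y, ?_⟩
  rw [← Submodule.ker_mkQ I, LinearMap.mem_ker, map_sub, map_add, map_smul, map_smul, hxy, sub_self]

/-- A root of the characteristic equation gives a character. -/
theorem exists_root_char (I : Submodule ℂ (L1 G))
    (hl : ∀ a : L1 G, ∀ y ∈ I, a * y ∈ I) (hr : ∀ a : L1 G, ∀ y ∈ I, y * a ∈ I)
    (u : L1 G) (hu : ∀ c : ℂ, u - c • (1 : L1 G) ∉ I)
    (hco : ∀ a : L1 G, ∃ x y : ℂ, a - (x • (1 : L1 G) + y • u) ∈ I) (l l' : ℂ)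
    (hq : u * u - (l + l') • u + (l * l') • (1 : L1 G) ∈ I) :
    ∃ (χ : G →* ℂ) (hχ : ∀ g, ‖χ g‖ = 1), char χ hχ u = l ∧ ∀ x ∈ I, char χ hχ x = 0 := by
  set v : L1 G := u - l' • (1 : L1 G) with hv
  have hvI : v ∉ I := hu l'
  have hvu : v * u - l • v ∈ I := by
    have e : v * u - l • v = u * u - (l + l') • u + (l * l') • (1 : L1 G) := by
      rw [hv, sub_mul, smul_mul_assoc, one_mul, smul_sub, smul_smul, add_smul]
      abel
    rw [e]; exact hq
  have huniq : ∀ {s : ℂ}, s • v ∈ I → s = 0 := by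
    intro s hst
    by_contra hne
    apply hvI
    have := I.smul_mem s⁻¹ hst
    rwa [smul_smul, inv_mul_cancel₀ hne, one_smul] at this
  obtain ⟨φ, hφ⟩ := exists_algHom I hr v hvI (fun a => by
    obtain ⟨x, y, hxy⟩ := hco a
    refine ⟨x + y * l, ?_⟩
    have h1 := hl v _ hxy
    have h2 := I.smul_mem y hvu
    have h3 := I.add_mem h1 h2
    have e : v * (a - (x • (1 : L1 G) + y • u)) + y • (v * u - l • v) =
        v * a - (x + y * l) • v := by
      rw [mul_sub, mul_add, mul_smul_comm, mul_smul_comm, mul_one, add_smul,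
        smul_sub y (v * u) (l • v), smul_smul y l v]
      abel
    rwa [e] at h3)
  obtain ⟨χ, hχ, e1, -⟩ := exists_char φ
  refine ⟨χ, hχ, ?_, fun x hx => ?_⟩
  · rw [← e1]
    have h1 := I.sub_mem hvu (hφ u)
    rw [sub_sub_sub_cancel_left, ← sub_smul] at h1
    exact sub_eq_zero.1 (huniq h1)
  · rw [← e1]
    have h1 := I.sub_mem (hl v x hx) (hφ x)
    rw [sub_sub_cancel] at h1
    exact huniq h1

theorem pow_mem (I : Submodule ℂ (L1 G)) (hl : ∀ a : L1 G, ∀ y ∈ I, a * y ∈ I)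
    (u : L1 G) (l : ℂ)
    (hq : (u - l • (1 : L1 G)) * (u - l • (1 : L1 G)) ∈ I) (n : ℕ) :
    u ^ (n + 1) - l ^ (n + 1) • (1 : L1 G) - (((n : ℂ) + 1) * l ^ n) • (u - l • (1 : L1 G)) ∈ I := by
  induction n with
  | zero =>
    have : u ^ (0 + 1) - l ^ (0 + 1) • (1 : L1 G) -
        ((((0 : ℕ) : ℂ) + 1) * l ^ 0) • (u - l • (1 : L1 G)) = 0 := by
      simp
    rw [this]
    exact I.zero_mem
  | succ n ih =>
    have h1 := hl u _ ih
    have h2 := I.smul_mem (((n : ℂ) + 1) * l ^ n) hq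
    have h3 := I.add_mem h1 h2
    convert h3 using 1
    have e1 : u * (u ^ (n + 1) - l ^ (n + 1) • (1 : L1 G) -
        (((n : ℂ) + 1) * l ^ n) • (u - l • (1 : L1 G))) = u ^ (n + 1 + 1) - l ^ (n + 1) • u -
        (((n : ℂ) + 1) * l ^ n) • (u * u - l • u) := by
      rw [mul_sub, mul_sub, mul_smul_comm, mul_smul_comm, mul_sub, mul_smul_comm, mul_one,
        ← pow_succ']
    have e2 : (u - l • (1 : L1 G)) * (u - l • (1 : L1 G)) =
        (u * u - l • u) - l • (u - l • (1 : L1 G)) := by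
      rw [sub_mul, mul_sub, smul_mul_assoc, mul_smul_comm, mul_one, one_mul]
    rw [e1, e2, smul_sub (((n : ℂ) + 1) * l ^ n) (u * u - l • u), smul_smul]
    have e3 : l ^ (n + 1) • u = l ^ (n + 1) • (u - l • (1 : L1 G)) + l ^ (n + 1 + 1) • (1 : L1 G) := by
      rw [smul_sub, smul_smul, ← pow_succ]
      abel
    have e4 : ((((n + 1 : ℕ) : ℂ) + 1) * l ^ (n + 1)) • (u - l • (1 : L1 G)) =
        l ^ (n + 1) • (u - l • (1 : L1 G)) +
        (((n : ℂ) + 1) * l ^ n * l) • (u - l • (1 : L1 G)) := by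
      rw [← add_smul]
      congr 1
      push_cast
      ring
    rw [e3, e4]
    abel

theorem no_double_root (I : Submodule ℂ (L1 G)) (hIc : IsClosed (I : Set (L1 G)))
    (hl : ∀ a : L1 G, ∀ y ∈ I, a * y ∈ I) (u : L1 G) (hun : ‖u‖ ≤ 1) (l : ℂ) (hln : ‖l‖ = 1)
    (hq : (u - l • (1 : L1 G)) * (u - l • (1 : L1 G)) ∈ I) : u - l • (1 : L1 G) ∈ I := by
  set v := u - l • (1 : L1 G) with hv
  have hl0 : l ≠ 0 := by
    intro h
    rw [h, norm_zero] at hln
    exact zero_ne_one hln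
  have h1 : Tendsto (fun n : ℕ => v - (((n : ℂ) + 1) * l ^ n)⁻¹ •
      (u ^ (n + 1) - l ^ (n + 1) • (1 : L1 G))) atTop (𝓝 v) := by
    have h2 : Tendsto (fun n : ℕ => (((n : ℂ) + 1) * l ^ n)⁻¹ •
      (u ^ (n + 1) - l ^ (n + 1) • (1 : L1 G))) atTop (𝓝 0) := by
      rw [tendsto_zero_iff_norm_tendsto_zero]
      have h3 : ∀ n : ℕ, ‖(((n : ℂ) + 1) * l ^ n)⁻¹ • (u ^ (n + 1) - l ^ (n + 1) • (1 : L1 G))‖ ≤
          2 * ((n : ℝ) + 1)⁻¹ := by
        intro n
        rw [norm_smul, mul_inv, norm_mul, norm_inv_nat', norm_inv, norm_pow, hln, one_pow, inv_one,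
          mul_one, mul_comm]
        refine mul_le_mul_of_nonneg_right ?_ (by positivity)
        refine (norm_sub_le _ _).trans ?_
        rw [norm_smul, norm_pow l (n + 1), hln, one_pow, norm_one, mul_one]
        linarith [norm_pow_le_one hun (n + 1)]
      refine squeeze_zero (fun _ => norm_nonneg _) h3 ?_
      simpa using tendsto_inv.const_mul 2
    have := h2.const_sub v
    rwa [sub_zero] at this
  refine hIc.mem_of_tendsto h1 (Eventually.of_forall fun n => ?_)
  have h2 := pow_mem I hl u l hq n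
  have h3 := I.smul_mem (-(((n : ℂ) + 1) * l ^ n)⁻¹) h2
  have hn : (((n : ℂ) + 1) * l ^ n) ≠ 0 :=
    mul_ne_zero (by exact_mod_cast Nat.succ_ne_zero n) (pow_ne_zero _ hl0)
  have e : v - (((n : ℂ) + 1) * l ^ n)⁻¹ • (u ^ (n + 1) - l ^ (n + 1) • (1 : L1 G)) =
      (-(((n : ℂ) + 1) * l ^ n)⁻¹) • (u ^ (n + 1) - l ^ (n + 1) • (1 : L1 G) -
        (((n : ℂ) + 1) * l ^ n) • (u - l • (1 : L1 G))) := by
    rw [← hv, smul_sub (-(((n : ℂ) + 1) * l ^ n)⁻¹), smul_smul, neg_mul, inv_mul_cancel₀ hn,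
      neg_smul, neg_smul, one_smul]
    abel
  change v - (((n : ℂ) + 1) * l ^ n)⁻¹ • (u ^ (n + 1) - l ^ (n + 1) • (1 : L1 G)) ∈ I
  rw [e]
  exact h3

/-- **Classification**: a closed two-sided ideal of codimension two is the common kernel of two
unitary characters separated by a point mass. -/
theorem classify (I : Submodule ℂ (L1 G)) (hIc : IsClosed (I : Set (L1 G)))
    (hl : ∀ a : L1 G, ∀ y ∈ I, a * y ∈ I) (hr : ∀ a : L1 G, ∀ y ∈ I, y * a ∈ I)
    (hfin : Module.finrank ℂ (L1 G ⧸ I) = 2) :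
    ∃ (χ : Bool → (G →* ℂ)) (hχ : ∀ i g, ‖χ i g‖ = 1) (g : G), χ true g ≠ χ false g ∧
      ∀ x, x ∈ I ↔ ∀ i, char (χ i) (hχ i) x = 0 := by
  have h1 : (1 : L1 G) ∉ I := by
    intro h
    have : I = ⊤ := by
      rw [eq_top_iff]
      intro a _
      simpa using hl a 1 h
    subst this
    have h0 : Module.finrank ℂ (L1 G ⧸ (⊤ : Submodule ℂ (L1 G))) = 0 := by
      exact Module.finrank_zero_of_subsingleton
    omega
  obtain ⟨g₀, hg₀⟩ := exists_not_scalar I hIc hfin
  set u : L1 G := δ g₀ with hu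
  have hco := exists_coords I hfin h1 u hg₀
  -- the quadratic equation
  obtain ⟨β, α, hq⟩ := hco (u * u)
  -- roots
  obtain ⟨s, hs⟩ := IsAlgClosed.exists_eq_mul_self (α ^ 2 + 4 * β)
  set l₁ : ℂ := (α + s) / 2 with hl₁
  set l₂ : ℂ := (α - s) / 2 with hl₂
  have e1 : l₁ + l₂ = α := by rw [hl₁, hl₂]; ring
  have e2 : l₁ * l₂ = -β := by
    rw [hl₁, hl₂]
    linear_combination (1 / 4 : ℂ) * hs
  have q1 : u * u - (l₁ + l₂) • u + (l₁ * l₂) • (1 : L1 G) ∈ I := by
    rw [e1, e2]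
    convert hq using 1
    rw [neg_smul]
    abel
  have q2 : u * u - (l₂ + l₁) • u + (l₂ * l₁) • (1 : L1 G) ∈ I := by
    rw [add_comm l₂, mul_comm l₂]; exact q1
  obtain ⟨χ₁, hχ₁, f1, f2⟩ := exists_root_char I hl hr u hg₀ hco l₁ l₂ q1
  obtain ⟨χ₂, hχ₂, f3, f4⟩ := exists_root_char I hl hr u hg₀ hco l₂ l₁ q2
  have g1 : χ₁ g₀ = l₁ := by rw [← f1, hu, char_δ]
  have g2 : χ₂ g₀ = l₂ := by rw [← f3, hu, char_δ]
  have hne : l₁ ≠ l₂ := by
    intro h
    apply hg₀ l₁
    refine no_double_root I hIc hl u (norm_δ g₀).le l₁ (by rw [← g1]; exact hχ₁ g₀) ?_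
    rw [← h] at q1
    convert q1 using 1
    rw [sub_mul, mul_sub, smul_mul_assoc, mul_smul_comm, mul_one, one_mul, smul_sub, smul_smul,
      add_smul]
    abel
  refine ⟨fun i => if i then χ₁ else χ₂, fun i g => ?_, g₀, ?_, fun x => ⟨fun hx i => ?_, fun hx => ?_⟩⟩
  · cases i
    · exact hχ₂ g
    · exact hχ₁ g
  · change χ₁ g₀ ≠ χ₂ g₀
    rw [g1, g2]; exact hne
  · cases i
    · exact f4 x hx
    · exact f2 x hx
  · obtain ⟨a, b, hab⟩ := hco x
    have p1 : char χ₁ hχ₁ x = 0 := hx true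
    have p2 : char χ₂ hχ₂ x = 0 := hx false
    have r1 := f2 _ hab
    have r2 := f4 _ hab
    rw [map_sub, map_add, map_smul, map_smul, char_one, f1, p1, smul_eq_mul, smul_eq_mul] at r1
    rw [map_sub, map_add, map_smul, map_smul, char_one, f3, p2, smul_eq_mul, smul_eq_mul] at r2
    have hb : b = 0 := by
      have : b * (l₁ - l₂) = 0 := by linear_combination r2 - r1
      rcases mul_eq_zero.1 this with h | h
      · exact h
      · exact absurd (sub_eq_zero.1 h) hne
    have ha : a = 0 := by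
      rw [hb] at r1
      linear_combination - r1
    rw [ha, hb, zero_smul, zero_smul, add_zero, sub_zero] at hab
    exact hab

/-- **Theorem**: closed two-sided ideals of codimension two in `ℓ¹(G)`, `G` countable, are
idempotent. -/
theorem codim_two_idem [Countable G] (I : Submodule ℂ (L1 G)) (hIc : IsClosed (I : Set (L1 G)))
    (hl : ∀ a : L1 G, ∀ y ∈ I, a * y ∈ I) (hr : ∀ a : L1 G, ∀ y ∈ I, y * a ∈ I)
    (hfin : Module.finrank ℂ (L1 G ⧸ I) = 2) :
    Submodule.span ℂ {h : L1 G | ∃ a ∈ I, ∃ b ∈ I, h = a * b} = I := by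
  obtain ⟨χ, hχ, g, hne, hI⟩ := classify I hIc hl hr hfin
  refine le_antisymm ?_ fun x hx => ?_
  · rw [Submodule.span_le]
    rintro _ ⟨a, _, b, hb, rfl⟩
    exact hl a b hb
  · have hd : χ true g - χ false g ≠ 0 := sub_ne_zero.2 hne
    let e₁ : L1 G := (χ true g - χ false g)⁻¹ • (δ g - χ false g • (1 : L1 G))
    have c1 : char (χ true) (hχ true) e₁ = 1 := by
      simp only [e₁]
      rw [map_smul, map_sub, map_smul, char_δ, char_one, smul_eq_mul, smul_eq_mul, mul_one,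
        inv_mul_cancel₀ hd]
    have c2 : char (χ false) (hχ false) e₁ = 0 := by
      simp only [e₁]
      rw [map_smul, map_sub, map_smul, char_δ, char_one, smul_eq_mul, smul_eq_mul, mul_one,
        sub_self, mul_zero]
    refine kernel_idem χ hχ (fun i => if i then e₁ else 1 - e₁) ?_ ?_ I hI x hx
    · intro i j
      cases i <;> cases j
      · simp [map_sub, c2, char_one]
      · simp [c2]
      · simp [map_sub, c1, char_one]
      · simp [c1]
    · simp

end L1

end Pool.Agent.H770R2
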