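import Pool.Agent.H770R2.MazL9

/-!
The complex `L_p(μ)` embeds real-linearly, isometrically up to a constant, into the real
`L_p(μ × circle)`.
-/

set_option autoImplicit false
set_option linter.unusedVariables false

open MeasureTheory
open scoped ENNReal

namespace Pool.H770R2.Dix

noncomputable section

/-- Haar measure on the circle. -/
abbrev nu : Measure UnitAddCircle := AddCircle.haarAddCircle

/-- the rotated real part. -/
def kk (θ : UnitAddCircle) (z : ℂ) : ℝ := ((AddCircle.toCircle θ : ℂ) * z).re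

/-- the constant. -/
def kap (q : ℝ) : ℝ≥0∞ := ∫⁻ θ : UnitAddCircle, ‖kk θ 1‖ₑ ^ q ∂nu

lemma kk_cont : Continuous fun x : UnitAddCircle × ℂ => kk x.1 x.2 := by
  unfold kk
  have : Continuous fun θ : UnitAddCircle => (AddCircle.toCircle θ : ℂ) :=
    continuous_subtype_val.comp AddCircle.continuous_toCircle
  fun_prop

lemma toCircle_surj (w : Circle) : ∃ a : UnitAddCircle, AddCircle.toCircle a = w := by
  refine ⟨(AddCircle.homeomorphCircle one_ne_zero).symm w, ?_⟩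
  rw [← AddCircle.homeomorphCircle_apply one_ne_zero, Homeomorph.apply_symm_apply]

lemma kk_rot (q : ℝ) (hq : 0 < q) (z : ℂ) :
    ∫⁻ θ : UnitAddCircle, ‖kk θ z‖ₑ ^ q ∂nu = ‖z‖ₑ ^ q * kap q := by
  obtain ⟨a, ha⟩ := toCircle_surj (Circle.exp z.arg)
  have h1 : ∀ θ : UnitAddCircle, ‖kk θ z‖ₑ ^ q = ‖z‖ₑ ^ q * ‖kk (θ + a) 1‖ₑ ^ q := by
    intro θ
    have h2 : kk θ z = ‖z‖ * kk (θ + a) 1 := by
      unfold kk
      rw [AddCircle.toCircle_add, ha, mul_one, Circle.coe_mul, Circle.coe_exp]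
      have h3 : z = (‖z‖ : ℂ) * Complex.exp (z.arg * Complex.I) := (Complex.norm_mul_exp_arg_mul_I z).symm
      have h4 : (AddCircle.toCircle θ : ℂ) * z =
          ((‖z‖ : ℝ) : ℂ) * ((AddCircle.toCircle θ : ℂ) * Complex.exp (z.arg * Complex.I)) := by
        conv_lhs => rw [h3]
        ring
      rw [h4, Complex.re_ofReal_mul]
    rw [h2, enorm_mul, ENNReal.mul_rpow_of_nonneg _ _ hq.le]
    congr 2
    simp
  simp_rw [h1]
  rw [lintegral_const_mul']
  · congr 1
    unfold kap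
    exact lintegral_add_right_eq_self (μ := nu) (fun θ => ‖kk θ 1‖ₑ ^ q) a
  · exact ENNReal.rpow_ne_top_of_nonneg hq.le (by simp)

lemma kap_ne_top (q : ℝ) (hq : 0 < q) : kap q ≠ ∞ := by
  have h1 : kap q ≤ ∫⁻ θ : UnitAddCircle, 1 ∂nu := by
    unfold kap
    apply lintegral_mono
    intro θ
    have : ‖kk θ 1‖ₑ ≤ 1 := by
      unfold kk
      rw [mul_one]
      have h2 : ‖((AddCircle.toCircle θ : ℂ)).re‖ ≤ 1 := by
        refine (Complex.abs_re_le_norm _).trans ?_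
        simp
      rw [← enorm_one (G := ℝ)]
      rw [enorm_le_iff_norm_le]
      simpa using h2
    calc ‖kk θ 1‖ₑ ^ q ≤ 1 ^ q := ENNReal.rpow_le_rpow this hq.le
      _ = 1 := ENNReal.one_rpow q
  rw [lintegral_one, measure_univ] at h1
  exact ne_top_of_le_ne_top ENNReal.one_ne_top h1

lemma kap_ne_zero (q : ℝ) (hq : 0 < q) : kap q ≠ 0 := by
  intro h0
  have hc : Continuous fun θ : UnitAddCircle => kk θ 1 :=
    kk_cont.comp (Continuous.prodMk continuous_id continuous_const)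
  have hc2 : Continuous fun θ : UnitAddCircle => ‖kk θ 1‖ₑ ^ q :=
    ENNReal.continuous_rpow_const.comp hc.enorm
  unfold kap at h0
  rw [lintegral_eq_zero_iff hc2.measurable] at h0
  have h1 : (fun θ : UnitAddCircle => kk θ 1) =ᵐ[nu] fun _ => (0 : ℝ) := by
    filter_upwards [h0] with θ hθ
    have h2 := (ENNReal.rpow_eq_zero_iff_of_pos hq).1 hθ
    simpa using h2
  have h3 := (Continuous.ae_eq_iff_eq nu hc continuous_const).1 h1
  have h4 := congrFun h3 0
  simp [kk] at h4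

variable {Ω : Type*} [MeasurableSpace Ω] {μ : Measure Ω}

/-- lift of a complex function to a real function on `Ω × circle`. -/
def lift (f : Ω → ℂ) : Ω × UnitAddCircle → ℝ := fun x => kk x.2 (f x.1)

lemma lift_aesm {f : Ω → ℂ} (hf : AEStronglyMeasurable f μ) :
    AEStronglyMeasurable (lift f) (μ.prod nu) := by
  have h1 : AEStronglyMeasurable (fun x : Ω × UnitAddCircle => f x.1) (μ.prod nu) := hf.comp_fst
  have h2 : AEStronglyMeasurable (fun x : Ω × UnitAddCircle => x.2) (μ.prod nu) :=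
    measurable_snd.aestronglyMeasurable
  exact kk_cont.comp_aestronglyMeasurable (h2.prodMk h1)

lemma lift_eLpNorm {f : Ω → ℂ} (hf : AEStronglyMeasurable f μ) {p : ℝ≥0∞} (hp0 : p ≠ 0)
    (hpt : p ≠ ∞) :
    eLpNorm (lift f) p (μ.prod nu) = kap p.toReal ^ (1 / p.toReal) * eLpNorm f p μ := by
  have hq : 0 < p.toReal := ENNReal.toReal_pos hp0 hpt
  rw [eLpNorm_eq_lintegral_rpow_enorm_toReal hp0 hpt, eLpNorm_eq_lintegral_rpow_enorm_toReal hp0 hpt,
    ← ENNReal.mul_rpow_of_nonneg _ _ (by positivity)]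
  congr 1
  rw [lintegral_prod]
  · simp only [lift]
    simp_rw [kk_rot _ hq]
    rw [lintegral_mul_const' _ _ (kap_ne_top _ hq), mul_comm]
  · exact (lift_aesm hf).enorm.pow_const _

lemma lift_memLp {f : Ω → ℂ} {p : ℝ≥0∞} (hp0 : p ≠ 0)
    (hpt : p ≠ ∞) (hf : MemLp f p μ) : MemLp (lift f) p (μ.prod nu) := by
  refine ⟨lift_aesm hf.1, ?_⟩
  rw [lift_eLpNorm hf.1 hp0 hpt]
  have hq : 0 < p.toReal := ENNReal.toReal_pos hp0 hpt
  exact ENNReal.mul_lt_top (ENNReal.rpow_lt_top_of_nonneg (by positivity) (kap_ne_top _ hq)) hf.2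

lemma lift_congr {f g : Ω → ℂ} (h : f =ᵐ[μ] g) : lift f =ᵐ[μ.prod nu] lift g := by
  have h1 : ∀ᵐ x ∂(μ.prod nu), f x.1 = g x.1 :=
    Measure.quasiMeasurePreserving_fst.ae h
  filter_upwards [h1] with x hx
  simp only [lift, hx]

/-- the real linear embedding. -/
def RR {p : ℝ≥0∞} (hp0 : p ≠ 0) (hpt : p ≠ ∞) :
    Lp ℂ p μ →ₗ[ℝ] Lp ℝ p (μ.prod nu) where
  toFun f := (lift_memLp hp0 hpt (Lp.memLp f)).toLp _
  map_add' f g := by
    rw [← MemLp.toLp_add, MemLp.toLp_eq_toLp_iff]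
    refine (lift_congr (Lp.coeFn_add f g)).trans ?_
    refine Filter.Eventually.of_forall fun x => ?_
    simp [lift, kk, mul_add]
  map_smul' a f := by
    rw [RingHom.id_apply, ← MemLp.toLp_const_smul, MemLp.toLp_eq_toLp_iff]
    refine (lift_congr (Lp.coeFn_smul a f)).trans ?_
    refine Filter.Eventually.of_forall fun x => ?_
    simp only [lift, kk, Pi.smul_apply, Complex.real_smul, smul_eq_mul]
    have : (AddCircle.toCircle x.2 : ℂ) * ((a : ℂ) * f x.1) =
      (a : ℂ) * ((AddCircle.toCircle x.2 : ℂ) * f x.1) := by ring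
    rw [this, Complex.re_ofReal_mul]

lemma RR_norm {p : ℝ≥0∞} (hp0 : p ≠ 0) (hpt : p ≠ ∞) (f : Lp ℂ p μ) :
    ‖RR hp0 hpt f‖ = (kap p.toReal ^ (1 / p.toReal)).toReal * ‖f‖ := by
  show ‖(lift_memLp hp0 hpt (Lp.memLp f)).toLp _‖ = _
  rw [Lp.norm_toLp, lift_eLpNorm (Lp.aestronglyMeasurable f) hp0 hpt, ENNReal.toReal_mul,
    Lp.norm_def]

lemma kap_pos {p : ℝ≥0∞} (hp0 : p ≠ 0) (hpt : p ≠ ∞) :
    0 < (kap p.toReal ^ (1 / p.toReal)).toReal := by
  have hq : 0 < p.toReal := ENNReal.toReal_pos hp0 hpt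
  apply ENNReal.toReal_pos
  · have := ENNReal.rpow_pos (p := 1 / p.toReal) (pos_iff_ne_zero.2 (kap_ne_zero _ hq)) (kap_ne_top _ hq)
    exact this.ne'
  · exact ENNReal.rpow_ne_top_of_nonneg (by positivity) (kap_ne_top _ hq)

end

end Pool.H770R2.Dix
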