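import Pool.Agent.H770R2.Dix1

/-!
Unitarizability from an invariant equivalent Hilbert norm; uniformly bounded representations
preserving an `L_p` norm.
-/

set_option autoImplicit false
set_option linter.unusedVariables false
set_option linter.unusedSectionVars false

open MeasureTheory
open scoped ENNReal InnerProductSpace

namespace Pool.H770R2.Dix

noncomputable section

variable {H : Type*} [NormedAddCommGroup H] [InnerProductSpace ℂ H] [CompleteSpace H]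

/-- two complex operators with the same real forms agree. -/
lemma ext_re {X Y : H →L[ℂ] H} (h : ∀ x y, (⟪X x, y⟫_ℂ).re = (⟪Y x, y⟫_ℂ).re) : X = Y := by
  ext x
  rw [← sub_eq_zero, ← inner_self_eq_zero (𝕜 := ℂ)]
  have h1 := h x (X x - Y x)
  apply Complex.ext
  · rw [inner_sub_left, Complex.sub_re, h1, sub_self, Complex.zero_re]
  · exact inner_self_im (𝕜 := ℂ) (X x - Y x)

/-- an invertible positive intertwiner gives a unitarizing operator. -/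
theorem unit_of_A {G : Type*} [Group G] (π : G →* (H →L[ℂ] H)ˣ) (A : H →L[ℂ] H)
    (hpos : A.IsPositive) {c : ℝ} (hc : 0 < c) (hlow : ∀ x, c * ‖x‖ ^ 2 ≤ (⟪A x, x⟫_ℂ).re)
    (hinv : ∀ g, star ((π g : (H →L[ℂ] H)ˣ) : H →L[ℂ] H) * A * ((π g : (H →L[ℂ] H)ˣ) : H →L[ℂ] H) = A) :
    ∃ S : (H →L[ℂ] H)ˣ, ∀ g : G,
            star (((S : (H →L[ℂ] H)ˣ) : H →L[ℂ] H) * ((π g : (H →L[ℂ] H)ˣ) : H →L[ℂ] H)
                * ((S⁻¹ : (H →L[ℂ] H)ˣ) : H →L[ℂ] H)) *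
              (((S : (H →L[ℂ] H)ˣ) : H →L[ℂ] H) * ((π g : (H →L[ℂ] H)ˣ) : H →L[ℂ] H)
                * ((S⁻¹ : (H →L[ℂ] H)ˣ) : H →L[ℂ] H)) = 1 ∧
            (((S : (H →L[ℂ] H)ˣ) : H →L[ℂ] H) * ((π g : (H →L[ℂ] H)ˣ) : H →L[ℂ] H)
                * ((S⁻¹ : (H →L[ℂ] H)ˣ) : H →L[ℂ] H)) *
              star (((S : (H →L[ℂ] H)ˣ) : H →L[ℂ] H) * ((π g : (H →L[ℂ] H)ˣ) : H →L[ℂ] H)
                * ((S⁻¹ : (H →L[ℂ] H)ˣ) : H →L[ℂ] H)) = 1 := by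
  have h0 : 0 ≤ A := (ContinuousLinearMap.nonneg_iff_isPositive A).2 hpos
  have hcle : algebraMap ℝ (H →L[ℂ] H) c ≤ A := by
    rw [ContinuousLinearMap.le_def, ContinuousLinearMap.isPositive_iff_complex]
    have hA := (ContinuousLinearMap.isPositive_iff_complex A).1 hpos
    intro x
    have h1 : ⟪(A - algebraMap ℝ (H →L[ℂ] H) c) x, x⟫_ℂ = ⟪A x, x⟫_ℂ - ((c * ‖x‖ ^ 2 : ℝ) : ℂ) := by
      rw [sub_apply, inner_sub_left]
      congr 1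
      rw [Algebra.algebraMap_eq_smul_one, smul_apply,
        one_apply_eq_self, ← Complex.coe_smul, inner_smul_left,
        inner_self_eq_norm_sq_to_K]
      simp
    rw [h1]
    constructor
    · rw [map_sub]
      have h2 := (hA x).1
      have h3 : RCLike.re ((c * ‖x‖ ^ 2 : ℝ) : ℂ) = c * ‖x‖ ^ 2 := by
        exact Complex.ofReal_re _
      rw [h3, Complex.ofReal_sub, h2]
    · rw [map_sub, sub_nonneg]
      exact hlow x
  have hu : IsUnit A := by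
    refine CStarAlgebra.isUnit_of_le (algebraMap ℝ (H →L[ℂ] H) c) hcle ?_
    exact isStrictlyPositive_algebraMap hc
  have hsu : IsUnit (CFC.sqrt A) := (CFC.isUnit_sqrt_iff A h0).2 hu
  obtain ⟨S, hS⟩ := hsu
  have hSs : star (S : H →L[ℂ] H) = (S : H →L[ℂ] H) := by
    rw [hS]
    exact (IsSelfAdjoint.of_nonneg (CFC.sqrt_nonneg A)).star_eq
  have hSS : (S : H →L[ℂ] H) * (S : H →L[ℂ] H) = A := by
    rw [hS]
    exact CFC.sqrt_mul_sqrt_self A h0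
  have hSi : star ((S⁻¹ : (H →L[ℂ] H)ˣ) : H →L[ℂ] H) = ((S⁻¹ : (H →L[ℂ] H)ˣ) : H →L[ℂ] H) := by
    have h1 : star S = S := Units.ext hSs
    rw [← Units.coe_star, star_inv, h1]
  refine ⟨S, fun g => ?_⟩
  have h1 : star (((S : (H →L[ℂ] H)ˣ) : H →L[ℂ] H) * ((π g : (H →L[ℂ] H)ˣ) : H →L[ℂ] H)
                * ((S⁻¹ : (H →L[ℂ] H)ˣ) : H →L[ℂ] H)) *
              (((S : (H →L[ℂ] H)ˣ) : H →L[ℂ] H) * ((π g : (H →L[ℂ] H)ˣ) : H →L[ℂ] H)
                * ((S⁻¹ : (H →L[ℂ] H)ˣ) : H →L[ℂ] H)) = 1 := by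
    rw [star_mul, star_mul, hSi, hSs]
    calc ((S⁻¹ : (H →L[ℂ] H)ˣ) : H →L[ℂ] H) * (star ((π g : (H →L[ℂ] H)ˣ) : H →L[ℂ] H) * (S : H →L[ℂ] H))
          * ((S : H →L[ℂ] H) * ((π g : (H →L[ℂ] H)ˣ) : H →L[ℂ] H) * ((S⁻¹ : (H →L[ℂ] H)ˣ) : H →L[ℂ] H))
        = ((S⁻¹ : (H →L[ℂ] H)ˣ) : H →L[ℂ] H) * (star ((π g : (H →L[ℂ] H)ˣ) : H →L[ℂ] H) *
          ((S : H →L[ℂ] H) * (S : H →L[ℂ] H)) * ((π g : (H →L[ℂ] H)ˣ) : H →L[ℂ] H))
          * ((S⁻¹ : (H →L[ℂ] H)ˣ) : H →L[ℂ] H) := by simp only [mul_assoc]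
      _ = ((S⁻¹ : (H →L[ℂ] H)ˣ) : H →L[ℂ] H) * ((S : H →L[ℂ] H) * (S : H →L[ℂ] H)) *
          ((S⁻¹ : (H →L[ℂ] H)ˣ) : H →L[ℂ] H) := by rw [hSS, hinv]
      _ = 1 := by
        rw [← mul_assoc, Units.inv_mul, one_mul, Units.mul_inv]
  refine ⟨h1, ?_⟩
  have h2 : ((S : (H →L[ℂ] H)ˣ) : H →L[ℂ] H) * ((π g : (H →L[ℂ] H)ˣ) : H →L[ℂ] H)
                * ((S⁻¹ : (H →L[ℂ] H)ˣ) : H →L[ℂ] H) = ((S * π g * S⁻¹ : (H →L[ℂ] H)ˣ) : H →L[ℂ] H) := by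
    simp
  rw [h2] at h1 ⊢
  have h3 : star (((S * π g * S⁻¹ : (H →L[ℂ] H)ˣ) : H →L[ℂ] H)) =
      (((S * π g * S⁻¹ : (H →L[ℂ] H)ˣ)⁻¹ : (H →L[ℂ] H)ˣ) : H →L[ℂ] H) :=
    Units.eq_inv_of_mul_eq_one_right h1
  rw [h3]
  exact Units.mul_inv _

/-- unitarizing operator from a real-linear map into a real Hilbert space. -/
theorem unit_of_Phi {G : Type*} [Group G] (π : G →* (H →L[ℂ] H)ˣ)
    {K : Type*} [NormedAddCommGroup K] [InnerProductSpace ℝ K] [CompleteSpace K]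
    (Φ : H →L[ℝ] K) {c : ℝ} (hc : 0 < c) (hlow : ∀ x, c * ‖x‖ ^ 2 ≤ ‖Φ x‖ ^ 2)
    (hI : ∀ x, ‖Φ (Complex.I • x)‖ = ‖Φ x‖)
    (hπ : ∀ g x, ‖Φ (((π g : (H →L[ℂ] H)ˣ) : H →L[ℂ] H) x)‖ = ‖Φ x‖) :
    ∃ S : (H →L[ℂ] H)ˣ, ∀ g : G,
            star (((S : (H →L[ℂ] H)ˣ) : H →L[ℂ] H) * ((π g : (H →L[ℂ] H)ˣ) : H →L[ℂ] H)
                * ((S⁻¹ : (H →L[ℂ] H)ˣ) : H →L[ℂ] H)) *
              (((S : (H →L[ℂ] H)ˣ) : H →L[ℂ] H) * ((π g : (H →L[ℂ] H)ˣ) : H →L[ℂ] H)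
                * ((S⁻¹ : (H →L[ℂ] H)ˣ) : H →L[ℂ] H)) = 1 ∧
            (((S : (H →L[ℂ] H)ˣ) : H →L[ℂ] H) * ((π g : (H →L[ℂ] H)ˣ) : H →L[ℂ] H)
                * ((S⁻¹ : (H →L[ℂ] H)ˣ) : H →L[ℂ] H)) *
              star (((S : (H →L[ℂ] H)ˣ) : H →L[ℂ] H) * ((π g : (H →L[ℂ] H)ˣ) : H →L[ℂ] H)
                * ((S⁻¹ : (H →L[ℂ] H)ˣ) : H →L[ℂ] H)) = 1 := by
  let _ : InnerProductSpace ℝ H := InnerProductSpace.rclikeToReal ℂ H
  -- the real operator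
  set AR : H →L[ℝ] H := (ContinuousLinearMap.adjoint (𝕜 := ℝ) (E := H) (F := K) Φ).comp Φ with hAR
  have hAR1 : ∀ x y, ⟪AR x, y⟫_ℝ = ⟪Φ x, Φ y⟫_ℝ := by
    intro x y
    rw [hAR, ContinuousLinearMap.comp_apply, ContinuousLinearMap.adjoint_inner_left]
  -- polarisation
  have hpol : ∀ (U : H → H), (∀ x y, U (x + y) = U x + U y) → (∀ x, ‖Φ (U x)‖ = ‖Φ x‖) →
      ∀ x y, ⟪Φ (U x), Φ (U y)⟫_ℝ = ⟪Φ x, Φ y⟫_ℝ := by
    intro U hU1 hU2 x y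
    rw [real_inner_eq_norm_add_mul_self_sub_norm_mul_self_sub_norm_mul_self_div_two,
      real_inner_eq_norm_add_mul_self_sub_norm_mul_self_sub_norm_mul_self_div_two,
      ← map_add, ← map_add, ← hU1, hU2, hU2, hU2]
  have hIB : ∀ x y, ⟪Φ (Complex.I • x), Φ (Complex.I • y)⟫_ℝ = ⟪Φ x, Φ y⟫_ℝ :=
    hpol (fun x => Complex.I • x) (fun x y => smul_add _ _ _) hI
  have hII : ∀ y : H, Complex.I • Complex.I • y = -y := by
    intro y
    rw [smul_smul, Complex.I_mul_I, neg_one_smul]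
  have hre : ∀ x y : H, ⟪x, y⟫_ℝ = (⟪x, y⟫_ℂ).re := fun x y => rfl
  have hAI : ∀ x, AR (Complex.I • x) = Complex.I • AR x := by
    intro x
    refine ext_inner_right ℝ fun y => ?_
    have h1 : ⟪AR (Complex.I • x), y⟫_ℝ = - ⟪Φ x, Φ (Complex.I • y)⟫_ℝ := by
      rw [hAR1]
      have h2 := hIB x (Complex.I • y)
      rw [hII, map_neg, inner_neg_right] at h2
      rw [← h2, neg_neg]
    have h3 : ⟪Complex.I • AR x, y⟫_ℝ = - ⟪AR x, Complex.I • y⟫_ℝ := by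
      rw [hre, hre, inner_smul_left, inner_smul_right]
      simp
    rw [h1, h3, hAR1]
  let A : H →L[ℂ] H :=
    { toFun := fun x => AR x
      map_add' := fun x y => map_add AR x y
      map_smul' := by
        intro z x
        have h1 : z • x = (z.re : ℝ) • x + (z.im : ℝ) • (Complex.I • x) := by
          conv_lhs => rw [← Complex.re_add_im z]
          rw [add_smul, mul_smul, Complex.coe_smul, Complex.coe_smul]
        have h2 : z • AR x = (z.re : ℝ) • AR x + (z.im : ℝ) • (Complex.I • AR x) := by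
          conv_lhs => rw [← Complex.re_add_im z]
          rw [add_smul, mul_smul, Complex.coe_smul, Complex.coe_smul]
        rw [RingHom.id_apply, h1, map_add, map_smul, map_smul, hAI, h2]
      cont := AR.continuous }
  have hA : ∀ x y, (⟪A x, y⟫_ℂ).re = ⟪Φ x, Φ y⟫_ℝ := fun x y => hAR1 x y
  have hAim : ∀ x y, (⟪A x, y⟫_ℂ).im = ⟪Φ x, Φ (-(Complex.I • y))⟫_ℝ := by
    intro x y
    rw [← hA, inner_neg_right, inner_smul_right]
    simp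
  refine unit_of_A π A ?_ hc (fun x => ?_) (fun g => ?_)
  · rw [ContinuousLinearMap.isPositive_iff_complex]
    intro x
    have h1 : (⟪A x, x⟫_ℂ).im = 0 := by
      rw [hAim, map_neg, inner_neg_right, neg_eq_zero]
      have h2 := hIB x (Complex.I • x)
      rw [hII, map_neg, inner_neg_right, real_inner_comm] at h2
      linarith
    refine ⟨?_, ?_⟩
    · apply Complex.ext
      · exact Complex.ofReal_re _
      · rw [h1]
        exact Complex.ofReal_im _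
    · show 0 ≤ (⟪A x, x⟫_ℂ).re
      rw [hA]
      exact real_inner_self_nonneg
  · rw [hA, real_inner_self_eq_norm_sq]
    exact hlow x
  · apply ext_re
    intro x y
    have h1 : ⟪(star ((π g : (H →L[ℂ] H)ˣ) : H →L[ℂ] H) * A * ((π g : (H →L[ℂ] H)ˣ) : H →L[ℂ] H)) x, y⟫_ℂ
        = ⟪A (((π g : (H →L[ℂ] H)ˣ) : H →L[ℂ] H) x), ((π g : (H →L[ℂ] H)ˣ) : H →L[ℂ] H) y⟫_ℂ := by
      rw [ContinuousLinearMap.star_eq_adjoint, mul_apply_eq_comp,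
        mul_apply_eq_comp, ContinuousLinearMap.adjoint_inner_left]
    rw [h1, hA, hA]
    exact hpol (fun x => ((π g : (H →L[ℂ] H)ˣ) : H →L[ℂ] H) x) (fun x y => map_add _ _ _) (hπ g) x y

end

end Pool.H770R2.Dix
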