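import Pool.Agent.H770R2.Dix2

/-!
Uniformly bounded representations preserving an `L_p` norm are unitarizable.
-/

set_option autoImplicit false
set_option linter.unusedVariables false
set_option linter.unusedSectionVars false

open MeasureTheory
open scoped ENNReal InnerProductSpace

namespace Pool.H770R2.Dix

noncomputable section

variable {H : Type*} [NormedAddCommGroup H] [InnerProductSpace ℂ H] [CompleteSpace H]
  {Ω : Type*} [MeasurableSpace Ω] {μ : Measure Ω}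

theorem unit_of_Lp {G : Type*} [Group G] (π : G →* (H →L[ℂ] H)ˣ) {p : ℝ≥0∞} [hp1 : Fact (1 ≤ p)]
    (hpt : p ≠ ∞) (J : H →ₗ[ℂ] Lp ℂ p μ) {c C : ℝ} (hc : 0 < c)
    (hJ : ∀ x, c * ‖x‖ ≤ ‖J x‖ ∧ ‖J x‖ ≤ C * ‖x‖)
    (hinv : ∀ g x, ‖J (((π g : (H →L[ℂ] H)ˣ) : H →L[ℂ] H) x)‖ = ‖J x‖) :
    ∃ S : (H →L[ℂ] H)ˣ, ∀ g : G,
            star (((S : (H →L[ℂ] H)ˣ) : H →L[ℂ] H) * ((π g : (H →L[ℂ] H)ˣ) : H →L[ℂ] H)
                * ((S⁻¹ : (H →L[ℂ] H)ˣ) : H →L[ℂ] H)) *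
              (((S : (H →L[ℂ] H)ˣ) : H →L[ℂ] H) * ((π g : (H →L[ℂ] H)ˣ) : H →L[ℂ] H)
                * ((S⁻¹ : (H →L[ℂ] H)ˣ) : H →L[ℂ] H)) = 1 ∧
            (((S : (H →L[ℂ] H)ˣ) : H →L[ℂ] H) * ((π g : (H →L[ℂ] H)ˣ) : H →L[ℂ] H)
                * ((S⁻¹ : (H →L[ℂ] H)ˣ) : H →L[ℂ] H)) *
              star (((S : (H →L[ℂ] H)ˣ) : H →L[ℂ] H) * ((π g : (H →L[ℂ] H)ˣ) : H →L[ℂ] H)
                * ((S⁻¹ : (H →L[ℂ] H)ˣ) : H →L[ℂ] H)) = 1 := by
  have hp0 : p ≠ 0 := (zero_lt_one.trans_le hp1.out).ne'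
  set κ : ℝ := (kap p.toReal ^ (1 / p.toReal)).toReal with hκ
  have hκ0 : 0 < κ := kap_pos hp0 hpt
  set JR : H →ₗ[ℝ] Lp ℂ p μ := J.restrictScalars ℝ with hJR
  have hJRa : ∀ x, JR x = J x := fun x => rfl
  have hinj : Function.Injective JR := by
    intro x y hxy
    have h1 : JR (x - y) = 0 := by rw [map_sub, hxy, sub_self]
    have h2 := (hJ (x - y)).1
    rw [← hJRa, h1, norm_zero] at h2
    have h3 : ‖x - y‖ ≤ 0 := by
      by_contra h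
      push Not at h
      have := mul_pos hc h
      linarith
    exact sub_eq_zero.1 (norm_le_zero_iff.1 h3)
  let e : H ≃ₗ[ℝ] LinearMap.range JR := LinearEquiv.ofInjective JR hinj
  have he : ∀ x, ‖e x‖ = ‖J x‖ := fun x => rfl
  let _ : InnerProductSpace ℝ H := InnerProductSpace.rclikeToReal ℂ H
  have hinvb : ∀ y : LinearMap.range JR, ‖e.symm y‖ ≤ c⁻¹ * ‖y‖ := by
    intro y
    obtain ⟨x, rfl⟩ := e.surjective y
    rw [LinearEquiv.symm_apply_apply, he]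
    have := (hJ x).1
    rw [inv_mul_eq_div, le_div_iff₀ hc]
    linarith
  let T : LinearMap.range JR ≃L[ℝ] H :=
    LinearEquiv.toContinuousLinearEquivOfBounds e.symm c⁻¹ C hinvb (fun x => by
      rw [LinearEquiv.symm_symm, he]
      exact (hJ x).2)
  let J' : LinearMap.range JR →ₗ[ℝ] Lp ℝ p (μ.prod nu) :=
    κ⁻¹ • ((RR hp0 hpt).comp (LinearMap.range JR).subtype)
  have hJ' : ∀ u, ‖J' u‖ = ‖u‖ := by
    intro u
    show ‖κ⁻¹ • (RR hp0 hpt (u : Lp ℂ p μ))‖ = ‖u‖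
    rw [norm_smul, RR_norm, ← hκ, Real.norm_eq_abs, abs_of_pos (inv_pos.2 hκ0), ← mul_assoc,
      inv_mul_cancel₀ hκ0.ne', one_mul]
    rfl
  obtain ⟨Φ, c', C', hc', hC', hbd, hinvΦ⟩ := Pool.H770R2.MazL.exists_Phi hp0 hpt J' hJ' T
  -- invariance under real linear bijections preserving the norm `‖J x‖`
  have hU : ∀ U : H →ₗ[ℝ] H, (∀ x, ‖J (U x)‖ = ‖J x‖) → ∀ x, ‖Φ (e (U x))‖ = ‖Φ (e x)‖ := by
    intro U hU x
    let gU : LinearMap.range JR →ₗᵢ[ℝ] LinearMap.range JR :=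
      { toLinearMap := e.toLinearMap.comp (U.comp e.symm.toLinearMap)
        norm_map' := by
          intro y
          obtain ⟨z, rfl⟩ := e.surjective y
          show ‖e (U (e.symm (e z)))‖ = ‖e z‖
          rw [LinearEquiv.symm_apply_apply, he, he, hU] }
    have h1 : gU (e x) = e (U x) := by
      show e (U (e.symm (e x))) = e (U x)
      rw [LinearEquiv.symm_apply_apply]
    rw [← h1, hinvΦ]
  let Φ0 : H →ₗ[ℝ] Lp ℝ 2 (μ.prod nu) := Φ.comp e.toLinearMap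
  have hC0 : ∀ x, ‖J x‖ ≤ |C| * ‖x‖ := fun x =>
    (hJ x).2.trans (mul_le_mul_of_nonneg_right (le_abs_self C) (norm_nonneg _))
  have hΦb : ∀ x, ‖Φ0 x‖ ≤ (Real.sqrt C' * |C|) * ‖x‖ := by
    intro x
    have h1 := (hbd (e x)).2
    rw [he] at h1
    have h2 : ‖Φ0 x‖ ^ 2 ≤ ((Real.sqrt C' * |C|) * ‖x‖) ^ 2 := by
      calc ‖Φ0 x‖ ^ 2 ≤ C' * ‖J x‖ ^ 2 := h1
        _ ≤ C' * (|C| * ‖x‖) ^ 2 := by
            apply mul_le_mul_of_nonneg_left _ hC'.le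
            exact pow_le_pow_left₀ (norm_nonneg _) (hC0 x) 2
        _ = ((Real.sqrt C' * |C|) * ‖x‖) ^ 2 := by
            rw [mul_pow, mul_pow, mul_pow, Real.sq_sqrt hC'.le]
            ring
    exact le_of_sq_le_sq h2 (by positivity)
  refine unit_of_Phi π (Φ0.mkContinuous _ hΦb) (c := c' * c ^ 2) (by positivity) ?_ ?_ ?_
  · intro x
    rw [LinearMap.mkContinuous_apply]
    have h1 := (hbd (e x)).1
    rw [he] at h1
    have h2 : (c * ‖x‖) ^ 2 ≤ ‖J x‖ ^ 2 := pow_le_pow_left₀ (by positivity) (hJ x).1 2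
    calc c' * c ^ 2 * ‖x‖ ^ 2 = c' * (c * ‖x‖) ^ 2 := by ring
      _ ≤ c' * ‖J x‖ ^ 2 := mul_le_mul_of_nonneg_left h2 hc'.le
      _ ≤ _ := h1
  · intro x
    rw [LinearMap.mkContinuous_apply, LinearMap.mkContinuous_apply]
    refine hU ((LinearMap.lsmul ℂ H Complex.I).restrictScalars ℝ) (fun x => ?_) x
    show ‖J (Complex.I • x)‖ = ‖J x‖
    rw [map_smul, norm_smul]
    simp
  · intro g x
    rw [LinearMap.mkContinuous_apply, LinearMap.mkContinuous_apply]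
    exact hU ((((π g : (H →L[ℂ] H)ˣ) : H →L[ℂ] H).toLinearMap).restrictScalars ℝ) (fun x => hinv g x) x

end

end Pool.H770R2.Dix
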