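import Mathlib

/-!
# Transitive norms and gauge-adjoint pairs (Banach-Mazur rotation problem)

`Ph` is a gauge function, `f u = Ph (norm u)`; two operators `T, S` are adjoint for the gauge if
`f (T u + h) - f (T u) - f h = f (u + S h) - f u - f (S h)`.
-/

set_option autoImplicit false
set_option linter.unusedSectionVars false

namespace Pool.H770R2.Maz

open Filter Topology

variable {E : Type*} [NormedAddCommGroup E] [NormedSpace ℝ E]

/-- a gauge: continuous, strictly increasing on `[0, ∞)`, vanishing at `0` -/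
def Gauge (Ph : ℝ → ℝ) : Prop :=
  Continuous Ph ∧ StrictMonoOn Ph (Set.Ici 0) ∧ Ph 0 = 0

/-- the polarised gauge function -/
def B (Ph : ℝ → ℝ) (u h : E) : ℝ := Ph ‖u + h‖ - Ph ‖u‖ - Ph ‖h‖

/-- adjoint pairs for the gauge -/
def Adj (Ph : ℝ → ℝ) (T S : E →L[ℝ] E) : Prop := ∀ u h : E, B Ph (T u) h = B Ph u (S h)

theorem B_symm (Ph : ℝ → ℝ) (u h : E) : B Ph u h = B Ph h u := by
  unfold B; rw [add_comm u h]; ring

theorem Adj.symm {Ph : ℝ → ℝ} {T S : E →L[ℝ] E} (H : Adj Ph T S) : Adj Ph S T := by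
  intro u h
  rw [B_symm, ← H h u, B_symm]

section gauge

variable {Ph : ℝ → ℝ} (hG : Gauge Ph)
include hG

theorem ph_nonneg (u : E) : 0 ≤ Ph ‖u‖ := by
  rw [← hG.2.2]
  exact hG.2.1.monotoneOn (Set.mem_Ici.2 le_rfl) (Set.mem_Ici.2 (norm_nonneg u)) (norm_nonneg u)

theorem ph_le_iff (u v : E) : Ph ‖u‖ ≤ Ph ‖v‖ ↔ ‖u‖ ≤ ‖v‖ :=
  hG.2.1.le_iff_le (Set.mem_Ici.2 (norm_nonneg u)) (Set.mem_Ici.2 (norm_nonneg v))

theorem ph_eq_iff (u v : E) : Ph ‖u‖ = Ph ‖v‖ ↔ ‖u‖ = ‖v‖ := by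
  constructor
  · intro h
    exact le_antisymm ((ph_le_iff hG u v).1 h.le) ((ph_le_iff hG v u).1 h.ge)
  · intro h; rw [h]

theorem ph_eq_zero (u : E) : Ph ‖u‖ = 0 ↔ u = 0 := by
  have := ph_eq_iff hG u (0 : E)
  rw [norm_zero, hG.2.2] at this
  rw [this, norm_eq_zero]

theorem B_zero (u : E) : B Ph u 0 = 0 := by
  unfold B; rw [add_zero, norm_zero, hG.2.2]; ring

theorem B_zero' (u : E) : B Ph 0 u = 0 := by
  rw [B_symm]; exact B_zero hG u

theorem B_neg_self (v : E) : B Ph v (-v) = -2 * Ph ‖v‖ := by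
  unfold B
  rw [add_neg_cancel, norm_zero, hG.2.2, norm_neg]; ring

omit hG in
theorem B_neg_left (u h : E) : B Ph (-u) h = B Ph u (-h) := by
  unfold B
  rw [norm_neg, norm_neg]
  have : ‖-u + h‖ = ‖u + -h‖ := by
    rw [← norm_neg]; congr 1; abel
  rw [this]

/-- the form `B` separates points -/
theorem B_nondeg {y z : E} (H : ∀ u : E, B Ph u y = B Ph u z) : y = z := by
  have h1 := H (-y)
  have h2 := H (-z)
  have h3 : B Ph (-y) y = -2 * Ph ‖y‖ := by rw [B_neg_left, B_neg_self hG]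
  have h4 : B Ph (-z) z = -2 * Ph ‖z‖ := by rw [B_neg_left, B_neg_self hG]
  rw [h3] at h1
  rw [h4] at h2
  unfold B at h1 h2
  rw [norm_neg] at h1 h2
  have h5 : ‖-y + z‖ = ‖z - y‖ := by congr 1; abel
  have h6 : ‖-z + y‖ = ‖z - y‖ := by rw [← norm_neg]; congr 1; abel
  rw [h5] at h1
  rw [h6] at h2
  have h7 : Ph ‖z - y‖ = 0 := by linarith
  rw [ph_eq_zero hG] at h7
  exact (sub_eq_zero.1 h7).symm

end gauge

/-! ## Powers of `W = S T` -/

section pow

variable {Ph : ℝ → ℝ} (hG : Gauge Ph) {T S : E →L[ℝ] E} (hA : Adj Ph T S)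
  (hT : ∀ u, ‖T u‖ ≤ ‖u‖) (hS : ∀ u, ‖S u‖ ≤ ‖u‖)

include hA in
theorem adjW : Adj Ph (S * T) (S * T) := by
  intro u h
  change B Ph (S (T u)) h = B Ph u (S (T h))
  rw [hA.symm (T u) h, hA u (T h)]

theorem selfpow {W : E →L[ℝ] E} (hW : Adj Ph W W) (n : ℕ) : Adj Ph (W ^ n) (W ^ n) := by
  induction n with
  | zero => intro u h; simp
  | succ n ih =>
    intro u h
    have h1 : (W ^ (n + 1)) u = W ((W ^ n) u) := by rw [pow_succ']; rfl
    have h2 : (W ^ (n + 1)) h = (W ^ n) (W h) := by rw [pow_succ]; rfl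
    rw [h1, h2, hW, ih]

theorem selfpow' {W : E →L[ℝ] E} (hW : Adj Ph W W) (m k : ℕ) (u h : E) :
    B Ph ((W ^ m) u) ((W ^ k) h) = B Ph u ((W ^ (m + k)) h) := by
  rw [selfpow hW m, pow_add]; rfl

/-- the moment sequence of `u` -/
noncomputable def mom (Ph : ℝ → ℝ) (W : E →L[ℝ] E) (u : E) (n : ℕ) : ℝ :=
  -(1 / 2) * B Ph u ((W ^ n) (-u))

include hG in
theorem mom_even {W : E →L[ℝ] E} (hW : Adj Ph W W) (u : E) (l : ℕ) :
    mom Ph W u (l + l) = Ph ‖(W ^ l) u‖ := by
  unfold mom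
  rw [← selfpow' hW, map_neg, B_neg_self hG]; ring

include hG hA in
theorem mom_odd (u : E) (l : ℕ) :
    mom Ph (S * T) u (l + (l + 1)) = Ph ‖T (((S * T) ^ l) u)‖ := by
  unfold mom
  rw [← selfpow' (adjW hA)]
  have h1 : ((S * T) ^ (l + 1)) (-u) = S (T (-(((S * T) ^ l) u))) := by
    rw [pow_succ', ← map_neg]; rfl
  rw [h1, ← hA, map_neg, B_neg_self hG]; ring

include hG in
theorem ph_sub {W : E →L[ℝ] E} (hW : Adj Ph W W) (u : E) (m k : ℕ) :
    Ph ‖(W ^ m) u - (W ^ k) u‖ =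
      mom Ph W u (m + m) + mom Ph W u (k + k) - 2 * mom Ph W u (m + k) := by
  have h1 := selfpow' hW m k u (-u)
  rw [mom_even hG hW, mom_even hG hW]
  unfold mom
  rw [← h1, map_neg]
  unfold B
  rw [norm_neg, ← sub_eq_add_neg]; ring

include hG hA hT hS in
theorem mom_antitone (u : E) : Antitone (mom Ph (S * T) u) := by
  refine antitone_nat_of_succ_le fun n => ?_
  rcases Nat.even_or_odd' n with ⟨l, rfl | rfl⟩
  · have e1 : 2 * l + 1 = l + (l + 1) := by ring
    have e2 : 2 * l = l + l := by ring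
    rw [e1, e2, mom_odd hG hA, mom_even hG (adjW hA), ph_le_iff hG]
    exact hT _
  · have e1 : 2 * l + 1 = l + (l + 1) := by ring
    have e2 : l + (l + 1) + 1 = (l + 1) + (l + 1) := by ring
    rw [e1, e2, mom_odd hG hA, mom_even hG (adjW hA), ph_le_iff hG]
    have h1 : ((S * T) ^ (l + 1)) u = S (T (((S * T) ^ l) u)) := by
      rw [pow_succ']; rfl
    rw [h1]
    exact hS _

include hG hA in
theorem mom_nonneg (u : E) (n : ℕ) : 0 ≤ mom Ph (S * T) u n := by
  rcases Nat.even_or_odd' n with ⟨l, rfl | rfl⟩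
  · have e2 : 2 * l = l + l := by ring
    rw [e2, mom_even hG (adjW hA)]
    exact ph_nonneg hG _
  · have e1 : 2 * l + 1 = l + (l + 1) := by ring
    rw [e1, mom_odd hG hA]
    exact ph_nonneg hG _

include hG in
theorem norm_lt_of_ph {δ : ℝ} (hδ : 0 < δ) {v : E} (h : Ph ‖v‖ < Ph δ) : ‖v‖ < δ := by
  by_contra hc
  push Not at hc
  have := hG.2.1.monotoneOn (Set.mem_Ici.2 hδ.le) (Set.mem_Ici.2 (norm_nonneg v)) hc
  linarith

include hG in
theorem ph_pos {δ : ℝ} (hδ : 0 < δ) : 0 < Ph δ := by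
  rw [← hG.2.2]
  exact hG.2.1 (Set.mem_Ici.2 le_rfl) (Set.mem_Ici.2 hδ.le) hδ

include hG hA hT hS in
theorem cauchyW (u : E) : CauchySeq fun n => ((S * T) ^ n) u := by
  have hanti := mom_antitone hG hA hT hS u
  have hbdd : BddBelow (Set.range (mom Ph (S * T) u)) :=
    ⟨0, by rintro _ ⟨n, rfl⟩; exact mom_nonneg hG hA u n⟩
  have hlim := tendsto_atTop_ciInf hanti hbdd
  set L := ⨅ n, mom Ph (S * T) u n with hL
  have hLle : ∀ n, L ≤ mom Ph (S * T) u n := fun n => ciInf_le hbdd n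
  rw [Metric.cauchySeq_iff]
  intro ε hε
  have hpos := ph_pos hG hε
  have hev : ∀ᶠ n in atTop, mom Ph (S * T) u n < L + Ph ε / 2 := by
    apply hlim.eventually_lt_const; linarith
  obtain ⟨N, hN⟩ := eventually_atTop.1 hev
  refine ⟨N, fun m hm k hk => ?_⟩
  rw [dist_eq_norm]
  apply norm_lt_of_ph hG hε
  rw [ph_sub hG (adjW hA)]
  have h1 := hN (m + m) (by omega)
  have h2 := hN (k + k) (by omega)
  have h3 := hLle (m + k)
  linarith

end pow


/-! ## The limit projection and the dichotomy -/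

/-- projections compatible with the gauge -/
def Pr (Ph : ℝ → ℝ) (P : E →L[ℝ] E) : Prop :=
  (∀ u, P (P u) = P u) ∧ ∀ u, Ph ‖u‖ = Ph ‖P u‖ + Ph ‖u - P u‖

section lim

variable {Ph : ℝ → ℝ} (hG : Gauge Ph)

include hG in
theorem continuous_B_left (h : E) : Continuous fun u : E => B Ph u h := by
  unfold B
  have := hG.1
  fun_prop

include hG in
theorem continuous_B_right (u : E) : Continuous fun h : E => B Ph u h := by
  unfold B
  have := hG.1
  fun_prop

include hG in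
/-- a self-adjoint idempotent is a gauge projection -/
theorem pr_of_adj {P : E →L[ℝ] E} (hP : Adj Ph P P) (hid : ∀ u, P (P u) = P u) : Pr Ph P := by
  refine ⟨hid, fun u => ?_⟩
  have h1 := hP u (u - P u)
  rw [map_sub, hid, sub_self, B_zero hG] at h1
  unfold B at h1
  rw [add_sub_cancel] at h1
  linarith

include hG in
/-- the strong limit of the powers of `W` -/
theorem exists_limit [CompleteSpace E] {W : E →L[ℝ] E} (hW : Adj Ph W W)
    (hC : ∀ u, CauchySeq fun n => (W ^ n) u) :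
    ∃ P : E →L[ℝ] E, (∀ u, Tendsto (fun n => (W ^ n) u) atTop (𝓝 (P u))) ∧
      (∀ u, P (W u) = P u) ∧ (∀ u, W (P u) = P u) ∧ Adj Ph P P ∧ Pr Ph P := by
  choose f hf using fun u => cauchySeq_tendsto_of_complete (hC u)
  have hf' : Tendsto (fun n x => (W ^ n) x) atTop (𝓝 f) := by
    rw [tendsto_pi_nhds]; exact hf
  let P : E →L[ℝ] E := continuousLinearMapOfTendsto (fun n => W ^ n) hf'
  have hP : ∀ u, Tendsto (fun n => (W ^ n) u) atTop (𝓝 (P u)) := hf
  have h1 : ∀ u, P (W u) = P u := by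
    intro u
    have e1 : (fun n => (W ^ n) (W u)) = fun n => (W ^ (n + 1)) u := by
      funext n; rw [pow_succ]; rfl
    have e2 := hP (W u)
    rw [e1] at e2
    exact tendsto_nhds_unique e2 ((tendsto_add_atTop_iff_nat 1).2 (hP u))
  have h2 : ∀ u, W (P u) = P u := by
    intro u
    have e1 : (fun n => W ((W ^ n) u)) = fun n => (W ^ (n + 1)) u := by
      funext n; rw [pow_succ']; rfl
    have e2 : Tendsto (fun n => W ((W ^ n) u)) atTop (𝓝 (W (P u))) :=
      (W.continuous.tendsto _).comp (hP u)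
    rw [e1] at e2
    exact tendsto_nhds_unique e2 ((tendsto_add_atTop_iff_nat 1).2 (hP u))
  have h3 : ∀ u, P (P u) = P u := by
    intro u
    have e1 : ∀ n, (W ^ n) (P u) = P u := by
      intro n
      induction n with
      | zero => simp
      | succ n ih =>
        have : (W ^ (n + 1)) (P u) = (W ^ n) (W (P u)) := by rw [pow_succ]; rfl
        rw [this, h2, ih]
    have e2 := hP (P u)
    simp only [e1] at e2
    exact tendsto_nhds_unique e2 tendsto_const_nhds
  have h4 : Adj Ph P P := by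
    intro u h
    have e1 : Tendsto (fun n => B Ph ((W ^ n) u) h) atTop (𝓝 (B Ph (P u) h)) :=
      ((continuous_B_left hG h).tendsto _).comp (hP u)
    have e2 : Tendsto (fun n => B Ph u ((W ^ n) h)) atTop (𝓝 (B Ph u (P h))) :=
      ((continuous_B_right hG u).tendsto _).comp (hP h)
    have e3 : (fun n => B Ph ((W ^ n) u) h) = fun n => B Ph u ((W ^ n) h) := by
      funext n; exact selfpow hW n u h
    rw [e3] at e1
    exact tendsto_nhds_unique e1 e2
  exact ⟨P, hP, h1, h2, h4, pr_of_adj hG h4 h3⟩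

/-- second difference -/
def C (Ph : ℝ → ℝ) (a h k : E) : ℝ := Ph ‖a + h + k‖ - Ph ‖a + h‖ - Ph ‖h + k‖ + Ph ‖h‖

theorem C_eq (Ph : ℝ → ℝ) (a h k : E) : C Ph a h k = B Ph a (h + k) - B Ph a h := by
  unfold C B
  rw [add_assoc]; ring

theorem C_symm (Ph : ℝ → ℝ) (a h k : E) : C Ph a h k = C Ph k h a := by
  unfold C
  have h1 : a + h + k = k + h + a := by abel
  rw [h1, add_comm a h, add_comm h k]; ring

theorem C_shift {W : E →L[ℝ] E} (hW : Adj Ph W W) (u h k : E) :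
    C Ph (W u) h k = C Ph (W u) (W (W h)) k := by
  have key : ∀ u h k : E, C Ph (W u) h k = C Ph u (W h) (W k) := by
    intro u h k
    rw [C_eq, C_eq, hW, hW, map_add]
  rw [key, C_symm, key, C_symm]

theorem C_shift_pow {W : E →L[ℝ] E} (hW : Adj Ph W W) (u h k : E) (n : ℕ) :
    C Ph (W u) h k = C Ph (W u) ((W ^ (2 * n)) h) k := by
  induction n with
  | zero => simp
  | succ n ih =>
    rw [ih, C_shift hW]
    have : (W ^ (2 * (n + 1))) h = W (W ((W ^ (2 * n)) h)) := by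
      have e : 2 * (n + 1) = 2 * n + 1 + 1 := by ring
      rw [e, pow_succ', pow_succ']; rfl
    rw [this]

include hG in
theorem C_lim {W P : E →L[ℝ] E} (hW : Adj Ph W W)
    (hP : ∀ u, Tendsto (fun n => (W ^ n) u) atTop (𝓝 (P u))) (u h k : E) :
    C Ph (W u) h k = C Ph (W u) (P h) k := by
  have hc : Continuous fun h : E => C Ph (W u) h k := by
    unfold C
    have := hG.1
    fun_prop
  have h1 : Tendsto (fun n : ℕ => C Ph (W u) ((W ^ (2 * n)) h) k) atTop
      (𝓝 (C Ph (W u) (P h) k)) := by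
    refine (hc.tendsto _).comp ((hP h).comp ?_)
    exact tendsto_id.const_mul_atTop' (by norm_num)
  have h2 : (fun n : ℕ => C Ph (W u) ((W ^ (2 * n)) h) k) = fun _ => C Ph (W u) h k := by
    funext n; exact (C_shift_pow hW u h k n).symm
  rw [h2] at h1
  exact tendsto_nhds_unique tendsto_const_nhds h1

/-- parallelogram vectors for the gauge -/
def Parv (Ph : ℝ → ℝ) (a : E) : Prop :=
  ∀ k : E, Ph ‖a + k‖ + Ph ‖a - k‖ = 2 * Ph ‖a‖ + 2 * Ph ‖k‖

include hG in
theorem parv_of {W P : E →L[ℝ] E} (hW : Adj Ph W W)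
    (hP : ∀ u, Tendsto (fun n => (W ^ n) u) atTop (𝓝 (P u)))
    (hPW : ∀ u, P (W u) = P u) (hPP : Adj Ph P P) (hid : ∀ u, P (P u) = P u)
    (u : E) (hu : P u = 0) : Parv Ph (W u) := by
  -- additivity
  have hadd : ∀ h k : E, P h = 0 → B Ph (W u) (h + k) = B Ph (W u) h + B Ph (W u) k := by
    intro h k hh
    have h1 := C_lim hG hW hP u h k
    rw [hh, C_eq, C_eq, zero_add, B_zero hG] at h1
    linarith
  have hPB : ∀ k : E, B Ph (W u) (P k) = 0 := by
    intro k
    rw [← hPP, hPW, hu, B_zero' hG]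
  intro k
  have h0 : P (k - P k) = 0 := by rw [map_sub, hid, sub_self]
  have h1 := hadd (k - P k) (P k) h0
  rw [sub_add_cancel, hPB, add_zero] at h1
  have h2 := hadd (k - P k) (-k) h0
  have e2 : k - P k + -k = P (-k) := by rw [map_neg]; abel
  rw [e2, hPB] at h2
  have h3 : B Ph (W u) k + B Ph (W u) (-k) = 0 := by rw [h1]; linarith
  unfold B at h3
  rw [norm_neg, ← sub_eq_add_neg] at h3
  linarith

include hG in
/-- **Dichotomy.** -/
theorem dichotomy [CompleteSpace E] {T S : E →L[ℝ] E} (hA : Adj Ph T S)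
    (hT : ∀ u, ‖T u‖ ≤ ‖u‖) (hS : ∀ u, ‖S u‖ ≤ ‖u‖) :
    Pr Ph (S * T) ∨ ∃ a : E, a ≠ 0 ∧ ∀ s : ℝ, Parv Ph (s • a) := by
  obtain ⟨P, hP, h1, h2, h3, h4⟩ := exists_limit hG (adjW hA) (cauchyW hG hA hT hS)
  by_cases hc : ∀ u, (S * T) u = P u
  · left
    have : S * T = P := by ext u; exact hc u
    rw [this]; exact h4
  · right
    push Not at hc
    obtain ⟨u, hu⟩ := hc
    refine ⟨(S * T) (u - P u), ?_, fun s => ?_⟩
    · rw [map_sub, h2, sub_ne_zero]; exact hu
    · rw [← map_smul]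
      refine parv_of hG (adjW hA) hP h1 h3 h4.1 _ ?_
      rw [map_smul, map_sub, h4.1, sub_self, smul_zero]

end lim

end Pool.H770R2.Maz
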