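import Pool.Agent.H770R2.Maz1

/-!
# Transitivity, commuting gauge projections, full vectors
-/

set_option autoImplicit false
set_option linter.unusedSectionVars false

namespace Pool.H770R2.Maz

open Filter Topology

variable {E : Type*} [NormedAddCommGroup E] [NormedSpace ℝ E]

/-- transitive norm -/
def Trans (E : Type*) [NormedAddCommGroup E] [NormedSpace ℝ E] : Prop :=
  ∀ x y : E, ‖x‖ = 1 → ‖y‖ = 1 → ∃ T : E ≃ₗᵢ[ℝ] E, T x = y

theorem trans_eq (htr : Trans E) {x y : E} (hxy : ‖x‖ = ‖y‖) : ∃ T : E ≃ₗᵢ[ℝ] E, T x = y := by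
  by_cases hx : x = 0
  · subst hx
    have : y = 0 := by rw [norm_zero] at hxy; exact norm_eq_zero.1 hxy.symm
    exact ⟨LinearIsometryEquiv.refl ℝ E, by simp [this]⟩
  · have hx' : ‖x‖ ≠ 0 := norm_ne_zero_iff.2 hx
    have h1 : ‖‖x‖⁻¹ • x‖ = 1 := by
      rw [norm_smul, norm_inv, norm_norm, inv_mul_cancel₀ hx']
    have h2 : ‖‖x‖⁻¹ • y‖ = 1 := by
      rw [norm_smul, norm_inv, norm_norm, ← hxy, inv_mul_cancel₀ hx']
    obtain ⟨T, hT⟩ := htr _ _ h1 h2
    refine ⟨T, ?_⟩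
    have h3 : x = ‖x‖ • (‖x‖⁻¹ • x) := by rw [smul_smul, mul_inv_cancel₀ hx', one_smul]
    rw [h3, map_smul, hT, smul_smul, mul_inv_cancel₀ hx', one_smul]

theorem parv_all {Ph : ℝ → ℝ} (htr : Trans E) {a : E} (ha : a ≠ 0)
    (H : ∀ s : ℝ, Parv Ph (s • a)) (x : E) : Parv Ph x := by
  have ha' : ‖a‖ ≠ 0 := norm_ne_zero_iff.2 ha
  have h1 : ‖(‖x‖ / ‖a‖) • a‖ = ‖x‖ := by
    rw [norm_smul, norm_div, norm_norm, norm_norm, div_mul_cancel₀ _ ha']
  obtain ⟨T, hT⟩ := trans_eq htr h1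
  intro k
  have h2 := H (‖x‖ / ‖a‖) (T.symm k)
  have h3 : ∀ v : E, ‖T v‖ = ‖v‖ := T.norm_map
  rw [← h3, ← h3 (_ - _), map_add, map_sub, hT, T.apply_symm_apply, ← h3 (_ • a), hT,
    ← h3 (T.symm k), T.apply_symm_apply] at h2
  exact h2

section

variable {Ph : ℝ → ℝ} (hG : Gauge Ph)

include hG in
theorem quad_nat (H : ∀ x : E, Parv Ph x) (v : E) (n : ℕ) :
    Ph ‖(n : ℝ) • v‖ = (n : ℝ) ^ 2 * Ph ‖v‖ := by
  induction n using Nat.twoStepInduction with
  | zero => simp [hG.2.2]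
  | one => simp
  | more n ih1 ih2 =>
    have h1 := H (((n + 1 : ℕ) : ℝ) • v) v
    have e1 : ((n + 1 : ℕ) : ℝ) • v + v = ((n + 2 : ℕ) : ℝ) • v := by
      push_cast; module
    have e2 : ((n + 1 : ℕ) : ℝ) • v - v = (n : ℝ) • v := by
      push_cast; module
    rw [e1, e2, ih1, ih2] at h1
    push_cast at h1 ⊢
    linarith

include hG in
theorem quad_gauge [Nontrivial E] (H : ∀ x : E, Parv Ph x) (t : ℝ) :
    Ph |t| = t ^ 2 * Ph 1 := by
  obtain ⟨e, he⟩ := exists_norm_eq E (zero_le_one (α := ℝ))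
  have key : ∀ (n : ℕ) (r : ℝ), 0 ≤ r → Ph (n * r) = (n : ℝ) ^ 2 * Ph r := by
    intro n r hr
    have h1 := quad_nat hG H (r • e) n
    rw [norm_smul, norm_smul, he, mul_one, Real.norm_of_nonneg hr,
      Real.norm_of_nonneg (Nat.cast_nonneg n)] at h1
    exact h1
  have hrat : ∀ q : ℚ, Ph |(q : ℝ)| = (q : ℝ) ^ 2 * Ph 1 := by
    intro q
    have hd : (0 : ℝ) < q.den := by exact_mod_cast q.pos
    have h1 := key q.den (1 / q.den) (by positivity)
    have h2 := key q.num.natAbs (1 / q.den) (by positivity)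
    rw [mul_one_div_cancel hd.ne'] at h1
    have h3 : |(q : ℝ)| = q.num.natAbs * (1 / q.den) := by
      have : (q : ℝ) = (q.num : ℝ) / q.den := by exact_mod_cast (Rat.num_div_den q).symm
      rw [this, abs_div, abs_of_pos hd]
      have h4 : ((q.num.natAbs : ℕ) : ℝ) = |(q.num : ℝ)| := by
        rw [Nat.cast_natAbs]; push_cast; rfl
      rw [h4]; ring
    rw [← sq_abs, h3, h2, h1]
    field_simp
  have hc1 : Continuous fun t : ℝ => Ph |t| := hG.1.comp continuous_abs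
  have hc2 : Continuous fun t : ℝ => t ^ 2 * Ph 1 := by fun_prop
  have := Rat.denseRange_cast (𝕜 := ℝ) |>.equalizer hc1 hc2 (by funext q; exact hrat q)
  exact congrFun this t

include hG in
theorem parallelogram_of (H : ∀ x : E, Parv Ph x) (x y : E) :
    ‖x + y‖ * ‖x + y‖ + ‖x - y‖ * ‖x - y‖ = 2 * (‖x‖ * ‖x‖ + ‖y‖ * ‖y‖) := by
  rcases subsingleton_or_nontrivial E with hs | hn
  · have hx : x = 0 := Subsingleton.elim _ _
    have hy : y = 0 := Subsingleton.elim _ _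
    simp [hx, hy]
  · have h1 := H x y
    have hp : 0 < Ph 1 := ph_pos hG one_pos
    have key : ∀ v : E, Ph ‖v‖ = ‖v‖ ^ 2 * Ph 1 := by
      intro v
      have := quad_gauge hG H ‖v‖
      rwa [abs_norm] at this
    rw [key, key, key, key] at h1
    have h2 : (‖x + y‖ ^ 2 + ‖x - y‖ ^ 2 - 2 * (‖x‖ ^ 2 + ‖y‖ ^ 2)) * Ph 1 = 0 := by linarith
    rcases mul_eq_zero.1 h2 with h3 | h3
    · linarith
    · exact absurd h3 hp.ne'

/-! ### gauge projections -/

include hG in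
theorem pr_le {P : E →L[ℝ] E} (hP : Pr Ph P) (u : E) : ‖P u‖ ≤ ‖u‖ := by
  rw [← ph_le_iff hG, hP.2 u]
  have := ph_nonneg hG (u - P u)
  linarith

theorem pr_adj {P : E →L[ℝ] E} (hP : Pr Ph P) : Adj Ph P P := by
  have key : ∀ u h : E, B Ph (P u) h = B Ph (P u) (P h) := by
    intro u h
    unfold B
    have h1 := hP.2 (P u + h)
    have e1 : P (P u + h) = P u + P h := by rw [map_add, hP.1]
    have e2 : P u + h - (P u + P h) = h - P h := by abel
    rw [e1, e2] at h1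
    have h2 := hP.2 h
    linarith
  intro u h
  rw [key, B_symm Ph u, key h u, B_symm]

include hG in
theorem pr_mul {P Q : E →L[ℝ] E} (hP : Pr Ph P) (hQ : Pr Ph Q)
    (hc : ∀ h, P (Q h) = Q (P h)) : Pr Ph (P * Q) := by
  apply pr_of_adj hG
  · intro u h
    change B Ph (P (Q u)) h = B Ph u (P (Q h))
    rw [pr_adj hP, pr_adj hQ, hc]
  · intro u
    change P (Q (P (Q u))) = P (Q u)
    rw [← hc, hQ.1, hP.1]

theorem pr_one (hG : Gauge Ph) : Pr Ph (1 : E →L[ℝ] E) := by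
  refine ⟨fun u => rfl, fun u => ?_⟩
  simp [hG.2.2]

theorem pr_zero (hG : Gauge Ph) : Pr Ph (0 : E →L[ℝ] E) := by
  refine ⟨fun u => rfl, fun u => ?_⟩
  simp [hG.2.2]

include hG in
theorem pr_comm [CompleteSpace E]
    (hnp : ∀ a : E, a ≠ 0 → ¬ ∀ s : ℝ, Parv Ph (s • a))
    {P Q : E →L[ℝ] E} (hP : Pr Ph P) (hQ : Pr Ph Q) (h : E) : P (Q h) = Q (P h) := by
  have hA : Adj Ph (Q * P) (P * Q) := by
    intro u h
    change B Ph (Q (P u)) h = B Ph u (P (Q h))
    rw [pr_adj hQ, pr_adj hP]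
  have hT : ∀ u, ‖(Q * P) u‖ ≤ ‖u‖ := fun u => (pr_le hG hQ _).trans (pr_le hG hP _)
  have hS : ∀ u, ‖(P * Q) u‖ ≤ ‖u‖ := fun u => (pr_le hG hP _).trans (pr_le hG hQ _)
  rcases dichotomy hG hA hT hS with hW | ⟨a, ha, hpa⟩
  · have hW' : ∀ u, ((P * Q) * (Q * P)) u = P (Q (P u)) := by
      intro u
      change P (Q (Q (P u))) = _
      rw [hQ.1]
    -- Q P u = P Q P u
    have h1 : ∀ u, Q (P u) = P (Q (P u)) := by
      intro u
      have e1 : B Ph (Q (P u)) (-(Q (P u))) = B Ph (P (Q (P u))) (-(P (Q (P u)))) := by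
        have e2 : B Ph (Q (P u)) (-(Q (P u))) = B Ph u (P (Q (-(Q (P u))))) := hA u _
        have e3 := pr_adj hW u (-(P (Q (P u))))
        rw [hW', hW'] at e3
        rw [e3, e2]
        congr 1
        simp only [map_neg]
        congr 1
        rw [hQ.1]
        have := hW.1 u
        rw [hW', hW'] at this
        rw [this]
      rw [B_neg_self hG, B_neg_self hG] at e1
      have e4 := hP.2 (Q (P u))
      have e5 : Ph ‖Q (P u) - P (Q (P u))‖ = 0 := by linarith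
      rw [ph_eq_zero hG] at e5
      exact sub_eq_zero.1 e5
    have h2 : P (Q h) = P (Q (P h)) := by
      apply B_nondeg hG
      intro u
      have e1 : B Ph u (P (Q h)) = B Ph (Q (P u)) h := (hA u h).symm
      have e2 : B Ph (P (Q (P u))) h = B Ph u (P (Q (P h))) := by
        have := pr_adj hW u h
        rwa [hW', hW'] at this
      rw [e1, ← e2, ← h1]
    rw [h2, ← h1]
  · exact absurd hpa (hnp a ha)

end

end Pool.H770R2.Maz
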