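import Pool.Agent.H770R2.Maz2

/-!
# Full vectors and the main theorem for adjoint pairs
-/

set_option autoImplicit false
set_option linter.unusedSectionVars false

namespace Pool.H770R2.Maz

open Filter Topology

variable {E : Type*} [NormedAddCommGroup E] [NormedSpace ℝ E]

section

variable {Ph : ℝ → ℝ} (hG : Gauge Ph)

/-- for nested projections the gauge of the difference is the difference of the gauges -/
theorem ph_diff {P Q : E →L[ℝ] E} (hQ : Pr Ph Q) (hPQ : ∀ h, Q (P h) = Q h) (h : E) :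
    Ph ‖P h - Q h‖ = Ph ‖P h‖ - Ph ‖Q h‖ := by
  have h1 := hQ.2 (P h)
  rw [hPQ] at h1
  linarith

include hG in
theorem exists_supp [CompleteSpace E]
    (hcomm : ∀ P Q : E →L[ℝ] E, Pr Ph P → Pr Ph Q → ∀ h, P (Q h) = Q (P h)) (u : E) :
    ∃ R : E →L[ℝ] E, Pr Ph R ∧ R u = u ∧
      ∀ Q : E →L[ℝ] E, Pr Ph Q → Q u = u → ∀ h, Q (R h) = R h := by
  let ι := {Q : E →L[ℝ] E // Pr Ph Q ∧ Q u = u}
  let pre : Preorder ι :=
    { le := fun P Q => ∀ h, P.1 (Q.1 h) = Q.1 h
      le_refl := fun P h => P.2.1.1 h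
      le_trans := fun P Q R hPQ hQR h => by
        have h1 := hQR h
        have h2 := hPQ (R.1 h)
        rw [h1] at h2
        exact h2 }
  have hle : ∀ P Q : ι, P ≤ Q ↔ ∀ h, P.1 (Q.1 h) = Q.1 h := fun P Q => Iff.rfl
  have : Nonempty ι := ⟨⟨1, pr_one hG, rfl⟩⟩
  have : IsDirectedOrder ι := by
    refine ⟨fun P Q => ?_⟩
    have hc := hcomm P.1 Q.1 P.2.1 Q.2.1
    refine ⟨⟨P.1 * Q.1, pr_mul hG P.2.1 Q.2.1 hc, ?_⟩, ?_, ?_⟩
    · change P.1 (Q.1 u) = u
      rw [Q.2.2, P.2.2]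
    · intro h
      change P.1 (P.1 (Q.1 h)) = P.1 (Q.1 h)
      rw [P.2.1.1]
    · intro h
      change Q.1 (P.1 (Q.1 h)) = P.1 (Q.1 h)
      rw [hc, Q.2.1.1]
  -- the net is Cauchy
  have hcau : ∀ h : E, Cauchy (map (fun P : ι => P.1 h) atTop) := by
    intro h
    rw [Metric.cauchy_iff]
    refine ⟨inferInstance, fun ε hε => ?_⟩
    have hbdd : BddBelow (Set.range fun P : ι => Ph ‖P.1 h‖) :=
      ⟨0, by rintro _ ⟨P, rfl⟩; exact ph_nonneg hG _⟩
    have hpos := ph_pos hG (half_pos hε)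
    obtain ⟨P₀, hP₀⟩ := exists_lt_of_ciInf_lt
      (show (⨅ P : ι, Ph ‖P.1 h‖) < (⨅ P : ι, Ph ‖P.1 h‖) + Ph (ε / 2) by linarith)
    have hclose : ∀ P : ι, P₀ ≤ P → ‖P₀.1 h - P.1 h‖ < ε / 2 := by
      intro P hP
      apply norm_lt_of_ph hG (half_pos hε)
      have hPP : ∀ h, P.1 (P₀.1 h) = P.1 h := by
        intro h
        rw [hcomm _ _ P.2.1 P₀.2.1, hP]
      rw [ph_diff P.2.1 hPP]
      have h5 : (⨅ P : ι, Ph ‖P.1 h‖) ≤ Ph ‖P.1 h‖ := ciInf_le hbdd P
      linarith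
    refine ⟨(fun P : ι => P.1 h) '' {P | P₀ ≤ P}, image_mem_map (mem_atTop P₀), ?_⟩
    rintro _ ⟨P, hP, rfl⟩ _ ⟨Q, hQ, rfl⟩
    have h1 := hclose P hP
    have h2 := hclose Q hQ
    have h3 : P.1 h - Q.1 h = (P₀.1 h - Q.1 h) - (P₀.1 h - P.1 h) := by abel
    simp only [dist_eq_norm]
    rw [h3]
    exact (norm_sub_le _ _).trans_lt (by linarith)
  have hex : ∀ h : E, ∃ y, Tendsto (fun P : ι => P.1 h) atTop (𝓝 y) :=
    fun h => cauchy_map_iff_exists_tendsto.1 (hcau h)
  choose f hf using hex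
  let L : E →ₗ[ℝ] E :=
    { toFun := f
      map_add' := fun x y => by
        have h1 := (hf x).add (hf y)
        have h2 := hf (x + y)
        simp only [map_add] at h2
        exact tendsto_nhds_unique h2 h1
      map_smul' := fun c x => by
        have h1 := (hf x).const_smul c
        have h2 := hf (c • x)
        simp only [map_smul] at h2
        exact tendsto_nhds_unique h2 h1 }
  have hLb : ∀ x, ‖L x‖ ≤ 1 * ‖x‖ := by
    intro x
    rw [one_mul]
    refine le_of_tendsto (hf x).norm (Eventually.of_forall fun P => pr_le hG P.2.1 x)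
  let R : E →L[ℝ] E := L.mkContinuous 1 hLb
  have hR : ∀ h, Tendsto (fun P : ι => P.1 h) atTop (𝓝 (R h)) := hf
  -- minimality
  have hmin : ∀ Q : E →L[ℝ] E, Pr Ph Q → Q u = u → ∀ h, Q (R h) = R h := by
    intro Q hQ hQu h
    have h1 : Tendsto (fun P : ι => Q (P.1 h)) atTop (𝓝 (Q (R h))) :=
      (Q.continuous.tendsto _).comp (hR h)
    have h2 : (fun P : ι => Q (P.1 h)) =ᶠ[atTop] fun P : ι => P.1 h := by
      filter_upwards [mem_atTop (⟨Q, hQ, hQu⟩ : ι)] with P hP
      exact hP h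
    exact tendsto_nhds_unique (h1.congr' h2) (hR h)
  refine ⟨R, ⟨?_, ?_⟩, ?_, hmin⟩
  · intro v
    have h1 := hR (R v)
    have h2 : ∀ P : ι, P.1 (R v) = R v := fun P => hmin P.1 P.2.1 P.2.2 v
    simp only [h2] at h1
    exact tendsto_nhds_unique h1 tendsto_const_nhds |>.symm ▸ rfl
  · intro v
    have h1 : Tendsto (fun P : ι => Ph ‖P.1 v‖ + Ph ‖v - P.1 v‖) atTop
        (𝓝 (Ph ‖R v‖ + Ph ‖v - R v‖)) :=
      ((hG.1.tendsto _).comp (hR v).norm).add
        ((hG.1.tendsto _).comp (tendsto_const_nhds.sub (hR v)).norm)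
    have h2 : (fun P : ι => Ph ‖P.1 v‖ + Ph ‖v - P.1 v‖) = fun _ => Ph ‖v‖ := by
      funext P; exact (P.2.1.2 v).symm
    rw [h2] at h1
    exact tendsto_nhds_unique tendsto_const_nhds h1
  · have h1 := hR u
    have h2 : ∀ P : ι, P.1 u = u := fun P => P.2.2
    simp only [h2] at h1
    exact tendsto_nhds_unique h1 tendsto_const_nhds

include hG in
theorem exists_full [CompleteSpace E] [TopologicalSpace.SeparableSpace E]
    (hcomm : ∀ P Q : E →L[ℝ] E, Pr Ph P → Pr Ph Q → ∀ h, P (Q h) = Q (P h)) :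
    ∃ w : E, ∀ P : E →L[ℝ] E, Pr Ph P → P w = w → ∀ h, P h = h := by
  choose s hs1 hs2 hs3 using exists_supp hG hcomm
  let d : ℕ → E := TopologicalSpace.denseSeq E
  have hd : DenseRange d := TopologicalSpace.denseRange_denseSeq E
  let inc : ℕ → E → E := fun n u => d n - s u (d n)
  let c : ℕ → E → ℝ := fun n u => (1 / 2) ^ n / (1 + ‖inc n u‖)
  let u : ℕ → E := fun n => Nat.rec 0 (fun k v => v + c k v • inc k v) n
  have hu : ∀ n, u (n + 1) = u n + c n (u n) • inc n (u n) := fun n => rfl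
  have hcpos : ∀ n v, 0 < c n v := fun n v => by
    have : 0 ≤ ‖inc n v‖ := norm_nonneg _
    positivity
  have hstep : ∀ n, dist (u n) (u (n + 1)) ≤ 1 * (1 / 2) ^ n := by
    intro n
    rw [hu, dist_eq_norm, sub_add_cancel_left, norm_neg, norm_smul, Real.norm_of_nonneg
      (hcpos _ _).le, one_mul]
    have h0 : 0 ≤ ‖inc n (u n)‖ := norm_nonneg _
    change (1 / 2) ^ n / (1 + ‖inc n (u n)‖) * ‖inc n (u n)‖ ≤ (1 / 2) ^ n
    rw [div_mul_eq_mul_div, div_le_iff₀ (by positivity)]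
    have : (0 : ℝ) ≤ (1 / 2) ^ n := by positivity
    nlinarith
  obtain ⟨w, hw⟩ := cauchySeq_tendsto_of_complete
    (cauchySeq_of_le_geometric (1 / 2) 1 (by norm_num) hstep)
  have hb : ∀ n, s (u n) (u (n + 1)) = u n := by
    intro n
    rw [hu, map_add, map_smul, hs2]
    have : s (u n) (inc n (u n)) = 0 := by
      change s (u n) (d n - s (u n) (d n)) = 0
      rw [map_sub, (hs1 (u n)).1, sub_self]
    rw [this, smul_zero, add_zero]
  have hcdown : ∀ n (Q : E →L[ℝ] E), Pr Ph Q → Q (u (n + 1)) = u (n + 1) → Q (u n) = u n := by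
    intro n Q hQ hQu
    rw [← hb n, hcomm _ _ hQ (hs1 _), hQu]
  have hfix : ∀ n m, n ≤ m → ∀ (Q : E →L[ℝ] E), Pr Ph Q → Q (u m) = u m → Q (u n) = u n := by
    intro n m hnm
    induction m, hnm using Nat.le_induction with
    | base => exact fun Q _ h => h
    | succ m hnm ih => exact fun Q hQ h => ih Q hQ (hcdown m Q hQ h)
  have he : ∀ n m, n ≤ m → s (u n) (u m) = u n := by
    intro n m hnm
    induction m, hnm using Nat.le_induction with
    | base => exact hs2 _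
    | succ m hnm ih =>
      -- `s (u n) = s (u n) ∘ s (u m)`
      have h1 : s (u m) (u n) = u n := hfix n m hnm _ (hs1 _) (hs2 _)
      have h2 : ∀ h, s (u n) (s (u m) h) = s (u n) h := by
        intro h
        rw [hcomm _ _ (hs1 _) (hs1 _), hs3 (u n) (s (u m)) (hs1 _) h1]
      rw [← h2, hb, ih]
  have hf : ∀ n, s (u n) w = u n := by
    intro n
    have h1 : Tendsto (fun m => s (u n) (u m)) atTop (𝓝 (s (u n) w)) :=
      ((s (u n)).continuous.tendsto _).comp hw
    have h2 : (fun m => s (u n) (u m)) =ᶠ[atTop] fun _ => u n := by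
      filter_upwards [eventually_ge_atTop n] with m hm
      exact he n m hm
    exact tendsto_nhds_unique (h1.congr' h2) tendsto_const_nhds
  refine ⟨w, fun P hP hPw => ?_⟩
  have hg : ∀ n, P (u n) = u n := by
    intro n
    rw [← hf n, hcomm _ _ hP (hs1 _), hPw]
  have hdn : ∀ n, P (d n) = d n := by
    intro n
    have h1 : P (s (u n) (d n)) = s (u n) (d n) := hs3 (u n) P hP (hg n) _
    have h2 : P (inc n (u n)) = inc n (u n) := by
      have h3 : inc n (u n) = (c n (u n))⁻¹ • (u (n + 1) - u n) := by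
        rw [hu, add_sub_cancel_left, smul_smul, inv_mul_cancel₀ (hcpos _ _).ne', one_smul]
      rw [h3, map_smul, map_sub, hg n, hg (n + 1)]
    have h3 : d n = inc n (u n) + s (u n) (d n) := by
      change d n = d n - s (u n) (d n) + s (u n) (d n)
      abel
    rw [h3, map_add, h2, h1]
  have := hd.equalizer P.continuous continuous_id (by funext n; exact hdn n)
  exact fun h => congrFun this h

include hG in
/-- in a separable transitive space without parallelogram vectors every gauge projection is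
trivial -/
theorem pr_trivial [CompleteSpace E] [TopologicalSpace.SeparableSpace E] (htr : Trans E)
    (hnp : ∀ a : E, a ≠ 0 → ¬ ∀ s : ℝ, Parv Ph (s • a)) {P : E →L[ℝ] E} (hP : Pr Ph P) :
    (∀ h, P h = h) ∨ ∀ h, P h = 0 := by
  by_contra hc
  push Not at hc
  obtain ⟨⟨h₀, hh₀⟩, h₁, hh₁⟩ := hc
  have hcomm : ∀ P Q : E →L[ℝ] E, Pr Ph P → Pr Ph Q → ∀ h, P (Q h) = Q (P h) :=
    fun P Q hP hQ h => pr_comm hG hnp hP hQ h
  obtain ⟨w, hw⟩ := exists_full hG hcomm
  have hw0 : w ≠ 0 := by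
    intro h0
    have := hw 0 (pr_zero hG) (by simp [h0]) (P h₁)
    exact hh₁ (by simpa using this.symm)
  set p := P h₁ with hp
  have hp' : ‖p‖ ≠ 0 := norm_ne_zero_iff.2 hh₁
  have h1 : ‖(‖w‖ / ‖p‖) • p‖ = ‖w‖ := by
    rw [norm_smul, norm_div, norm_norm, norm_norm, div_mul_cancel₀ _ hp']
  obtain ⟨T, hT⟩ := trans_eq htr h1
  let Q : E →L[ℝ] E := (T : E →L[ℝ] E) * P * (T.symm : E →L[ℝ] E)
  have hQ : ∀ h, Q h = T (P (T.symm h)) := fun h => rfl
  have hQP : Pr Ph Q := by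
    refine ⟨fun v => ?_, fun v => ?_⟩
    · rw [hQ, hQ, T.symm_apply_apply, hP.1]
    · have h2 := hP.2 (T.symm v)
      have h3 : v - Q v = T (T.symm v - P (T.symm v)) := by
        rw [map_sub, T.apply_symm_apply, hQ]
      rw [h3, hQ, T.norm_map, T.norm_map, ← h2, T.symm.norm_map]
  have hQw : Q w = w := by
    rw [hQ, ← hT, T.symm_apply_apply, map_smul, hp, hP.1]
  have h4 := hw Q hQP hQw (T h₀)
  rw [hQ, T.symm_apply_apply] at h4
  exact hh₀ (T.injective h4)

include hG in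
/-- **Main theorem for adjoint pairs.** -/
theorem parv_of_adj [CompleteSpace E] [TopologicalSpace.SeparableSpace E] (htr : Trans E)
    {T S : E →L[ℝ] E} (hA : Adj Ph T S)
    (hT : ∀ u, ‖T u‖ ≤ ‖u‖) (hS : ∀ u, ‖S u‖ ≤ ‖u‖)
    (hne : ∃ u, T u ≠ 0) (hni : ∃ u, ‖T u‖ ≠ ‖u‖) (x : E) : Parv Ph x := by
  by_contra hx
  have hnp : ∀ a : E, a ≠ 0 → ¬ ∀ s : ℝ, Parv Ph (s • a) :=
    fun a ha H => hx (parv_all htr ha H x)
  rcases dichotomy hG hA hT hS with hW | ⟨a, ha, hpa⟩
  · have key : ∀ u, -2 * Ph ‖T u‖ = B Ph u (-((S * T) u)) := by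
      intro u
      rw [← B_neg_self hG, ← map_neg, hA, ← map_neg]; rfl
    rcases pr_trivial hG htr hnp hW with h1 | h1
    · obtain ⟨u, hu⟩ := hni
      apply hu
      have := key u
      rw [h1, B_neg_self hG] at this
      rw [← ph_eq_iff hG]; linarith
    · obtain ⟨u, hu⟩ := hne
      apply hu
      have := key u
      rw [h1, neg_zero, B_zero hG] at this
      rw [← ph_eq_zero hG]; linarith
  · exact hnp a ha hpa

end

end Pool.H770R2.Maz
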