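import Mathlib

/-!
# Pointwise power inequalities for the extremal Gaussian square function
-/

set_option autoImplicit false
set_option linter.unusedVariables false

namespace Pool.H770R2.MazL

open Set

/-- the sign attached to the exponent `r`. -/
def Sg (r ε : ℝ) : Prop := (ε = 1 ∧ 1 < r) ∨ (ε = -1 ∧ r < 1)

lemma deriv_aux {r ε : ℝ} (hr : 0 < r) (hr2 : r < 2) (hε : Sg r ε) {x : ℝ} (hx0 : 0 ≤ x)
    (hx1 : x < 1) : |r - 1| * x ≤ ε * ((1 + x) ^ (r - 1) - (1 - x) ^ (r - 1)) := by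
  rcases hε with ⟨rfl, h⟩ | ⟨rfl, h⟩
  · rw [abs_of_pos (by linarith)]
    have h1 : (1:ℝ) ≤ (1 + x) ^ (r - 1) := Real.one_le_rpow (by linarith) (by linarith)
    have h2 := rpow_one_add_le_one_add_mul_self (s := -x) (by linarith) (p := r - 1)
      (by linarith) (by linarith)
    have h3 : (1 + -x) = 1 - x := by ring
    rw [h3] at h2
    linarith
  · rw [abs_of_neg (by linarith)]
    have h1 : (1 + x) ^ (r - 1) ≤ (1:ℝ) :=
      Real.rpow_le_one_of_one_le_of_nonpos (by linarith) (by linarith)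
    have h2 := rpow_one_add_le_one_add_mul_self (s := -x) (by linarith) (p := 1 - r)
      (by linarith) (by linarith)
    have h3 : (1 + -x) = 1 - x := by ring
    rw [h3] at h2
    have h4 : 0 < (1 - x) ^ (1 - r) := Real.rpow_pos_of_pos (by linarith) _
    have h5 : (1 - x) ^ (r - 1) = ((1 - x) ^ (1 - r))⁻¹ := by
      rw [← Real.rpow_neg (by linarith)]; congr 1; ring
    have hy : 0 ≤ (1 - r) * x := mul_nonneg (by linarith) hx0
    have h6 : 1 + (1 - r) * x ≤ (1 - x) ^ (r - 1) := by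
      rw [h5, ← one_div, le_div_iff₀ h4]
      have : (1 + (1 - r) * x) * (1 - x) ^ (1 - r) ≤ (1 + (1 - r) * x) * (1 + (1 - r) * -x) :=
        mul_le_mul_of_nonneg_left h2 (by linarith)
      refine this.trans ?_
      nlinarith
    nlinarith

lemma phi_bound {r ε : ℝ} (hr : 0 < r) (hr2 : r < 2) (hε : Sg r ε) {x : ℝ} (hx0 : 0 ≤ x)
    (hx1 : x ≤ 1) :
    r * |r - 1| / 4 * x ^ 2 ≤ ε * (((1 + x) ^ r + (1 - x) ^ r) / 2 - 1) := by
  set g : ℝ → ℝ := fun x => ε * (((1 + x) ^ r + (1 - x) ^ r) / 2 - 1) - r * |r - 1| / 4 * x ^ 2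
    with hg
  have hcont : ContinuousOn g (Icc 0 1) := by
    have h1 : Continuous fun x : ℝ => (1 + x) ^ r := by
      exact (continuous_const.add continuous_id).rpow_const (fun _ => Or.inr hr.le)
    have h2 : Continuous fun x : ℝ => (1 - x) ^ r := by
      exact (continuous_const.sub continuous_id).rpow_const (fun _ => Or.inr hr.le)
    apply Continuous.continuousOn
    rw [hg]
    fun_prop
  have hder : ∀ y ∈ Ioo (0:ℝ) 1, HasDerivAt g
      (ε * ((r * (1 + y) ^ (r - 1) - r * (1 - y) ^ (r - 1)) / 2) - r * |r - 1| / 4 * (2 * y)) y := by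
    intro y hy
    have h1 : HasDerivAt (fun x : ℝ => (1 + x) ^ r) (r * (1 + y) ^ (r - 1)) y := by
      have := ((hasDerivAt_id y).const_add 1).rpow_const (p := r)
        (Or.inl (by simp only [id]; linarith [hy.1]))
      simpa using this
    have h2 : HasDerivAt (fun x : ℝ => (1 - x) ^ r) (-(r * (1 - y) ^ (r - 1))) y := by
      have := ((hasDerivAt_id y).const_sub 1).rpow_const (p := r)
        (Or.inl (by simp only [id]; linarith [hy.2]))
      simpa using this
    have h3 : HasDerivAt (fun x : ℝ => x ^ 2) (2 * y) y := by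
      simpa using hasDerivAt_pow 2 y
    have h4 := ((((h1.add h2).div_const 2).sub_const 1).const_mul ε).sub
      (h3.const_mul (r * |r - 1| / 4))
    exact HasDerivAt.congr_deriv (f := g) h4 (by ring)
  have hmono : MonotoneOn g (Icc 0 1) := by
    apply monotoneOn_of_deriv_nonneg (convex_Icc 0 1) hcont
    · rw [interior_Icc]
      intro y hy
      exact (hder y hy).differentiableAt.differentiableWithinAt
    · rw [interior_Icc]
      intro y hy
      rw [(hder y hy).deriv]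
      have := deriv_aux hr hr2 hε hy.1.le hy.2
      nlinarith
  have := hmono (left_mem_Icc.2 zero_le_one) (show x ∈ Icc (0:ℝ) 1 from ⟨hx0, hx1⟩) hx0
  have h0 : g 0 = 0 := by simp [hg]
  rw [h0] at this
  simp only [hg] at this
  linarith

/-- uniform strict convexity of the `r`-th power mean on the symmetric segment. -/
lemma exists_phi {r ε : ℝ} (hr : 0 < r) (hε : Sg r ε) :
    ∃ c : ℝ, 0 < c ∧ ∀ x : ℝ, 0 ≤ x → x ≤ 1 →
      c * x ^ 2 ≤ ε * (((1 + x) ^ r + (1 - x) ^ r) / 2 - 1) := by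
  rcases lt_or_ge r 2 with h2 | h2
  · refine ⟨r * |r - 1| / 4, ?_, fun x hx0 hx1 => phi_bound hr h2 hε hx0 hx1⟩
    have : r - 1 ≠ 0 := by
      rcases hε with ⟨_, h⟩ | ⟨_, h⟩
      · linarith
      · linarith
    positivity
  · have hε1 : ε = 1 := by
      rcases hε with ⟨h, _⟩ | ⟨_, h⟩
      · exact h
      · linarith
    subst hε1
    refine ⟨1, one_pos, fun x hx0 hx1 => ?_⟩
    have h1 := (convexOn_rpow (p := r / 2) (by linarith)).2
      (mem_Ici.2 (sq_nonneg (1 + x))) (mem_Ici.2 (sq_nonneg (1 - x)))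
      (show (0:ℝ) ≤ 1 / 2 by norm_num) (show (0:ℝ) ≤ 1 / 2 by norm_num) (by norm_num)
    simp only [smul_eq_mul] at h1
    have e1 : ∀ y : ℝ, 0 ≤ y → (y ^ 2) ^ (r / 2) = y ^ r := by
      intro y hy
      rw [← Real.rpow_natCast, ← Real.rpow_mul hy]
      congr 1
      push_cast
      ring
    rw [e1 _ (by linarith), e1 _ (by linarith)] at h1
    have e2 : 1 / 2 * (1 + x) ^ 2 + 1 / 2 * (1 - x) ^ 2 = 1 + x ^ 2 := by ring
    rw [e2] at h1
    have h3 := one_add_mul_self_le_rpow_one_add (s := x ^ 2) (by nlinarith) (p := r / 2)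
      (by linarith)
    nlinarith [sq_nonneg x]

/-- (P1): gap in the midpoint inequality controls the Mazur distance. -/
lemma exists_gap {r ε : ℝ} (hr : 0 < r) (hε : Sg r ε) :
    ∃ C : ℝ, 0 < C ∧ ∀ a b : ℝ, 0 ≤ a → 0 ≤ b →
      (a ^ (r / 2) - b ^ (r / 2)) ^ 2 ≤ C * (ε * ((a ^ r + b ^ r) / 2 - ((a + b) / 2) ^ r)) := by
  obtain ⟨c, hc, hphi⟩ := exists_phi hr hε
  -- the normalised statement
  have key : ∀ x : ℝ, 0 ≤ x → x ≤ 1 →
      ((1 + x) ^ (r / 2) - (1 - x) ^ (r / 2)) ^ 2 ≤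
        (2 + 2 * (max 1 (r / 2)) / c) * (ε * (((1 + x) ^ r + (1 - x) ^ r) / 2 - 1)) := by
    intro x hx0 hx1
    set φ : ℝ := ((1 + x) ^ r + (1 - x) ^ r) / 2 with hφ
    have hgap := hphi x hx0 hx1
    rw [← hφ] at hgap
    have e1 : ∀ y : ℝ, 0 ≤ y → (y ^ (r / 2)) ^ 2 = y ^ r := by
      intro y hy
      rw [← Real.rpow_natCast, ← Real.rpow_mul hy]
      congr 1
      push_cast
      ring
    have e2 : (1 + x) ^ (r / 2) * (1 - x) ^ (r / 2) = (1 - x ^ 2) ^ (r / 2) := by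
      rw [← Real.mul_rpow (by linarith) (by linarith)]
      congr 1
      ring
    have e3 : ((1 + x) ^ (r / 2) - (1 - x) ^ (r / 2)) ^ 2 =
        2 * φ - 2 * (1 - x ^ 2) ^ (r / 2) := by
      have : ((1 + x) ^ (r / 2) - (1 - x) ^ (r / 2)) ^ 2 =
        ((1 + x) ^ (r / 2)) ^ 2 + ((1 - x) ^ (r / 2)) ^ 2 -
          2 * ((1 + x) ^ (r / 2) * (1 - x) ^ (r / 2)) := by ring
      rw [this, e1 _ (by linarith), e1 _ (by linarith), e2, hφ]
      ring
    have hx2 : x ^ 2 ≤ 1 := by nlinarith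
    have h4 : 1 - (max 1 (r / 2)) * x ^ 2 ≤ (1 - x ^ 2) ^ (r / 2) := by
      rcases le_total (r / 2) 1 with h | h
      · rw [max_eq_left h]
        have : (1 - x ^ 2) ^ (1:ℝ) ≤ (1 - x ^ 2) ^ (r / 2) :=
          Real.rpow_le_rpow_of_exponent_ge_of_imp (by linarith) (by nlinarith) h
            (fun _ hh => absurd hh (by linarith))
        rw [Real.rpow_one] at this
        linarith
      · rw [max_eq_right h]
        have := one_add_mul_self_le_rpow_one_add (s := -x ^ 2) (by nlinarith) (p := r / 2) h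
        have h5 : (1 + -x ^ 2) = 1 - x ^ 2 := by ring
        rw [h5] at this
        linarith
    have hM : (1:ℝ) ≤ max 1 (r / 2) := le_max_left _ _
    have hx20 : 0 ≤ x ^ 2 := sq_nonneg x
    have hgap2 : x ^ 2 ≤ (ε * (φ - 1)) / c := by
      rw [le_div_iff₀ hc]; linarith
    have hgap0 : 0 ≤ ε * (φ - 1) := le_trans (by positivity) hgap
    have h6 : φ - 1 ≤ ε * (φ - 1) := by
      rcases hε with ⟨rfl, h⟩ | ⟨rfl, h⟩
      · linarith
      · linarith
    rw [e3]
    have h7 : 2 * φ - 2 * (1 - x ^ 2) ^ (r / 2) ≤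
        2 * (ε * (φ - 1)) + 2 * max 1 (r / 2) * x ^ 2 := by linarith
    refine h7.trans ?_
    have h8 : 2 * max 1 (r / 2) * x ^ 2 ≤ 2 * max 1 (r / 2) * ((ε * (φ - 1)) / c) :=
      mul_le_mul_of_nonneg_left hgap2 (by positivity)
    calc 2 * (ε * (φ - 1)) + 2 * max 1 (r / 2) * x ^ 2
        ≤ 2 * (ε * (φ - 1)) + 2 * max 1 (r / 2) * ((ε * (φ - 1)) / c) := by linarith
      _ = _ := by ring
  refine ⟨2 + 2 * (max 1 (r / 2)) / c, by positivity, ?_⟩
  -- reduce to `b ≤ a`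
  have main : ∀ a b : ℝ, 0 ≤ b → b ≤ a →
      (a ^ (r / 2) - b ^ (r / 2)) ^ 2 ≤ (2 + 2 * (max 1 (r / 2)) / c) *
        (ε * ((a ^ r + b ^ r) / 2 - ((a + b) / 2) ^ r)) := by
    intro a b hb hab
    rcases eq_or_lt_of_le (show 0 ≤ a + b by linarith) with h0 | h0
    · have ha : a = 0 := by linarith
      have hb' : b = 0 := by linarith
      subst ha
      subst hb'
      simp [Real.zero_rpow hr.ne']
    · set s : ℝ := (a + b) / 2 with hs
      have hs0 : 0 < s := by rw [hs]; linarith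
      set x : ℝ := (a - b) / (a + b) with hx
      have hx0 : 0 ≤ x := div_nonneg (by linarith) h0.le
      have hx1 : x ≤ 1 := by rw [hx, div_le_one h0]; linarith
      have ha : a = s * (1 + x) := by rw [hs, hx]; field_simp; ring
      have hb2 : b = s * (1 - x) := by rw [hs, hx]; field_simp; ring
      have hk := key x hx0 hx1
      rw [ha, hb2, Real.mul_rpow hs0.le (by linarith), Real.mul_rpow hs0.le (by linarith),
        Real.mul_rpow hs0.le (by linarith), Real.mul_rpow hs0.le (by linarith)]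
      have e4 : (s ^ (r / 2)) ^ 2 = s ^ r := by
        rw [← Real.rpow_natCast, ← Real.rpow_mul hs0.le]
        congr 1
        push_cast
        ring
      have hsr : 0 < s ^ r := Real.rpow_pos_of_pos hs0 r
      calc (s ^ (r / 2) * (1 + x) ^ (r / 2) - s ^ (r / 2) * (1 - x) ^ (r / 2)) ^ 2
          = s ^ r * ((1 + x) ^ (r / 2) - (1 - x) ^ (r / 2)) ^ 2 := by rw [← e4]; ring
        _ ≤ s ^ r * ((2 + 2 * (max 1 (r / 2)) / c) *
            (ε * (((1 + x) ^ r + (1 - x) ^ r) / 2 - 1))) := mul_le_mul_of_nonneg_left hk hsr.le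
        _ = _ := by ring
  intro a b ha hb
  rcases le_total b a with h | h
  · exact main a b hb h
  · have := main b a ha h
    have e : (a ^ (r / 2) - b ^ (r / 2)) ^ 2 = (b ^ (r / 2) - a ^ (r / 2)) ^ 2 := by ring
    rw [e, add_comm a b, add_comm (a ^ r)]
    exact this

/-- the exponent `q = min r 1 / 2`. -/
noncomputable def qq (r : ℝ) : ℝ := min r 1 / 2

/-- the exponent `e = r / q ≥ 2`. -/
noncomputable def ee (r : ℝ) : ℝ := r / qq r

lemma qq_pos {r : ℝ} (hr : 0 < r) : 0 < qq r := by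
  have : 0 < min r 1 := lt_min hr one_pos
  unfold qq; linarith

lemma qq_le {r : ℝ} : qq r ≤ 1 := by
  have : min r 1 ≤ 1 := min_le_right _ _
  unfold qq; linarith

lemma ee_ge {r : ℝ} (hr : 0 < r) : 2 ≤ ee r := by
  unfold ee
  rw [le_div_iff₀ (qq_pos hr)]
  unfold qq
  have := min_le_left r 1
  linarith

lemma qq_mul_ee {r : ℝ} (hr : 0 < r) : qq r * ee r = r := by
  unfold ee
  field_simp [(qq_pos hr).ne']

/-- (P2) -/
lemma abs_rpow_le {r : ℝ} (hr : 0 < r) {a b : ℝ} (ha : 0 ≤ a) (hb : 0 ≤ b) :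
    |a ^ qq r - b ^ qq r| ^ ee r ≤ (a ^ (r / 2) - b ^ (r / 2)) ^ 2 := by
  rcases le_or_gt r 1 with h | h
  · have hq : qq r = r / 2 := by unfold qq; rw [min_eq_left h]
    have he : ee r = 2 := by unfold ee; rw [hq]; field_simp
    rw [he, hq]
    norm_cast
    rw [sq_abs]
  · have hq : qq r = 1 / 2 := by unfold qq; rw [min_eq_right h.le]
    have he : ee r = 2 * r := by unfold ee; rw [hq]; field_simp
    have main : ∀ a b : ℝ, 0 ≤ b → b ≤ a →
        |a ^ qq r - b ^ qq r| ^ ee r ≤ (a ^ (r / 2) - b ^ (r / 2)) ^ 2 := by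
      intro a b hb hab
      rw [he, hq]
      have ha : 0 ≤ a := hb.trans hab
      have h1 : b ^ (1 / 2 : ℝ) ≤ a ^ (1 / 2 : ℝ) := Real.rpow_le_rpow hb hab (by norm_num)
      rw [abs_of_nonneg (by linarith)]
      have h2 := Real.add_rpow_le_rpow_add (a := a ^ (1 / 2 : ℝ) - b ^ (1 / 2 : ℝ))
        (b := b ^ (1 / 2 : ℝ)) (by linarith) (Real.rpow_nonneg hb _) h.le
      have e1 : ∀ y : ℝ, 0 ≤ y → (y ^ (1 / 2 : ℝ)) ^ r = y ^ (r / 2) := by
        intro y hy
        rw [← Real.rpow_mul hy]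
        congr 1
        ring
      have e2 : a ^ (1 / 2 : ℝ) - b ^ (1 / 2 : ℝ) + b ^ (1 / 2 : ℝ) = a ^ (1 / 2 : ℝ) := by ring
      rw [e2, e1 a ha, e1 b hb] at h2
      have h3 : (a ^ (1 / 2 : ℝ) - b ^ (1 / 2 : ℝ)) ^ r ≤ a ^ (r / 2) - b ^ (r / 2) := by linarith
      have h4 : 0 ≤ (a ^ (1 / 2 : ℝ) - b ^ (1 / 2 : ℝ)) ^ r := Real.rpow_nonneg (by linarith) _
      have e3 : (a ^ (1 / 2 : ℝ) - b ^ (1 / 2 : ℝ)) ^ (2 * r) =
          ((a ^ (1 / 2 : ℝ) - b ^ (1 / 2 : ℝ)) ^ r) ^ 2 := by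
        rw [← Real.rpow_natCast, ← Real.rpow_mul (by linarith)]
        congr 1
        push_cast
        ring
      rw [e3]
      exact pow_le_pow_left₀ h4 h3 2
    rcases le_total b a with hab | hab
    · exact main a b hb hab
    · have := main b a ha hab
      rw [abs_sub_comm, show (a ^ (r / 2) - b ^ (r / 2)) ^ 2 = (b ^ (r / 2) - a ^ (r / 2)) ^ 2 by ring]
      exact this

/-- (P3) -/
lemma shift_lip {q : ℝ} (hq0 : 0 ≤ q) (hq1 : q ≤ 1) {a b c : ℝ} (ha : 0 ≤ a) (hb : 0 ≤ b)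
    (hc : 0 ≤ c) : |(a + c) ^ q - (b + c) ^ q| ≤ |a ^ q - b ^ q| := by
  have main : ∀ a b : ℝ, 0 ≤ b → b ≤ a → |(a + c) ^ q - (b + c) ^ q| ≤ |a ^ q - b ^ q| := by
    intro a b hb hab
    have ha : 0 ≤ a := hb.trans hab
    rw [abs_of_nonneg (sub_nonneg.2 (Real.rpow_le_rpow (by linarith) (by linarith) hq0)),
      abs_of_nonneg (sub_nonneg.2 (Real.rpow_le_rpow hb hab hq0))]
    rcases eq_or_lt_of_le (show 0 ≤ a - b + c by linarith) with h0 | h0
    · have : c = 0 := by linarith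
      subst this
      simp
    · set θ : ℝ := (a - b) / (a - b + c) with hθ
      have hθ0 : 0 ≤ θ := div_nonneg (by linarith) h0.le
      have hθ1 : θ ≤ 1 := by rw [hθ, div_le_one h0]; linarith
      have hcon := Real.concaveOn_rpow hq0 hq1
      have m1 : b ∈ Ici (0:ℝ) := hb
      have m2 : a + c ∈ Ici (0:ℝ) := by show 0 ≤ a + c; linarith
      have h1 := hcon.2 m1 m2 (show 0 ≤ 1 - θ by linarith) hθ0 (by ring)
      have h2 := hcon.2 m1 m2 hθ0 (show 0 ≤ 1 - θ by linarith) (by ring)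
      simp only [smul_eq_mul] at h1 h2
      have e1 : (1 - θ) * b + θ * (a + c) = a := by
        rw [hθ]; field_simp; ring
      have e2 : θ * b + (1 - θ) * (a + c) = b + c := by
        rw [hθ]; field_simp; ring
      rw [e1] at h1
      rw [e2] at h2
      nlinarith
  rcases le_total b a with h | h
  · exact main a b hb h
  · rw [abs_sub_comm, abs_sub_comm (a ^ q)]
    exact main b a ha h

end Pool.H770R2.MazL
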