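import Pool.Agent.H770R2.MazL1

/-!
# Gaussian averages and square functions
-/

set_option autoImplicit false
set_option linter.unusedVariables false

namespace Pool.H770R2.MazL

open MeasureTheory ProbabilityTheory
open scoped ENNReal NNReal

/-- standard Gaussian measure on `ℝ^n`. -/
noncomputable def gam (n : ℕ) : Measure (EuclideanSpace ℝ (Fin n)) :=
  stdGaussian (EuclideanSpace ℝ (Fin n))

instance (n : ℕ) : IsProbabilityMeasure (gam n) := by unfold gam; infer_instance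

/-- absolute Gaussian moment. -/
noncomputable def Mom (p : ℝ) : ℝ≥0∞ := ∫⁻ t, ENNReal.ofReal (|t| ^ p) ∂(gaussianReal 0 1)

lemma Mom_ne_top {p : ℝ} (hp : 0 < p) : Mom p ≠ ∞ := by
  have h := memLp_id_gaussianReal (μ := 0) (v := 1) (p.toNNReal)
  have h2 := lintegral_rpow_enorm_lt_top_of_eLpNorm_lt_top
    (by simpa using hp) (by simp) h.2
  have e : (((p.toNNReal : ℝ≥0) : ℝ≥0∞)).toReal = p := by
    simp [hp.le]
  rw [e] at h2
  refine ne_of_lt (lt_of_le_of_lt (le_of_eq ?_) h2)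
  unfold Mom
  congr 1
  funext t
  rw [← Real.enorm_abs, ENNReal.ofReal_rpow_of_nonneg (abs_nonneg t) hp.le |>.symm]
  congr 1
  simp [Real.enorm_eq_ofReal_abs]

lemma Mom_ne_zero {p : ℝ} (hp : 0 < p) : Mom p ≠ 0 := by
  intro h
  unfold Mom at h
  rw [lintegral_eq_zero_iff (by fun_prop)] at h
  have h2 : ∀ᵐ t ∂(gaussianReal 0 1), t ∈ ({0} : Set ℝ) := by
    filter_upwards [h] with t ht
    simp only [Pi.zero_apply, ENNReal.ofReal_eq_zero] at ht
    by_contra hne
    have : 0 < |t| := abs_pos.2 hne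
    exact absurd ht (not_le.2 (Real.rpow_pos_of_pos this p))
  have h3 : (gaussianReal 0 1) ({0} : Set ℝ) = 0 := by
    have := nullSingletonClass_gaussianReal (μ := 0) (v := 1) one_ne_zero
    exact measure_singleton 0
  have h4 : (gaussianReal 0 1) (Set.univ : Set ℝ) = 0 := by
    have : (gaussianReal 0 1) ({0} : Set ℝ)ᶜ = 0 := h2
    rw [← Set.union_compl_self ({0} : Set ℝ)]
    exact measure_union_null h3 this
  rw [measure_univ] at h4
  exact one_ne_zero h4

lemma map_gam {n : ℕ} (L : StrongDual ℝ (EuclideanSpace ℝ (Fin n))) :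
    (gam n).map L = (gaussianReal 0 1).map (‖L‖ * ·) := by
  unfold gam
  rw [IsGaussian.map_eq_gaussianReal L, integral_strongDual_stdGaussian, variance_dual_stdGaussian,
    gaussianReal_map_const_mul]
  congr 1
  · simp
  · ext
    simp

lemma lintegral_gauss {p : ℝ} (hp : 0 < p) {n : ℕ} (b : Fin n → ℝ) :
    ∫⁻ c, ENNReal.ofReal (|∑ i, c i * b i| ^ p) ∂(gam n) =
      Mom p * ENNReal.ofReal ((∑ i, (b i) ^ 2) ^ (p / 2)) := by
  set L : StrongDual ℝ (EuclideanSpace ℝ (Fin n)) := innerSL ℝ (WithLp.toLp 2 b) with hL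
  have hLc : ∀ c, L c = ∑ i, c i * b i := by
    intro c
    rw [hL, innerSL_apply_apply]
    simp [PiLp.inner_apply]
  have hLn : ‖L‖ = (∑ i, (b i) ^ 2) ^ (1 / 2 : ℝ) := by
    rw [hL, innerSL_apply_norm, EuclideanSpace.norm_eq, Real.sqrt_eq_rpow]
    simp
  have h1 : ∫⁻ c, ENNReal.ofReal (|∑ i, c i * b i| ^ p) ∂(gam n) =
      ∫⁻ t, ENNReal.ofReal (|t| ^ p) ∂((gam n).map L) := by
    rw [lintegral_map (by fun_prop) (by fun_prop)]
    simp only [hLc]
  rw [h1, map_gam, lintegral_map (by fun_prop) (by fun_prop)]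
  have h2 : ∀ t : ℝ, ENNReal.ofReal (|‖L‖ * t| ^ p) =
      ENNReal.ofReal (‖L‖ ^ p) * ENNReal.ofReal (|t| ^ p) := by
    intro t
    rw [abs_mul, abs_norm, Real.mul_rpow (norm_nonneg _) (abs_nonneg _), ENNReal.ofReal_mul]
    positivity
  simp only [h2]
  rw [lintegral_const_mul _ (by fun_prop), mul_comm]
  unfold Mom
  congr 2
  rw [hLn, ← Real.rpow_mul (by positivity)]
  congr 1
  ring

/-- an isometric (measurable, almost everywhere linear) representation in `L_p(μ)`. -/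
structure Rep (p : ℝ) {Ω : Type*} [MeasurableSpace Ω] (μ : Measure Ω) (E : Type*)
    [NormedAddCommGroup E] [NormedSpace ℝ E] where
  /-- the representing functions -/
  J : E → Ω → ℝ
  meas : ∀ u, Measurable (J u)
  add : ∀ u v, J (u + v) =ᵐ[μ] fun ω => J u ω + J v ω
  smul : ∀ (c : ℝ) u, J (c • u) =ᵐ[μ] fun ω => c * J u ω
  norm : ∀ u, ∫⁻ ω, ENNReal.ofReal (|J u ω| ^ p) ∂μ = ENNReal.ofReal (‖u‖ ^ p)

namespace Rep

variable {p : ℝ} {Ω : Type*} [MeasurableSpace Ω] {μ : Measure Ω} {E : Type*}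
  [NormedAddCommGroup E] [NormedSpace ℝ E] (R : Rep p μ E)

/-- the square function of a finite family. -/
def sqf {n : ℕ} (x : Fin n → E) (ω : Ω) : ℝ := ∑ i, (R.J (x i) ω) ^ 2

lemma sqf_nonneg {n : ℕ} (x : Fin n → E) (ω : Ω) : 0 ≤ R.sqf x ω :=
  Finset.sum_nonneg fun _ _ => sq_nonneg _

lemma sqf_meas {n : ℕ} (x : Fin n → E) : Measurable (R.sqf x) := by
  unfold sqf
  exact Finset.measurable_sum _ fun i _ => (R.meas (x i)).pow_const 2

lemma zero_ae : R.J 0 =ᵐ[μ] fun _ => 0 := by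
  have := R.smul 0 0
  rw [zero_smul] at this
  filter_upwards [this] with ω h
  rw [h]; ring

lemma sum_ae {n : ℕ} (c : Fin n → ℝ) (x : Fin n → E) (s : Finset (Fin n)) :
    R.J (∑ i ∈ s, c i • x i) =ᵐ[μ] fun ω => ∑ i ∈ s, c i * R.J (x i) ω := by
  induction s using Finset.induction_on with
  | empty =>
    simp only [Finset.sum_empty]
    exact R.zero_ae
  | insert a s ha ih =>
    rw [Finset.sum_insert ha]
    filter_upwards [R.add (c a • x a) (∑ i ∈ s, c i • x i), R.smul (c a) (x a), ih]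
      with ω h1 h2 h3
    rw [h1, h2, h3, Finset.sum_insert ha]

/-- the `p`-th power of the `L_p` norm of the square function. -/
noncomputable def NN {n : ℕ} (x : Fin n → E) : ℝ≥0∞ :=
  ∫⁻ ω, ENNReal.ofReal ((R.sqf x ω) ^ (p / 2)) ∂μ

lemma NN_ne_top (hp : 0 < p) {n : ℕ} (x : Fin n → E) : R.NN x ≠ ∞ := by
  have hbd : ∀ ω, (R.sqf x ω) ^ (p / 2) ≤ ∑ i, (n : ℝ) ^ (p / 2) * |R.J (x i) ω| ^ p := by
    intro ω
    rcases Nat.eq_zero_or_pos n with rfl | hn
    · simp [sqf, Real.zero_rpow (show p / 2 ≠ 0 by linarith)]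
    · obtain ⟨i, _, hi⟩ := Finset.exists_max_image (Finset.univ : Finset (Fin n))
        (fun i => (R.J (x i) ω) ^ 2) ⟨⟨0, hn⟩, Finset.mem_univ _⟩
      have h1 : R.sqf x ω ≤ n * (R.J (x i) ω) ^ 2 := by
        unfold sqf
        refine (Finset.sum_le_card_nsmul _ _ _ hi).trans ?_
        simp
      have h2 : (R.sqf x ω) ^ (p / 2) ≤ (n * (R.J (x i) ω) ^ 2) ^ (p / 2) :=
        Real.rpow_le_rpow (R.sqf_nonneg x ω) h1 (by linarith)
      have h3 : (n * (R.J (x i) ω) ^ 2) ^ (p / 2) = (n : ℝ) ^ (p / 2) * |R.J (x i) ω| ^ p := by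
        rw [Real.mul_rpow (by positivity) (by positivity), ← sq_abs (R.J (x i) ω),
          ← Real.rpow_natCast (|R.J (x i) ω|) 2, ← Real.rpow_mul (abs_nonneg _)]
        congr 2
        push_cast
        ring
      rw [h3] at h2
      refine h2.trans ?_
      exact Finset.single_le_sum (f := fun i => (n : ℝ) ^ (p / 2) * |R.J (x i) ω| ^ p)
        (fun j _ => by positivity) (Finset.mem_univ i)
  have hm : ∀ i, Measurable fun ω => (n : ℝ) ^ (p / 2) * |R.J (x i) ω| ^ p := fun i => by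
    have := R.meas (x i)
    fun_prop
  refine ne_of_lt (lt_of_le_of_lt (lintegral_mono fun ω => ENNReal.ofReal_le_ofReal (hbd ω)) ?_)
  have h0 : ∀ ω, ENNReal.ofReal (∑ i, (n : ℝ) ^ (p / 2) * |R.J (x i) ω| ^ p) =
      ∑ i, ENNReal.ofReal ((n : ℝ) ^ (p / 2) * |R.J (x i) ω| ^ p) := fun ω =>
    ENNReal.ofReal_sum_of_nonneg fun i _ => by positivity
  simp only [h0]
  rw [lintegral_finsetSum _ fun i _ => (hm i).ennreal_ofReal]
  refine ENNReal.sum_lt_top.2 fun i _ => ?_
  have h4 : ∀ ω, ENNReal.ofReal ((n : ℝ) ^ (p / 2) * |R.J (x i) ω| ^ p) =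
      ENNReal.ofReal ((n : ℝ) ^ (p / 2)) * ENNReal.ofReal (|R.J (x i) ω| ^ p) := fun ω =>
    ENNReal.ofReal_mul (by positivity)
  simp only [h4]
  have := R.meas (x i)
  rw [lintegral_const_mul _ (by fun_prop), R.norm]
  exact ENNReal.mul_lt_top ENNReal.ofReal_lt_top ENNReal.ofReal_lt_top

lemma sqf_rpow_integrable (hp : 0 < p) {n : ℕ} (x : Fin n → E) :
    Integrable (fun ω => (R.sqf x ω) ^ (p / 2)) μ := by
  have hm := R.sqf_meas x
  refine ⟨(by fun_prop : Measurable fun ω => (R.sqf x ω) ^ (p / 2)).aestronglyMeasurable, ?_⟩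
  rw [hasFiniteIntegral_iff_ofReal
    (Filter.Eventually.of_forall fun ω => Real.rpow_nonneg (R.sqf_nonneg x ω) _)]
  exact lt_top_iff_ne_top.2 (R.NN_ne_top hp x)

/-- Lemma A: Gaussian averages of the norm are square function norms. -/
lemma gauss_avg (hp : 0 < p) {n : ℕ} (x : Fin n → E) :
    ∫⁻ c : EuclideanSpace ℝ (Fin n), ENNReal.ofReal (‖∑ i, c i • x i‖ ^ p) ∂(gam n) =
      Mom p * R.NN x := by
  obtain ⟨t, ht, ht0, htσ⟩ :=
    (R.sqf_rpow_integrable hp x).aefinStronglyMeasurable.exists_set_sigmaFinite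
  have hJ0 : ∀ᵐ ω ∂μ, ω ∈ tᶜ → ∀ i, R.J (x i) ω = 0 := by
    have := (ae_restrict_iff' ht.compl).1 ht0
    filter_upwards [this] with ω h hω
    have h1 := h hω
    simp only [Pi.zero_apply] at h1
    have h2 : R.sqf x ω = 0 := (Real.rpow_eq_zero (R.sqf_nonneg x ω) (by linarith)).1 h1
    intro i
    have h3 := (Finset.sum_eq_zero_iff_of_nonneg (fun _ _ => sq_nonneg _)).1 h2 i
      (Finset.mem_univ i)
    exact pow_eq_zero_iff (two_ne_zero) |>.1 h3
  have hF : Measurable (Function.uncurry fun (c : EuclideanSpace ℝ (Fin n)) (ω : Ω) =>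
      ENNReal.ofReal (|∑ i, c i * R.J (x i) ω| ^ p)) := by
    have h1 : ∀ i, Measurable fun z : EuclideanSpace ℝ (Fin n) × Ω => z.1 i * R.J (x i) z.2 := by
      intro i
      have := R.meas (x i)
      exact Measurable.mul (by fun_prop) (this.comp measurable_snd)
    have h2 : Measurable fun z : EuclideanSpace ℝ (Fin n) × Ω => ∑ i, z.1 i * R.J (x i) z.2 :=
      Finset.measurable_sum _ fun i _ => h1 i
    exact (h2.abs.pow_const p).ennreal_ofReal
  have hinner : ∀ c : EuclideanSpace ℝ (Fin n), ENNReal.ofReal (‖∑ i, c i • x i‖ ^ p) =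
      ∫⁻ ω in t, ENNReal.ofReal (|∑ i, c i * R.J (x i) ω| ^ p) ∂μ := by
    intro c
    rw [← R.norm, ← lintegral_indicator ht]
    refine lintegral_congr_ae ?_
    filter_upwards [R.sum_ae (fun i => c i) x Finset.univ, hJ0] with ω h1 h2
    rw [h1]
    by_cases hω : ω ∈ t
    · rw [Set.indicator_of_mem hω]
    · rw [Set.indicator_of_notMem hω]
      have h3 := h2 hω
      simp [h3, Real.zero_rpow hp.ne']
  simp only [hinner]
  rw [lintegral_lintegral_swap hF.aemeasurable]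
  simp only [lintegral_gauss hp]
  have hm := R.sqf_meas x
  have hm2 : Measurable fun ω => ENNReal.ofReal ((∑ i, (R.J (x i) ω) ^ 2) ^ (p / 2)) := by
    have : (fun ω => ENNReal.ofReal ((∑ i, (R.J (x i) ω) ^ 2) ^ (p / 2))) =
        fun ω => ENNReal.ofReal ((R.sqf x ω) ^ (p / 2)) := rfl
    rw [this]
    fun_prop
  rw [lintegral_const_mul _ hm2]
  congr 1
  rw [← lintegral_indicator ht]
  unfold NN
  refine lintegral_congr_ae ?_
  filter_upwards [hJ0] with ω h2
  by_cases hω : ω ∈ t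
  · rw [Set.indicator_of_mem hω]
    rfl
  · rw [Set.indicator_of_notMem hω]
    have h3 := h2 hω
    simp [sqf, h3, Real.zero_rpow (show p / 2 ≠ 0 by linarith)]

/-- invariance of square function norms under linear isometries. -/
lemma NN_isom (hp : 0 < p) {n : ℕ} (x : Fin n → E) (g : E →ₗᵢ[ℝ] E) :
    R.NN (fun i => g (x i)) = R.NN x := by
  have h1 := R.gauss_avg hp x
  have h2 := R.gauss_avg hp (fun i => g (x i))
  have h3 : ∀ c : EuclideanSpace ℝ (Fin n), ‖∑ i, c i • g (x i)‖ = ‖∑ i, c i • x i‖ := by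
    intro c
    rw [← g.norm_map (∑ i, c i • x i), map_sum]
    simp only [map_smul]
  simp only [h3] at h2
  rw [h1] at h2
  exact ((ENNReal.mul_right_inj (Mom_ne_zero hp) (Mom_ne_top hp)).1 h2).symm

end Rep

end Pool.H770R2.MazL
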