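import Pool.Agent.H770R2.MazL2

/-!
# Gaussian type / cotype two bounds coming from an isomorphism with a Hilbert space
-/

set_option autoImplicit false
set_option linter.unusedVariables false

namespace Pool.H770R2.MazL

open MeasureTheory ProbabilityTheory
open scoped ENNReal NNReal

section hilb

variable {H : Type*} [NormedAddCommGroup H] [InnerProductSpace ℝ H]

lemma gauss_hilbert_fin {W : Type*} [NormedAddCommGroup W] [InnerProductSpace ℝ W]
    [FiniteDimensional ℝ W] {n : ℕ} (y : Fin n → W) :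
    ∫⁻ c : EuclideanSpace ℝ (Fin n), ENNReal.ofReal (‖∑ i, c i • y i‖ ^ (2:ℝ)) ∂(gam n) =
      Mom 2 * ENNReal.ofReal (∑ i, ‖y i‖ ^ 2) := by
  set b := stdOrthonormalBasis ℝ W with hb
  have h1 : ∀ c : EuclideanSpace ℝ (Fin n), ‖∑ i, c i • y i‖ ^ (2:ℝ) =
      ∑ k, |∑ i, c i * inner ℝ (y i) (b k)| ^ (2:ℝ) := by
    intro c
    have : ‖∑ i, c i • y i‖ ^ (2:ℝ) = ‖∑ i, c i • y i‖ ^ 2 := by norm_cast
    rw [this, ← b.sum_sq_inner_left]
    refine Finset.sum_congr rfl fun k _ => ?_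
    rw [sum_inner]
    simp only [real_inner_smul_left]
    norm_cast
    rw [sq_abs]
  have h2 : ∀ c : EuclideanSpace ℝ (Fin n), ENNReal.ofReal (‖∑ i, c i • y i‖ ^ (2:ℝ)) =
      ∑ k, ENNReal.ofReal (|∑ i, c i * inner ℝ (y i) (b k)| ^ (2:ℝ)) := by
    intro c
    rw [h1, ENNReal.ofReal_sum_of_nonneg]
    intro k _
    positivity
  simp only [h2]
  rw [lintegral_finsetSum]
  · simp only [lintegral_gauss (show (0:ℝ) < 2 by norm_num)]
    rw [← Finset.mul_sum, ← ENNReal.ofReal_sum_of_nonneg (fun k _ => by positivity)]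
    congr 2
    simp only [ne_eq, OfNat.ofNat_ne_zero, not_false_eq_true, div_self, Real.rpow_one]
    rw [Finset.sum_comm]
    refine Finset.sum_congr rfl fun i _ => ?_
    rw [← b.sum_sq_inner_left]
  · intro k _
    fun_prop

lemma gauss_hilbert {n : ℕ} (y : Fin n → H) :
    ∫⁻ c : EuclideanSpace ℝ (Fin n), ENNReal.ofReal (‖∑ i, c i • y i‖ ^ (2:ℝ)) ∂(gam n) =
      Mom 2 * ENNReal.ofReal (∑ i, ‖y i‖ ^ 2) := by
  set W : Submodule ℝ H := Submodule.span ℝ (Set.range y) with hW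
  have : FiniteDimensional ℝ W := FiniteDimensional.span_of_finite ℝ (Set.finite_range y)
  set z : Fin n → W := fun i => (⟨y i, Submodule.subset_span (Set.mem_range_self i)⟩ : W) with hz
  have h := gauss_hilbert_fin z
  have e1 : ∀ i, ‖z i‖ = ‖y i‖ := fun i => rfl
  have e2 : ∀ c : EuclideanSpace ℝ (Fin n), ‖∑ i, c i • z i‖ = ‖∑ i, c i • y i‖ := by
    intro c
    rw [Submodule.coe_norm]
    congr 1
    rw [Submodule.coe_sum]
    rfl
  simp only [e1, e2] at h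
  exact h

end hilb

lemma jensen_aux {α : Type*} [MeasurableSpace α] (ν : Measure α) [IsProbabilityMeasure ν]
    {f : α → ℝ} (hf : AEStronglyMeasurable f ν) (h0 : ∀ a, 0 ≤ f a) {p q : ℝ} (hp : 0 < p)
    (hpq : p ≤ q) :
    (∫⁻ a, ENNReal.ofReal (f a ^ p) ∂ν) ^ (1 / p) ≤
      (∫⁻ a, ENNReal.ofReal (f a ^ q) ∂ν) ^ (1 / q) := by
  have h := eLpNorm'_le_eLpNorm'_of_exponent_le hp hpq ν hf
  unfold eLpNorm' at h
  have e : ∀ s : ℝ, 0 < s → ∀ a, ‖f a‖ₑ ^ s = ENNReal.ofReal (f a ^ s) := by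
    intro s hs a
    rw [Real.enorm_of_nonneg (h0 a), ENNReal.ofReal_rpow_of_nonneg (h0 a) hs.le]
  simp only [e p hp, e q (hp.trans_le hpq)] at h
  exact h

namespace Rep

variable {p : ℝ} {Ω : Type*} [MeasurableSpace Ω] {μ : Measure Ω} {E : Type*}
  [NormedAddCommGroup E] [NormedSpace ℝ E] (R : Rep p μ E)
  {H : Type*} [NormedAddCommGroup H] [InnerProductSpace ℝ H]

/-- real-valued version of the square function norm. -/
noncomputable def nn {n : ℕ} (x : Fin n → E) : ℝ := (R.NN x).toReal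

/-- the normalisation `∑ ‖x i‖²`. -/
def ss {n : ℕ} (x : Fin n → E) : ℝ := ∑ i, ‖x i‖ ^ 2

omit [NormedSpace ℝ E] in
lemma ss_nonneg {n : ℕ} (x : Fin n → E) : 0 ≤ ss x :=
  Finset.sum_nonneg fun _ _ => sq_nonneg _

lemma cont_sum {n : ℕ} (x : Fin n → E) :
    Continuous fun c : EuclideanSpace ℝ (Fin n) => ∑ i, c i • x i := by
  fun_prop

lemma upper (hp : 0 < p) (hp2 : p ≤ 2) (T : E ≃L[ℝ] H) :
    ∃ K : ℝ, 0 < K ∧ ∀ (n : ℕ) (x : Fin n → E), R.nn x ≤ K * (ss x) ^ (p / 2) := by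
  obtain ⟨K1, hK1, hT1⟩ : ∃ K1 : ℝ, 0 < K1 ∧ ∀ v, ‖T v‖ ≤ K1 * ‖v‖ := by
    refine ⟨‖(T : E →L[ℝ] H)‖ + 1, by positivity, fun v => ?_⟩
    refine ((T : E →L[ℝ] H).le_opNorm v).trans ?_
    nlinarith [norm_nonneg v]
  obtain ⟨K2, hK2, hT2⟩ : ∃ K2 : ℝ, 0 < K2 ∧ ∀ v, ‖v‖ ≤ K2 * ‖T v‖ := by
    refine ⟨‖(T.symm : H →L[ℝ] E)‖ + 1, by positivity, fun v => ?_⟩
    have := (T.symm : H →L[ℝ] E).le_opNorm (T v)
    simp only [ContinuousLinearEquiv.coe_coe, ContinuousLinearEquiv.symm_apply_apply] at this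
    refine this.trans ?_
    nlinarith [norm_nonneg (T v)]
  set M1 := (Mom p).toReal with hM1
  have hM1p : 0 < M1 := ENNReal.toReal_pos (Mom_ne_zero hp) (Mom_ne_top hp)
  set M2 := (Mom 2).toReal with hM2
  have hM2p : 0 < M2 := ENNReal.toReal_pos (Mom_ne_zero (by norm_num)) (Mom_ne_top (by norm_num))
  refine ⟨M1⁻¹ * (K2 ^ p * (M2 * K1 ^ 2) ^ (p / 2)), by positivity, fun n x => ?_⟩
  have h1 := R.gauss_avg hp x
  -- pointwise comparison
  have h2 : ∫⁻ c : EuclideanSpace ℝ (Fin n), ENNReal.ofReal (‖∑ i, c i • x i‖ ^ p) ∂(gam n) ≤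
      ENNReal.ofReal (K2 ^ p) *
        ∫⁻ c : EuclideanSpace ℝ (Fin n), ENNReal.ofReal (‖∑ i, c i • T (x i)‖ ^ p) ∂(gam n) := by
    have hc := cont_sum (fun i => T (x i))
    rw [← lintegral_const_mul' _ _ ENNReal.ofReal_ne_top]
    refine lintegral_mono fun c => ?_
    rw [← ENNReal.ofReal_mul (by positivity)]
    refine ENNReal.ofReal_le_ofReal ?_
    rw [← Real.mul_rpow hK2.le (norm_nonneg _)]
    refine Real.rpow_le_rpow (norm_nonneg _) ?_ hp.le
    have := hT2 (∑ i, c i • x i)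
    simpa only [map_sum, map_smul] using this
  have h3 : (∫⁻ c : EuclideanSpace ℝ (Fin n),
        ENNReal.ofReal (‖∑ i, c i • T (x i)‖ ^ p) ∂(gam n)) ≤
      ENNReal.ofReal ((M2 * ∑ i, ‖T (x i)‖ ^ 2) ^ (p / 2)) := by
    have hj := jensen_aux (gam n) (f := fun c : EuclideanSpace ℝ (Fin n) => ‖∑ i, c i • T (x i)‖)
      (cont_sum (fun i => T (x i))).norm.aestronglyMeasurable (fun c => norm_nonneg _) hp hp2
    rw [gauss_hilbert] at hj
    have h4 := ENNReal.rpow_le_rpow hj hp.le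
    rw [← ENNReal.rpow_mul, one_div, inv_mul_cancel₀ hp.ne', ENNReal.rpow_one,
      ← ENNReal.rpow_mul] at h4
    refine h4.trans (le_of_eq ?_)
    rw [show Mom 2 = ENNReal.ofReal M2 from
      (ENNReal.ofReal_toReal (Mom_ne_top (by norm_num))).symm, ← ENNReal.ofReal_mul hM2p.le,
      ENNReal.ofReal_rpow_of_nonneg (by positivity) (by positivity)]
    congr 2
    ring
  have h5 : Mom p * R.NN x ≤ ENNReal.ofReal (K2 ^ p * (M2 * K1 ^ 2) ^ (p / 2) * (ss x) ^ (p / 2)) := by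
    rw [← h1]
    refine h2.trans ?_
    refine (mul_le_mul_right h3 _).trans ?_
    rw [← ENNReal.ofReal_mul (by positivity)]
    refine ENNReal.ofReal_le_ofReal ?_
    rw [mul_assoc, ← Real.mul_rpow (by positivity) (ss_nonneg x)]
    refine mul_le_mul_of_nonneg_left ?_ (by positivity)
    refine Real.rpow_le_rpow (by positivity) ?_ (by positivity)
    rw [mul_assoc]
    refine mul_le_mul_of_nonneg_left ?_ hM2p.le
    unfold ss
    rw [Finset.mul_sum]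
    refine Finset.sum_le_sum fun i _ => ?_
    rw [← mul_pow]
    exact pow_le_pow_left₀ (norm_nonneg _) (hT1 _) 2
  have h6 := ENNReal.toReal_mono ENNReal.ofReal_ne_top h5
  rw [ENNReal.toReal_mul, ENNReal.toReal_ofReal
    (by have := ss_nonneg x; positivity)] at h6
  have h7 : M1 * R.nn x ≤ K2 ^ p * (M2 * K1 ^ 2) ^ (p / 2) * (ss x) ^ (p / 2) := h6
  rw [mul_assoc, le_inv_mul_iff₀ hM1p]
  exact h7

lemma lower (hp2 : 2 ≤ p) (T : E ≃L[ℝ] H) :
    ∃ k : ℝ, 0 < k ∧ ∀ (n : ℕ) (x : Fin n → E), k * (ss x) ^ (p / 2) ≤ R.nn x := by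
  have hp : 0 < p := by linarith
  obtain ⟨K1, hK1, hT1⟩ : ∃ K1 : ℝ, 0 < K1 ∧ ∀ v, ‖T v‖ ≤ K1 * ‖v‖ := by
    refine ⟨‖(T : E →L[ℝ] H)‖ + 1, by positivity, fun v => ?_⟩
    refine ((T : E →L[ℝ] H).le_opNorm v).trans ?_
    nlinarith [norm_nonneg v]
  obtain ⟨K2, hK2, hT2⟩ : ∃ K2 : ℝ, 0 < K2 ∧ ∀ v, ‖v‖ ≤ K2 * ‖T v‖ := by
    refine ⟨‖(T.symm : H →L[ℝ] E)‖ + 1, by positivity, fun v => ?_⟩
    have := (T.symm : H →L[ℝ] E).le_opNorm (T v)
    simp only [ContinuousLinearEquiv.coe_coe, ContinuousLinearEquiv.symm_apply_apply] at this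
    refine this.trans ?_
    nlinarith [norm_nonneg (T v)]
  set M1 := (Mom p).toReal with hM1
  have hM1p : 0 < M1 := ENNReal.toReal_pos (Mom_ne_zero hp) (Mom_ne_top hp)
  set M2 := (Mom 2).toReal with hM2
  have hM2p : 0 < M2 := ENNReal.toReal_pos (Mom_ne_zero (by norm_num)) (Mom_ne_top (by norm_num))
  refine ⟨M1⁻¹ * ((K1 ^ p)⁻¹ * (M2 * (K2 ^ 2)⁻¹) ^ (p / 2)), by positivity, fun n x => ?_⟩
  have h1 := R.gauss_avg hp x
  have h2 : ENNReal.ofReal ((K1 ^ p)⁻¹) *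
        ∫⁻ c : EuclideanSpace ℝ (Fin n), ENNReal.ofReal (‖∑ i, c i • T (x i)‖ ^ p) ∂(gam n) ≤
      ∫⁻ c : EuclideanSpace ℝ (Fin n), ENNReal.ofReal (‖∑ i, c i • x i‖ ^ p) ∂(gam n) := by
    rw [← lintegral_const_mul' _ _ ENNReal.ofReal_ne_top]
    refine lintegral_mono fun c => ?_
    rw [← ENNReal.ofReal_mul (by positivity)]
    refine ENNReal.ofReal_le_ofReal ?_
    rw [inv_mul_le_iff₀ (by positivity), ← Real.mul_rpow hK1.le (norm_nonneg _)]
    refine Real.rpow_le_rpow (norm_nonneg _) ?_ hp.le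
    have := hT1 (∑ i, c i • x i)
    simpa only [map_sum, map_smul] using this
  have h3 : ENNReal.ofReal ((M2 * ∑ i, ‖T (x i)‖ ^ 2) ^ (p / 2)) ≤
      (∫⁻ c : EuclideanSpace ℝ (Fin n),
        ENNReal.ofReal (‖∑ i, c i • T (x i)‖ ^ p) ∂(gam n)) := by
    have hj := jensen_aux (gam n) (f := fun c : EuclideanSpace ℝ (Fin n) => ‖∑ i, c i • T (x i)‖)
      (cont_sum (fun i => T (x i))).norm.aestronglyMeasurable (fun c => norm_nonneg _)
      (show (0:ℝ) < 2 by norm_num) hp2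
    rw [gauss_hilbert] at hj
    have h4 := ENNReal.rpow_le_rpow hj hp.le
    rw [← ENNReal.rpow_mul, ← ENNReal.rpow_mul, one_div_mul_cancel hp.ne', ENNReal.rpow_one] at h4
    refine le_trans (le_of_eq ?_) h4
    rw [show Mom 2 = ENNReal.ofReal M2 from
      (ENNReal.ofReal_toReal (Mom_ne_top (by norm_num))).symm, ← ENNReal.ofReal_mul hM2p.le,
      ENNReal.ofReal_rpow_of_nonneg (by positivity) (by positivity)]
    congr 2
    ring
  have h5 : ENNReal.ofReal ((K1 ^ p)⁻¹ * (M2 * (K2 ^ 2)⁻¹) ^ (p / 2) * (ss x) ^ (p / 2)) ≤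
      Mom p * R.NN x := by
    rw [← h1]
    refine le_trans ?_ h2
    refine le_trans ?_ (mul_le_mul_right h3 _)
    rw [← ENNReal.ofReal_mul (by positivity)]
    refine ENNReal.ofReal_le_ofReal ?_
    rw [mul_assoc, ← Real.mul_rpow (by positivity) (ss_nonneg x)]
    refine mul_le_mul_of_nonneg_left ?_ (by positivity)
    refine Real.rpow_le_rpow (by have := ss_nonneg x; positivity) ?_ (by positivity)
    rw [mul_assoc]
    refine mul_le_mul_of_nonneg_left ?_ hM2p.le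
    unfold ss
    rw [Finset.mul_sum]
    refine Finset.sum_le_sum fun i _ => ?_
    rw [inv_mul_le_iff₀ (by positivity), ← mul_pow]
    exact pow_le_pow_left₀ (norm_nonneg _) (hT2 _) 2
  have h6 := ENNReal.toReal_mono (ENNReal.mul_ne_top (Mom_ne_top hp) (R.NN_ne_top hp x)) h5
  rw [ENNReal.toReal_mul, ENNReal.toReal_ofReal
    (by have := ss_nonneg x; positivity)] at h6
  have h7 : (K1 ^ p)⁻¹ * (M2 * (K2 ^ 2)⁻¹) ^ (p / 2) * (ss x) ^ (p / 2) ≤ M1 * R.nn x := h6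
  rw [mul_assoc, inv_mul_le_iff₀ hM1p]
  exact h7

end Rep

end Pool.H770R2.MazL
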