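import Pool.Agent.H770R2.MazL3

/-!
# Extremal sequences of square functions converge
-/

set_option autoImplicit false
set_option linter.unusedVariables false

namespace Pool.H770R2.MazL

open MeasureTheory ProbabilityTheory Filter Topology
open scoped ENNReal NNReal

section general

variable {Ω : Type*} [MeasurableSpace Ω] {μ : Measure Ω}

/-- the exponent `e` in `ℝ≥0∞`. -/
noncomputable def E8 (r : ℝ) : ℝ≥0∞ := ENNReal.ofReal (ee r)

lemma E8_toReal {r : ℝ} (hr : 0 < r) : (E8 r).toReal = ee r := by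
  unfold E8
  exact ENNReal.toReal_ofReal (by linarith [ee_ge hr])

lemma E8_ne_top {r : ℝ} : E8 r ≠ ∞ := ENNReal.ofReal_ne_top

lemma E8_one_le {r : ℝ} (hr : 0 < r) : 1 ≤ E8 r := by
  unfold E8
  rw [← ENNReal.ofReal_one]
  exact ENNReal.ofReal_le_ofReal (by linarith [ee_ge hr])

lemma E8_ne_zero {r : ℝ} (hr : 0 < r) : E8 r ≠ 0 :=
  (lt_of_lt_of_le zero_lt_one (E8_one_le hr)).ne'

lemma memLp_pow {r : ℝ} (hr : 0 < r) {a : Ω → ℝ} (ha : Measurable a) (ha0 : ∀ ω, 0 ≤ a ω)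
    (hi : Integrable (fun ω => a ω ^ r) μ) : MemLp (fun ω => a ω ^ qq r) (E8 r) μ := by
  rw [← integrable_norm_rpow_iff (ha.pow_const _).aestronglyMeasurable (E8_ne_zero hr) E8_ne_top,
    E8_toReal hr]
  refine hi.congr (Eventually.of_forall fun ω => ?_)
  show a ω ^ r = ‖a ω ^ qq r‖ ^ ee r
  rw [Real.norm_of_nonneg (Real.rpow_nonneg (ha0 ω) _), ← Real.rpow_mul (ha0 ω), qq_mul_ee hr]

lemma integrable_of_memLp {r : ℝ} (hr : 0 < r) {a : Ω → ℝ} (ha : Measurable a)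
    (ha0 : ∀ ω, 0 ≤ a ω) (hi : MemLp (fun ω => a ω ^ qq r) (E8 r) μ) :
    Integrable (fun ω => a ω ^ r) μ := by
  rw [← integrable_norm_rpow_iff (ha.pow_const _).aestronglyMeasurable (E8_ne_zero hr) E8_ne_top,
    E8_toReal hr] at hi
  refine hi.congr (Eventually.of_forall fun ω => ?_)
  show ‖a ω ^ qq r‖ ^ ee r = a ω ^ r
  rw [Real.norm_of_nonneg (Real.rpow_nonneg (ha0 ω) _), ← Real.rpow_mul (ha0 ω), qq_mul_ee hr]

lemma eLpNorm_eq {r : ℝ} (hr : 0 < r) {a : Ω → ℝ} (ha : Measurable a)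
    (ha0 : ∀ ω, 0 ≤ a ω) (hi : MemLp (fun ω => a ω ^ qq r) (E8 r) μ) :
    (eLpNorm (fun ω => a ω ^ qq r) (E8 r) μ).toReal = (∫ ω, a ω ^ r ∂μ) ^ (ee r)⁻¹ := by
  rw [hi.eLpNorm_eq_integral_rpow_norm (E8_ne_zero hr) E8_ne_top, E8_toReal hr,
    ENNReal.toReal_ofReal (by positivity)]
  congr 2
  funext ω
  rw [Real.norm_of_nonneg (Real.rpow_nonneg (ha0 ω) _), ← Real.rpow_mul (ha0 ω), qq_mul_ee hr]

/-- adding a fixed function. -/
lemma memLp_shift {r : ℝ} (hr : 0 < r) {V b : Ω → ℝ} (hV : Measurable V) (hV0 : ∀ ω, 0 ≤ V ω)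
    (hb : Measurable b) (hb0 : ∀ ω, 0 ≤ b ω) (hVi : MemLp (fun ω => V ω ^ qq r) (E8 r) μ)
    (hbi : MemLp (fun ω => b ω ^ qq r) (E8 r) μ) :
    MemLp (fun ω => (V ω + b ω) ^ qq r) (E8 r) μ := by
  have h1 : MemLp (fun ω => (V ω + b ω) ^ qq r - b ω ^ qq r) (E8 r) μ := by
    refine hVi.mono (by fun_prop : Measurable fun ω =>
      (V ω + b ω) ^ qq r - b ω ^ qq r).aestronglyMeasurable (Eventually.of_forall fun ω => ?_)
    have := shift_lip (qq_pos hr).le qq_le (hV0 ω) (le_refl (0:ℝ)) (hb0 ω)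
    rw [Real.zero_rpow (qq_pos hr).ne', zero_add, sub_zero] at this
    simpa [Real.norm_eq_abs] using this
  have h2 := h1.add hbi
  refine h2.ae_eq (Eventually.of_forall fun ω => ?_)
  simp

/-- convergence of the shifted integrals. -/
lemma tendsto_shift {r : ℝ} (hr : 0 < r) {a : ℕ → Ω → ℝ} {V b : Ω → ℝ}
    (ha : ∀ k, Measurable (a k)) (ha0 : ∀ k ω, 0 ≤ a k ω)
    (hV : Measurable V) (hV0 : ∀ ω, 0 ≤ V ω)
    (hb : Measurable b) (hb0 : ∀ ω, 0 ≤ b ω)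
    (hai : ∀ k, MemLp (fun ω => a k ω ^ qq r) (E8 r) μ)
    (hVi : MemLp (fun ω => V ω ^ qq r) (E8 r) μ)
    (hbi : MemLp (fun ω => b ω ^ qq r) (E8 r) μ)
    (hlim : Tendsto (fun k => eLpNorm (fun ω => a k ω ^ qq r - V ω ^ qq r) (E8 r) μ) atTop (𝓝 0)) :
    Tendsto (fun k => ∫ ω, (a k ω + b ω) ^ r ∂μ) atTop (𝓝 (∫ ω, (V ω + b ω) ^ r ∂μ)) := by
  have : Fact (1 ≤ E8 r) := ⟨E8_one_le hr⟩
  have hk := fun k => memLp_shift hr (ha k) (ha0 k) hb hb0 (hai k) hbi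
  have hl := memLp_shift hr hV hV0 hb hb0 hVi hbi
  have h1 : Tendsto (fun k => (hk k).toLp _) atTop (𝓝 (hl.toLp _)) := by
    rw [Lp.tendsto_Lp_iff_tendsto_eLpNorm'']
    refine tendsto_of_tendsto_of_tendsto_of_le_of_le tendsto_const_nhds hlim
      (fun k => zero_le) (fun k => ?_)
    refine eLpNorm_mono fun ω => ?_
    simp only [Pi.sub_apply, Real.norm_eq_abs]
    exact shift_lip (qq_pos hr).le qq_le (ha0 k ω) (hV0 ω) (hb0 ω)
  have h2 := h1.norm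
  simp only [Lp.norm_toLp] at h2
  have e1 : ∀ k, (eLpNorm (fun ω => (a k ω + b ω) ^ qq r) (E8 r) μ).toReal =
      (∫ ω, (a k ω + b ω) ^ r ∂μ) ^ (ee r)⁻¹ := fun k =>
    eLpNorm_eq hr ((ha k).add hb) (fun ω => add_nonneg (ha0 k ω) (hb0 ω)) (hk k)
  have e2 : (eLpNorm (fun ω => (V ω + b ω) ^ qq r) (E8 r) μ).toReal =
      (∫ ω, (V ω + b ω) ^ r ∂μ) ^ (ee r)⁻¹ :=
    eLpNorm_eq hr (hV.add hb) (fun ω => add_nonneg (hV0 ω) (hb0 ω)) hl
  simp only [e1, e2] at h2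
  have he : 0 < ee r := by linarith [ee_ge hr]
  have h3 := h2.rpow_const (p := ee r) (Or.inr he.le)
  have e3 : ∀ s : ℝ, 0 ≤ s → (s ^ (ee r)⁻¹) ^ ee r = s := by
    intro s hs
    rw [← Real.rpow_mul hs, inv_mul_cancel₀ he.ne', Real.rpow_one]
  rw [e3 _ (integral_nonneg fun ω => Real.rpow_nonneg (add_nonneg (hV0 ω) (hb0 ω)) _)] at h3
  refine h3.congr fun k => ?_
  exact e3 _ (integral_nonneg fun ω => Real.rpow_nonneg (add_nonneg (ha0 k ω) (hb0 ω)) _)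

end general

namespace Rep

variable {p : ℝ} {Ω : Type*} [MeasurableSpace Ω] {μ : Measure Ω} {E : Type*}
  [NormedAddCommGroup E] [NormedSpace ℝ E] (R : Rep p μ E)

lemma nn_nonneg {n : ℕ} (x : Fin n → E) : 0 ≤ R.nn x := ENNReal.toReal_nonneg

lemma nn_eq {n : ℕ} (x : Fin n → E) : R.nn x = ∫ ω, (R.sqf x ω) ^ (p / 2) ∂μ := by
  have hm := R.sqf_meas x
  rw [integral_eq_lintegral_of_nonneg_ae
    (Eventually.of_forall fun ω => Real.rpow_nonneg (R.sqf_nonneg x ω) _)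
    (by fun_prop : Measurable fun ω => (R.sqf x ω) ^ (p / 2)).aestronglyMeasurable]
  rfl

lemma nn_isom (hp : 0 < p) {n : ℕ} (x : Fin n → E) (g : E →ₗᵢ[ℝ] E) :
    R.nn (fun i => g (x i)) = R.nn x := by
  unfold nn
  rw [R.NN_isom hp]

omit [NormedSpace ℝ E] in
lemma ss_append {n m : ℕ} (x : Fin n → E) (y : Fin m → E) :
    ss (Fin.append x y) = ss x + ss y := by
  unfold ss
  rw [Fin.sum_univ_add]
  simp

lemma sqf_append {n m : ℕ} (x : Fin n → E) (y : Fin m → E) (ω : Ω) :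
    R.sqf (Fin.append x y) ω = R.sqf x ω + R.sqf y ω := by
  unfold sqf
  rw [Fin.sum_univ_add]
  simp

omit [NormedSpace ℝ E] in
lemma ss_cons {n : ℕ} (h : E) (x : Fin n → E) :
    ss (Fin.cons h x : Fin (n + 1) → E) = ‖h‖ ^ 2 + ss x := by
  unfold ss
  rw [Fin.sum_univ_succ]
  simp

lemma sqf_cons {n : ℕ} (h : E) (x : Fin n → E) (ω : Ω) :
    R.sqf (Fin.cons h x : Fin (n + 1) → E) ω = (R.J h ω) ^ 2 + R.sqf x ω := by
  unfold sqf
  rw [Fin.sum_univ_succ]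
  simp

lemma ss_smul {n : ℕ} (t : ℝ) (x : Fin n → E) : ss (fun i => t • x i) = t ^ 2 * ss x := by
  unfold ss
  rw [Finset.mul_sum]
  refine Finset.sum_congr rfl fun i _ => ?_
  rw [norm_smul, mul_pow, Real.norm_eq_abs, sq_abs]

lemma sqf_smul {n : ℕ} (t : ℝ) (x : Fin n → E) :
    ∀ᵐ ω ∂μ, R.sqf (fun i => t • x i) ω = t ^ 2 * R.sqf x ω := by
  have h : ∀ᵐ ω ∂μ, ∀ i, R.J (t • x i) ω = t * R.J (x i) ω := by
    rw [ae_all_iff]
    exact fun i => R.smul t (x i)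
  filter_upwards [h] with ω hω
  unfold sqf
  rw [Finset.mul_sum]
  refine Finset.sum_congr rfl fun i _ => ?_
  rw [hω i]
  ring

lemma nn_smul {n : ℕ} {t : ℝ} (ht : 0 ≤ t) (x : Fin n → E) :
    R.nn (fun i => Real.sqrt t • x i) = t ^ (p / 2) * R.nn x := by
  rw [nn_eq, nn_eq, ← integral_const_mul]
  refine integral_congr_ae ?_
  filter_upwards [R.sqf_smul (Real.sqrt t) x] with ω h
  rw [h, Real.sq_sqrt ht, Real.mul_rpow ht (R.sqf_nonneg x ω)]

lemma nn_single (hp : 0 < p) (u : E) : R.nn (fun _ : Fin 1 => u) = ‖u‖ ^ p := by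
  unfold nn NN
  have h1 : ∀ ω, (R.sqf (fun _ : Fin 1 => u) ω) ^ (p / 2) = |R.J u ω| ^ p := by
    intro ω
    unfold sqf
    simp only [Finset.univ_unique, Finset.sum_const, Finset.card_singleton, one_smul]
    rw [← sq_abs, ← Real.rpow_natCast, ← Real.rpow_mul (abs_nonneg _)]
    congr 1
    push_cast
    ring
  simp only [h1]
  rw [R.norm, ENNReal.toReal_ofReal (by positivity)]

/-- existence of the extremal constant. -/
lemma exists_ext [Nontrivial E] {H : Type*} [NormedAddCommGroup H] [InnerProductSpace ℝ H]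
    (hp : 0 < p) {ε : ℝ} (hε : Sg (p / 2) ε) (T : E ≃L[ℝ] H) :
    ∃ m : ℝ, 0 < m ∧ (∀ (n : ℕ) (x : Fin n → E), ε * (m * (ss x) ^ (p / 2)) ≤ ε * R.nn x) ∧
      (∀ δ : ℝ, 0 < δ → ∃ y : (Σ n : ℕ, (Fin n → E)), ss y.2 = 1 ∧ ε * R.nn y.2 ≤ ε * m + δ) := by
  set A : Set ℝ := {v : ℝ | ∃ y : (Σ n : ℕ, (Fin n → E)), ss y.2 = 1 ∧ v = ε * R.nn y.2} with hA
  obtain ⟨u, hu⟩ : ∃ u : E, ‖u‖ = 1 := by
    obtain ⟨v, hv⟩ := exists_ne (0 : E)
    refine ⟨(‖v‖)⁻¹ • v, ?_⟩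
    rw [norm_smul, norm_inv, norm_norm, inv_mul_cancel₀ (norm_ne_zero_iff.2 hv)]
  have hu1 : ss (fun _ : Fin 1 => u) = 1 := by unfold ss; simp [hu]
  have huA : ε * 1 ∈ A := by
    refine ⟨⟨1, fun _ => u⟩, hu1, ?_⟩
    simp only
    rw [R.nn_single hp, hu, Real.one_rpow]
  have hne : A.Nonempty := ⟨_, huA⟩
  -- bounded below
  have hbdd : ∃ k : ℝ, (∀ v ∈ A, k ≤ v) ∧ (ε = 1 → 0 < k) := by
    rcases hε with ⟨rfl, h⟩ | ⟨rfl, h⟩
    · obtain ⟨k, hk, hk2⟩ := R.lower (by linarith) T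
      refine ⟨k, ?_, fun _ => hk⟩
      rintro v ⟨y, hy, rfl⟩
      have := hk2 y.1 y.2
      rw [hy, Real.one_rpow] at this
      linarith
    · obtain ⟨K, hK, hK2⟩ := R.upper hp (by linarith) T
      refine ⟨-K, ?_, fun h => by norm_num at h⟩
      rintro v ⟨y, hy, rfl⟩
      have := hK2 y.1 y.2
      rw [hy, Real.one_rpow] at this
      linarith
  obtain ⟨k, hk1, hk2⟩ := hbdd
  have hB : BddBelow A := ⟨k, hk1⟩
  set ms : ℝ := sInf A with hms
  have hεε : ε * ε = 1 := by rcases hε with ⟨rfl, _⟩ | ⟨rfl, _⟩ <;> norm_num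
  have hm : 0 < ε * ms := by
    rcases hε with ⟨rfl, h⟩ | ⟨rfl, h⟩
    · have : k ≤ ms := le_csInf hne hk1
      have := hk2 rfl
      linarith
    · have : ms ≤ -1 * 1 := csInf_le hB huA
      linarith
  refine ⟨ε * ms, hm, ?_, ?_⟩
  · intro n x
    rcases eq_or_lt_of_le (ss_nonneg x) with h0 | h0
    · rw [← h0, Real.zero_rpow (by linarith)]
      have hx : ∀ i, x i = 0 := by
        intro i
        have h3 := (Finset.sum_eq_zero_iff_of_nonneg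
          (fun i (_ : i ∈ Finset.univ) => sq_nonneg ‖x i‖)).1 h0.symm i (Finset.mem_univ i)
        exact norm_eq_zero.1 ((pow_eq_zero_iff two_ne_zero).1 h3)
      have hn : R.nn x = 0 := by
        rw [nn_eq]
        have hJ : ∀ᵐ ω ∂μ, (R.sqf x ω) ^ (p / 2) = 0 := by
          filter_upwards [R.zero_ae] with ω hω
          have : R.sqf x ω = 0 := by
            unfold sqf
            refine Finset.sum_eq_zero fun i _ => ?_
            rw [hx i, hω]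
            norm_num
          rw [this, Real.zero_rpow (by linarith)]
        rw [integral_congr_ae hJ]
        simp
      rw [hn]
      simp
    · set s := ss x with hs
      have h1 : ss (fun i => Real.sqrt s⁻¹ • x i) = 1 := by
        rw [ss_smul, Real.sq_sqrt (by positivity), ← hs, inv_mul_cancel₀ h0.ne']
      have h2 : ms ≤ ε * R.nn (fun i => Real.sqrt s⁻¹ • x i) :=
        csInf_le hB ⟨⟨n, fun i => Real.sqrt s⁻¹ • x i⟩, h1, rfl⟩
      rw [R.nn_smul (by positivity)] at h2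
      have h3 : 0 < s ^ (p / 2) := by positivity
      have h4 : s ^ (p / 2) * ms ≤ s ^ (p / 2) * (ε * ((s⁻¹) ^ (p / 2) * R.nn x)) :=
        mul_le_mul_of_nonneg_left h2 h3.le
      have h5 : s ^ (p / 2) * (s⁻¹) ^ (p / 2) = 1 := by
        rw [← Real.mul_rpow h0.le (by positivity), mul_inv_cancel₀ h0.ne', Real.one_rpow]
      calc ε * (ε * ms * s ^ (p / 2)) = (ε * ε) * (s ^ (p / 2) * ms) := by ring
        _ = s ^ (p / 2) * ms := by rw [hεε, one_mul]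
        _ ≤ s ^ (p / 2) * (ε * ((s⁻¹) ^ (p / 2) * R.nn x)) := h4
        _ = (s ^ (p / 2) * (s⁻¹) ^ (p / 2)) * (ε * R.nn x) := by ring
        _ = ε * R.nn x := by rw [h5, one_mul]
  · intro δ hδ
    obtain ⟨v, ⟨y, hy, rfl⟩, hv⟩ := exists_lt_of_csInf_lt hne (show sInf A < ms + δ by linarith)
    refine ⟨y, hy, ?_⟩
    have : ε * (ε * ms) = ms := by rw [← mul_assoc, hεε, one_mul]
    rw [this]
    exact hv.le

end Rep

end Pool.H770R2.MazL
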