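import Pool.Agent.H770R2.MazL4

/-!
# The extremal function `V` and the invariant functionals `∫ (V + t (J h)^2)^r`
-/

set_option autoImplicit false
set_option linter.unusedVariables false

namespace Pool.H770R2.MazL

open MeasureTheory ProbabilityTheory Filter Topology
open scoped ENNReal NNReal

namespace Rep

variable {p : ℝ} {Ω : Type*} [MeasurableSpace Ω] {μ : Measure Ω} {E : Type*}
  [NormedAddCommGroup E] [NormedSpace ℝ E] (R : Rep p μ E)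

/-- finite families. -/
abbrev Fam (E : Type*) := Σ n : ℕ, (Fin n → E)

/-- midpoint of two families. -/
lemma exists_mid (x y : Fam E) : ∃ z : Fam E, ss z.2 = (ss x.2 + ss y.2) / 2 ∧
    ∀ᵐ ω ∂μ, R.sqf z.2 ω = (R.sqf x.2 ω + R.sqf y.2 ω) / 2 := by
  refine ⟨⟨x.1 + y.1, fun i => Real.sqrt (1 / 2) • Fin.append x.2 y.2 i⟩, ?_, ?_⟩
  · show ss (fun i => Real.sqrt (1 / 2) • Fin.append x.2 y.2 i) = _
    rw [ss_smul, ss_append, Real.sq_sqrt (by norm_num)]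
    ring
  · filter_upwards [R.sqf_smul (Real.sqrt (1 / 2)) (Fin.append x.2 y.2)] with ω h
    show R.sqf (fun i => Real.sqrt (1 / 2) • Fin.append x.2 y.2 i) ω = _
    rw [h, sqf_append, Real.sq_sqrt (by norm_num)]
    ring

lemma memLp_fam (hp : 0 < p) (x : Fam E) :
    MemLp (fun ω => (R.sqf x.2 ω) ^ qq (p / 2)) (E8 (p / 2)) μ :=
  memLp_pow (by linarith) (R.sqf_meas x.2) (R.sqf_nonneg x.2) (R.sqf_rpow_integrable hp x.2)

lemma gap_est (hp : 0 < p) {ε C m δ : ℝ} (hC : 0 < C) (hδ : 0 ≤ δ)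
    (hgap : ∀ a b : ℝ, 0 ≤ a → 0 ≤ b →
      (a ^ (p / 2 / 2) - b ^ (p / 2 / 2)) ^ 2 ≤
        C * (ε * ((a ^ (p / 2) + b ^ (p / 2)) / 2 - ((a + b) / 2) ^ (p / 2))))
    (hm : ∀ (n : ℕ) (x : Fin n → E), ε * (m * (ss x) ^ (p / 2)) ≤ ε * R.nn x)
    {x y : Fam E} (hx : ss x.2 = 1) (hy : ss y.2 = 1)
    (hx2 : ε * R.nn x.2 ≤ ε * m + δ) (hy2 : ε * R.nn y.2 ≤ ε * m + δ) :
    eLpNorm (fun ω => (R.sqf x.2 ω) ^ qq (p / 2) - (R.sqf y.2 ω) ^ qq (p / 2)) (E8 (p / 2)) μ ≤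
      ENNReal.ofReal ((C * δ) ^ (1 / ee (p / 2))) := by
  have hr : 0 < p / 2 := by linarith
  have he : 0 < ee (p / 2) := by linarith [ee_ge hr]
  obtain ⟨z, hz1, hz2⟩ := R.exists_mid x y
  rw [hx, hy] at hz1
  have hz3 := hm z.1 z.2
  rw [hz1] at hz3
  norm_num at hz3
  have hix := R.sqf_rpow_integrable hp x.2
  have hiy := R.sqf_rpow_integrable hp y.2
  have hiz := R.sqf_rpow_integrable hp z.2
  have hmx := R.sqf_meas x.2
  have hmy := R.sqf_meas y.2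
  have hmz := R.sqf_meas z.2
  rw [eLpNorm_eq_lintegral_rpow_enorm_toReal (E8_ne_zero hr) E8_ne_top, E8_toReal hr]
  have h1 : ∫⁻ ω, ‖(R.sqf x.2 ω) ^ qq (p / 2) - (R.sqf y.2 ω) ^ qq (p / 2)‖ₑ ^ ee (p / 2) ∂μ ≤
      ∫⁻ ω, ENNReal.ofReal (C * (ε * (((R.sqf x.2 ω) ^ (p / 2) + (R.sqf y.2 ω) ^ (p / 2)) / 2 -
        (R.sqf z.2 ω) ^ (p / 2)))) ∂μ := by
    refine lintegral_mono_ae ?_
    filter_upwards [hz2] with ω hω
    rw [hω, Real.enorm_eq_ofReal_abs, ENNReal.ofReal_rpow_of_nonneg (abs_nonneg _) he.le]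
    refine ENNReal.ofReal_le_ofReal ?_
    exact (abs_rpow_le hr (R.sqf_nonneg _ _) (R.sqf_nonneg _ _)).trans
      (hgap _ _ (R.sqf_nonneg _ _) (R.sqf_nonneg _ _))
  have hI : Integrable (fun ω => C * (ε * (((R.sqf x.2 ω) ^ (p / 2) +
      (R.sqf y.2 ω) ^ (p / 2)) / 2 - (R.sqf z.2 ω) ^ (p / 2)))) μ :=
    ((((hix.add hiy).div_const 2).sub hiz).const_mul ε).const_mul C
  have h2 : ∫⁻ ω, ENNReal.ofReal (C * (ε * (((R.sqf x.2 ω) ^ (p / 2) +
      (R.sqf y.2 ω) ^ (p / 2)) / 2 - (R.sqf z.2 ω) ^ (p / 2)))) ∂μ =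
      ENNReal.ofReal (C * (ε * ((R.nn x.2 + R.nn y.2) / 2 - R.nn z.2))) := by
    rw [← ofReal_integral_eq_lintegral_ofReal hI ?_]
    · congr 1
      rw [nn_eq, nn_eq, nn_eq, integral_const_mul, integral_const_mul, integral_sub, integral_div,
        integral_add hix hiy]
      · exact (hix.add hiy).div_const 2
      · exact hiz
    · filter_upwards [hz2] with ω hω
      rw [hω]
      exact (sq_nonneg _).trans (hgap _ _ (R.sqf_nonneg _ _) (R.sqf_nonneg _ _))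
  rw [h2] at h1
  have h3 : C * (ε * ((R.nn x.2 + R.nn y.2) / 2 - R.nn z.2)) ≤ C * δ := by
    refine mul_le_mul_of_nonneg_left ?_ hC.le
    have : ε * ((R.nn x.2 + R.nn y.2) / 2 - R.nn z.2) =
      (ε * R.nn x.2 + ε * R.nn y.2) / 2 - ε * R.nn z.2 := by ring
    rw [this]
    linarith
  have h4 := h1.trans (ENNReal.ofReal_le_ofReal h3)
  refine (ENNReal.rpow_le_rpow h4 (by positivity)).trans (le_of_eq ?_)
  rw [ENNReal.ofReal_rpow_of_nonneg (by positivity) (by positivity)]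

/-- a sequence of families is extremal (with a rate). -/
def Ext (ε m : ℝ) (y : ℕ → Fam E) : Prop :=
  ∀ k, ss (y k).2 = 1 ∧ ε * R.nn (y k).2 ≤ ε * m + 1 / ((k : ℝ) + 1)

lemma exists_V (hp : 0 < p) {ε m : ℝ} (hε : Sg (p / 2) ε)
    (hm : ∀ (n : ℕ) (x : Fin n → E), ε * (m * (ss x) ^ (p / 2)) ≤ ε * R.nn x)
    {x : ℕ → Fam E} (hx : R.Ext ε m x) :
    ∃ V : Ω → ℝ, Measurable V ∧ (∀ ω, 0 ≤ V ω) ∧
      MemLp (fun ω => V ω ^ qq (p / 2)) (E8 (p / 2)) μ ∧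
      ∀ y : ℕ → Fam E, R.Ext ε m y →
        Tendsto (fun k => eLpNorm (fun ω => (R.sqf (y k).2 ω) ^ qq (p / 2) - V ω ^ qq (p / 2))
          (E8 (p / 2)) μ) atTop (𝓝 0) := by
  have hr : 0 < p / 2 := by linarith
  have he : 0 < ee (p / 2) := by linarith [ee_ge hr]
  obtain ⟨C, hC, hgap⟩ := exists_gap hr hε
  have : Fact (1 ≤ E8 (p / 2)) := ⟨E8_one_le hr⟩
  set b : ℕ → ℝ := fun N => (C * (1 / ((N : ℝ) + 1))) ^ (1 / ee (p / 2)) with hb
  have hb0 : Tendsto b atTop (𝓝 0) := by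
    have h1 : Tendsto (fun N : ℕ => C * (1 / ((N : ℝ) + 1))) atTop (𝓝 (C * 0)) :=
      tendsto_one_div_add_atTop_nhds_zero_nat.const_mul C
    have h2 := h1.rpow_const (p := 1 / ee (p / 2)) (Or.inr (by positivity))
    rw [mul_zero, Real.zero_rpow (by positivity)] at h2
    exact h2
  have hmono : ∀ N k : ℕ, N ≤ k → 1 / ((k : ℝ) + 1) ≤ 1 / ((N : ℝ) + 1) := by
    intro N k hNk
    refine one_div_le_one_div_of_le (by positivity) ?_
    have : (N : ℝ) ≤ k := by exact_mod_cast hNk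
    linarith
  set F : ℕ → Lp ℝ (E8 (p / 2)) μ := fun k => (R.memLp_fam hp (x k)).toLp _ with hF
  have hcau : CauchySeq F := by
    refine cauchySeq_of_le_tendsto_0 b (fun k l N hk hl => ?_) hb0
    rw [dist_eq_norm, hF]
    show ‖(R.memLp_fam hp (x k)).toLp _ - (R.memLp_fam hp (x l)).toLp _‖ ≤ _
    rw [← MemLp.toLp_sub, Lp.norm_toLp]
    have h1 := R.gap_est hp (δ := 1 / ((N : ℝ) + 1)) hC (by positivity) hgap hm
      (hx k).1 (hx l).1 ((hx k).2.trans (by linarith [hmono N k hk]))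
      ((hx l).2.trans (by linarith [hmono N l hl]))
    refine ENNReal.toReal_le_of_le_ofReal (by positivity) ?_
    exact h1
  obtain ⟨f, hf⟩ := cauchySeq_tendsto_of_complete hcau
  have hfm : Measurable (f : Ω → ℝ) := (Lp.stronglyMeasurable f).measurable
  have hq := qq_pos hr
  have hVq : ∀ ω, ((|(f : Ω → ℝ) ω|) ^ (1 / qq (p / 2))) ^ qq (p / 2) = |(f : Ω → ℝ) ω| := by
    intro ω
    rw [← Real.rpow_mul (abs_nonneg _), one_div, inv_mul_cancel₀ hq.ne', Real.rpow_one]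
  refine ⟨fun ω => (|(f : Ω → ℝ) ω|) ^ (1 / qq (p / 2)), by fun_prop,
    fun ω => Real.rpow_nonneg (abs_nonneg _) _, ?_, ?_⟩
  · simp only [hVq]
    exact (Lp.memLp f).abs
  · intro y hy
    simp only [hVq]
    have h1 := (Lp.tendsto_Lp_iff_tendsto_eLpNorm' F f).1 hf
    have h2 : Tendsto (fun k => ENNReal.ofReal (b k) + eLpNorm (⇑(F k) - ⇑f) (E8 (p / 2)) μ)
        atTop (𝓝 0) := by
      have := (ENNReal.tendsto_ofReal hb0).add h1
      simpa using this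
    refine tendsto_of_tendsto_of_tendsto_of_le_of_le tendsto_const_nhds h2
      (fun k => zero_le) (fun k => ?_)
    have h3 := R.gap_est hp (δ := 1 / ((k : ℝ) + 1)) hC (by positivity) hgap hm
      (hy k).1 (hx k).1 (hy k).2 (hx k).2
    have hmy := R.sqf_meas (y k).2
    have hmx := R.sqf_meas (x k).2
    have h4 : eLpNorm (fun ω => (R.sqf (y k).2 ω) ^ qq (p / 2) - |(f : Ω → ℝ) ω|)
        (E8 (p / 2)) μ ≤
        eLpNorm (fun ω => (R.sqf (y k).2 ω) ^ qq (p / 2) - (R.sqf (x k).2 ω) ^ qq (p / 2))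
          (E8 (p / 2)) μ +
        eLpNorm (fun ω => (R.sqf (x k).2 ω) ^ qq (p / 2) - |(f : Ω → ℝ) ω|) (E8 (p / 2)) μ := by
      have h5 := eLpNorm_add_le (μ := μ) (p := E8 (p / 2))
        (f := fun ω => (R.sqf (y k).2 ω) ^ qq (p / 2) - (R.sqf (x k).2 ω) ^ qq (p / 2))
        (g := fun ω => (R.sqf (x k).2 ω) ^ qq (p / 2) - |(f : Ω → ℝ) ω|)
        (by fun_prop : Measurable fun ω => (R.sqf (y k).2 ω) ^ qq (p / 2) -
          (R.sqf (x k).2 ω) ^ qq (p / 2)).aestronglyMeasurable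
        (by fun_prop : Measurable fun ω => (R.sqf (x k).2 ω) ^ qq (p / 2) -
          |(f : Ω → ℝ) ω|).aestronglyMeasurable (E8_one_le hr)
      refine le_trans (le_of_eq ?_) h5
      congr 1
      funext ω
      simp
    refine h4.trans (add_le_add h3 ?_)
    refine eLpNorm_mono_ae ?_
    filter_upwards [MemLp.coeFn_toLp (R.memLp_fam hp (x k))] with ω hω
    show ‖(R.sqf (x k).2 ω) ^ qq (p / 2) - |(f : Ω → ℝ) ω|‖ ≤ ‖(F k - f : Ω → ℝ) ω‖
    rw [Pi.sub_apply, Real.norm_eq_abs, Real.norm_eq_abs]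
    have h6 : (F k : Ω → ℝ) ω = (R.sqf (x k).2 ω) ^ qq (p / 2) := hω
    rw [h6]
    have h7 : (R.sqf (x k).2 ω) ^ qq (p / 2) = |(R.sqf (x k).2 ω) ^ qq (p / 2)| :=
      (abs_of_nonneg (Real.rpow_nonneg (R.sqf_nonneg _ _) _)).symm
    conv_lhs => rw [h7]
    exact abs_abs_sub_abs_le_abs_sub _ _

end Rep

end Pool.H770R2.MazL
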