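import Pool.Agent.H770R2.MazL5

/-!
# The invariant functionals `∫ (V + t (J h)^2)^r`
-/

set_option autoImplicit false
set_option linter.unusedVariables false

namespace Pool.H770R2.MazL

open MeasureTheory ProbabilityTheory Filter Topology
open scoped ENNReal NNReal

namespace Rep

variable {p : ℝ} {Ω : Type*} [MeasurableSpace Ω] {μ : Measure Ω} {E : Type*}
  [NormedAddCommGroup E] [NormedSpace ℝ E] (R : Rep p μ E)

/-- the functional `∫ (V + t (J h)^2)^(p/2)`. -/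
noncomputable def WW (V : Ω → ℝ) (t : ℝ) (h : E) : ℝ :=
  ∫ ω, (V ω + t * (R.J h ω) ^ 2) ^ (p / 2) ∂μ

lemma memLp_sq (hp : 0 < p) {t : ℝ} (ht : 0 ≤ t) (h : E) :
    MemLp (fun ω => (t * (R.J h ω) ^ 2) ^ qq (p / 2)) (E8 (p / 2)) μ := by
  have hm := R.meas h
  refine memLp_pow (by linarith) (by fun_prop) (fun ω => by positivity) ?_
  have h1 := (R.sqf_rpow_integrable hp (fun _ : Fin 1 => h)).const_mul (t ^ (p / 2))
  refine h1.congr (Eventually.of_forall fun ω => ?_)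
  show t ^ (p / 2) * (R.sqf (fun _ : Fin 1 => h) ω) ^ (p / 2) = _
  have : R.sqf (fun _ : Fin 1 => h) ω = (R.J h ω) ^ 2 := by
    unfold sqf; simp
  show _ = (t * (R.J h ω) ^ 2) ^ (p / 2)
  rw [this, Real.mul_rpow ht (sq_nonneg _)]

lemma WW_lim (hp : 0 < p) {ε m : ℝ} {V : Ω → ℝ} (hV : Measurable V) (hV0 : ∀ ω, 0 ≤ V ω)
    (hVi : MemLp (fun ω => V ω ^ qq (p / 2)) (E8 (p / 2)) μ)
    {y : ℕ → Fam E} (hy : Tendsto (fun k => eLpNorm
      (fun ω => (R.sqf (y k).2 ω) ^ qq (p / 2) - V ω ^ qq (p / 2)) (E8 (p / 2)) μ) atTop (𝓝 0))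
    {t : ℝ} (ht : 0 ≤ t) (h : E) :
    Tendsto (fun k => R.nn (Fin.cons (Real.sqrt t • h) (y k).2 : Fin ((y k).1 + 1) → E))
      atTop (𝓝 (R.WW V t h)) := by
  have hm := R.meas h
  have h1 := tendsto_shift (μ := μ) (show 0 < p / 2 by linarith)
    (a := fun k => R.sqf (y k).2) (V := V) (b := fun ω => t * (R.J h ω) ^ 2)
    (fun k => R.sqf_meas _) (fun k ω => R.sqf_nonneg _ _) hV hV0 (by fun_prop)
    (fun ω => by positivity) (fun k => R.memLp_fam hp (y k)) hVi (R.memLp_sq hp ht h) hy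
  refine h1.congr fun k => ?_
  rw [nn_eq]
  refine integral_congr_ae ?_
  filter_upwards [R.smul (Real.sqrt t) h] with ω hω
  show (R.sqf (y k).2 ω + t * (R.J h ω) ^ 2) ^ (p / 2) =
    (R.sqf (Fin.cons (Real.sqrt t • h) (y k).2) ω) ^ (p / 2)
  rw [sqf_cons, hω, mul_pow, Real.sq_sqrt ht, add_comm]

lemma WW_int (hp : 0 < p) {V : Ω → ℝ} (hV : Measurable V) (hV0 : ∀ ω, 0 ≤ V ω)
    (hVi : MemLp (fun ω => V ω ^ qq (p / 2)) (E8 (p / 2)) μ) {t : ℝ} (ht : 0 ≤ t) (h : E) :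
    Integrable (fun ω => (V ω + t * (R.J h ω) ^ 2) ^ (p / 2)) μ := by
  have hm := R.meas h
  refine integrable_of_memLp (by linarith) (by fun_prop)
    (fun ω => add_nonneg (hV0 ω) (by positivity)) ?_
  exact memLp_shift (by linarith) hV hV0 (by fun_prop) (fun ω => by positivity) hVi
    (R.memLp_sq hp ht h)

/-- the extremal function, with all its properties. -/
lemma exists_extremal [Nontrivial E] {H : Type*} [NormedAddCommGroup H] [InnerProductSpace ℝ H]
    (hp : 0 < p) {ε : ℝ} (hε : Sg (p / 2) ε) (T : E ≃L[ℝ] H) :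
    ∃ (m : ℝ) (V : Ω → ℝ), 0 < m ∧ Measurable V ∧ (∀ ω, 0 ≤ V ω) ∧
      (∀ t : ℝ, 0 ≤ t → ∀ h : E, Integrable (fun ω => (V ω + t * (R.J h ω) ^ 2) ^ (p / 2)) μ) ∧
      (∀ h : E, R.WW V 0 h = m) ∧
      (∀ t : ℝ, 0 ≤ t → ∀ h : E, ε * (m * (1 + t * ‖h‖ ^ 2) ^ (p / 2)) ≤ ε * R.WW V t h) ∧
      (∀ t : ℝ, 0 ≤ t → ∀ (h : E) (g : E →ₗᵢ[ℝ] E), R.WW V t (g h) = R.WW V t h) := by
  obtain ⟨m, hm0, hm, hext⟩ := R.exists_ext hp hε T
  have hx : ∀ k : ℕ, ∃ y : Fam E, ss y.2 = 1 ∧ ε * R.nn y.2 ≤ ε * m + 1 / ((k : ℝ) + 1) :=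
    fun k => hext _ (by positivity)
  choose x hx using hx
  obtain ⟨V, hV, hV0, hVi, hlim⟩ := R.exists_V hp hε hm (x := x) hx
  have hεε : ε * ε = 1 := by rcases hε with ⟨rfl, _⟩ | ⟨rfl, _⟩ <;> norm_num
  refine ⟨m, V, hm0, hV, hV0, fun t ht h => R.WW_int hp hV hV0 hVi ht h, ?_, ?_, ?_⟩
  · intro h
    -- `WW 0 h = lim nn (cons 0 x_k) = lim nn x_k = m`
    have h1 := R.WW_lim (m := m) (ε := ε) hp hV hV0 hVi (hlim x hx) (le_refl (0:ℝ)) h
    have h2 : ∀ k, R.nn (Fin.cons (Real.sqrt 0 • h) (x k).2 : Fin ((x k).1 + 1) → E) =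
        R.nn (x k).2 := by
      intro k
      rw [nn_eq, nn_eq]
      refine integral_congr_ae ?_
      filter_upwards [R.zero_ae] with ω hω
      rw [sqf_cons, Real.sqrt_zero, zero_smul, hω]
      congr 1
      ring
    simp only [h2] at h1
    have h3 : Tendsto (fun k => ε * R.nn (x k).2) atTop (𝓝 (ε * m)) := by
      have h4 : Tendsto (fun k : ℕ => ε * m + 1 / ((k : ℝ) + 1)) atTop (𝓝 (ε * m + 0)) :=
        tendsto_const_nhds.add tendsto_one_div_add_atTop_nhds_zero_nat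
      rw [add_zero] at h4
      refine tendsto_of_tendsto_of_tendsto_of_le_of_le tendsto_const_nhds h4 (fun k => ?_)
        (fun k => (hx k).2)
      have := hm _ (x k).2
      rw [(hx k).1, Real.one_rpow, mul_one] at this
      exact this
    have h5 := tendsto_nhds_unique (h1.const_mul ε) h3
    have h6 : ε * (ε * R.WW V 0 h) = ε * (ε * m) := by rw [h5]
    rw [← mul_assoc, ← mul_assoc, hεε, one_mul, one_mul] at h6
    exact h6
  · intro t ht h
    have h1 := (R.WW_lim (m := m) (ε := ε) hp hV hV0 hVi (hlim x hx) ht h).const_mul ε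
    refine ge_of_tendsto h1 (Eventually.of_forall fun k => ?_)
    have := hm _ (Fin.cons (Real.sqrt t • h) (x k).2 : Fin ((x k).1 + 1) → E)
    rw [ss_cons, (hx k).1, norm_smul, mul_pow, Real.norm_eq_abs, sq_abs, Real.sq_sqrt ht,
      add_comm] at this
    exact this
  · intro t ht h g
    set y : ℕ → Fam E := fun k => ⟨(x k).1, fun i => g ((x k).2 i)⟩ with hy
    have hyE : R.Ext ε m y := by
      intro k
      constructor
      · show ss (fun i => g ((x k).2 i)) = 1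
        rw [← (hx k).1]
        unfold ss
        simp
      · show ε * R.nn (fun i => g ((x k).2 i)) ≤ _
        rw [R.nn_isom hp]
        exact (hx k).2
    have h1 := R.WW_lim (m := m) (ε := ε) hp hV hV0 hVi (hlim x hx) ht h
    have h2 := R.WW_lim (m := m) (ε := ε) hp hV hV0 hVi (hlim y hyE) ht (g h)
    have h3 : ∀ k, R.nn (Fin.cons (Real.sqrt t • g h) (y k).2 : Fin ((y k).1 + 1) → E) =
        R.nn (Fin.cons (Real.sqrt t • h) (x k).2 : Fin ((x k).1 + 1) → E) := by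
      intro k
      rw [← R.nn_isom hp (Fin.cons (Real.sqrt t • h) (x k).2 : Fin ((x k).1 + 1) → E) g]
      congr 1
      funext i
      refine Fin.cases ?_ (fun j => ?_) i
      · simp
      · simp only [Fin.cons_succ]
        rfl
    simp only [h3] at h2
    exact tendsto_nhds_unique h2 h1

end Rep

end Pool.H770R2.MazL
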