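import Pool.Agent.H770R2.MazL6

/-!
# The derivative at zero: an invariant quadratic form
-/

set_option autoImplicit false
set_option linter.unusedVariables false

namespace Pool.H770R2.MazL

open MeasureTheory ProbabilityTheory Filter Topology
open scoped ENNReal NNReal

/-- `t_n = 1/(n+1)`. -/
noncomputable def tn (n : ℕ) : ℝ := 1 / ((n : ℝ) + 1)

lemma tn_pos (n : ℕ) : 0 < tn n := by unfold tn; positivity

lemma tn_anti {n k : ℕ} (h : n ≤ k) : tn k ≤ tn n := by
  unfold tn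
  refine one_div_le_one_div_of_le (by positivity) ?_
  have : (n : ℝ) ≤ k := by exact_mod_cast h
  linarith

lemma tn_lim : Tendsto tn atTop (𝓝 0) := tendsto_one_div_add_atTop_nhds_zero_nat

lemma tn_lim' : Tendsto tn atTop (𝓝[>] 0) :=
  tendsto_nhdsWithin_iff.2 ⟨tn_lim, Eventually.of_forall tn_pos⟩

/-- difference quotient. -/
noncomputable def DD (r V b t : ℝ) : ℝ := ((V + t * b) ^ r - V ^ r) / t

lemma DD_nonneg {r V b t : ℝ} (hr : 0 < r) (hV : 0 ≤ V) (hb : 0 ≤ b) (ht : 0 < t) :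
    0 ≤ DD r V b t := by
  unfold DD
  refine div_nonneg (sub_nonneg.2 (Real.rpow_le_rpow hV ?_ hr.le)) ht.le
  nlinarith [mul_nonneg ht.le hb]

lemma DD_mono {r V b s t : ℝ} (hr : 1 < r) (hV : 0 ≤ V) (hb : 0 ≤ b) (hs : 0 < s) (hst : s ≤ t) :
    DD r V b s ≤ DD r V b t := by
  have ht : 0 < t := hs.trans_le hst
  unfold DD
  have hcon := convexOn_rpow (p := r) hr.le
  have m1 : V ∈ Set.Ici (0:ℝ) := hV
  have m2 : V + t * b ∈ Set.Ici (0:ℝ) := add_nonneg hV (mul_nonneg ht.le hb)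
  have hθ0 : 0 ≤ s / t := by positivity
  have hθ1 : s / t ≤ 1 := (div_le_one ht).2 hst
  have h1 := hcon.2 m1 m2 (show 0 ≤ 1 - s / t by linarith) hθ0 (by ring)
  simp only [smul_eq_mul] at h1
  have e1 : (1 - s / t) * V + s / t * (V + t * b) = V + s * b := by field_simp; ring
  rw [e1] at h1
  rw [div_le_div_iff₀ hs ht]
  have h2 := mul_le_mul_of_nonneg_right h1 ht.le
  have e2 : ((1 - s / t) * V ^ r + s / t * (V + t * b) ^ r) * t =
    (t - s) * V ^ r + s * (V + t * b) ^ r := by field_simp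
  rw [e2] at h2
  nlinarith

lemma DD_anti {r V b s t : ℝ} (hr : 0 < r) (hr1 : r < 1) (hV : 0 ≤ V) (hb : 0 ≤ b) (hs : 0 < s)
    (hst : s ≤ t) : DD r V b t ≤ DD r V b s := by
  have ht : 0 < t := hs.trans_le hst
  unfold DD
  have hcon := Real.concaveOn_rpow hr.le hr1.le
  have m1 : V ∈ Set.Ici (0:ℝ) := hV
  have m2 : V + t * b ∈ Set.Ici (0:ℝ) := add_nonneg hV (mul_nonneg ht.le hb)
  have hθ0 : 0 ≤ s / t := by positivity
  have hθ1 : s / t ≤ 1 := (div_le_one ht).2 hst
  have h1 := hcon.2 m1 m2 (show 0 ≤ 1 - s / t by linarith) hθ0 (by ring)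
  simp only [smul_eq_mul] at h1
  have e1 : (1 - s / t) * V + s / t * (V + t * b) = V + s * b := by field_simp; ring
  rw [e1] at h1
  rw [div_le_div_iff₀ ht hs]
  have h2 := mul_le_mul_of_nonneg_right h1 ht.le
  have e2 : ((1 - s / t) * V ^ r + s / t * (V + t * b) ^ r) * t =
    (t - s) * V ^ r + s * (V + t * b) ^ r := by field_simp
  rw [e2] at h2
  nlinarith

/-- the density of the quadratic form. -/
noncomputable def dens (r V b : ℝ) : ℝ≥0∞ :=
  ENNReal.ofReal r * (ENNReal.ofReal V) ^ (r - 1) * ENNReal.ofReal b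

lemma dens_pos {r V b : ℝ} (hr : 0 < r) (hV : 0 < V) (hb : 0 ≤ b) :
    dens r V b = ENNReal.ofReal (r * V ^ (r - 1) * b) := by
  unfold dens
  rw [ENNReal.ofReal_rpow_of_pos hV, ← ENNReal.ofReal_mul hr.le, ← ENNReal.ofReal_mul (by positivity)]

lemma DD_lim {r V b : ℝ} (hr : 0 < r) (hr1 : r ≠ 1) (hV : 0 ≤ V) (hb : 0 ≤ b) :
    Tendsto (fun n => ENNReal.ofReal (DD r V b (tn n))) atTop (𝓝 (dens r V b)) := by
  rcases eq_or_lt_of_le hV with h0 | h0
  · subst h0
    rcases eq_or_lt_of_le hb with hb0 | hb0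
    · subst hb0
      unfold DD dens
      simp
    · have e1 : ∀ n, DD r 0 b (tn n) = (tn n) ^ (r - 1) * b ^ r := by
        intro n
        unfold DD
        rw [zero_add, Real.zero_rpow hr.ne', sub_zero, Real.mul_rpow (tn_pos n).le hb0.le,
          Real.rpow_sub_one (tn_pos n).ne']
        ring
      simp only [e1]
      unfold dens
      rcases lt_or_gt_of_ne hr1 with h1 | h1
      · rw [ENNReal.ofReal_zero, ENNReal.zero_rpow_of_neg (by linarith),
          ENNReal.mul_top (ENNReal.ofReal_pos.2 hr).ne',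
          ENNReal.top_mul (ENNReal.ofReal_pos.2 hb0).ne']
        refine ENNReal.tendsto_ofReal_nhds_top.2 ?_
        have h2 : Tendsto (fun n => (tn n) ^ (r - 1)) atTop atTop := by
          have h3 : Tendsto (fun n => ((tn n)⁻¹) ^ (1 - r)) atTop atTop := by
            refine (tendsto_rpow_atTop (by linarith)).comp ?_
            exact tn_lim'.inv_tendsto_nhdsGT_zero
          refine h3.congr fun n => ?_
          rw [← Real.rpow_neg_one, ← Real.rpow_mul (tn_pos n).le]
          congr 1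
          ring
        exact h2.atTop_mul_const (by positivity)
      · rw [ENNReal.ofReal_zero, ENNReal.zero_rpow_of_pos (by linarith), mul_zero, zero_mul]
        have h2 : Tendsto (fun n => (tn n) ^ (r - 1) * b ^ r) atTop (𝓝 (0 * b ^ r)) := by
          refine Tendsto.mul_const _ ?_
          have := tn_lim.rpow_const (p := r - 1) (Or.inr (by linarith))
          rwa [Real.zero_rpow (by linarith)] at this
        rw [zero_mul] at h2
        have h3 := ENNReal.tendsto_ofReal h2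
        rwa [ENNReal.ofReal_zero] at h3
  · rw [dens_pos hr h0 hb]
    refine ENNReal.tendsto_ofReal ?_
    have h1 : HasDerivAt (fun t : ℝ => (V + t * b) ^ r) (r * V ^ (r - 1) * b) 0 := by
      have h2 : HasDerivAt (fun t : ℝ => V + t * b) b 0 := by
        simpa using ((hasDerivAt_id (0:ℝ)).mul_const b).const_add V
      have h3 := h2.rpow_const (p := r) (Or.inl (by simp [h0.ne']))
      convert h3 using 1
      simp
      ring
    have h4 := h1.tendsto_slope_zero_right.comp tn_lim'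
    refine h4.congr fun n => ?_
    simp only [Function.comp_apply, smul_eq_mul, zero_add, zero_mul, add_zero]
    unfold DD
    rw [div_eq_inv_mul]

namespace Rep

variable {p : ℝ} {Ω : Type*} [MeasurableSpace Ω] {μ : Measure Ω} {E : Type*}
  [NormedAddCommGroup E] [NormedSpace ℝ E] (R : Rep p μ E)

/-- the quadratic form. -/
noncomputable def Q (V : Ω → ℝ) (h : E) : ℝ≥0∞ :=
  ∫⁻ ω, dens (p / 2) (V ω) ((R.J h ω) ^ 2) ∂μ

lemma lint_DD (hp : 0 < p) {V : Ω → ℝ} (hV : Measurable V) (hV0 : ∀ ω, 0 ≤ V ω)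
    (hint : ∀ t : ℝ, 0 ≤ t → ∀ h : E,
      Integrable (fun ω => (V ω + t * (R.J h ω) ^ 2) ^ (p / 2)) μ) (h : E) {t : ℝ} (ht : 0 < t) :
    ∫⁻ ω, ENNReal.ofReal (DD (p / 2) (V ω) ((R.J h ω) ^ 2) t) ∂μ =
      ENNReal.ofReal ((R.WW V t h - R.WW V 0 h) / t) := by
  have h0 : Integrable (fun ω => V ω ^ (p / 2)) μ := by
    simpa using hint 0 le_rfl h
  have hI : Integrable (fun ω => DD (p / 2) (V ω) ((R.J h ω) ^ 2) t) μ :=
    ((hint t ht.le h).sub h0).div_const t
  rw [← ofReal_integral_eq_lintegral_ofReal hI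
    (Eventually.of_forall fun ω => DD_nonneg (by linarith) (hV0 ω) (sq_nonneg _) ht)]
  congr 1
  unfold DD WW
  rw [integral_div, integral_sub (hint t ht.le h) h0]
  simp

lemma Q_lim (hp : 0 < p) (hp2 : p ≠ 2) {V : Ω → ℝ} (hV : Measurable V) (hV0 : ∀ ω, 0 ≤ V ω)
    (hint : ∀ t : ℝ, 0 ≤ t → ∀ h : E,
      Integrable (fun ω => (V ω + t * (R.J h ω) ^ 2) ^ (p / 2)) μ) (h : E) :
    Tendsto (fun n => ENNReal.ofReal ((R.WW V (tn n) h - R.WW V 0 h) / tn n)) atTop
      (𝓝 (R.Q V h)) := by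
  have hm := R.meas h
  have hr : 0 < p / 2 := by linarith
  have hr1 : p / 2 ≠ 1 := by intro h; apply hp2; linarith
  have hmeas : ∀ n, AEMeasurable
      (fun ω => ENNReal.ofReal (DD (p / 2) (V ω) ((R.J h ω) ^ 2) (tn n))) μ := by
    intro n
    unfold DD
    exact (by fun_prop : Measurable fun ω => ENNReal.ofReal
      (((V ω + tn n * (R.J h ω) ^ 2) ^ (p / 2) - V ω ^ (p / 2)) / tn n)).aemeasurable
  have hlim : ∀ᵐ ω ∂μ, Tendsto
      (fun n => ENNReal.ofReal (DD (p / 2) (V ω) ((R.J h ω) ^ 2) (tn n))) atTop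
      (𝓝 (dens (p / 2) (V ω) ((R.J h ω) ^ 2))) :=
    Eventually.of_forall fun ω => DD_lim hr hr1 (hV0 ω) (sq_nonneg _)
  have main : Tendsto (fun n => ∫⁻ ω, ENNReal.ofReal (DD (p / 2) (V ω) ((R.J h ω) ^ 2) (tn n)) ∂μ)
      atTop (𝓝 (R.Q V h)) := by
    rcases lt_or_gt_of_ne hr1 with h1 | h1
    · refine lintegral_tendsto_of_tendsto_of_monotone hmeas ?_ hlim
      refine Eventually.of_forall fun ω n k hnk => ?_
      exact ENNReal.ofReal_le_ofReal
        (DD_anti hr h1 (hV0 ω) (sq_nonneg _) (tn_pos k) (tn_anti hnk))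
    · refine lintegral_tendsto_of_tendsto_of_antitone hmeas ?_ ?_ hlim
      · refine Eventually.of_forall fun ω n k hnk => ?_
        exact ENNReal.ofReal_le_ofReal
          (DD_mono h1 (hV0 ω) (sq_nonneg _) (tn_pos k) (tn_anti hnk))
      · rw [R.lint_DD hp hV hV0 hint h (tn_pos 0)]
        exact ENNReal.ofReal_ne_top
  refine main.congr fun n => ?_
  exact R.lint_DD hp hV hV0 hint h (tn_pos n)

lemma dens_scale {r V b c : ℝ} (hb : 0 ≤ b) (hc : 0 ≤ c) :
    dens r V (c * b) = ENNReal.ofReal c * dens r V b := by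
  unfold dens
  rw [ENNReal.ofReal_mul hc]
  ring

lemma dens_meas {V : Ω → ℝ} (hV : Measurable V) (h : E) :
    Measurable fun ω => dens (p / 2) (V ω) ((R.J h ω) ^ 2) := by
  have hm := R.meas h
  unfold dens
  fun_prop

lemma Q_smul {V : Ω → ℝ} (hV : Measurable V) (c : ℝ) (h : E) :
    R.Q V (c • h) = ENNReal.ofReal (c ^ 2) * R.Q V h := by
  unfold Q
  rw [← lintegral_const_mul _ (R.dens_meas hV h)]
  refine lintegral_congr_ae ?_
  filter_upwards [R.smul c h] with ω hω
  rw [hω, mul_pow, dens_scale (sq_nonneg _) (sq_nonneg _)]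

end Rep

end Pool.H770R2.MazL
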