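import Pool.Agent.H770R2.MazL7

/-!
# The invariant Hilbertian norm on a Hilbertian subspace of `L_p`
-/

set_option autoImplicit false
set_option linter.unusedVariables false

namespace Pool.H770R2.MazL

open MeasureTheory ProbabilityTheory Filter Topology
open scoped ENNReal NNReal

lemma dens_upper {r V b : ℝ} (hr : 1 < r) (hV : 0 ≤ V) (hb : 0 ≤ b) :
    dens r V b ≤ ENNReal.ofReal r * (ENNReal.ofReal (V ^ r) + ENNReal.ofReal (b ^ r)) := by
  have hr0 : 0 < r := by linarith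
  rcases eq_or_lt_of_le hV with h0 | h0
  · subst h0
    unfold dens
    rw [ENNReal.ofReal_zero, ENNReal.zero_rpow_of_pos (by linarith), mul_zero, zero_mul]
    exact zero_le
  · rw [dens_pos hr0 h0 hb, ← ENNReal.ofReal_add (by positivity) (by positivity),
      ← ENNReal.ofReal_mul hr0.le, mul_assoc]
    refine ENNReal.ofReal_le_ofReal (mul_le_mul_of_nonneg_left ?_ hr0.le)
    have e : ∀ y : ℝ, 0 < y → y ^ (r - 1) * y = y ^ r := by
      intro y hy
      rw [Real.rpow_sub_one hy.ne']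
      field_simp
    have hVr : 0 ≤ V ^ r := by positivity
    have hbr : 0 ≤ b ^ r := by positivity
    rcases le_or_gt b V with h | h
    · have : V ^ (r - 1) * b ≤ V ^ (r - 1) * V := mul_le_mul_of_nonneg_left h (by positivity)
      rw [e V h0] at this
      linarith
    · have : V ^ (r - 1) * b ≤ b ^ (r - 1) * b :=
        mul_le_mul_of_nonneg_right (Real.rpow_le_rpow hV h.le (by linarith)) hb
      rw [e b (h0.trans h)] at this
      linarith

lemma dens_lower {r V b δ : ℝ} (hr : 0 < r) (hr1 : r < 1) (hV : 0 ≤ V) (hb : 0 ≤ b) (hδ : 0 < δ) :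
    ENNReal.ofReal (b ^ r) ≤ ENNReal.ofReal (δ ^ (r - 1) / r) * dens r V b +
      ENNReal.ofReal (δ ^ r * V ^ r) := by
  rcases eq_or_lt_of_le hV with h0 | h0
  · subst h0
    rcases eq_or_lt_of_le hb with hb0 | hb0
    · subst hb0
      rw [Real.zero_rpow hr.ne', ENNReal.ofReal_zero]
      exact zero_le
    · unfold dens
      rw [ENNReal.ofReal_zero, ENNReal.zero_rpow_of_neg (by linarith),
        ENNReal.mul_top (ENNReal.ofReal_pos.2 hr).ne', ENNReal.top_mul (ENNReal.ofReal_pos.2 hb0).ne',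
        ENNReal.mul_top (ENNReal.ofReal_pos.2 (by positivity)).ne']
      simp
  · rw [dens_pos hr h0 hb, ← ENNReal.ofReal_mul (by positivity), ← ENNReal.ofReal_add
      (by positivity) (by positivity)]
    refine ENNReal.ofReal_le_ofReal ?_
    have e : δ ^ (r - 1) / r * (r * V ^ (r - 1) * b) = (δ * V) ^ (r - 1) * b := by
      rw [Real.mul_rpow hδ.le hV]
      field_simp
    rw [e]
    rcases le_or_gt b (δ * V) with h | h
    · have h1 : b ^ r ≤ (δ * V) ^ r := Real.rpow_le_rpow hb h hr.le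
      rw [Real.mul_rpow hδ.le hV] at h1
      have : 0 ≤ (δ * V) ^ (r - 1) * b := by positivity
      linarith
    · have hb0 : 0 < b := lt_trans (by positivity) h
      have h1 : b ^ (r - 1) ≤ (δ * V) ^ (r - 1) :=
        Real.rpow_le_rpow_of_nonpos (by positivity) h.le (by linarith)
      have h2 : b ^ (r - 1) * b = b ^ r := by
        rw [Real.rpow_sub_one hb0.ne']
        field_simp
      have h3 := mul_le_mul_of_nonneg_right h1 hb
      rw [h2] at h3
      have : 0 ≤ δ ^ r * V ^ r := by positivity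
      linarith

namespace Rep

variable {p : ℝ} {Ω : Type*} [MeasurableSpace Ω] {μ : Measure Ω} {E : Type*}
  [NormedAddCommGroup E] [NormedSpace ℝ E] (R : Rep p μ E)

/-- Main quadratic form statement. -/
lemma exists_Q [Nontrivial E] {H : Type*} [NormedAddCommGroup H] [InnerProductSpace ℝ H]
    (hp : 0 < p) (hp2 : p ≠ 2) (T : E ≃L[ℝ] H) :
    ∃ (V : Ω → ℝ) (c C : ℝ), Measurable V ∧ (∀ ω, 0 ≤ V ω) ∧ 0 < c ∧ 0 < C ∧
      (∀ h : E, R.Q V h ≠ ∞) ∧
      (∀ h : E, c * ‖h‖ ^ 2 ≤ (R.Q V h).toReal ∧ (R.Q V h).toReal ≤ C * ‖h‖ ^ 2) ∧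
      (∀ (h : E) (g : E →ₗᵢ[ℝ] E), R.Q V (g h) = R.Q V h) := by
  have hr : 0 < p / 2 := by linarith
  obtain ⟨ε, hε⟩ : ∃ ε : ℝ, Sg (p / 2) ε := by
    rcases lt_or_gt_of_ne hp2 with h | h
    · exact ⟨-1, Or.inr ⟨rfl, by linarith⟩⟩
    · exact ⟨1, Or.inl ⟨rfl, by linarith⟩⟩
  obtain ⟨m, V, hm, hV, hV0, hint, hW0, hW1, hW2⟩ := R.exists_extremal hp hε T
  have hinv : ∀ (h : E) (g : E →ₗᵢ[ℝ] E), R.Q V (g h) = R.Q V h := by
    intro h g
    have h1 := R.Q_lim hp hp2 hV hV0 hint h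
    have h2 := R.Q_lim hp hp2 hV hV0 hint (g h)
    simp only [hW2 _ (tn_pos _).le h g, hW2 0 le_rfl h g] at h2
    exact tendsto_nhds_unique h2 h1
  have hVint : ∫⁻ ω, ENNReal.ofReal (V ω ^ (p / 2)) ∂μ = ENNReal.ofReal m := by
    have h0 : Integrable (fun ω => V ω ^ (p / 2)) μ := by
      simpa using hint 0 le_rfl (0 : E)
    rw [← ofReal_integral_eq_lintegral_ofReal h0
      (Eventually.of_forall fun ω => Real.rpow_nonneg (hV0 ω) _), ← hW0 0]
    unfold WW
    simp
  have hbint : ∀ h : E, ∫⁻ ω, ENNReal.ofReal (((R.J h ω) ^ 2) ^ (p / 2)) ∂μ =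
      ENNReal.ofReal (‖h‖ ^ p) := by
    intro h
    rw [← R.norm]
    refine lintegral_congr fun ω => ?_
    rw [← sq_abs, ← Real.rpow_natCast, ← Real.rpow_mul (abs_nonneg _)]
    congr 2
    push_cast
    ring
  -- the unit vector bounds
  have key : ∃ c C : ℝ, 0 < c ∧ 0 < C ∧ ∀ u : E, ‖u‖ = 1 →
      ENNReal.ofReal c ≤ R.Q V u ∧ R.Q V u ≤ ENNReal.ofReal C := by
    rcases hε with ⟨rfl, h1⟩ | ⟨rfl, h1⟩
    · refine ⟨m * (p / 2), (p / 2) * (m + 1), by positivity, by positivity, fun u hu => ⟨?_, ?_⟩⟩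
      · refine ge_of_tendsto (R.Q_lim hp hp2 hV hV0 hint u) (Eventually.of_forall fun n => ?_)
        refine ENNReal.ofReal_le_ofReal ?_
        rw [hW0, le_div_iff₀ (tn_pos n)]
        have h2 := hW1 (tn n) (tn_pos n).le u
        rw [hu] at h2
        have h3 := one_add_mul_self_le_rpow_one_add (s := tn n) (by linarith [tn_pos n])
          (p := p / 2) h1.le
        have h4 := mul_le_mul_of_nonneg_left h3 hm.le
        norm_num at h2
        linarith
      · have h2 : R.Q V u ≤ ∫⁻ ω, ENNReal.ofReal (p / 2) * (ENNReal.ofReal (V ω ^ (p / 2)) +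
            ENNReal.ofReal (((R.J u ω) ^ 2) ^ (p / 2))) ∂μ :=
          lintegral_mono fun ω => dens_upper h1 (hV0 ω) (sq_nonneg _)
        refine h2.trans (le_of_eq ?_)
        rw [lintegral_const_mul' _ _ ENNReal.ofReal_ne_top, lintegral_add_left (by fun_prop),
          hVint, hbint, hu, Real.one_rpow, ← ENNReal.ofReal_add hm.le zero_le_one,
          ← ENNReal.ofReal_mul (by positivity)]
    · -- `p < 2`
      have hup : ∀ u : E, ‖u‖ = 1 → R.Q V u ≤ ENNReal.ofReal (m * (p / 2)) := by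
        intro u hu
        refine le_of_tendsto (R.Q_lim hp hp2 hV hV0 hint u) (Eventually.of_forall fun n => ?_)
        refine ENNReal.ofReal_le_ofReal ?_
        rw [hW0, div_le_iff₀ (tn_pos n)]
        have h2 := hW1 (tn n) (tn_pos n).le u
        rw [hu] at h2
        have h3 := rpow_one_add_le_one_add_mul_self (s := tn n) (by linarith [tn_pos n])
          (p := p / 2) hr.le h1.le
        have h4 := mul_le_mul_of_nonneg_left h3 hm.le
        norm_num at h2
        linarith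
      set δ : ℝ := (1 / (2 * m)) ^ (1 / (p / 2)) with hδ
      have hδ0 : 0 < δ := by positivity
      have hδr : δ ^ (p / 2) * m = 1 / 2 := by
        rw [hδ, ← Real.rpow_mul (by positivity), one_div_mul_cancel hr.ne', Real.rpow_one]
        field_simp
      set a : ℝ := δ ^ (p / 2 - 1) / (p / 2) with ha
      have ha0 : 0 < a := by positivity
      refine ⟨(2 * a)⁻¹, m * (p / 2), by positivity, by positivity, fun u hu => ⟨?_, hup u hu⟩⟩
      have h2 : ∫⁻ ω, ENNReal.ofReal (((R.J u ω) ^ 2) ^ (p / 2)) ∂μ ≤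
          ∫⁻ ω, (ENNReal.ofReal a * dens (p / 2) (V ω) ((R.J u ω) ^ 2) +
            ENNReal.ofReal (δ ^ (p / 2) * V ω ^ (p / 2))) ∂μ :=
        lintegral_mono fun ω => dens_lower hr h1 (hV0 ω) (sq_nonneg _) hδ0
      have hdm := R.dens_meas hV u
      rw [hbint, hu, Real.one_rpow, lintegral_add_right _ (by fun_prop),
        lintegral_const_mul _ hdm] at h2
      have h3 : ∫⁻ ω, ENNReal.ofReal (δ ^ (p / 2) * V ω ^ (p / 2)) ∂μ = ENNReal.ofReal (1 / 2) := by
        rw [← hδr, ENNReal.ofReal_mul (by positivity), ← hVint, ← lintegral_const_mul' _ _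
          ENNReal.ofReal_ne_top]
        refine lintegral_congr fun ω => ?_
        rw [ENNReal.ofReal_mul (by positivity)]
      rw [h3] at h2
      have hfin : R.Q V u ≠ ∞ := ne_top_of_le_ne_top ENNReal.ofReal_ne_top (hup u hu)
      have h4 : ENNReal.ofReal 1 ≤ ENNReal.ofReal (a * (R.Q V u).toReal + 1 / 2) := by
        refine h2.trans (le_of_eq ?_)
        rw [ENNReal.ofReal_add (by positivity) (by norm_num), ENNReal.ofReal_mul ha0.le,
          ENNReal.ofReal_toReal hfin]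
        rfl
      rw [ENNReal.ofReal_le_ofReal_iff (by positivity)] at h4
      rw [← ENNReal.ofReal_toReal hfin]
      refine ENNReal.ofReal_le_ofReal ?_
      rw [inv_le_iff_one_le_mul₀ (by positivity)]
      linarith
  obtain ⟨c, C, hc, hC, hkey⟩ := key
  have hscale : ∀ h : E, ENNReal.ofReal (c * ‖h‖ ^ 2) ≤ R.Q V h ∧
      R.Q V h ≤ ENNReal.ofReal (C * ‖h‖ ^ 2) := by
    intro h
    rcases eq_or_ne h 0 with rfl | hne
    · have : R.Q V (0 : E) = 0 := by
        have := R.Q_smul hV 0 (0 : E)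
        simpa using this
      rw [this]
      simp
    · have hn : 0 < ‖h‖ := norm_pos_iff.2 hne
      have hu : ‖(‖h‖⁻¹ • h : E)‖ = 1 := by
        rw [norm_smul, norm_inv, norm_norm, inv_mul_cancel₀ hn.ne']
      have h1 := hkey _ hu
      have h2 : R.Q V h = ENNReal.ofReal (‖h‖ ^ 2) * R.Q V (‖h‖⁻¹ • h) := by
        rw [← R.Q_smul hV, smul_smul, mul_inv_cancel₀ hn.ne', one_smul]
      rw [h2]
      constructor
      · rw [mul_comm c, ENNReal.ofReal_mul (by positivity)]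
        exact mul_le_mul_right h1.1 _
      · rw [mul_comm C, ENNReal.ofReal_mul (by positivity)]
        exact mul_le_mul_right h1.2 _
  have hfin : ∀ h : E, R.Q V h ≠ ∞ := fun h =>
    ne_top_of_le_ne_top ENNReal.ofReal_ne_top (hscale h).2
  refine ⟨V, c, C, hV, hV0, hc, hC, hfin, fun h => ⟨?_, ?_⟩, hinv⟩
  · have := ENNReal.toReal_mono (hfin h) (hscale h).1
    rwa [ENNReal.toReal_ofReal (by positivity)] at this
  · have := ENNReal.toReal_mono ENNReal.ofReal_ne_top (hscale h).2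
    rwa [ENNReal.toReal_ofReal (by positivity)] at this

/-- the weighted function. -/
noncomputable def KK (V : Ω → ℝ) (h : E) (ω : Ω) : ℝ :=
  Real.sqrt ((p / 2) * V ω ^ (p / 2 - 1)) * R.J h ω

lemma KK_meas {V : Ω → ℝ} (hV : Measurable V) (h : E) : Measurable (R.KK V h) := by
  have hm := R.meas h
  unfold KK
  fun_prop

lemma KK_sq (hp : 0 < p) (hp2 : p ≠ 2) {V : Ω → ℝ} (hV : Measurable V) (hV0 : ∀ ω, 0 ≤ V ω)
    {h : E} (hfin : R.Q V h ≠ ∞) :
    ∫⁻ ω, ‖R.KK V h ω‖ₑ ^ (2:ℝ) ∂μ = R.Q V h := by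
  have hr : 0 < p / 2 := by linarith
  have hae : ∀ᵐ ω ∂μ, dens (p / 2) (V ω) ((R.J h ω) ^ 2) < ∞ :=
    ae_lt_top (R.dens_meas hV h) hfin
  unfold Q
  refine lintegral_congr_ae ?_
  filter_upwards [hae] with ω hω
  have e1 : ‖R.KK V h ω‖ₑ ^ (2:ℝ) =
      ENNReal.ofReal ((p / 2) * V ω ^ (p / 2 - 1) * (R.J h ω) ^ 2) := by
    rw [Real.enorm_eq_ofReal_abs, ENNReal.ofReal_rpow_of_nonneg (abs_nonneg _) (by norm_num)]
    congr 1
    have : |R.KK V h ω| ^ (2:ℝ) = (R.KK V h ω) ^ 2 := by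
      norm_cast
      rw [sq_abs]
    rw [this]
    unfold KK
    rw [mul_pow, Real.sq_sqrt (by have := hV0 ω; positivity)]
  rw [e1]
  rcases eq_or_lt_of_le (hV0 ω) with h0 | h0
  · rw [← h0] at hω ⊢
    rcases lt_or_gt_of_ne hp2 with h1 | h1
    · have hJ : (R.J h ω) ^ 2 = 0 := by
        by_contra hne
        have hpos : 0 < (R.J h ω) ^ 2 := lt_of_le_of_ne (sq_nonneg _) (Ne.symm hne)
        unfold dens at hω
        rw [ENNReal.ofReal_zero, ENNReal.zero_rpow_of_neg (by linarith),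
          ENNReal.mul_top (ENNReal.ofReal_pos.2 hr).ne',
          ENNReal.top_mul (ENNReal.ofReal_pos.2 hpos).ne'] at hω
        exact lt_irrefl _ hω
      rw [hJ]
      unfold dens
      simp
    · unfold dens
      rw [ENNReal.ofReal_zero, ENNReal.zero_rpow_of_pos (by linarith), mul_zero, zero_mul,
        Real.zero_rpow (by linarith), mul_zero, zero_mul, ENNReal.ofReal_zero]
  · rw [dens_pos hr h0 (sq_nonneg _)]

include R in
/-- Main theorem in representation form: an invariant Hilbertian norm, for `p ≠ 2`. -/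
theorem exists_Phi_ne_two [Nontrivial E] {H : Type*} [NormedAddCommGroup H] [InnerProductSpace ℝ H]
    (hp : 0 < p) (hp2 : p ≠ 2) (T : E ≃L[ℝ] H) :
    ∃ (Φ : E →ₗ[ℝ] Lp ℝ 2 μ) (c C : ℝ), 0 < c ∧ 0 < C ∧
      (∀ h : E, c * ‖h‖ ^ 2 ≤ ‖Φ h‖ ^ 2 ∧ ‖Φ h‖ ^ 2 ≤ C * ‖h‖ ^ 2) ∧
      (∀ (h : E) (g : E →ₗᵢ[ℝ] E), ‖Φ (g h)‖ = ‖Φ h‖) := by
  obtain ⟨V, c, C, hV, hV0, hc, hC, hfin, hbd, hinv⟩ := R.exists_Q hp hp2 T
  have hLp : ∀ h : E, MemLp (R.KK V h) 2 μ := by
    intro h
    refine ⟨(R.KK_meas hV h).aestronglyMeasurable, ?_⟩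
    rw [eLpNorm_lt_top_iff_lintegral_rpow_enorm_lt_top (by norm_num) (by norm_num)]
    rw [ENNReal.toReal_ofNat, R.KK_sq hp hp2 hV hV0 (hfin h)]
    exact lt_top_iff_ne_top.2 (hfin h)
  set Φ : E →ₗ[ℝ] Lp ℝ 2 μ :=
    { toFun := fun h => (hLp h).toLp _
      map_add' := by
        intro h k
        rw [← MemLp.toLp_add, MemLp.toLp_eq_toLp_iff]
        filter_upwards [R.add h k] with ω hω
        simp only [KK, Pi.add_apply, hω]
        ring
      map_smul' := by
        intro a h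
        rw [RingHom.id_apply, ← MemLp.toLp_const_smul, MemLp.toLp_eq_toLp_iff]
        filter_upwards [R.smul a h] with ω hω
        simp only [KK, Pi.smul_apply, hω, smul_eq_mul]
        ring } with hΦ
  have hn : ∀ h : E, ‖Φ h‖ ^ 2 = (R.Q V h).toReal := by
    intro h
    show ‖(hLp h).toLp _‖ ^ 2 = _
    rw [Lp.norm_toLp, eLpNorm_eq_lintegral_rpow_enorm_toReal (by norm_num) (by norm_num),
      ENNReal.toReal_ofNat, R.KK_sq hp hp2 hV hV0 (hfin h), ← ENNReal.toReal_rpow,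
      ← Real.rpow_natCast, ← Real.rpow_mul ENNReal.toReal_nonneg]
    norm_num
  refine ⟨Φ, c, C, hc, hC, fun h => ?_, fun h g => ?_⟩
  · rw [hn]
    exact hbd h
  · have h1 : ‖Φ (g h)‖ ^ 2 = ‖Φ h‖ ^ 2 := by rw [hn, hn, hinv]
    exact (pow_left_inj₀ (norm_nonneg _) (norm_nonneg _) two_ne_zero).1 h1

end Rep

end Pool.H770R2.MazL
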