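import Pool.Agent.H770R2.MazL8

/-!
# Hilbertian subspaces and quotients of `L_p`: invariant inner products, convex transitivity
-/

set_option autoImplicit false
set_option linter.unusedVariables false

namespace Pool.H770R2.MazL

open MeasureTheory ProbabilityTheory Filter Topology
open scoped ENNReal NNReal

section rep

variable {Ω : Type*} [MeasurableSpace Ω] {μ : Measure Ω} {E : Type*}
  [NormedAddCommGroup E] [NormedSpace ℝ E]

/-- the representation attached to an isometric embedding into `L_p`. -/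
noncomputable def repOf {P : ℝ≥0∞} (hP0 : P ≠ 0) (hPt : P ≠ ∞) (J : E →ₗ[ℝ] Lp ℝ P μ)
    (hJ : ∀ u, ‖J u‖ = ‖u‖) : Rep P.toReal μ E where
  J := fun u => (J u : Ω → ℝ)
  meas := fun u => (Lp.stronglyMeasurable (J u)).measurable
  add := by
    intro u v
    rw [map_add]
    filter_upwards [Lp.coeFn_add (J u) (J v)] with ω hω
    rw [hω]
    rfl
  smul := by
    intro c u
    rw [map_smul]
    filter_upwards [Lp.coeFn_smul c (J u)] with ω hω
    rw [hω]
    rfl
  norm := by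
    intro u
    have hp : 0 < P.toReal := ENNReal.toReal_pos hP0 hPt
    have h1 := hJ u
    rw [Lp.norm_def] at h1
    have h2 : eLpNorm (J u) P μ = ENNReal.ofReal ‖u‖ := by
      rw [← h1, ENNReal.ofReal_toReal (Lp.eLpNorm_ne_top (J u))]
    rw [eLpNorm_eq_lintegral_rpow_enorm_toReal hP0 hPt] at h2
    have h3 : ((∫⁻ ω, ‖(J u : Ω → ℝ) ω‖ₑ ^ P.toReal ∂μ) ^ (1 / P.toReal)) ^ P.toReal =
        (ENNReal.ofReal ‖u‖) ^ P.toReal := by rw [h2]
    rw [← ENNReal.rpow_mul, one_div, inv_mul_cancel₀ hp.ne', ENNReal.rpow_one,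
      ENNReal.ofReal_rpow_of_nonneg (norm_nonneg _) hp.le] at h3
    rw [← h3]
    refine lintegral_congr fun ω => ?_
    rw [Real.enorm_eq_ofReal_abs, ENNReal.ofReal_rpow_of_nonneg (abs_nonneg _) hp.le]

/-- **Main theorem.** A space which is isomorphic to a Hilbert space and isometric to a subspace
of `L_p(μ)`, `0 < p < ∞`, has an equivalent Hilbertian seminorm invariant under all linear
isometries. -/
theorem exists_Phi {H : Type*} [NormedAddCommGroup H] [InnerProductSpace ℝ H]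
    {P : ℝ≥0∞} (hP0 : P ≠ 0) (hPt : P ≠ ∞) (J : E →ₗ[ℝ] Lp ℝ P μ)
    (hJ : ∀ u, ‖J u‖ = ‖u‖) (T : E ≃L[ℝ] H) :
    ∃ (Φ : E →ₗ[ℝ] Lp ℝ 2 μ) (c C : ℝ), 0 < c ∧ 0 < C ∧
      (∀ h : E, c * ‖h‖ ^ 2 ≤ ‖Φ h‖ ^ 2 ∧ ‖Φ h‖ ^ 2 ≤ C * ‖h‖ ^ 2) ∧
      (∀ (h : E) (g : E →ₗᵢ[ℝ] E), ‖Φ (g h)‖ = ‖Φ h‖) := by
  rcases subsingleton_or_nontrivial E with hE | hE
  · refine ⟨0, 1, 1, one_pos, one_pos, fun h => ?_, fun h g => ?_⟩
    · have : h = 0 := Subsingleton.elim _ _
      subst this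
      simp
    · simp
  by_cases h2 : P = 2
  · subst h2
    refine ⟨J, 1, 1, one_pos, one_pos, fun h => ?_, fun h g => ?_⟩
    · rw [hJ]
      simp
    · rw [hJ, hJ, g.norm_map]
  · refine (repOf hP0 hPt J hJ).exists_Phi_ne_two (ENNReal.toReal_pos hP0 hPt) ?_ T
    intro h
    apply h2
    rw [← ENNReal.ofReal_toReal hPt, h]
    simp

end rep

section quad

variable {E : Type*} [NormedAddCommGroup E] [NormedSpace ℝ E]

/-- convex transitivity of the norm. -/
def ConvTrans (E : Type*) [NormedAddCommGroup E] [NormedSpace ℝ E] : Prop :=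
  ∀ x y : E, ‖x‖ = 1 → ‖y‖ = 1 →
    y ∈ closure (convexHull ℝ {z : E | ∃ T : E ≃ₗᵢ[ℝ] E, T x = z})

lemma paral_of_quad {q : E → ℝ} (hpar : ∀ x y, q (x + y) + q (x - y) = 2 * q x + 2 * q y)
    (hhom : ∀ (c : ℝ) x, q (c • x) = c ^ 2 * q x) (hpos : ∀ x, ‖x‖ = 1 → 0 < q x)
    (hconv : ∀ a, Convex ℝ {z | q z ≤ a}) (hcl : ∀ a, IsClosed {z | q z ≤ a})
    (hinv : ∀ (g : E ≃ₗᵢ[ℝ] E) x, q (g x) = q x) (hct : ConvTrans E) :
    ∀ x y : E, ‖x + y‖ * ‖x + y‖ + ‖x - y‖ * ‖x - y‖ = 2 * (‖x‖ * ‖x‖ + ‖y‖ * ‖y‖) := by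
  have hle : ∀ x y : E, ‖x‖ = 1 → ‖y‖ = 1 → q y ≤ q x := by
    intro x y hx hy
    have h1 := hct x y hx hy
    have h2 : closure (convexHull ℝ {z : E | ∃ T : E ≃ₗᵢ[ℝ] E, T x = z}) ⊆ {z | q z ≤ q x} := by
      refine closure_minimal (convexHull_min ?_ (hconv _)) (hcl _)
      rintro z ⟨T, rfl⟩
      exact (hinv T x).le
    exact h2 h1
  rcases subsingleton_or_nontrivial E with hE | hE
  · intro x y
    have hx : x = 0 := Subsingleton.elim _ _
    have hy : y = 0 := Subsingleton.elim _ _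
    subst hx
    subst hy
    simp
  obtain ⟨u, hu⟩ : ∃ u : E, ‖u‖ = 1 := by
    obtain ⟨v, hv⟩ := exists_ne (0 : E)
    refine ⟨(‖v‖)⁻¹ • v, ?_⟩
    rw [norm_smul, norm_inv, norm_norm, inv_mul_cancel₀ (norm_ne_zero_iff.2 hv)]
  have hq : ∀ x : E, q x = q u * ‖x‖ ^ 2 := by
    intro x
    rcases eq_or_ne x 0 with rfl | hx
    · have := hhom 0 (0 : E)
      simp only [smul_zero] at this
      rw [this]
      simp
    · have hn : 0 < ‖x‖ := norm_pos_iff.2 hx
      have hv : ‖(‖x‖⁻¹ • x : E)‖ = 1 := by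
        rw [norm_smul, norm_inv, norm_norm, inv_mul_cancel₀ hn.ne']
      have h1 : q (‖x‖⁻¹ • x) = q u := le_antisymm (hle _ _ hu hv) (hle _ _ hv hu)
      have h2 : x = ‖x‖ • (‖x‖⁻¹ • x) := by
        rw [smul_smul, mul_inv_cancel₀ hn.ne', one_smul]
      conv_lhs => rw [h2]
      rw [hhom, h1]
      ring
  intro x y
  have h1 := hpar x y
  rw [hq (x + y), hq (x - y), hq x, hq y] at h1
  have h2 : q u * (‖x + y‖ ^ 2 + ‖x - y‖ ^ 2) = q u * (2 * (‖x‖ ^ 2 + ‖y‖ ^ 2)) := by linarith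
  have h3 := mul_left_cancel₀ (hpos u hu).ne' h2
  nlinarith

/-- the case of an invariant Hilbertian norm. -/
lemma paral_of_Phi {F : Type*} [NormedAddCommGroup F] [InnerProductSpace ℝ F]
    (Φ : E →ₗ[ℝ] F) {c C : ℝ} (hc : 0 < c) (hC : 0 < C)
    (hbd : ∀ h : E, c * ‖h‖ ^ 2 ≤ ‖Φ h‖ ^ 2 ∧ ‖Φ h‖ ^ 2 ≤ C * ‖h‖ ^ 2)
    (hinv : ∀ (h : E) (g : E →ₗᵢ[ℝ] E), ‖Φ (g h)‖ = ‖Φ h‖) (hct : ConvTrans E) :
    ∀ x y : E, ‖x + y‖ * ‖x + y‖ + ‖x - y‖ * ‖x - y‖ = 2 * (‖x‖ * ‖x‖ + ‖y‖ * ‖y‖) := by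
  have hcont : Continuous Φ := by
    have : ∀ h, ‖Φ h‖ ≤ Real.sqrt C * ‖h‖ := by
      intro h
      refine le_of_sq_le_sq ?_ (by positivity)
      rw [mul_pow, Real.sq_sqrt hC.le]
      exact (hbd h).2
    exact AddMonoidHomClass.continuous_of_bound Φ (Real.sqrt C) this
  refine paral_of_quad (q := fun x => ‖Φ x‖ ^ 2) ?_ ?_ ?_ ?_ ?_ ?_ hct
  · intro x y
    simp only [map_add, map_sub]
    have := parallelogram_law_with_norm ℝ (Φ x) (Φ y)
    nlinarith
  · intro a x
    simp only [map_smul, norm_smul, mul_pow, Real.norm_eq_abs, sq_abs]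
  · intro x hx
    have := (hbd x).1
    rw [hx] at this
    show 0 < ‖Φ x‖ ^ 2
    nlinarith
  · intro a
    rcases lt_or_ge a 0 with ha | ha
    · have : {z : E | ‖Φ z‖ ^ 2 ≤ a} = ∅ := by
        ext z
        simp only [Set.mem_ofPred_eq, Set.mem_empty_iff_false, iff_false, not_le]
        exact lt_of_lt_of_le ha (sq_nonneg _)
      rw [this]
      exact convex_empty
    · have : {z : E | ‖Φ z‖ ^ 2 ≤ a} = Φ ⁻¹' (Metric.closedBall 0 (Real.sqrt a)) := by
        ext z
        simp only [Set.mem_ofPred_eq, Set.mem_preimage, mem_closedBall_zero_iff]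
        exact (Real.le_sqrt (norm_nonneg _) ha).symm
      rw [this]
      exact (convex_closedBall 0 _).linear_preimage Φ
  · intro a
    exact isClosed_le (hcont.norm.pow 2) continuous_const
  · intro g x
    have := hinv x g.toLinearIsometry
    show ‖Φ (g.toLinearIsometry x)‖ ^ 2 = ‖Φ x‖ ^ 2
    rw [this]

/-- the dual case. -/
lemma paral_of_Phi_dual {F : Type*} [NormedAddCommGroup F] [InnerProductSpace ℝ F]
    (Φ : StrongDual ℝ E →ₗ[ℝ] F) {c C : ℝ} (hc : 0 < c) (hC : 0 < C)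
    (hbd : ∀ h : StrongDual ℝ E, c * ‖h‖ ^ 2 ≤ ‖Φ h‖ ^ 2 ∧ ‖Φ h‖ ^ 2 ≤ C * ‖h‖ ^ 2)
    (hinv : ∀ (h : StrongDual ℝ E) (g : StrongDual ℝ E →ₗᵢ[ℝ] StrongDual ℝ E),
      ‖Φ (g h)‖ = ‖Φ h‖) (hct : ConvTrans E) :
    ∀ x y : E, ‖x + y‖ * ‖x + y‖ + ‖x - y‖ * ‖x - y‖ = 2 * (‖x‖ * ‖x‖ + ‖y‖ * ‖y‖) := by
  set q : E → ℝ := fun x => ⨆ f : StrongDual ℝ E, (2 * f x - ‖Φ f‖ ^ 2) with hq
  have hub : ∀ (x : E) (f : StrongDual ℝ E), 2 * f x - ‖Φ f‖ ^ 2 ≤ ‖x‖ ^ 2 / c := by
    intro x f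
    have h1 : f x ≤ ‖f‖ * ‖x‖ := (le_abs_self _).trans (f.le_opNorm x)
    have h2 := (hbd f).1
    rw [le_div_iff₀ hc]
    nlinarith [sq_nonneg (c * ‖f‖ - ‖x‖)]
  have hbdd : ∀ x : E, BddAbove (Set.range fun f : StrongDual ℝ E => 2 * f x - ‖Φ f‖ ^ 2) := by
    intro x
    exact ⟨‖x‖ ^ 2 / c, by rintro _ ⟨f, rfl⟩; exact hub x f⟩
  have hle : ∀ (x : E) (f : StrongDual ℝ E), 2 * f x - ‖Φ f‖ ^ 2 ≤ q x := fun x f =>
    le_ciSup (hbdd x) f
  have hnonneg : ∀ x, 0 ≤ q x := by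
    intro x
    have := hle x 0
    simpa using this
  refine paral_of_quad (q := q) ?_ ?_ ?_ ?_ ?_ ?_ hct
  · intro x y
    have key : ∀ f g : StrongDual ℝ E,
        (2 * f (x + y) - ‖Φ f‖ ^ 2) + (2 * g (x - y) - ‖Φ g‖ ^ 2) =
        2 * (2 * ((1 / 2 : ℝ) • (f + g)) x - ‖Φ ((1 / 2 : ℝ) • (f + g))‖ ^ 2) +
        2 * (2 * ((1 / 2 : ℝ) • (f - g)) y - ‖Φ ((1 / 2 : ℝ) • (f - g))‖ ^ 2) := by
      intro f g
      have h1 := parallelogram_law_with_norm ℝ (Φ f) (Φ g)
      simp only [map_add, map_sub, map_smul, norm_smul, _root_.smul_apply,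
        _root_.add_apply, _root_.sub_apply, smul_eq_mul]
      norm_num
      nlinarith
    apply le_antisymm
    · have h1 : ∀ g, q (x + y) ≤ 2 * q x + 2 * q y - (2 * g (x - y) - ‖Φ g‖ ^ 2) := by
        intro g
        refine ciSup_le fun f => ?_
        have h2 := key f g
        have h3 := hle x ((1 / 2 : ℝ) • (f + g))
        have h4 := hle y ((1 / 2 : ℝ) • (f - g))
        linarith
      have h5 : q (x - y) ≤ 2 * q x + 2 * q y - q (x + y) := by
        refine ciSup_le fun g => ?_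
        linarith [h1 g]
      linarith
    · have h1 : ∀ b : StrongDual ℝ E, q x ≤ (q (x + y) + q (x - y) -
          2 * (2 * b y - ‖Φ b‖ ^ 2)) / 2 := by
        intro b
        refine ciSup_le fun a => ?_
        have h2 := key (a + b) (a - b)
        have e1 : (1 / 2 : ℝ) • (a + b + (a - b)) = a := by
          rw [show a + b + (a - b) = (2 : ℝ) • a by rw [two_smul]; abel, smul_smul]
          norm_num
        have e2 : (1 / 2 : ℝ) • (a + b - (a - b)) = b := by
          rw [show a + b - (a - b) = (2 : ℝ) • b by rw [two_smul]; abel, smul_smul]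
          norm_num
        rw [e1, e2] at h2
        have h3 := hle (x + y) (a + b)
        have h4 := hle (x - y) (a - b)
        linarith
      have h5 : q y ≤ (q (x + y) + q (x - y) - 2 * q x) / 2 := by
        refine ciSup_le fun b => ?_
        linarith [h1 b]
      linarith
  · intro a x
    have hmain : ∀ (a : ℝ) (x : E), a ≠ 0 → a ^ 2 * q x ≤ q (a • x) := by
      intro a x ha
      have h1 : q x ≤ q (a • x) / a ^ 2 := by
        refine ciSup_le fun f => ?_
        have h2 := hle (a • x) (a • f)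
        rw [le_div_iff₀ (by positivity)]
        simp only [map_smul, norm_smul, _root_.smul_apply, smul_eq_mul, mul_pow,
          Real.norm_eq_abs, sq_abs] at h2
        nlinarith
      rw [le_div_iff₀ (by positivity)] at h1
      linarith
    rcases eq_or_ne a 0 with rfl | ha
    · have : q 0 = 0 := by
        refine le_antisymm (ciSup_le fun f => ?_) (hnonneg 0)
        simp
      simp [this]
    · refine le_antisymm ?_ (hmain a x ha)
      have h1 := hmain a⁻¹ (a • x) (inv_ne_zero ha)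
      rw [smul_smul, inv_mul_cancel₀ ha, one_smul, inv_pow, inv_mul_le_iff₀ (by positivity)] at h1
      exact h1
  · intro x hx
    have hx0 : x ≠ 0 := by
      intro h
      rw [h, norm_zero] at hx
      norm_num at hx
    obtain ⟨f, hf1, hf2⟩ := exists_dual_vector ℝ x (norm_ne_zero_iff.2 hx0)
    have h1 := hle x ((1 / C) • f)
    have h2 := (hbd f).2
    rw [hf1] at h2
    simp only [map_smul, norm_smul, _root_.smul_apply, smul_eq_mul, mul_pow,
      Real.norm_eq_abs, sq_abs] at h1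
    rw [hf2, hx] at h1
    norm_num at h1 h2
    have h3 : (C ^ 2)⁻¹ * ‖Φ f‖ ^ 2 ≤ C⁻¹ := by
      rw [inv_mul_le_iff₀ (by positivity)]
      have : C ^ 2 * C⁻¹ = C := by field_simp
      rw [this]
      exact h2
    have h4 : 0 < C⁻¹ := by positivity
    nlinarith
  · intro a
    have : {z : E | q z ≤ a} = ⋂ f : StrongDual ℝ E, {z : E | 2 * f z - ‖Φ f‖ ^ 2 ≤ a} := by
      ext z
      simp only [Set.mem_ofPred_eq, Set.mem_iInter]
      exact ⟨fun h f => (hle z f).trans h, fun h => ciSup_le h⟩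
    rw [this]
    refine convex_iInter fun f => ?_
    have : {z : E | 2 * f z - ‖Φ f‖ ^ 2 ≤ a} = {z : E | f z ≤ (a + ‖Φ f‖ ^ 2) / 2} := by
      ext z
      simp only [Set.mem_ofPred_eq]
      constructor <;> intro h <;> linarith
    rw [this]
    exact convex_halfSpace_le f.toLinearMap.isLinear _
  · intro a
    have : {z : E | q z ≤ a} = ⋂ f : StrongDual ℝ E, {z : E | 2 * f z - ‖Φ f‖ ^ 2 ≤ a} := by
      ext z
      simp only [Set.mem_ofPred_eq, Set.mem_iInter]
      exact ⟨fun h f => (hle z f).trans h, fun h => ciSup_le h⟩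
    rw [this]
    refine isClosed_iInter fun f => ?_
    exact isClosed_le (by fun_prop) continuous_const
  · intro g x
    have hstep : ∀ (g : E ≃ₗᵢ[ℝ] E) (x : E), q (g x) ≤ q x := by
      intro g x
      refine ciSup_le fun f => ?_
      set G : StrongDual ℝ E →ₗᵢ[ℝ] StrongDual ℝ E :=
        { toFun := fun f => f.comp (g.toContinuousLinearEquiv : E →L[ℝ] E)
          map_add' := fun _ _ => rfl
          map_smul' := fun _ _ => rfl
          norm_map' := fun f => ContinuousLinearMap.opNorm_comp_linearIsometryEquiv f g } with hG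
      have h1 := hinv f G
      have h2 := hle x (G f)
      rw [h1] at h2
      exact h2
    refine le_antisymm (hstep g x) ?_
    have := hstep g.symm (g x)
    simpa using this

end quad

section dual

variable {H : Type*} [NormedAddCommGroup H] [InnerProductSpace ℝ H] [CompleteSpace H]

/-- a real Hilbert space is isomorphic to its dual. -/
noncomputable def toD (H : Type*) [NormedAddCommGroup H] [InnerProductSpace ℝ H]
    [CompleteSpace H] : StrongDual ℝ H ≃L[ℝ] H :=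
  ContinuousLinearEquiv.symm
    { toFun := InnerProductSpace.toDual ℝ H
      map_add' := fun x y => map_add _ x y
      map_smul' := fun c x => by
        rw [LinearIsometryEquiv.map_smulₛₗ]
        simp
      invFun := (InnerProductSpace.toDual ℝ H).symm
      left_inv := fun x => LinearIsometryEquiv.symm_apply_apply _ x
      right_inv := fun x => LinearIsometryEquiv.apply_symm_apply _ x
      continuous_toFun := (InnerProductSpace.toDual ℝ H).continuous
      continuous_invFun := (InnerProductSpace.toDual ℝ H).symm.continuous }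

end dual

end Pool.H770R2.MazL
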