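import Pool.Agent.H770R2.MazL3

/-!
# Gaussian tools: rotations and products
-/

set_option autoImplicit false
set_option linter.unusedVariables false
set_option linter.unusedSectionVars false

namespace Pool.H770R2.PD

open MeasureTheory ProbabilityTheory Pool.H770R2.MazL
open scoped ENNReal NNReal

noncomputable section

variable {H : Type*} [NormedAddCommGroup H] [InnerProductSpace ℝ H]

/-- linear combination. -/
def GG {n : ℕ} (x : Fin n → H) (c : EuclideanSpace ℝ (Fin n)) : H := ∑ i, c i • x i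

lemma GG_cont {n : ℕ} (x : Fin n → H) : Continuous (GG x) := by
  unfold GG
  fun_prop

lemma GG_add {n : ℕ} (x : Fin n → H) (c c' : EuclideanSpace ℝ (Fin n)) :
    GG x (c + c') = GG x c + GG x c' := by
  unfold GG
  rw [← Finset.sum_add_distrib]
  refine Finset.sum_congr rfl fun i _ => ?_
  rw [PiLp.add_apply, add_smul]

lemma GG_smul {n : ℕ} (x : Fin n → H) (a : ℝ) (c : EuclideanSpace ℝ (Fin n)) :
    GG x (a • c) = a • GG x c := by
  unfold GG
  rw [Finset.smul_sum]
  refine Finset.sum_congr rfl fun i _ => ?_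
  rw [PiLp.smul_apply, smul_smul, smul_eq_mul]

lemma GG_smul_left {n : ℕ} (x : Fin n → H) (a : ℝ) (c : EuclideanSpace ℝ (Fin n)) :
    GG (a • x) c = a • GG x c := by
  unfold GG
  rw [Finset.smul_sum]
  refine Finset.sum_congr rfl fun i _ => ?_
  rw [Pi.smul_apply, smul_comm]

lemma GG_neg_left {n : ℕ} (x : Fin n → H) (c : EuclideanSpace ℝ (Fin n)) :
    GG (-x) c = - GG x c := by
  have := GG_smul_left x (-1) c
  simpa using this

lemma charFun_gam {n : ℕ} (t : EuclideanSpace ℝ (Fin n)) :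
    charFun (gam n) t = Complex.exp (- ‖t‖ ^ 2 / 2) := by
  unfold gam
  exact charFun_stdGaussian t

lemma map_rot {n : ℕ} (α β : ℝ) (h : α ^ 2 + β ^ 2 = 1) :
    ((gam n).prod (gam n)).map (fun c => α • c.1 + β • c.2) = gam n := by
  have hm : Measurable fun c : EuclideanSpace ℝ (Fin n) × EuclideanSpace ℝ (Fin n) =>
      α • c.1 + β • c.2 := by fun_prop
  have : IsProbabilityMeasure (((gam n).prod (gam n)).map (fun c => α • c.1 + β • c.2)) :=
    Measure.isProbabilityMeasure_map hm.aemeasurable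
  apply Measure.ext_of_charFun
  funext t
  rw [charFun_gam, charFun_apply, integral_map hm.aemeasurable (by fun_prop)]
  have h1 : ∀ c : EuclideanSpace ℝ (Fin n) × EuclideanSpace ℝ (Fin n),
      Complex.exp (inner ℝ (α • c.1 + β • c.2) t * Complex.I) =
        Complex.exp (inner ℝ c.1 (α • t) * Complex.I) *
          Complex.exp (inner ℝ c.2 (β • t) * Complex.I) := by
    intro c
    rw [← Complex.exp_add]
    congr 1
    rw [inner_add_left, real_inner_smul_left, real_inner_smul_left, real_inner_smul_right,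
      real_inner_smul_right]
    push_cast
    ring
  simp_rw [h1]
  rw [integral_prod_mul (fun c => Complex.exp (inner ℝ c (α • t) * Complex.I))
    (fun c => Complex.exp (inner ℝ c (β • t) * Complex.I)), ← charFun_apply, ← charFun_apply,
    charFun_gam, charFun_gam, ← Complex.exp_add]
  congr 1
  rw [norm_smul, norm_smul]
  have h2 : ((‖α‖ * ‖t‖ : ℝ) : ℂ) ^ 2 + ((‖β‖ * ‖t‖ : ℝ) : ℂ) ^ 2 = ((‖t‖ : ℝ) : ℂ) ^ 2 := by
    norm_cast
    rw [mul_pow, mul_pow, Real.norm_eq_abs, Real.norm_eq_abs, sq_abs, sq_abs, ← add_mul, h, one_mul]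
  rw [← add_div, ← neg_add, h2]

/-- concatenation. -/
def app {n m : ℕ} (c : EuclideanSpace ℝ (Fin n) × EuclideanSpace ℝ (Fin m)) :
    EuclideanSpace ℝ (Fin (n + m)) :=
  WithLp.toLp 2 (Fin.append (WithLp.ofLp c.1) (WithLp.ofLp c.2))

lemma app_cont {n m : ℕ} : Continuous (app (n := n) (m := m)) := by
  unfold app
  refine (PiLp.continuous_toLp 2 _).comp ?_
  refine continuous_pi fun i => ?_
  refine Fin.addCases (fun j => ?_) (fun j => ?_) i
  · simp only [Fin.append_left]
    fun_prop
  · simp only [Fin.append_right]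
    fun_prop

lemma GG_app {n m : ℕ} (x : Fin n → H) (y : Fin m → H)
    (c : EuclideanSpace ℝ (Fin n) × EuclideanSpace ℝ (Fin m)) :
    GG (Fin.append x y) (app c) = GG x c.1 + GG y c.2 := by
  unfold GG app
  rw [Fin.sum_univ_add]
  congr 1
  · refine Finset.sum_congr rfl fun i _ => ?_
    simp
  · refine Finset.sum_congr rfl fun i _ => ?_
    simp

lemma map_app {n m : ℕ} : ((gam n).prod (gam m)).map app = gam (n + m) := by
  have hm : Measurable (app (n := n) (m := m)) := app_cont.measurable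
  have : IsProbabilityMeasure (((gam n).prod (gam m)).map app) :=
    Measure.isProbabilityMeasure_map hm.aemeasurable
  apply Measure.ext_of_charFun
  funext t
  set t1 : EuclideanSpace ℝ (Fin n) := WithLp.toLp 2 (fun i => t (Fin.castAdd m i)) with ht1
  set t2 : EuclideanSpace ℝ (Fin m) := WithLp.toLp 2 (fun i => t (Fin.natAdd n i)) with ht2
  rw [charFun_gam, charFun_apply, integral_map hm.aemeasurable (by fun_prop)]
  have h1 : ∀ c : EuclideanSpace ℝ (Fin n) × EuclideanSpace ℝ (Fin m),
      Complex.exp (inner ℝ (app c) t * Complex.I) =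
        Complex.exp (inner ℝ c.1 t1 * Complex.I) *
          Complex.exp (inner ℝ c.2 t2 * Complex.I) := by
    intro c
    rw [← Complex.exp_add]
    congr 1
    rw [← add_mul, ← Complex.ofReal_add]
    congr 2
    unfold app
    simp only [PiLp.inner_apply]
    rw [Fin.sum_univ_add]
    congr 1
    · refine Finset.sum_congr rfl fun i _ => ?_
      simp [ht1]
    · refine Finset.sum_congr rfl fun i _ => ?_
      simp [ht2]
  simp_rw [h1]
  rw [integral_prod_mul (fun c => Complex.exp (inner ℝ c t1 * Complex.I))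
    (fun c => Complex.exp (inner ℝ c t2 * Complex.I)), ← charFun_apply, ← charFun_apply,
    charFun_gam, charFun_gam, ← Complex.exp_add]
  congr 1
  have h2 : ((‖t1‖ : ℝ) : ℂ) ^ 2 + ((‖t2‖ : ℝ) : ℂ) ^ 2 = ((‖t‖ : ℝ) : ℂ) ^ 2 := by
    norm_cast
    rw [EuclideanSpace.norm_sq_eq, EuclideanSpace.norm_sq_eq, EuclideanSpace.norm_sq_eq,
      Fin.sum_univ_add]
  rw [← add_div, ← neg_add, h2]

lemma gam_norm_memLp (n : ℕ) : MemLp (fun c : EuclideanSpace ℝ (Fin n) => ‖c‖) 2 (gam n) := by
  have : MemLp (id : EuclideanSpace ℝ (Fin n) → _) 2 (gam n) := by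
    unfold gam
    exact IsGaussian.memLp_two_id
  exact this.norm

/-- the second moment. -/
lemma GG_sq {n : ℕ} (x : Fin n → H) :
    ∫ c, ‖GG x c‖ ^ 2 ∂(gam n) = (Mom 2).toReal * ∑ i, ‖x i‖ ^ 2 := by
  have h := gauss_hilbert x
  have hc : Continuous fun c => ‖GG x c‖ ^ 2 := (GG_cont x).norm.pow 2
  rw [integral_eq_lintegral_of_nonneg_ae (Filter.Eventually.of_forall fun c => by positivity)
    hc.aestronglyMeasurable]
  have h2 : ∀ c : EuclideanSpace ℝ (Fin n), ENNReal.ofReal (‖GG x c‖ ^ 2) =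
      ENNReal.ofReal (‖∑ i, c i • x i‖ ^ (2:ℝ)) := by
    intro c
    unfold GG
    norm_cast
  simp_rw [h2]
  rw [h, ENNReal.toReal_mul, ENNReal.toReal_ofReal (by positivity)]

/-- growth bound for `GG`. -/
lemma GG_le {n : ℕ} (x : Fin n → H) (c : EuclideanSpace ℝ (Fin n)) :
    ‖GG x c‖ ≤ (∑ i, ‖x i‖) * ‖c‖ := by
  unfold GG
  refine (norm_sum_le _ _).trans ?_
  rw [Finset.sum_mul]
  refine Finset.sum_le_sum fun i _ => ?_
  rw [norm_smul, mul_comm]
  refine mul_le_mul_of_nonneg_left ?_ (norm_nonneg _)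
  exact PiLp.norm_apply_le c i

end

end Pool.H770R2.PD
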