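import Pool.Agent.H770R2.PD9

/-!
# Positive definite functions: the GNS map and the Gaussian
-/

set_option autoImplicit false
set_option linter.unusedVariables false
set_option linter.unusedSectionVars false

namespace Pool.H770R2.PD

open MeasureTheory ProbabilityTheory Pool.H770R2.MazL Filter Topology
open scoped ENNReal NNReal

noncomputable section

/-- GNS map of a real positive definite function on an additive group. -/
theorem exists_gns {H : Type} [AddCommGroup H] (φ : H → ℝ) (heven : ∀ x, φ (-x) = φ x)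
    (hpd : ∀ (s : Finset H) (c : H → ℝ), 0 ≤ ∑ x ∈ s, ∑ y ∈ s, c x * c y * φ (x - y)) :
    ∃ (K : Type) (_ : NormedAddCommGroup K) (_ : InnerProductSpace ℝ K) (_ : CompleteSpace K)
      (f : H → K), ∀ x y, ‖f x - f y‖ ^ 2 = 2 * φ 0 - 2 * φ (x - y) := by
  let M : Matrix H H (ℝ →L[ℝ] ℝ) := fun x y => φ (x - y) • ContinuousLinearMap.id ℝ ℝ
  have hherm : M.IsHermitian := by
    ext x y
    rw [Matrix.conjTranspose_apply]
    have : star (M y x) = M y x := by
      show star (φ (y - x) • ContinuousLinearMap.id ℝ ℝ) = φ (y - x) • ContinuousLinearMap.id ℝ ℝ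
      rw [star_smul]
      congr 1
      exact star_one _
    rw [this]
    show (φ (y - x) • ContinuousLinearMap.id ℝ ℝ) 1 = (φ (x - y) • ContinuousLinearMap.id ℝ ℝ) 1
    rw [← heven (x - y), neg_sub]
  have hpsd : M.PosSemidef := by
    have htf := (RKHS.posSemidef_tfae (K := M)).out 0 2
    refine htf.2 ⟨hherm, fun c => ?_⟩
    have h1 := hpd c.support c
    rw [RCLike.re_to_real]
    refine h1.trans (le_of_eq ?_)
    unfold Finsupp.sum
    refine Finset.sum_congr rfl fun x _ => Finset.sum_congr rfl fun y _ => ?_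
    show _ = inner ℝ ((φ (y - x) • ContinuousLinearMap.id ℝ ℝ) (c x)) (c y)
    rw [← heven (x - y), neg_sub]
    simp
    ring
  have : Fact M.PosSemidef := ⟨hpsd⟩
  refine ⟨RKHS.OfKernel M, inferInstance, inferInstance, inferInstance,
    fun x => RKHS.kerFun (RKHS.OfKernel M) x 1, fun x y => ?_⟩
  have hin : ∀ x y, inner ℝ (RKHS.kerFun (RKHS.OfKernel M) x (1 : ℝ))
      (RKHS.kerFun (RKHS.OfKernel M) y (1 : ℝ)) = φ (x - y) := by
    intro x y
    rw [← RKHS.kernel_inner (H := RKHS.OfKernel M) y x (1 : ℝ) (1 : ℝ), RKHS.OfKernel.kernel_ofKernel]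
    show inner ℝ ((φ (y - x) • ContinuousLinearMap.id ℝ ℝ) (1 : ℝ)) (1 : ℝ) = _
    rw [← heven (x - y), neg_sub]
    simp
  rw [@norm_sub_sq_real, ← real_inner_self_eq_norm_sq, ← real_inner_self_eq_norm_sq, hin, hin, hin,
    sub_self, sub_self]
  ring

/-- the Gaussian is positive definite. -/
theorem gaussian_pd {H : Type*} [NormedAddCommGroup H] [InnerProductSpace ℝ H] {ι : Type*}
    (s : Finset ι) (c : ι → ℝ) (v : ι → H) :
    0 ≤ ∑ x ∈ s, ∑ y ∈ s, c x * c y * Real.exp (-‖v x - v y‖ ^ 2 / 2) := by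
  classical
  set V : Submodule ℝ H := Submodule.span ℝ (v '' s) with hV
  have hfd : FiniteDimensional ℝ V := FiniteDimensional.span_of_finite ℝ (s.finite_toSet.image v)
  let u : ι → V := fun i => if h : i ∈ s then ⟨v i, Submodule.subset_span ⟨i, h, rfl⟩⟩ else 0
  have hu : ∀ i ∈ s, (u i : H) = v i := by
    intro i hi
    simp [u, hi]
  let _ : MeasurableSpace V := borel V
  have : BorelSpace V := ⟨rfl⟩
  set γ := stdGaussian V with hγ
  have hch : ∀ w : V, ∫ z, Complex.exp (inner ℝ z w * Complex.I) ∂γ = Complex.exp (-‖w‖ ^ 2 / 2) := by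
    intro w
    rw [← charFun_apply, hγ, charFun_stdGaussian]
  have hint : ∀ w : V, Integrable (fun z => Complex.exp (inner ℝ z w * Complex.I)) γ := by
    intro w
    have hc : Continuous fun z : V => Complex.exp (inner ℝ z w * Complex.I) := by fun_prop
    refine (integrable_const (1 : ℝ)).mono' hc.aestronglyMeasurable (Eventually.of_forall fun z => ?_)
    rw [Complex.norm_exp_ofReal_mul_I]
  have hkey : ((∑ x ∈ s, ∑ y ∈ s, c x * c y * Real.exp (-‖v x - v y‖ ^ 2 / 2) : ℝ) : ℂ) =
      ∫ z, (∑ x ∈ s, (c x : ℂ) * Complex.exp (inner ℝ z (u x) * Complex.I)) *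
        (starRingEnd ℂ) (∑ x ∈ s, (c x : ℂ) * Complex.exp (inner ℝ z (u x) * Complex.I)) ∂γ := by
    have h1 : ∀ z : V, (∑ x ∈ s, (c x : ℂ) * Complex.exp (inner ℝ z (u x) * Complex.I)) *
        (starRingEnd ℂ) (∑ x ∈ s, (c x : ℂ) * Complex.exp (inner ℝ z (u x) * Complex.I)) =
        ∑ x ∈ s, ∑ y ∈ s, ((c x * c y : ℝ) : ℂ) *
          Complex.exp (inner ℝ z (u x - u y) * Complex.I) := by
      intro z
      rw [map_sum, Finset.sum_mul_sum]
      refine Finset.sum_congr rfl fun x _ => Finset.sum_congr rfl fun y _ => ?_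
      rw [map_mul, Complex.conj_ofReal, ← Complex.exp_conj, map_mul, Complex.conj_ofReal,
        Complex.conj_I, inner_sub_right]
      have : Complex.exp (((inner ℝ z (u x) - inner ℝ z (u y) : ℝ) : ℂ) * Complex.I) =
          Complex.exp ((inner ℝ z (u x) : ℝ) * Complex.I) *
            Complex.exp ((inner ℝ z (u y) : ℝ) * -Complex.I) := by
        rw [← Complex.exp_add]
        congr 1
        push_cast
        ring
      rw [this]
      push_cast
      ring
    simp_rw [h1]
    rw [integral_finsetSum _ (fun x _ => integrable_finsetSum _ fun y _ =>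
      (hint _).const_mul _)]
    rw [Complex.ofReal_sum]
    refine Finset.sum_congr rfl fun x hx => ?_
    rw [integral_finsetSum _ (fun y _ => (hint _).const_mul _), Complex.ofReal_sum]
    refine Finset.sum_congr rfl fun y hy => ?_
    rw [integral_const_mul, hch]
    have h2 : ‖u x - u y‖ = ‖v x - v y‖ := by
      have e : ‖u x - u y‖ = ‖((u x - u y : V) : H)‖ := rfl
      rw [e, Submodule.coe_sub, hu x hx, hu y hy]
    rw [h2]
    push_cast
    ring
  have h2 : (∫ z, (∑ x ∈ s, (c x : ℂ) * Complex.exp (inner ℝ z (u x) * Complex.I)) *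
        (starRingEnd ℂ) (∑ x ∈ s, (c x : ℂ) * Complex.exp (inner ℝ z (u x) * Complex.I)) ∂γ) =
      ((∫ z, ‖∑ x ∈ s, (c x : ℂ) * Complex.exp (inner ℝ z (u x) * Complex.I)‖ ^ 2 ∂γ : ℝ) : ℂ) := by
    rw [← integral_complex_ofReal]
    refine integral_congr_ae (Eventually.of_forall fun z => ?_)
    show _ * _ = _
    rw [Complex.mul_conj, Complex.normSq_eq_norm_sq]
  rw [h2] at hkey
  have h3 := Complex.ofReal_injective hkey
  rw [h3]
  exact integral_nonneg fun z => by positivity

end

end Pool.H770R2.PD
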