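import Pool.Agent.H770R2.PD10

/-!
# Characterisations of unitarizability
-/

set_option autoImplicit false
set_option linter.unusedVariables false
set_option linter.unusedSectionVars false

namespace Pool.H770R2.PD

open MeasureTheory ProbabilityTheory Filter Topology
open scoped ENNReal NNReal

noncomputable section

open Pool.H770R2.Dix

/-- data of an invariant metric for a set `T` of operators. -/
def HasMetric (H : Type) [NormedAddCommGroup H] [InnerProductSpace ℂ H]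
    (T : Set (H →L[ℂ] H)) : Prop :=
  ∃ (K : Type) (_ : NormedAddCommGroup K) (_ : InnerProductSpace ℝ K) (_ : CompleteSpace K)
    (f : H → K) (δ : ℝ), Continuous f ∧ (∀ x y z, ‖f (x + z) - f (y + z)‖ = ‖f x - f y‖) ∧
    (∀ g ∈ T, ∀ x y : H, ‖f (g x) - f (g y)‖ = ‖f x - f y‖) ∧ 0 < δ ∧
    ∀ x y : H, ‖x - y‖ = 1 → δ ≤ ‖f x - f y‖

/-- data of an invariant positive definite function. -/
def HasPD (H : Type) [NormedAddCommGroup H] [InnerProductSpace ℂ H]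
    (T : Set (H →L[ℂ] H)) : Prop :=
  ∃ (φ : H → ℝ) (δ : ℝ), Continuous φ ∧ φ 0 = 1 ∧ (∀ x, φ (-x) = φ x) ∧
    (∀ (s : Finset H) (c : H → ℝ), 0 ≤ ∑ x ∈ s, ∑ y ∈ s, c x * c y * φ (x - y)) ∧
    (∀ g ∈ T, ∀ x : H, φ (g x) = φ x) ∧ 0 < δ ∧ ∀ x : H, ‖x‖ = 1 → φ x ≤ 1 - δ

variable {H : Type} [NormedAddCommGroup H] [InnerProductSpace ℂ H]

lemma HasPD.hasMetric {T : Set (H →L[ℂ] H)} (h : HasPD H T) : HasMetric H T := by
  obtain ⟨φ, δ, hc, h0, hev, hpd, hinv, hδ, hlow⟩ := h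
  obtain ⟨K, i1, i2, i3, f, hf⟩ := exists_gns φ hev hpd
  have hsq : ∀ {a b : K} {a' b' : K}, ‖a - b‖ ^ 2 = ‖a' - b'‖ ^ 2 → ‖a - b‖ = ‖a' - b'‖ := by
    intro a b a' b' h
    exact (sq_eq_sq₀ (norm_nonneg _) (norm_nonneg _)).1 h
  refine ⟨K, i1, i2, i3, f, Real.sqrt (2 * δ), ?_, fun x y z => hsq ?_, fun g hg x y => hsq ?_,
    by positivity, fun x y hxy => ?_⟩
  · rw [continuous_iff_continuousAt]
    intro x
    rw [ContinuousAt, tendsto_iff_norm_sub_tendsto_zero]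
    have h1 : Tendsto (fun y => Real.sqrt (2 * φ 0 - 2 * φ (y - x))) (𝓝 x) (𝓝 0) := by
      have h2 : Continuous fun y => Real.sqrt (2 * φ 0 - 2 * φ (y - x)) :=
        (continuous_const.sub (continuous_const.mul
          (hc.comp (continuous_id.sub continuous_const)))).sqrt
      have h3 := h2.tendsto x
      simpa using h3
    refine h1.congr fun y => ?_
    rw [← hf, Real.sqrt_sq (norm_nonneg _)]
  · rw [hf, hf, add_sub_add_right_eq_sub]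
  · rw [hf, hf, ← map_sub, hinv g hg]
  · apply Real.sqrt_le_iff.2
    refine ⟨norm_nonneg _, ?_⟩
    rw [hf, h0]
    linarith [hlow _ hxy]

lemma hasPD_of_inv {T : Set (H →L[ℂ] H)} (S : (H →L[ℂ] H)ˣ)
    (hT : ∀ g ∈ T, ∀ x, ‖(S : H →L[ℂ] H) (g x)‖ = ‖(S : H →L[ℂ] H) x‖) : HasPD H T := by
  let _ : InnerProductSpace ℝ H := InnerProductSpace.rclikeToReal ℂ H
  set κ : ℝ := (‖((S⁻¹ : (H →L[ℂ] H)ˣ) : H →L[ℂ] H)‖ + 1)⁻¹ with hκ
  have hκ0 : 0 < κ := by positivity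
  have hlow : ∀ x, κ * ‖x‖ ≤ ‖(S : H →L[ℂ] H) x‖ := by
    intro x
    rw [hκ, inv_mul_le_iff₀ (by positivity)]
    have h1 : x = ((S⁻¹ : (H →L[ℂ] H)ˣ) : H →L[ℂ] H) ((S : H →L[ℂ] H) x) := by
      have h2 : ((S⁻¹ : (H →L[ℂ] H)ˣ) : H →L[ℂ] H) * (S : H →L[ℂ] H) = 1 := Units.inv_mul S
      have h3 := DFunLike.congr_fun h2 x
      exact h3.symm
    calc ‖x‖ = ‖((S⁻¹ : (H →L[ℂ] H)ˣ) : H →L[ℂ] H) ((S : H →L[ℂ] H) x)‖ := by rw [← h1]
      _ ≤ ‖((S⁻¹ : (H →L[ℂ] H)ˣ) : H →L[ℂ] H)‖ * ‖(S : H →L[ℂ] H) x‖ :=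
          ContinuousLinearMap.le_opNorm _ _
      _ ≤ _ := by
          apply mul_le_mul_of_nonneg_right _ (norm_nonneg _)
          linarith
  refine ⟨fun x => Real.exp (-‖(S : H →L[ℂ] H) x‖ ^ 2 / 2), 1 - Real.exp (-κ ^ 2 / 2),
    ?_, by simp, fun x => by simp, fun s c => ?_, fun g hg x => ?_, ?_, fun x hx => ?_⟩
  · have : Continuous fun x => (S : H →L[ℂ] H) x := (S : H →L[ℂ] H).continuous
    fun_prop
  · have := gaussian_pd s c (fun x => (S : H →L[ℂ] H) x)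
    simpa [map_sub] using this
  · show Real.exp (-‖(S : H →L[ℂ] H) (g x)‖ ^ 2 / 2) = Real.exp (-‖(S : H →L[ℂ] H) x‖ ^ 2 / 2)
    rw [hT g hg]
  · rw [sub_pos, Real.exp_lt_one_iff]
    have : 0 < κ ^ 2 := by positivity
    linarith
  · show Real.exp (-‖(S : H →L[ℂ] H) x‖ ^ 2 / 2) ≤ 1 - (1 - Real.exp (-κ ^ 2 / 2))
    rw [sub_sub_cancel]
    apply Real.exp_le_exp.2
    have h1 := hlow x
    rw [hx, mul_one] at h1
    have h2 := pow_le_pow_left₀ hκ0.le h1 2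
    linarith

lemma norm_of_unitary [CompleteSpace H] {U : H →L[ℂ] H} (h : star U * U = 1) (y : H) :
    ‖U y‖ = ‖y‖ := by
  rw [ContinuousLinearMap.star_eq_adjoint] at h
  have h6 : inner ℂ (U y) (U y) = inner ℂ y y := by
    rw [← ContinuousLinearMap.adjoint_inner_left]
    have h7 := DFunLike.congr_fun h y
    have h8 : (ContinuousLinearMap.adjoint U) (U y) = y := h7
    rw [h8]
  rw [inner_self_eq_norm_sq_to_K, inner_self_eq_norm_sq_to_K] at h6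
  have h9 : ‖U y‖ ^ 2 = ‖y‖ ^ 2 := by exact_mod_cast h6
  exact (sq_eq_sq₀ (norm_nonneg _) (norm_nonneg _)).1 h9

/-- for a unitarizing operator the norm `‖S x‖` is invariant. -/
lemma norm_S_inv [CompleteSpace H] (S : (H →L[ℂ] H)ˣ) (g : H →L[ℂ] H)
    (h : star ((S : H →L[ℂ] H) * g * ((S⁻¹ : (H →L[ℂ] H)ˣ) : H →L[ℂ] H)) *
      ((S : H →L[ℂ] H) * g * ((S⁻¹ : (H →L[ℂ] H)ˣ) : H →L[ℂ] H)) = 1) (x : H) :
    ‖(S : H →L[ℂ] H) (g x)‖ = ‖(S : H →L[ℂ] H) x‖ := by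
  set U : H →L[ℂ] H := (S : H →L[ℂ] H) * g * ((S⁻¹ : (H →L[ℂ] H)ˣ) : H →L[ℂ] H) with hU
  have h1 : (S : H →L[ℂ] H) (g x) = U ((S : H →L[ℂ] H) x) := by
    have h2 : U * (S : H →L[ℂ] H) = (S : H →L[ℂ] H) * g := by
      rw [hU, mul_assoc, Units.inv_mul, mul_one]
    have h3 := DFunLike.congr_fun h2 x
    exact h3.symm
  rw [h1, norm_of_unitary h]

/-- main characterisation for groups. -/
theorem unitarizable_tfae [CompleteSpace H] {G : Type} [Group G] (π : G →* (H →L[ℂ] H)ˣ) :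
    List.TFAE [Unitarizable π,
      HasMetric H (Set.range fun g => ((π g : (H →L[ℂ] H)ˣ) : H →L[ℂ] H)),
      HasPD H (Set.range fun g => ((π g : (H →L[ℂ] H)ˣ) : H →L[ℂ] H))] := by
  tfae_have 1 → 3 := by
    rintro ⟨S, hS⟩
    refine hasPD_of_inv S ?_
    rintro _ ⟨g, rfl⟩ x
    exact norm_S_inv S _ (hS g).1 x
  tfae_have 3 → 2 := fun h => h.hasMetric
  tfae_have 2 → 1 := by
    rintro ⟨K, i1, i2, i3, f, δ, hc, htr, hinv, hδ, hlow⟩
    exact unitarizable_of_metric π f hc htr (fun g x y => hinv _ ⟨g, rfl⟩ x y) hδ hlow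
  tfae_finish

end

end Pool.H770R2.PD
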