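import Pool.Agent.H770R2.PD11

/-!
# Homomorphisms of C*-algebras
-/

set_option autoImplicit false
set_option linter.unusedVariables false
set_option linter.unusedSectionVars false

namespace Pool.H770R2.PD

open MeasureTheory ProbabilityTheory Filter Topology
open scoped ENNReal NNReal

noncomputable section

open Pool.H770R2.Dix

variable {A : Type} [CStarAlgebra A] {H : Type} [NormedAddCommGroup H] [InnerProductSpace ℂ H]
  [CompleteSpace H]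

/-- the representation of the unitary group. -/
def upi (u : A →ₐ[ℂ] (H →L[ℂ] H)) : unitary A →* (H →L[ℂ] H)ˣ :=
  (Units.map (u : A →* (H →L[ℂ] H))).comp Unitary.toUnits

lemma upi_apply (u : A →ₐ[ℂ] (H →L[ℂ] H)) (a : unitary A) :
    ((upi u a : (H →L[ℂ] H)ˣ) : H →L[ℂ] H) = u (a : A) := rfl

/-- similarity to a *-homomorphism. -/
def SimStar (u : A →ₐ[ℂ] (H →L[ℂ] H)) : Prop :=
  ∃ ξ : (H →L[ℂ] H)ˣ, ∀ x : A,
    (ξ : H →L[ℂ] H) * u (star x) * ((ξ⁻¹ : (H →L[ℂ] H)ˣ) : H →L[ℂ] H)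
      = star ((ξ : H →L[ℂ] H) * u x * ((ξ⁻¹ : (H →L[ℂ] H)ˣ) : H →L[ℂ] H))

lemma simStar_of_unitarizable (u : A →ₐ[ℂ] (H →L[ℂ] H)) (h : Unitarizable (upi u)) :
    SimStar u := by
  obtain ⟨S, hS⟩ := h
  refine ⟨S, fun x => ?_⟩
  -- both sides are conjugate linear in `x`
  have hspan : x ∈ Submodule.span ℂ (unitary A : Set A) := by
    rw [CStarAlgebra.span_unitary]; trivial
  induction hspan using Submodule.span_induction with
  | mem a ha =>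
    obtain ⟨h1, h2⟩ := hS ⟨a, ha⟩
    rw [upi_apply] at h1 h2
    set U : H →L[ℂ] H := (S : H →L[ℂ] H) * u a * ((S⁻¹ : (H →L[ℂ] H)ˣ) : H →L[ℂ] H) with hU
    set V : H →L[ℂ] H := (S : H →L[ℂ] H) * u (star a) * ((S⁻¹ : (H →L[ℂ] H)ˣ) : H →L[ℂ] H) with hV
    have h3 : U * V = 1 := by
      rw [hU, hV]
      calc _ = (S : H →L[ℂ] H) * (u a * u (star a)) * ((S⁻¹ : (H →L[ℂ] H)ˣ) : H →L[ℂ] H) := by
            simp only [mul_assoc, Units.inv_mul_cancel_left]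
        _ = 1 := by
            rw [← map_mul, Unitary.mul_star_self_of_mem ha, map_one, mul_one, Units.mul_inv]
    calc V = (star U * U) * V := by rw [h1, one_mul]
      _ = star U * (U * V) := mul_assoc _ _ _
      _ = star U := by rw [h3, mul_one]
  | zero => simp
  | add a b _ _ ha hb =>
    rw [star_add, map_add, map_add, mul_add, add_mul, mul_add, add_mul, star_add, ha, hb]
  | smul c a _ ha =>
    rw [star_smul, map_smul, map_smul, mul_smul_comm, smul_mul_assoc, mul_smul_comm,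
      smul_mul_assoc, star_smul, ha]

lemma unitary_norm_le (a : unitary A) : ‖(a : A)‖ ≤ 1 := by
  rcases subsingleton_or_nontrivial A with hA | hA
  · have : (a : A) = 0 := Subsingleton.elim _ _
    rw [this, norm_zero]
    exact zero_le_one
  · exact (CStarRing.norm_coe_unitary a).le

lemma SimStar.unit_inv {u : A →ₐ[ℂ] (H →L[ℂ] H)} {ξ : (H →L[ℂ] H)ˣ}
    (h : ∀ x : A, (ξ : H →L[ℂ] H) * u (star x) * ((ξ⁻¹ : (H →L[ℂ] H)ˣ) : H →L[ℂ] H)
      = star ((ξ : H →L[ℂ] H) * u x * ((ξ⁻¹ : (H →L[ℂ] H)ˣ) : H →L[ℂ] H)))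
    {a : A} (ha : a ∈ unitary A) (x : H) :
    ‖(ξ : H →L[ℂ] H) (u a x)‖ = ‖(ξ : H →L[ℂ] H) x‖ := by
  refine norm_S_inv ξ (u a) ?_ x
  rw [← h a]
  calc _ = (ξ : H →L[ℂ] H) * (u (star a) * u a) * ((ξ⁻¹ : (H →L[ℂ] H)ˣ) : H →L[ℂ] H) := by
        simp only [mul_assoc, Units.inv_mul_cancel_left]
    _ = 1 := by
        rw [← map_mul, Unitary.star_mul_self_of_mem ha, map_one, mul_one, Units.mul_inv]

/-- the star homomorphism. -/
def starHom (u : A →ₐ[ℂ] (H →L[ℂ] H)) (ξ : (H →L[ℂ] H)ˣ)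
    (h : ∀ x : A, (ξ : H →L[ℂ] H) * u (star x) * ((ξ⁻¹ : (H →L[ℂ] H)ˣ) : H →L[ℂ] H)
      = star ((ξ : H →L[ℂ] H) * u x * ((ξ⁻¹ : (H →L[ℂ] H)ˣ) : H →L[ℂ] H))) :
    A →⋆ₐ[ℂ] (H →L[ℂ] H) where
  toFun x := (ξ : H →L[ℂ] H) * u x * ((ξ⁻¹ : (H →L[ℂ] H)ˣ) : H →L[ℂ] H)
  map_one' := by rw [map_one, mul_one, Units.mul_inv]
  map_mul' x y := by
    rw [map_mul]
    simp only [mul_assoc, Units.inv_mul_cancel_left]
  map_zero' := by simp
  map_add' x y := by rw [map_add, mul_add, add_mul]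
  commutes' c := by
    rw [AlgHom.commutes, Algebra.algebraMap_eq_smul_one, mul_smul_comm, smul_mul_assoc, mul_one,
      Units.mul_inv]
  map_star' x := h x

lemma SimStar.contractive {u : A →ₐ[ℂ] (H →L[ℂ] H)} {ξ : (H →L[ℂ] H)ˣ}
    (h : ∀ x : A, (ξ : H →L[ℂ] H) * u (star x) * ((ξ⁻¹ : (H →L[ℂ] H)ˣ) : H →L[ℂ] H)
      = star ((ξ : H →L[ℂ] H) * u x * ((ξ⁻¹ : (H →L[ℂ] H)ˣ) : H →L[ℂ] H)))
    (a : A) (x : H) :
    ‖(ξ : H →L[ℂ] H) (u a x)‖ ≤ ‖a‖ * ‖(ξ : H →L[ℂ] H) x‖ := by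
  set ρ := starHom u ξ h with hρ
  have h1 : (ξ : H →L[ℂ] H) (u a x) = ρ a ((ξ : H →L[ℂ] H) x) := by
    have h2 : ρ a * (ξ : H →L[ℂ] H) = (ξ : H →L[ℂ] H) * u a := by
      show (ξ : H →L[ℂ] H) * u a * ((ξ⁻¹ : (H →L[ℂ] H)ˣ) : H →L[ℂ] H) * (ξ : H →L[ℂ] H) = _
      rw [mul_assoc, Units.inv_mul, mul_one]
    have h3 := DFunLike.congr_fun h2 x
    exact h3.symm
  rw [h1]
  refine (ContinuousLinearMap.le_opNorm _ _).trans ?_
  exact mul_le_mul_of_nonneg_right (NonUnitalStarAlgHom.norm_apply_le ρ a) (norm_nonneg _)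

end

end Pool.H770R2.PD
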