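import Pool.Agent.H770R2.PD8
import Pool.Agent.H770R2.MazL9

/-!
# Convex-transitive norms with a Hilbertian metric transform
-/

set_option autoImplicit false
set_option linter.unusedVariables false
set_option linter.unusedSectionVars false

namespace Pool.H770R2.PD

open MeasureTheory ProbabilityTheory Pool.H770R2.MazL Filter Topology
open scoped ENNReal NNReal

noncomputable section

section engine

variable {H : Type*} [NormedAddCommGroup H] [InnerProductSpace ℝ H]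
  {K : Type*} [NormedAddCommGroup K] [InnerProductSpace ℝ K] [CompleteSpace K]
  {N : H → ℝ} {C : ℝ}

theorem Emb.exists_lipschitz_gen (F : Emb H K) (hN : Gauge N C) {δ : ℝ} (hδ : 0 < δ) :
    ∃ (W : Emb H K) (L : ℝ), 0 ≤ L ∧ (∀ h, W.D h ^ 2 ≤ L * N h ^ 2) ∧
      (∀ x : H, δ ≤ F.D x → δ / 2 ≤ W.D x) ∧
      (∀ g : H →ₗ[ℝ] H, (∀ u, N (g u) = N u) → (∀ u, F.D (g u) = F.D u) →
        ∀ h, W.D (g h) = W.D h) := by
  obtain ⟨t, ht, hclose⟩ := F.exists_close hN (η := δ / 8) (by positivity)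
  obtain ⟨W, hW⟩ := F.exists_W hN ht.le
  refine ⟨W, 64 * (F.MM N t / t), ?_, F.W_lip hN ht hW, fun x h4 => ?_,
    fun g hgN hg h => F.W_inv hN ht.le hW g hgN hg h⟩
  · have := F.MM_nonneg hN ht.le
    positivity
  · obtain ⟨y, hy⟩ := F.exists_Ext hN ht.le
    have h1 : ∀ h, ‖W.f h - F.f h‖ ≤ 2 * (δ / 8) := by
      intro h
      exact le_of_tendsto ((hW y hy h).sub_const (F.f h)).norm
        (Eventually.of_forall fun k => hclose _ _ (hy k).1 h)
    have h2 := h1 x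
    have h3 := h1 0
    have h5 : F.D x ≤ W.D x + ‖W.f x - F.f x‖ + ‖W.f 0 - F.f 0‖ := by
      have e1 : F.D x = ‖F.f x - F.f 0‖ := rfl
      have e2 : W.D x = ‖W.f x - W.f 0‖ := rfl
      rw [e1, e2]
      have e3 : F.f x - F.f 0 = (W.f x - W.f 0) - (W.f x - F.f x) + (W.f 0 - F.f 0) := by abel
      rw [e3]
      refine (norm_add_le _ _).trans ?_
      gcongr
      exact norm_sub_le _ _
    linarith

/-- the engine with a lower bound on the unit sphere of the gauge. -/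
theorem exists_form_gen (F : Emb H K) (hN : Gauge N C) {δ : ℝ} (hδ : 0 < δ)
    (hlow : ∀ x : H, N x = 1 → δ ≤ F.D x) :
    ∃ Q : QF H, ∀ g : H →ₗ[ℝ] H, (∀ u, N (g u) = N u) → (∀ u, F.D (g u) = F.D u) →
        ∀ h, Q.q (g h) = Q.q h := by
  obtain ⟨W, L, hL0, hL, hW, hinv⟩ := F.exists_lipschitz_gen hN hδ
  refine ⟨⟨W.qq, (δ / 2) ^ 2, L * C ^ 2, by positivity, fun x => ?_, fun x => ?_,
    fun x y => Emb.qq_par hN hL x y, fun s x => Emb.qq_hom hN hL s x,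
    fun x y => Emb.rho_tri hN hL x y⟩, fun g hg1 hg2 h => Emb.qq_inv g (hinv g hg1 hg2) h⟩
  · rcases eq_or_ne x 0 with rfl | hx
    · rw [Emb.qq_zero]; simp
    · have hx0 : 0 < ‖x‖ := norm_pos_iff.2 hx
      have hNx : 0 < N x := hx0.trans_le (hN.lo x)
      have h1 : N (((N x)⁻¹ : ℝ) • x) = 1 := by
        rw [hN.hom, abs_of_pos (inv_pos.2 hNx), inv_mul_cancel₀ hNx.ne']
      have h2 := hW _ (hlow _ h1)
      have h3 := Emb.le_qq hN hL (((N x)⁻¹ : ℝ) • x)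
      rw [Emb.qq_hom hN hL] at h3
      have h4 : (δ / 2) ^ 2 ≤ W.D (((N x)⁻¹ : ℝ) • x) ^ 2 := pow_le_pow_left₀ (by positivity) h2 2
      have h5 : (δ / 2) ^ 2 ≤ ((N x)⁻¹) ^ 2 * W.qq x := h4.trans h3
      rw [inv_pow, inv_mul_eq_div, le_div_iff₀ (by positivity)] at h5
      refine le_trans ?_ h5
      apply mul_le_mul_of_nonneg_left _ (by positivity)
      exact pow_le_pow_left₀ (norm_nonneg _) (hN.lo x) 2
  · refine (Emb.qq_le hN hL x).trans ?_
    have h1 := hN.hi x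
    have h2 : 0 ≤ N x := (norm_nonneg _).trans (hN.lo x)
    have h3 : N x ^ 2 ≤ (C * ‖x‖) ^ 2 := pow_le_pow_left₀ h2 h1 2
    calc L * N x ^ 2 ≤ L * (C * ‖x‖) ^ 2 := mul_le_mul_of_nonneg_left h3 hL0
      _ = _ := by ring

end engine

section banach

variable {E : Type*} [NormedAddCommGroup E] [NormedSpace ℝ E]

/-- an invariant Hilbertian norm and convex transitivity give the parallelogram law. -/
lemma paral_of_Phi' {F : Type*} [NormedAddCommGroup F] [InnerProductSpace ℝ F]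
    (Φ : E →L[ℝ] F) {c : ℝ} (hc : 0 < c) (hbd : ∀ h : E, c * ‖h‖ ^ 2 ≤ ‖Φ h‖ ^ 2)
    (hinv : ∀ (g : E ≃ₗᵢ[ℝ] E) h, ‖Φ (g h)‖ = ‖Φ h‖) (hct : ConvTrans E) :
    ∀ x y : E, ‖x + y‖ * ‖x + y‖ + ‖x - y‖ * ‖x - y‖ = 2 * (‖x‖ * ‖x‖ + ‖y‖ * ‖y‖) := by
  refine paral_of_quad (q := fun x => ‖Φ x‖ ^ 2) ?_ ?_ ?_ ?_ ?_ ?_ hct
  · intro x y
    simp only [map_add, map_sub]
    have := parallelogram_law_with_norm ℝ (Φ x) (Φ y)
    nlinarith
  · intro a x
    simp only [map_smul, norm_smul, mul_pow, Real.norm_eq_abs, sq_abs]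
  · intro x hx
    have := hbd x
    rw [hx] at this
    show 0 < ‖Φ x‖ ^ 2
    nlinarith
  · intro a
    rcases lt_or_ge a 0 with ha | ha
    · have : {z : E | ‖Φ z‖ ^ 2 ≤ a} = ∅ := by
        ext z
        simp only [Set.mem_ofPred_eq, Set.mem_empty_iff_false, iff_false, not_le]
        exact lt_of_lt_of_le ha (sq_nonneg _)
      rw [this]
      exact convex_empty
    · have : {z : E | ‖Φ z‖ ^ 2 ≤ a} = Φ.toLinearMap ⁻¹' (Metric.closedBall 0 (Real.sqrt a)) := by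
        ext z
        simp only [Set.mem_ofPred_eq, Set.mem_preimage, mem_closedBall_zero_iff]
        exact (Real.le_sqrt (norm_nonneg _) ha).symm
      rw [this]
      exact (convex_closedBall 0 _).linear_preimage Φ.toLinearMap
  · intro a
    exact isClosed_le (Φ.continuous.norm.pow 2) continuous_const
  · intro g x
    show ‖Φ (g x)‖ ^ 2 = ‖Φ x‖ ^ 2
    rw [hinv g x]

/-- convex-transitive renormings of Hilbert space with an invariant metric of negative type. -/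
theorem paral_of_metric {H : Type*} [NormedAddCommGroup H] [InnerProductSpace ℝ H]
    (T : E ≃L[ℝ] H)
    {K : Type*} [NormedAddCommGroup K] [InnerProductSpace ℝ K] [CompleteSpace K]
    (f : E → K) (hf : Continuous f) (htr : ∀ x y z, ‖f (x + z) - f (y + z)‖ = ‖f x - f y‖)
    (hinv : ∀ (g : E ≃ₗᵢ[ℝ] E) x y, ‖f (g x) - f (g y)‖ = ‖f x - f y‖)
    {δ : ℝ} (hδ : 0 < δ) (hlow : ∀ x y, ‖x - y‖ = 1 → δ ≤ ‖f x - f y‖) (hct : ConvTrans E) :
    ∀ x y : E, ‖x + y‖ * ‖x + y‖ + ‖x - y‖ * ‖x - y‖ = 2 * (‖x‖ * ‖x‖ + ‖y‖ * ‖y‖) := by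
  set M : ℝ := ‖(T : E →L[ℝ] H)‖ + 1 with hM
  have hM0 : 0 < M := by positivity
  have hTM : ∀ x, ‖T x‖ ≤ M * ‖x‖ := by
    intro x
    refine ((T : E →L[ℝ] H).le_opNorm x).trans ?_
    apply mul_le_mul_of_nonneg_right _ (norm_nonneg _)
    linarith
  let N : H → ℝ := fun h => M * ‖T.symm h‖
  have hN : Gauge N (M * ‖(T.symm : H →L[ℝ] E)‖) := by
    refine ⟨fun h => ?_, fun h => ?_, fun c h => ?_⟩
    · have := hTM (T.symm h)
      rwa [T.apply_symm_apply] at this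
    · show M * ‖T.symm h‖ ≤ _
      rw [mul_assoc]
      exact mul_le_mul_of_nonneg_left ((T.symm : H →L[ℝ] E).le_opNorm h) hM0.le
    · show M * ‖T.symm (c • h)‖ = |c| * (M * ‖T.symm h‖)
      rw [map_smul, norm_smul, Real.norm_eq_abs]
      ring
  let F : Emb H K :=
    { f := fun h => f (M • T.symm h)
      tr := fun x y z => by
        rw [map_add, map_add, smul_add, smul_add, htr]
      cont := hf.comp (T.symm.continuous.const_smul M) }
  have hFD : ∀ h, F.D h = ‖f (M • T.symm h) - f 0‖ := by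
    intro h
    show ‖f (M • T.symm h) - f (M • T.symm 0)‖ = _
    rw [map_zero, smul_zero]
  obtain ⟨Q, hQ⟩ := exists_form_gen F hN hδ (fun h hh => by
    rw [hFD]
    apply hlow
    rw [sub_zero, norm_smul, Real.norm_eq_abs, abs_of_pos hM0]
    exact hh)
  obtain ⟨Φ, hΦ⟩ := Q.exists_map
  refine paral_of_Phi' (Φ.comp (T : E →L[ℝ] H)) (c := Q.c * (‖(T.symm : H →L[ℝ] E)‖ + 1)⁻¹ ^ 2)
    (by have := Q.hc; positivity) (fun x => ?_) (fun g x => ?_) hct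
  · have h1 : ‖x‖ ≤ (‖(T.symm : H →L[ℝ] E)‖ + 1) * ‖T x‖ := by
      calc ‖x‖ = ‖(T.symm : H →L[ℝ] E) (T x)‖ := by simp
        _ ≤ ‖(T.symm : H →L[ℝ] E)‖ * ‖T x‖ := (T.symm : H →L[ℝ] E).le_opNorm _
        _ ≤ _ := by
            apply mul_le_mul_of_nonneg_right _ (norm_nonneg _)
            linarith
    have h2 : (‖(T.symm : H →L[ℝ] E)‖ + 1)⁻¹ * ‖x‖ ≤ ‖T x‖ := by
      rw [inv_mul_le_iff₀ (by positivity)]
      exact h1
    have h3 : ((‖(T.symm : H →L[ℝ] E)‖ + 1)⁻¹ * ‖x‖) ^ 2 ≤ ‖T x‖ ^ 2 :=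
      pow_le_pow_left₀ (by positivity) h2 2
    have h4 : ‖(Φ.comp (T : E →L[ℝ] H)) x‖ ^ 2 = Q.q (T x) := hΦ (T x)
    rw [h4]
    calc Q.c * (‖(T.symm : H →L[ℝ] E)‖ + 1)⁻¹ ^ 2 * ‖x‖ ^ 2
        = Q.c * ((‖(T.symm : H →L[ℝ] E)‖ + 1)⁻¹ * ‖x‖) ^ 2 := by ring
      _ ≤ Q.c * ‖T x‖ ^ 2 := mul_le_mul_of_nonneg_left h3 Q.hc.le
      _ ≤ _ := Q.lo _
  · let g' : H →ₗ[ℝ] H := (T : E →L[ℝ] H).toLinearMap.comp
      (g.toLinearEquiv.toLinearMap.comp (T.symm : H →L[ℝ] E).toLinearMap)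
    have hg' : ∀ h, g' h = T (g (T.symm h)) := fun h => rfl
    have h1 := hQ g' (fun u => by
      show M * ‖T.symm (g' u)‖ = M * ‖T.symm u‖
      rw [hg', T.symm_apply_apply, g.norm_map]) (fun u => by
      rw [hFD, hFD, hg', T.symm_apply_apply]
      have h2 := hinv g (M • T.symm u) 0
      rw [map_zero, map_smul] at h2
      exact h2) (T x)
    rw [hg', T.symm_apply_apply] at h1
    have h4 : ‖(Φ.comp (T : E →L[ℝ] H)) x‖ ^ 2 = Q.q (T x) := hΦ (T x)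
    have h5 : ‖(Φ.comp (T : E →L[ℝ] H)) (g x)‖ ^ 2 = Q.q (T (g x)) := hΦ (T (g x))
    rw [← h4, ← h5] at h1
    exact (sq_eq_sq₀ (norm_nonneg _) (norm_nonneg _)).1 h1

end banach

end

end Pool.H770R2.PD
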