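import Pool.Agent.H770R2.PD1

/-!
# Translation invariant Hilbertian metrics and their Gaussian averages
-/

set_option autoImplicit false
set_option linter.unusedVariables false
set_option linter.unusedSectionVars false

namespace Pool.H770R2.PD

open MeasureTheory ProbabilityTheory Pool.H770R2.MazL
open scoped ENNReal NNReal

noncomputable section

variable {H : Type*} [NormedAddCommGroup H] [InnerProductSpace ℝ H]
  {K : Type*} [NormedAddCommGroup K] [InnerProductSpace ℝ K]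

/-- a continuous map into a Hilbert space inducing a translation invariant metric. -/
structure Emb (H : Type*) [NormedAddCommGroup H] [InnerProductSpace ℝ H]
  (K : Type*) [NormedAddCommGroup K] [InnerProductSpace ℝ K] where
  /-- the map -/
  f : H → K
  tr : ∀ x y z, ‖f (x + z) - f (y + z)‖ = ‖f x - f y‖
  cont : Continuous f

namespace Emb

variable (F : Emb H K)

/-- the length function. -/
def D (x : H) : ℝ := ‖F.f x - F.f 0‖

/-- half of the square of the length function. -/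
def psi (x : H) : ℝ := ‖F.f x - F.f 0‖ ^ 2 / 2

lemma D_nonneg (x : H) : 0 ≤ F.D x := norm_nonneg _

lemma psi_nonneg (x : H) : 0 ≤ F.psi x := by unfold psi; positivity

lemma psi_eq (x : H) : F.psi x = F.D x ^ 2 / 2 := rfl

lemma norm_sub (x y : H) : ‖F.f x - F.f y‖ = F.D (x - y) := by
  have := F.tr (x - y) 0 y
  rw [sub_add_cancel, zero_add] at this
  exact this

lemma norm_sub_sq (x y : H) : ‖F.f x - F.f y‖ ^ 2 = 2 * F.psi (x - y) := by
  rw [psi_eq, norm_sub]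
  ring

lemma D_zero : F.D 0 = 0 := by unfold D; simp

lemma psi_zero : F.psi 0 = 0 := by rw [psi_eq, D_zero]; simp

lemma D_neg (x : H) : F.D (-x) = F.D x := by
  have h1 := F.norm_sub 0 x
  have h2 := F.norm_sub x 0
  rw [zero_sub] at h1
  rw [sub_zero] at h2
  rw [← h1, ← h2, norm_sub_rev]

lemma psi_neg (x : H) : F.psi (-x) = F.psi x := by rw [psi_eq, psi_eq, D_neg]

lemma D_add_le (x y : H) : F.D (x + y) ≤ F.D x + F.D y := by
  have h1 : F.D (x + y) = ‖F.f (x + y) - F.f 0‖ := rfl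
  have h2 : F.f (x + y) - F.f 0 = (F.f (x + y) - F.f y) + (F.f y - F.f 0) := by abel
  rw [h1, h2]
  refine (norm_add_le _ _).trans ?_
  rw [norm_sub, norm_sub, add_sub_cancel_right, sub_zero]

lemma D_nat (n : ℕ) (x : H) : F.D ((n : ℝ) • x) ≤ n * F.D x := by
  induction n with
  | zero => simp [D_zero]
  | succ n ih =>
    push_cast
    rw [add_smul, one_smul]
    refine (F.D_add_le _ _).trans ?_
    nlinarith [F.D_nonneg x]

lemma D_cont : Continuous F.D := by
  unfold D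
  exact (F.cont.sub continuous_const).norm

lemma psi_cont : Continuous F.psi := by
  unfold psi
  exact ((F.cont.sub continuous_const).norm.pow 2).div_const 2

/-- linear growth, with small constants at small scale. -/
lemma growth {η : ℝ} (hη : 0 < η) : ∃ r : ℝ, 0 < r ∧ ∀ x, F.D x ≤ η * (1 + ‖x‖ / r) := by
  have h1 : Filter.Tendsto F.D (nhds 0) (nhds 0) := by
    have := F.D_cont.tendsto 0
    rwa [D_zero] at this
  have h2 := (Metric.tendsto_nhds_nhds.1 h1) η hη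
  obtain ⟨r, hr, h3⟩ := h2
  refine ⟨r / 2, by positivity, fun x => ?_⟩
  have h4 : ∀ y : H, ‖y‖ < r → F.D y ≤ η := by
    intro y hy
    have := h3 (x := y) (by simpa using hy)
    rw [Real.dist_eq, sub_zero, abs_of_nonneg (F.D_nonneg y)] at this
    exact this.le
  obtain ⟨n, hn⟩ := exists_nat_ge (‖x‖ / (r / 2))
  -- use the ceiling
  set m : ℕ := ⌊‖x‖ / (r / 2)⌋₊ + 1 with hm
  have hm1 : ‖x‖ / (r / 2) < m := by
    rw [hm]; push_cast; exact Nat.lt_floor_add_one _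
  have hm0 : (0 : ℝ) < m := by rw [hm]; positivity
  have h5 : (m : ℝ) • ((m : ℝ)⁻¹ • x) = x := by
    rw [smul_smul, mul_inv_cancel₀ hm0.ne', one_smul]
  have h6 : ‖(m : ℝ)⁻¹ • x‖ < r := by
    rw [norm_smul, Real.norm_eq_abs, abs_of_pos (inv_pos.2 hm0), inv_mul_lt_iff₀ hm0]
    rw [div_lt_iff₀ (by positivity)] at hm1
    nlinarith
  calc F.D x = F.D ((m : ℝ) • ((m : ℝ)⁻¹ • x)) := by rw [h5]
    _ ≤ m * F.D ((m : ℝ)⁻¹ • x) := F.D_nat m _
    _ ≤ m * η := mul_le_mul_of_nonneg_left (h4 _ h6) hm0.le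
    _ ≤ (1 + ‖x‖ / (r / 2)) * η := by
        apply mul_le_mul_of_nonneg_right _ hη.le
        rw [hm]; push_cast
        have := Nat.floor_le (show 0 ≤ ‖x‖ / (r / 2) by positivity)
        linarith
    _ = η * (1 + ‖x‖ / (r / 2)) := by ring

variable [CompleteSpace K]

/-- Gaussian average of `f`. -/
def vv {n : ℕ} (x : Fin n → H) (h : H) : K := ∫ c, F.f (h + GG x c) ∂(gam n)

/-- Gaussian average of `psi`. -/
def Psi {n : ℕ} (x : Fin n → H) (h : H) : ℝ := ∫ c, F.psi (h + GG x c) ∂(gam n)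

lemma f_bound : ∃ A B : ℝ, 0 ≤ A ∧ 0 ≤ B ∧ ∀ x, ‖F.f x‖ ≤ A + B * ‖x‖ := by
  obtain ⟨r, hr, h⟩ := F.growth one_pos
  refine ⟨‖F.f 0‖ + 1, 1 / r, by positivity, by positivity, fun x => ?_⟩
  have h1 : ‖F.f x‖ ≤ ‖F.f x - F.f 0‖ + ‖F.f 0‖ := by
    have := norm_add_le (F.f x - F.f 0) (F.f 0)
    rwa [sub_add_cancel] at this
  have h2 : F.D x ≤ 1 * (1 + ‖x‖ / r) := h x
  have h3 : F.D x = ‖F.f x - F.f 0‖ := rfl
  rw [h3] at h2
  have : 1 / r * ‖x‖ = ‖x‖ / r := by ring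
  rw [this]
  linarith

lemma memLp_f {n : ℕ} (x : Fin n → H) (h : H) :
    MemLp (fun c => F.f (h + GG x c)) 2 (gam n) := by
  obtain ⟨A, B, hA, hB, hb⟩ := F.f_bound
  have hc : Continuous fun c => F.f (h + GG x c) :=
    F.cont.comp (continuous_const.add (GG_cont x))
  have h1a : MemLp (fun _ : EuclideanSpace ℝ (Fin n) => (A + B * ‖h‖)) 2 (gam n) := memLp_const _
  have h1b : MemLp (fun c : EuclideanSpace ℝ (Fin n) => (B * ∑ i, ‖x i‖) * ‖c‖) 2 (gam n) :=
    (gam_norm_memLp n).const_mul _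
  refine (h1a.add h1b).mono hc.aestronglyMeasurable (Filter.Eventually.of_forall fun c => ?_)
  have h0 : 0 ≤ ∑ i, ‖x i‖ := Finset.sum_nonneg fun i _ => norm_nonneg _
  have h2 : 0 ≤ (A + B * ‖h‖) + (B * ∑ i, ‖x i‖) * ‖c‖ := by positivity
  rw [Pi.add_apply, Real.norm_of_nonneg h2]
  refine (hb _).trans ?_
  have h3 : ‖h + GG x c‖ ≤ ‖h‖ + (∑ i, ‖x i‖) * ‖c‖ :=
    (norm_add_le _ _).trans (by linarith [GG_le x c])
  nlinarith [mul_le_mul_of_nonneg_left h3 hB]

lemma integrable_f {n : ℕ} (x : Fin n → H) (h : H) :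
    Integrable (fun c => F.f (h + GG x c)) (gam n) :=
  (F.memLp_f x h).integrable one_le_two

/-- the negative type identity for two square integrable maps. -/
lemma neg_type {X Y : Type*} [MeasurableSpace X] [MeasurableSpace Y] {μ : Measure X}
    {ν : Measure Y} [IsProbabilityMeasure μ] [IsProbabilityMeasure ν] {u : X → K} {v : Y → K}
    (hu : MemLp u 2 μ) (hv : MemLp v 2 ν) :
    ∫ z, ‖u z.1 - v z.2‖ ^ 2 ∂(μ.prod ν) =
      ∫ a, ‖u a‖ ^ 2 ∂μ + ∫ b, ‖v b‖ ^ 2 ∂ν - 2 * inner ℝ (∫ a, u a ∂μ) (∫ b, v b ∂ν) := by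
  have hui := hu.integrable one_le_two
  have hvi := hv.integrable one_le_two
  have hu2 : Integrable (fun a => ‖u a‖ ^ 2) μ := hu.integrable_norm_pow two_ne_zero
  have hv2 : Integrable (fun a => ‖v a‖ ^ 2) ν := hv.integrable_norm_pow two_ne_zero
  have hin : Integrable (fun z : X × Y => inner ℝ (u z.1) (v z.2)) (μ.prod ν) := by
    have h1 : Integrable (fun z : X × Y => ‖u z.1‖ * ‖v z.2‖) (μ.prod ν) :=
      hui.norm.mul_prod hvi.norm
    refine h1.mono' ?_ (Filter.Eventually.of_forall fun z => ?_)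
    · exact (hu.1.comp_fst).inner (hv.1.comp_snd)
    · exact norm_inner_le_norm _ _
  have h1 : ∀ z : X × Y, ‖u z.1 - v z.2‖ ^ 2 =
      (‖u z.1‖ ^ 2 + ‖v z.2‖ ^ 2) - 2 * inner ℝ (u z.1) (v z.2) := by
    intro z
    rw [@norm_sub_sq_real]
    ring
  have hadd : Integrable (fun z : X × Y => ‖u z.1‖ ^ 2 + ‖v z.2‖ ^ 2) (μ.prod ν) :=
    (hu2.comp_fst ν).add (hv2.comp_snd μ)
  simp_rw [h1]
  rw [integral_sub hadd (hin.const_mul 2),
    integral_add (hu2.comp_fst ν) (hv2.comp_snd μ), integral_const_mul,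
    integral_fun_fst (fun a => ‖u a‖ ^ 2), integral_fun_snd (fun a => ‖v a‖ ^ 2)]
  simp only [probReal_univ, one_smul]
  congr 2
  rw [integral_prod _ hin]
  have h2 : ∀ a : X, ∫ b, inner ℝ (u a) (v b) ∂ν = inner ℝ (u a) (∫ b, v b ∂ν) := fun a =>
    integral_inner hvi (u a)
  simp_rw [h2]
  simp_rw [real_inner_comm (∫ b, v b ∂ν)]
  rw [integral_inner hui]

lemma neg_type' {X Y : Type*} [MeasurableSpace X] [MeasurableSpace Y] {μ : Measure X}
    {ν : Measure Y} [IsProbabilityMeasure μ] [IsProbabilityMeasure ν] {u : X → K} {v : Y → K}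
    (hu : MemLp u 2 μ) (hv : MemLp v 2 ν) :
    ‖∫ a, u a ∂μ - ∫ b, v b ∂ν‖ ^ 2 = ∫ z, ‖u z.1 - v z.2‖ ^ 2 ∂(μ.prod ν) -
      (∫ z, ‖u z.1 - u z.2‖ ^ 2 ∂(μ.prod μ)) / 2 - (∫ z, ‖v z.1 - v z.2‖ ^ 2 ∂(ν.prod ν)) / 2 := by
  rw [neg_type hu hv, neg_type hu hu, neg_type hv hv, @norm_sub_sq_real,
    real_inner_self_eq_norm_sq, real_inner_self_eq_norm_sq]
  ring

end Emb

end

end Pool.H770R2.PD
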