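import Pool.Agent.H770R2.PD2

/-!
# Formulas for Gaussian averages
-/

set_option autoImplicit false
set_option linter.unusedVariables false
set_option linter.unusedSectionVars false

namespace Pool.H770R2.PD

open MeasureTheory ProbabilityTheory Pool.H770R2.MazL
open scoped ENNReal NNReal

noncomputable section

variable {H : Type*} [NormedAddCommGroup H] [InnerProductSpace ℝ H]
  {K : Type*} [NormedAddCommGroup K] [InnerProductSpace ℝ K] [CompleteSpace K]

namespace Emb

variable (F : Emb H K)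

lemma integrable_psi {n : ℕ} (x : Fin n → H) (h : H) :
    Integrable (fun c => F.psi (h + GG x c)) (gam n) := by
  have h1 : MemLp (fun c => F.f (h + GG x c) - F.f 0) 2 (gam n) :=
    (F.memLp_f x h).sub (memLp_const _)
  exact (h1.integrable_norm_pow two_ne_zero).div_const 2

/-- `m x`. -/
def m {n : ℕ} (x : Fin n → H) : ℝ := F.Psi (Real.sqrt 2 • x) 0

/-- rotation formula -/
lemma rot_formula {n : ℕ} (x : Fin n → H) {α β ρ : ℝ} (hρ : ρ ^ 2 = α ^ 2 + β ^ 2)
    (h0 : 0 < ρ) (y : H) :
    ∫ z, F.psi (y + GG x (α • z.1) - GG x (β • z.2)) ∂((gam n).prod (gam n)) =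
      F.Psi (ρ • x) y := by
  have h1 : (α / ρ) ^ 2 + (-β / ρ) ^ 2 = 1 := by
    rw [div_pow, div_pow, neg_sq, ← add_div, ← hρ, div_self (by positivity)]
  unfold Psi
  rw [← map_rot (n := n) (α / ρ) (-β / ρ) h1, integral_map (by fun_prop) ?_]
  · rw [map_rot (n := n) (α / ρ) (-β / ρ) h1]
    refine integral_congr_ae (Filter.Eventually.of_forall fun z => ?_)
    show F.psi _ = F.psi _
    congr 1
    rw [GG_smul_left, GG_add, GG_smul, GG_smul, GG_smul, GG_smul, smul_add, smul_smul, smul_smul,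
      mul_div_cancel₀ _ h0.ne', mul_div_cancel₀ _ h0.ne', neg_smul, add_sub_assoc, sub_eq_add_neg]
  · exact (F.psi_cont.comp (continuous_const.add (GG_cont _))).aestronglyMeasurable

/-- product formula -/
lemma prod_formula {n k : ℕ} (x : Fin n → H) (y : Fin k → H) (h : H) :
    ∫ z, F.psi (h + GG x z.1 + GG y z.2) ∂((gam n).prod (gam k)) =
      F.Psi (Fin.append x y) h := by
  unfold Psi
  rw [← map_app (n := n) (m := k), integral_map app_cont.measurable.aemeasurable ?_]
  · refine integral_congr_ae (Filter.Eventually.of_forall fun z => ?_)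
    show F.psi _ = F.psi _
    rw [GG_app, add_assoc]
  · exact (F.psi_cont.comp (continuous_const.add (GG_cont _))).aestronglyMeasurable

lemma self_term {n : ℕ} (x : Fin n → H) (h : H) :
    (∫ z, ‖F.f (h + GG x z.1) - F.f (h + GG x z.2)‖ ^ 2 ∂((gam n).prod (gam n))) / 2 =
      F.m x := by
  have h1 : ∀ z : EuclideanSpace ℝ (Fin n) × EuclideanSpace ℝ (Fin n),
      ‖F.f (h + GG x z.1) - F.f (h + GG x z.2)‖ ^ 2 =
        2 * F.psi (0 + GG x ((1 : ℝ) • z.1) - GG x ((1 : ℝ) • z.2)) := by
    intro z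
    rw [F.norm_sub_sq]
    congr 2
    rw [one_smul, one_smul]
    abel
  simp_rw [h1]
  rw [integral_const_mul, F.rot_formula x (ρ := Real.sqrt 2) ?_ (by positivity) 0]
  · unfold m; ring
  · rw [Real.sq_sqrt (by norm_num)]; norm_num

lemma norm_vv_sq {n k : ℕ} (x : Fin n → H) (y : Fin k → H) (h h' : H) :
    ‖F.vv x h - F.vv y h'‖ ^ 2 =
      2 * (∫ z, F.psi ((h - h') + GG x z.1 - GG y z.2) ∂((gam n).prod (gam k))) -
        F.m x - F.m y := by
  unfold vv
  rw [neg_type' (F.memLp_f x h) (F.memLp_f y h'), F.self_term, F.self_term]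
  congr 2
  rw [← integral_const_mul]
  refine integral_congr_ae (Filter.Eventually.of_forall fun z => ?_)
  show ‖_‖ ^ 2 = 2 * F.psi _
  rw [F.norm_sub_sq]
  congr 2
  abel

lemma norm_vv_append {n k : ℕ} (x : Fin n → H) (y : Fin k → H) (h h' : H) :
    ‖F.vv x h - F.vv y h'‖ ^ 2 =
      2 * F.Psi (Fin.append x (-y)) (h - h') - F.m x - F.m y := by
  rw [norm_vv_sq, ← F.prod_formula x (-y)]
  congr 3
  refine integral_congr_ae (Filter.Eventually.of_forall fun z => ?_)
  show F.psi _ = F.psi _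
  rw [GG_neg_left, sub_eq_add_neg]

lemma norm_vv_scale {n : ℕ} (x : Fin n → H) {α β ρ : ℝ} (hρ : ρ ^ 2 = α ^ 2 + β ^ 2)
    (h0 : 0 < ρ) (h h' : H) :
    ‖F.vv (α • x) h - F.vv (β • x) h'‖ ^ 2 =
      2 * F.Psi (ρ • x) (h - h') - F.m (α • x) - F.m (β • x) := by
  rw [norm_vv_sq, ← F.rot_formula x hρ h0]
  congr 3
  refine integral_congr_ae (Filter.Eventually.of_forall fun z => ?_)
  show F.psi _ = F.psi _
  rw [GG_smul_left, GG_smul_left, GG_smul, GG_smul]

lemma norm_vv_self {n : ℕ} (x : Fin n → H) (h h' : H) :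
    ‖F.vv x h - F.vv x h'‖ ^ 2 =
      2 * F.Psi (Real.sqrt 2 • x) (h - h') - 2 * F.m x := by
  have := F.norm_vv_scale x (α := 1) (β := 1) (ρ := Real.sqrt 2)
    (by rw [Real.sq_sqrt (by norm_num)]; norm_num) (by positivity) h h'
  rw [one_smul] at this
  rw [this]
  ring

lemma norm_vv_le {n : ℕ} (x : Fin n → H) (h h' : H) :
    ‖F.vv x h - F.vv x h'‖ ≤ F.D (h - h') := by
  unfold vv
  rw [← integral_sub (F.integrable_f x h) (F.integrable_f x h')]
  refine (norm_integral_le_integral_norm _).trans ?_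
  have h1 : ∀ c, ‖F.f (h + GG x c) - F.f (h' + GG x c)‖ = F.D (h - h') := by
    intro c
    rw [F.tr, F.norm_sub]
  simp_rw [h1]
  simp

/-- the averaged embedding. -/
def avg {n : ℕ} (x : Fin n → H) : Emb H K where
  f := F.vv x
  tr h h' z := by
    have h1 := F.norm_vv_self x (h + z) (h' + z)
    have h2 := F.norm_vv_self x h h'
    rw [add_sub_add_right_eq_sub, ← h2] at h1
    exact (sq_eq_sq₀ (norm_nonneg _) (norm_nonneg _)).1 h1
  cont := by
    rw [continuous_iff_continuousAt]
    intro h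
    rw [ContinuousAt, tendsto_iff_norm_sub_tendsto_zero]
    have h1 : Filter.Tendsto (fun y => F.D (y - h)) (nhds h) (nhds 0) := by
      have : Filter.Tendsto (fun y => F.D (y - h)) (nhds h) (nhds (F.D (h - h))) :=
        (F.D_cont.comp (continuous_id.sub continuous_const)).tendsto h
      rwa [sub_self, F.D_zero] at this
    exact squeeze_zero (fun _ => norm_nonneg _) (fun y => F.norm_vv_le x y h) h1

lemma avg_f {n : ℕ} (x : Fin n → H) (h : H) : (F.avg x).f h = F.vv x h := rfl

lemma avg_D {n : ℕ} (x : Fin n → H) (h : H) : (F.avg x).D h = ‖F.vv x h - F.vv x 0‖ := rfl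

lemma avg_psi {n : ℕ} (x : Fin n → H) (h : H) :
    (F.avg x).psi h = F.Psi (Real.sqrt 2 • x) h - F.m x := by
  have h1 := F.norm_vv_self x h 0
  have h2 : (F.avg x).psi h = ‖F.vv x h - F.vv x 0‖ ^ 2 / 2 := rfl
  rw [h2, h1, sub_zero]
  ring

lemma append_smul {n k : ℕ} (a : ℝ) (x : Fin n → H) (y : Fin k → H) :
    a • Fin.append x y = Fin.append (a • x) (a • y) := by
  funext i
  refine Fin.addCases (fun j => ?_) (fun j => ?_) i
  · simp [Fin.append_left]
  · simp [Fin.append_right]

/-- adding vectors to a family. -/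
lemma m_append {n k : ℕ} (x : Fin n → H) (y : Fin k → H) :
    F.m (Fin.append x y) = F.m x + (F.avg x).Psi (Real.sqrt 2 • y) 0 := by
  have hint : Integrable (fun z : EuclideanSpace ℝ (Fin n) × EuclideanSpace ℝ (Fin k) =>
      F.psi (0 + GG (Real.sqrt 2 • x) z.1 + GG (Real.sqrt 2 • y) z.2))
      ((gam n).prod (gam k)) := by
    have h1 := F.integrable_psi (Fin.append (Real.sqrt 2 • x) (Real.sqrt 2 • y)) 0
    rw [← map_app (n := n) (m := k)] at h1
    have h2 := h1.comp_measurable app_cont.measurable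
    refine h2.congr (Filter.Eventually.of_forall fun z => ?_)
    show F.psi _ = F.psi _
    rw [GG_app, add_assoc]
  have h1 : F.m (Fin.append x y) =
      ∫ c', F.Psi (Real.sqrt 2 • x) (0 + GG (Real.sqrt 2 • y) c') ∂(gam k) := by
    unfold m
    rw [append_smul, ← F.prod_formula, integral_prod_symm _ hint]
    refine integral_congr_ae (Filter.Eventually.of_forall fun c' => ?_)
    show ∫ c, F.psi _ ∂(gam n) = ∫ c, F.psi _ ∂(gam n)
    refine integral_congr_ae (Filter.Eventually.of_forall fun c => ?_)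
    show F.psi _ = F.psi _
    congr 1
    abel
  have h2 : ∀ h, F.Psi (Real.sqrt 2 • x) h = F.m x + (F.avg x).psi h := by
    intro h
    rw [avg_psi]
    ring
  rw [h1]
  simp_rw [h2]
  rw [integral_add (integrable_const _) ((F.avg x).integrable_psi _ _)]
  simp [Psi]

end Emb

end

end Pool.H770R2.PD
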