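import Pool.Agent.H770R2.PD3

/-!
# A Cameron-Martin estimate
-/

set_option autoImplicit false
set_option linter.unusedVariables false
set_option linter.unusedSectionVars false

namespace Pool.H770R2.PD

open MeasureTheory ProbabilityTheory Pool.H770R2.MazL
open scoped ENNReal NNReal

noncomputable section

variable {H : Type*} [NormedAddCommGroup H] [InnerProductSpace ℝ H]
  {K : Type*} [NormedAddCommGroup K] [InnerProductSpace ℝ K] [CompleteSpace K]

lemma map_gam_one : (gam 1).map (fun c => c 0) = gaussianReal 0 1 := by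
  have hm : Measurable fun c : EuclideanSpace ℝ (Fin 1) => c 0 := by fun_prop
  have : IsProbabilityMeasure ((gam 1).map (fun c => c 0)) :=
    Measure.isProbabilityMeasure_map hm.aemeasurable
  apply Measure.ext_of_charFun
  funext t
  rw [charFun_gaussianReal, charFun_apply, integral_map hm.aemeasurable (by fun_prop)]
  have h1 := charFun_gam (WithLp.toLp 2 (fun _ : Fin 1 => t))
  rw [charFun_apply] at h1
  have h2 : ∀ c : EuclideanSpace ℝ (Fin 1), inner ℝ (c 0) t =
      inner ℝ c (WithLp.toLp 2 (fun _ : Fin 1 => t)) := by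
    intro c
    simp [PiLp.inner_apply]
  simp_rw [h2]
  rw [h1]
  congr 1
  have h3 : ‖(WithLp.toLp 2 (fun _ : Fin 1 => t) : EuclideanSpace ℝ (Fin 1))‖ ^ 2 = t ^ 2 := by
    rw [EuclideanSpace.norm_sq_eq]
    simp
  have h4 : ((‖(WithLp.toLp 2 (fun _ : Fin 1 => t) : EuclideanSpace ℝ (Fin 1))‖ : ℝ) : ℂ) ^ 2 =
      (t : ℂ) ^ 2 := by
    exact_mod_cast congrArg (fun s : ℝ => (s : ℂ)) h3
  rw [h4]
  simp
  ring

namespace Emb

variable (F : Emb H K)

lemma memLp_D (h : H) : MemLp (fun r : ℝ => F.D (r • h)) 2 (gaussianReal 0 1) := by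
  obtain ⟨r, hr, hb⟩ := F.growth one_pos
  have hc : Continuous fun s : ℝ => F.D (s • h) :=
    F.D_cont.comp (continuous_id.smul continuous_const)
  have h1 : MemLp (fun _ : ℝ => (1 : ℝ)) 2 (gaussianReal 0 1) := memLp_const _
  have h2 : MemLp (fun s : ℝ => (‖h‖ / r) * |s|) 2 (gaussianReal 0 1) := by
    have h3 : MemLp (id : ℝ → ℝ) 2 (gaussianReal 0 1) := memLp_id_gaussianReal' 2 (by norm_num)
    exact h3.norm.const_mul _
  refine (h1.add h2).mono hc.aestronglyMeasurable (Filter.Eventually.of_forall fun s => ?_)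
  have h4 : 0 ≤ 1 + (‖h‖ / r) * |s| := by positivity
  rw [Pi.add_apply, Real.norm_of_nonneg h4, Real.norm_of_nonneg (F.D_nonneg _)]
  refine (hb _).trans ?_
  rw [norm_smul, Real.norm_eq_abs, one_mul]
  apply le_of_eq
  ring

lemma integrable_D (h : H) : Integrable (fun r : ℝ => F.D (r • h)) (gaussianReal 0 1) :=
  (F.memLp_D h).integrable one_le_two

lemma integrable_D_sq (h : H) : Integrable (fun r : ℝ => F.D (r • h) ^ 2) (gaussianReal 0 1) := by
  have := (F.memLp_D h).integrable_norm_pow two_ne_zero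
  simpa using this

/-- Gaussian shift -/
lemma shift_formula (h : H) (τ : ℝ) :
    ∫ r, F.D ((r + τ) • h) ∂(gaussianReal 0 1) =
      ∫ r, F.D (r • h) * Real.exp (r * τ - τ ^ 2 / 2) ∂(gaussianReal 0 1) := by
  rw [integral_gaussianReal_eq_integral_smul one_ne_zero,
    integral_gaussianReal_eq_integral_smul one_ne_zero]
  have h1 := integral_add_right_eq_self (μ := (volume : Measure ℝ))
    (fun r => gaussianPDFReal 0 1 r • (F.D (r • h) * Real.exp (r * τ - τ ^ 2 / 2))) τ
  rw [← h1]
  refine integral_congr_ae (Filter.Eventually.of_forall fun r => ?_)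
  show gaussianPDFReal 0 1 r • F.D ((r + τ) • h) =
    gaussianPDFReal 0 1 (r + τ) • (F.D ((r + τ) • h) * Real.exp ((r + τ) * τ - τ ^ 2 / 2))
  rw [gaussianPDFReal_def]
  simp only [smul_eq_mul, NNReal.coe_one, mul_one, sub_zero]
  have h2 : Real.exp (-r ^ 2 / 2) = Real.exp (-(r + τ) ^ 2 / 2) *
      Real.exp ((r + τ) * τ - τ ^ 2 / 2) := by
    rw [← Real.exp_add]
    congr 1
    ring
  rw [h2]
  ring

lemma exp_sq_integral (τ : ℝ) :
    Integrable (fun r : ℝ => Real.exp (r * τ - τ ^ 2 / 2) ^ 2) (gaussianReal 0 1) ∧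
    ∫ r, Real.exp (r * τ - τ ^ 2 / 2) ^ 2 ∂(gaussianReal 0 1) = Real.exp (τ ^ 2) := by
  have h1 : ∀ r : ℝ, Real.exp (r * τ - τ ^ 2 / 2) ^ 2 =
      Real.exp (-τ ^ 2) * Real.exp ((2 * τ) * r) := by
    intro r
    rw [← Real.exp_add, ← Real.exp_nat_mul]
    congr 1
    push_cast
    ring
  simp_rw [h1]
  constructor
  · exact (integrable_exp_mul_gaussianReal _).const_mul _
  · rw [integral_const_mul]
    have h2 := congrFun (mgf_fun_id_gaussianReal (μ := 0) (v := 1)) (2 * τ)
    unfold mgf at h2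
    rw [h2, ← Real.exp_add]
    congr 1
    push_cast
    ring

lemma CM (h : H) {τ : ℝ} (hτ : |τ| ≤ 1) :
    F.D (τ • h) ^ 2 ≤ 8 * ∫ r, F.D (r • h) ^ 2 ∂(gaussianReal 0 1) := by
  set a := ∫ r, F.D (r • h) ^ 2 ∂(gaussianReal 0 1) with ha
  have hτ2 : τ ^ 2 ≤ 1 := by
    have := abs_le.1 hτ
    nlinarith
  have ha0 : 0 ≤ a := integral_nonneg fun r => by positivity
  have hexp : Real.exp (τ ^ 2) ≤ 3 := by
    have h1 : Real.exp (τ ^ 2) ≤ Real.exp 1 := Real.exp_le_exp.2 hτ2
    have h2 := Real.exp_one_lt_d9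
    linarith
  obtain ⟨he1, he2⟩ := exp_sq_integral τ
  have hmul : Integrable (fun r : ℝ => F.D (r • h) * Real.exp (r * τ - τ ^ 2 / 2))
      (gaussianReal 0 1) := by
    have h1 := ((F.integrable_D_sq h).add he1)
    refine h1.mono' ?_ (Filter.Eventually.of_forall fun r => ?_)
    · have hc : Continuous fun r : ℝ => F.D (r • h) * Real.exp (r * τ - τ ^ 2 / 2) := by
        have h2 : Continuous fun s : ℝ => F.D (s • h) :=
          F.D_cont.comp (continuous_id.smul continuous_const)
        exact h2.mul (by fun_prop)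
      exact hc.aestronglyMeasurable
    · have h3 := F.D_nonneg (r • h)
      have h4 := Real.exp_pos (r * τ - τ ^ 2 / 2)
      rw [Real.norm_of_nonneg (by positivity), Pi.add_apply]
      nlinarith [sq_nonneg (F.D (r • h) - Real.exp (r * τ - τ ^ 2 / 2))]
  have hshift : Integrable (fun r : ℝ => F.D ((r + τ) • h)) (gaussianReal 0 1) := by
    have h1 : Integrable (fun r : ℝ => F.D (r • h) + F.D (τ • h)) (gaussianReal 0 1) :=
      (F.integrable_D h).add (integrable_const _)
    refine h1.mono' ?_ (Filter.Eventually.of_forall fun r => ?_)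
    · have hc : Continuous fun r : ℝ => F.D ((r + τ) • h) :=
        F.D_cont.comp ((continuous_id.add continuous_const).smul continuous_const)
      exact hc.aestronglyMeasurable
    · rw [Real.norm_of_nonneg (F.D_nonneg _), add_smul]
      exact F.D_add_le _ _
  have key : ∀ l : ℝ, 0 < l → F.D (τ • h) ≤ l * a + 2 / l := by
    intro l hl
    have h1 : F.D (τ • h) ≤ ∫ r, (F.D ((r + τ) • h) + F.D (r • h)) ∂(gaussianReal 0 1) := by
      have h2 : F.D (τ • h) = ∫ r : ℝ, F.D (τ • h) ∂(gaussianReal 0 1) := by simp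
      rw [h2]
      refine integral_mono (integrable_const _) (hshift.add (F.integrable_D h)) fun r => ?_
      show F.D (τ • h) ≤ F.D ((r + τ) • h) + F.D (r • h)
      have h3 : τ • h = (r + τ) • h + -(r • h) := by rw [add_smul]; abel
      rw [h3]
      refine (F.D_add_le _ _).trans ?_
      rw [F.D_neg]
    refine h1.trans ?_
    rw [integral_add hshift (F.integrable_D h), shift_formula]
    have h5 : ∫ r, F.D (r • h) * Real.exp (r * τ - τ ^ 2 / 2) ∂(gaussianReal 0 1) ≤
        ∫ r, ((l / 2) * F.D (r • h) ^ 2 + (1 / (2 * l)) * Real.exp (r * τ - τ ^ 2 / 2) ^ 2)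
          ∂(gaussianReal 0 1) := by
      refine integral_mono hmul (((F.integrable_D_sq h).const_mul _).add (he1.const_mul _))
        fun r => ?_
      show F.D (r • h) * Real.exp (r * τ - τ ^ 2 / 2) ≤ _
      have h6 : (l / 2) * F.D (r • h) ^ 2 + (1 / (2 * l)) * Real.exp (r * τ - τ ^ 2 / 2) ^ 2 -
          F.D (r • h) * Real.exp (r * τ - τ ^ 2 / 2) =
          (l * F.D (r • h) - Real.exp (r * τ - τ ^ 2 / 2)) ^ 2 / (2 * l) := by
        field_simp
        ring
      have h7 : 0 ≤ (l * F.D (r • h) - Real.exp (r * τ - τ ^ 2 / 2)) ^ 2 / (2 * l) := by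
        positivity
      linarith
    have h8 : ∫ r, F.D (r • h) ∂(gaussianReal 0 1) ≤
        ∫ r, ((l / 2) * F.D (r • h) ^ 2 + (1 / (2 * l))) ∂(gaussianReal 0 1) := by
      refine integral_mono (F.integrable_D h) (((F.integrable_D_sq h).const_mul _).add
        (integrable_const _)) fun r => ?_
      show F.D (r • h) ≤ _
      have h6 : (l / 2) * F.D (r • h) ^ 2 + (1 / (2 * l)) - F.D (r • h) =
          (l * F.D (r • h) - 1) ^ 2 / (2 * l) := by
        field_simp
        ring
      have h7 : 0 ≤ (l * F.D (r • h) - 1) ^ 2 / (2 * l) := by positivity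
      linarith
    rw [integral_add ((F.integrable_D_sq h).const_mul _) (he1.const_mul _), integral_const_mul,
      integral_const_mul, he2, ← ha] at h5
    rw [integral_add ((F.integrable_D_sq h).const_mul _) (integrable_const _),
      integral_const_mul, ← ha] at h8
    have h9 : ∫ _ : ℝ, 1 / (2 * l) ∂(gaussianReal 0 1) = 1 / (2 * l) := by simp
    rw [h9] at h8
    have h10 : 1 / (2 * l) * Real.exp (τ ^ 2) ≤ 1 / (2 * l) * 3 :=
      mul_le_mul_of_nonneg_left hexp (by positivity)
    have h11 : 2 / l = 1 / (2 * l) * 3 + 1 / (2 * l) := by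
      field_simp
      norm_num
    linarith
  rcases eq_or_lt_of_le (F.D_nonneg (τ • h)) with h0 | h0
  · rw [← h0]
    have : 0 ≤ 8 * a := by positivity
    simpa using this
  · have h1 := key (4 / F.D (τ • h)) (by positivity)
    set d := F.D (τ • h) with hd
    have h2 : 2 / (4 / d) = d / 2 := by
      field_simp
      norm_num
    rw [h2] at h1
    have h3 : d / 2 ≤ 4 / d * a := by linarith
    have h4 : d * (d / 2) ≤ d * (4 / d * a) := mul_le_mul_of_nonneg_left h3 h0.le
    have h5 : d * (4 / d * a) = 4 * a := by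
      field_simp
    rw [h5] at h4
    nlinarith

/-- one extra vector. -/
lemma m_append_one {n : ℕ} (x : Fin n → H) (u : H) :
    F.m (Fin.append x (fun _ : Fin 1 => u)) = F.m x +
      (∫ r, (F.avg x).D (r • (Real.sqrt 2 • u)) ^ 2 ∂(gaussianReal 0 1)) / 2 := by
  rw [m_append]
  congr 1
  unfold Psi
  have hc : Continuous fun r : ℝ => (F.avg x).D (r • (Real.sqrt 2 • u)) ^ 2 :=
    (((F.avg x).D_cont).comp (continuous_id.smul continuous_const)).pow 2
  rw [← map_gam_one, integral_map (by fun_prop) hc.aestronglyMeasurable, ← integral_div]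
  refine integral_congr_ae (Filter.Eventually.of_forall fun c => ?_)
  show (F.avg x).psi _ = (F.avg x).D _ ^ 2 / 2
  rw [psi_eq]
  congr 3
  unfold GG
  simp

lemma D_step {n : ℕ} (x : Fin n → H) (u : H) {τ : ℝ} (hτ : |τ| ≤ 1) :
    (F.avg x).D (τ • u) ^ 2 ≤ 16 * (F.m (Fin.append x (fun _ : Fin 1 => u)) - F.m x) := by
  have h1 := (F.avg x).CM (Real.sqrt 2 • u) (τ := τ / Real.sqrt 2) (by
    rw [abs_div, abs_of_pos (by positivity : (0:ℝ) < Real.sqrt 2)]
    rw [div_le_one (by positivity)]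
    refine hτ.trans ?_
    rw [Real.one_le_sqrt]
    norm_num)
  have h2 : (τ / Real.sqrt 2) • (Real.sqrt 2 • u) = τ • u := by
    rw [smul_smul, div_mul_cancel₀ _ (by positivity)]
  rw [h2] at h1
  rw [m_append_one]
  linarith

end Emb

end

end Pool.H770R2.PD
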