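import Pool.Agent.H770R2.PD4

/-!
# Extremal families
-/

set_option autoImplicit false
set_option linter.unusedVariables false
set_option linter.unusedSectionVars false

namespace Pool.H770R2.PD

open MeasureTheory ProbabilityTheory Pool.H770R2.MazL Filter Topology
open scoped ENNReal NNReal

noncomputable section

variable {H : Type*} [NormedAddCommGroup H] [InnerProductSpace ℝ H]
  {K : Type*} [NormedAddCommGroup K] [InnerProductSpace ℝ K] [CompleteSpace K]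

/-- a homogeneous gauge equivalent to the norm. -/
structure Gauge (N : H → ℝ) (C : ℝ) : Prop where
  lo : ∀ x, ‖x‖ ≤ N x
  hi : ∀ x, N x ≤ C * ‖x‖
  hom : ∀ (c : ℝ) x, N (c • x) = |c| * N x

/-- finite families. -/
abbrev Fm (H : Type*) := Σ n : ℕ, (Fin n → H)

/-- the constraint functional. -/
def aa (N : H → ℝ) {n : ℕ} (x : Fin n → H) : ℝ := ∑ i, N (x i) ^ 2

variable {N : H → ℝ} {C : ℝ}

lemma aa_nonneg {n : ℕ} (x : Fin n → H) : 0 ≤ aa N x := Finset.sum_nonneg fun _ _ => sq_nonneg _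

lemma aa_append {n k : ℕ} (x : Fin n → H) (y : Fin k → H) :
    aa N (Fin.append x y) = aa N x + aa N y := by
  unfold aa
  rw [Fin.sum_univ_add]
  simp [Fin.append_left, Fin.append_right]

lemma aa_smul (hN : Gauge N C) {n : ℕ} (c : ℝ) (x : Fin n → H) :
    aa N (c • x) = c ^ 2 * aa N x := by
  unfold aa
  rw [Finset.mul_sum]
  refine Finset.sum_congr rfl fun i _ => ?_
  rw [Pi.smul_apply, hN.hom, mul_pow, sq_abs]

lemma aa_neg (hN : Gauge N C) {n : ℕ} (x : Fin n → H) : aa N (-x) = aa N x := by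
  have := aa_smul hN (-1) x
  rw [neg_one_smul] at this
  rw [this]
  ring

lemma sum_le_aa (hN : Gauge N C) {n : ℕ} (x : Fin n → H) : ∑ i, ‖x i‖ ^ 2 ≤ aa N x := by
  unfold aa
  refine Finset.sum_le_sum fun i _ => ?_
  exact pow_le_pow_left₀ (norm_nonneg _) (hN.lo _) 2

namespace Emb

variable (F : Emb H K)

lemma m_nonneg {n : ℕ} (x : Fin n → H) : 0 ≤ F.m x := by
  unfold m Psi
  exact integral_nonneg fun c => F.psi_nonneg _

lemma integrable_GG_sq {n : ℕ} (x : Fin n → H) :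
    Integrable (fun c => ‖GG x c‖ ^ 2) (gam n) := by
  have h1 : MemLp (fun c => GG x c) 2 (gam n) := by
    refine ((gam_norm_memLp n).const_mul (∑ i, ‖x i‖)).mono (GG_cont x).aestronglyMeasurable
      (Eventually.of_forall fun c => ?_)
    refine (GG_le x c).trans ?_
    exact le_abs_self _
  exact h1.integrable_norm_pow two_ne_zero

/-- bound of `m`. -/
lemma m_bound (hN : Gauge N C) : ∃ B : ℝ, 0 ≤ B ∧ ∀ (n : ℕ) (x : Fin n → H),
    F.m x ≤ 1 + B * aa N x := by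
  obtain ⟨r, hr, hb⟩ := F.growth one_pos
  refine ⟨2 * (Mom 2).toReal / r ^ 2, by positivity, fun n x => ?_⟩
  unfold m Psi
  have h1 : ∀ c, F.psi (0 + GG (Real.sqrt 2 • x) c) ≤
      1 + (1 / r ^ 2) * ‖GG (Real.sqrt 2 • x) c‖ ^ 2 := by
    intro c
    rw [zero_add, psi_eq]
    have h2 := hb (GG (Real.sqrt 2 • x) c)
    have h3 := F.D_nonneg (GG (Real.sqrt 2 • x) c)
    set g := ‖GG (Real.sqrt 2 • x) c‖
    have h4 : (1 / r ^ 2) * g ^ 2 = (g / r) ^ 2 := by field_simp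
    rw [h4]
    have h5 : F.D (GG (Real.sqrt 2 • x) c) ^ 2 ≤ (1 + g / r) ^ 2 :=
      pow_le_pow_left₀ h3 (by linarith) 2
    nlinarith [sq_nonneg (1 - g / r)]
  have hint : Integrable (fun c => 1 + (1 / r ^ 2) * ‖GG (Real.sqrt 2 • x) c‖ ^ 2) (gam n) :=
    (integrable_const _).add ((integrable_GG_sq _).const_mul _)
  refine (integral_mono (F.integrable_psi _ _) hint h1).trans ?_
  rw [integral_add (integrable_const _) ((integrable_GG_sq _).const_mul _),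
    integral_const_mul, GG_sq]
  have h6 : ∑ i, ‖(Real.sqrt 2 • x) i‖ ^ 2 = 2 * ∑ i, ‖x i‖ ^ 2 := by
    rw [Finset.mul_sum]
    refine Finset.sum_congr rfl fun i _ => ?_
    rw [Pi.smul_apply, norm_smul, mul_pow, Real.norm_eq_abs, sq_abs, Real.sq_sqrt (by norm_num)]
  rw [h6]
  have h7 := sum_le_aa hN x
  have h8 : 0 ≤ 2 * (Mom 2).toReal / r ^ 2 := by positivity
  have h9 := mul_le_mul_of_nonneg_left h7 h8
  have h10 : 1 / r ^ 2 * ((Mom 2).toReal * (2 * ∑ i, ‖x i‖ ^ 2)) =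
      2 * (Mom 2).toReal / r ^ 2 * ∑ i, ‖x i‖ ^ 2 := by ring
  rw [h10]
  simp only [integral_const, probReal_univ, one_smul]
  linarith

/-- the values. -/
def SS (N : H → ℝ) (t : ℝ) : Set ℝ := {b | ∃ y : Fm H, aa N y.2 ≤ t ∧ F.m y.2 = b}

/-- the extremal value. -/
def MM (N : H → ℝ) (t : ℝ) : ℝ := sSup (F.SS N t)

lemma SS_bdd (hN : Gauge N C) (t : ℝ) : BddAbove (F.SS N t) := by
  obtain ⟨B, hB, hb⟩ := F.m_bound hN
  refine ⟨1 + B * t, ?_⟩
  rintro b ⟨y, hy, rfl⟩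
  exact (hb _ _).trans (by nlinarith)

lemma SS_nonempty {t : ℝ} (ht : 0 ≤ t) : (F.SS N t).Nonempty :=
  ⟨F.m (fun _ : Fin 0 => (0 : H)), ⟨0, fun _ => 0⟩, by simpa [aa] using ht, rfl⟩

lemma le_MM (hN : Gauge N C) {t : ℝ} {n : ℕ} (x : Fin n → H) (hx : aa N x ≤ t) :
    F.m x ≤ F.MM N t :=
  le_csSup (F.SS_bdd hN t) ⟨⟨n, x⟩, hx, rfl⟩

lemma MM_nonneg (hN : Gauge N C) {t : ℝ} (ht : 0 ≤ t) : 0 ≤ F.MM N t := by
  obtain ⟨b, hb⟩ := F.SS_nonempty (N := N) ht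
  obtain ⟨y, hy, rfl⟩ := hb
  exact (F.m_nonneg _).trans (F.le_MM hN _ hy)

/-- extremal sequences. -/
def Ext (N : H → ℝ) (t : ℝ) (y : ℕ → Fm H) : Prop :=
  ∀ k, aa N (y k).2 ≤ t ∧ F.MM N t - 1 / ((k : ℝ) + 1) ≤ F.m (y k).2

lemma exists_Ext (hN : Gauge N C) {t : ℝ} (ht : 0 ≤ t) : ∃ y, F.Ext N t y := by
  have h : ∀ k : ℕ, ∃ y : Fm H, aa N y.2 ≤ t ∧ F.MM N t - 1 / ((k : ℝ) + 1) ≤ F.m y.2 := by
    intro k
    have h1 : F.MM N t - 1 / ((k : ℝ) + 1) < sSup (F.SS N t) := by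
      have : (0:ℝ) < 1 / ((k : ℝ) + 1) := by positivity
      unfold MM
      linarith
    obtain ⟨b, ⟨y, hy, rfl⟩, hb⟩ := exists_lt_of_lt_csSup (F.SS_nonempty ht) h1
    exact ⟨y, hy, hb.le⟩
  choose y hy using h
  exact ⟨y, hy⟩

lemma m_le_of_ext (hN : Gauge N C) {t : ℝ} {y : ℕ → Fm H} (hy : F.Ext N t y) :
    Tendsto (fun k => F.m (y k).2) atTop (𝓝 (F.MM N t)) := by
  have h4 : Tendsto (fun k : ℕ => F.MM N t - 1 / ((k : ℝ) + 1)) atTop (𝓝 (F.MM N t - 0)) :=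
    tendsto_const_nhds.sub tendsto_one_div_add_atTop_nhds_zero_nat
  rw [sub_zero] at h4
  exact tendsto_of_tendsto_of_tendsto_of_le_of_le h4 tendsto_const_nhds (fun k => (hy k).2)
    (fun k => F.le_MM hN _ (hy k).1)

/-- the gap estimate. -/
lemma gap (hN : Gauge N C) {t : ℝ} {n k : ℕ} (x : Fin n → H) (y : Fin k → H)
    (hx : aa N x ≤ t) (hy : aa N y ≤ t) (h : H) :
    ‖F.vv x h - F.vv y h‖ ^ 2 ≤ 2 * F.MM N t - F.m x - F.m y := by
  rw [norm_vv_append, sub_self]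
  have h1 : F.Psi (Fin.append x (-y)) 0 =
      F.m ((1 / Real.sqrt 2) • Fin.append x (-y)) := by
    unfold m
    rw [smul_smul, mul_one_div_cancel (by positivity), one_smul]
  have h2 : aa N ((1 / Real.sqrt 2) • Fin.append x (-y)) ≤ t := by
    rw [aa_smul hN, aa_append, aa_neg hN, div_pow, Real.sq_sqrt (by norm_num)]
    linarith
  rw [h1]
  linarith [F.le_MM hN _ h2]

/-- the limit of the averages. -/
lemma exists_lim (hN : Gauge N C) {t : ℝ} (ht : 0 ≤ t) :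
    ∃ w : H → K, ∀ y, F.Ext N t y → ∀ h, Tendsto (fun k => F.vv (y k).2 h) atTop (𝓝 (w h)) := by
  have hd : ∀ y y', F.Ext N t y → F.Ext N t y' → ∀ h k l,
      ‖F.vv (y k).2 h - F.vv (y' l).2 h‖ ^ 2 ≤ 1 / ((k : ℝ) + 1) + 1 / ((l : ℝ) + 1) := by
    intro y y' hy hy' h k l
    have := F.gap hN (y k).2 (y' l).2 (hy k).1 (hy' l).1 h
    linarith [(hy k).2, (hy' l).2]
  obtain ⟨y₀, hy₀⟩ := F.exists_Ext hN ht
  have hlim0 : Tendsto (fun n : ℕ => 1 / ((n : ℝ) + 1)) atTop (𝓝 0) :=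
    tendsto_one_div_add_atTop_nhds_zero_nat
  have hcau : ∀ h, ∃ z, Tendsto (fun k => F.vv (y₀ k).2 h) atTop (𝓝 z) := by
    intro h
    apply cauchySeq_tendsto_of_complete
    rw [Metric.cauchySeq_iff]
    intro ε hε
    have h1 := (hlim0.eventually (gt_mem_nhds (show 0 < ε ^ 2 / 4 by positivity)))
    obtain ⟨n0, hn0⟩ := eventually_atTop.1 h1
    refine ⟨n0, fun k hk l hl => ?_⟩
    rw [dist_eq_norm]
    have h2 := hd y₀ y₀ hy₀ hy₀ h k l
    have h3 := hn0 k hk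
    have h4 := hn0 l hl
    have h5 : ‖F.vv (y₀ k).2 h - F.vv (y₀ l).2 h‖ ^ 2 < ε ^ 2 := by nlinarith
    exact lt_of_pow_lt_pow_left₀ 2 hε.le h5
  choose w hw using hcau
  refine ⟨w, fun y hy h => ?_⟩
  have h1 : Tendsto (fun k => F.vv (y k).2 h - F.vv (y₀ k).2 h) atTop (𝓝 0) := by
    rw [tendsto_zero_iff_norm_tendsto_zero]
    have h2 : Tendsto (fun k : ℕ => Real.sqrt (1 / ((k : ℝ) + 1) + 1 / ((k : ℝ) + 1))) atTop
        (𝓝 0) := by
      have := (hlim0.add hlim0).sqrt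
      simpa using this
    refine squeeze_zero (fun _ => norm_nonneg _) (fun k => ?_) h2
    rw [← Real.sqrt_sq (norm_nonneg _)]
    exact Real.sqrt_le_sqrt (hd y y₀ hy hy₀ h k k)
  have h2 := h1.add (hw h)
  rw [zero_add] at h2
  refine h2.congr fun k => ?_
  abel

/-- scaling of the extremal value. -/
lemma m_scale {n : ℕ} (x : Fin n → H) (j : ℕ) :
    (1 - (1 / 2 : ℝ) ^ j) * F.m x ≤ F.m (Real.sqrt (1 - (1 / 2 : ℝ) ^ j) • x) := by
  induction j with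
  | zero =>
    rw [pow_zero, sub_self, zero_mul]
    exact F.m_nonneg _
  | succ j ih =>
    set θ : ℝ := 1 - (1 / 2 : ℝ) ^ j with hθ
    have hθ0 : 0 ≤ θ := by
      rw [hθ, sub_nonneg]
      exact pow_le_one₀ (by norm_num) (by norm_num)
    have e1 : 1 - (1 / 2 : ℝ) ^ (j + 1) = (1 + θ) / 2 := by
      rw [hθ, pow_succ]; ring
    rw [e1]
    have hρ : Real.sqrt (1 + θ) ^ 2 = (1 : ℝ) ^ 2 + Real.sqrt θ ^ 2 := by
      rw [Real.sq_sqrt (by linarith), Real.sq_sqrt hθ0]; ring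
    have h1 := F.norm_vv_scale x hρ (by positivity) 0 0
    rw [sub_self, one_smul] at h1
    have h2 : F.Psi (Real.sqrt (1 + θ) • x) 0 = F.m (Real.sqrt ((1 + θ) / 2) • x) := by
      unfold m
      rw [smul_smul, ← Real.sqrt_mul (by norm_num)]
      congr 3
      ring
    rw [h2] at h1
    have h3 : 0 ≤ ‖F.vv x 0 - F.vv (Real.sqrt θ • x) 0‖ ^ 2 := by positivity
    linarith

lemma MM_scale (hN : Gauge N C) {t : ℝ} (ht : 0 ≤ t) {j : ℕ} (hj : 1 ≤ j) :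
    (1 - (1 / 2 : ℝ) ^ j) * F.MM N (t / (1 - (1 / 2 : ℝ) ^ j)) ≤ F.MM N t := by
  set θ : ℝ := 1 - (1 / 2 : ℝ) ^ j with hθ
  have hθ0 : 0 < θ := by
    have : (1 / 2 : ℝ) ^ j ≤ (1 / 2 : ℝ) ^ 1 := pow_le_pow_of_le_one (by norm_num) (by norm_num) hj
    rw [hθ]
    norm_num at this ⊢
    linarith
  rw [mul_comm, ← le_div_iff₀ hθ0]
  refine csSup_le (F.SS_nonempty (by positivity)) ?_
  rintro b ⟨y, hy, rfl⟩
  rw [le_div_iff₀ hθ0, mul_comm]
  refine (F.m_scale y.2 j).trans ?_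
  apply F.le_MM hN
  rw [aa_smul hN, Real.sq_sqrt hθ0.le]
  rw [le_div_iff₀ hθ0] at hy
  linarith

end Emb

end

end Pool.H770R2.PD
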