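import Pool.Agent.H770R2.PD5

/-!
# The limit embedding is Lipschitz and invariant
-/

set_option autoImplicit false
set_option linter.unusedVariables false
set_option linter.unusedSectionVars false

namespace Pool.H770R2.PD

open MeasureTheory ProbabilityTheory Pool.H770R2.MazL Filter Topology
open scoped ENNReal NNReal

noncomputable section

variable {H : Type*} [NormedAddCommGroup H] [InnerProductSpace ℝ H]
  {K : Type*} [NormedAddCommGroup K] [InnerProductSpace ℝ K] [CompleteSpace K]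
  {N : H → ℝ} {C : ℝ}

namespace Emb

variable (F : Emb H K)

/-- the limit is again an embedding, with `D ≤ F.D`. -/
lemma exists_W (hN : Gauge N C) {t : ℝ} (ht : 0 ≤ t) :
    ∃ W : Emb H K, ∀ y, F.Ext N t y → ∀ h, Tendsto (fun k => F.vv (y k).2 h) atTop (𝓝 (W.f h)) := by
  obtain ⟨w, hw⟩ := F.exists_lim hN ht
  obtain ⟨y, hy⟩ := F.exists_Ext hN ht
  have hD : ∀ h h', ‖w h - w h'‖ ≤ F.D (h - h') := by
    intro h h'
    have h1 := ((hw y hy h).sub (hw y hy h')).norm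
    exact le_of_tendsto h1 (Eventually.of_forall fun k => F.norm_vv_le _ _ _)
  refine ⟨⟨w, ?_, ?_⟩, hw⟩
  · intro a b z
    have h1 := ((hw y hy (a + z)).sub (hw y hy (b + z))).norm
    have h2 := ((hw y hy a).sub (hw y hy b)).norm
    refine tendsto_nhds_unique h1 (h2.congr fun k => ?_)
    exact ((F.avg (y k).2).tr a b z).symm
  · rw [continuous_iff_continuousAt]
    intro h
    rw [ContinuousAt, tendsto_iff_norm_sub_tendsto_zero]
    have h1 : Filter.Tendsto (fun y => F.D (y - h)) (nhds h) (nhds 0) := by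
      have : Filter.Tendsto (fun y => F.D (y - h)) (nhds h) (nhds (F.D (h - h))) :=
        (F.D_cont.comp (continuous_id.sub continuous_const)).tendsto h
      rwa [sub_self, F.D_zero] at this
    exact squeeze_zero (fun _ => norm_nonneg _) (fun y => hD y h) h1

lemma W_D_tendsto {W : Emb H K} {y : ℕ → Fm H}
    (hW : ∀ h, Tendsto (fun k => F.vv (y k).2 h) atTop (𝓝 (W.f h))) (h : H) :
    Tendsto (fun k => (F.avg (y k).2).D h) atTop (𝓝 (W.D h)) :=
  ((hW h).sub (hW 0)).norm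

lemma Psi_comp {n : ℕ} (x : Fin n → H) (h : H) (g : H →ₗ[ℝ] H) (hg : ∀ u, F.D (g u) = F.D u) :
    F.Psi (fun i => g (x i)) (g h) = F.Psi x h := by
  unfold Psi
  refine integral_congr_ae (Eventually.of_forall fun c => ?_)
  show F.psi (g h + GG (fun i => g (x i)) c) = F.psi (h + GG x c)
  have h1 : g h + GG (fun i => g (x i)) c = g (h + GG x c) := by
    rw [map_add]
    congr 1
    unfold GG
    rw [map_sum]
    refine Finset.sum_congr rfl fun i _ => ?_
    rw [map_smul]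
  rw [h1, psi_eq, psi_eq, hg]

lemma m_comp {n : ℕ} (x : Fin n → H) (g : H →ₗ[ℝ] H) (hg : ∀ u, F.D (g u) = F.D u) :
    F.m (fun i => g (x i)) = F.m x := by
  unfold m
  have := F.Psi_comp (Real.sqrt 2 • x) 0 g hg
  rw [map_zero] at this
  rw [← this]
  congr 1
  funext i
  simp

lemma avg_comp {n : ℕ} (x : Fin n → H) (h : H) (g : H →ₗ[ℝ] H) (hg : ∀ u, F.D (g u) = F.D u) :
    (F.avg (fun i => g (x i))).D (g h) = (F.avg x).D h := by
  have h1 : (F.avg (fun i => g (x i))).psi (g h) = (F.avg x).psi h := by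
    rw [avg_psi, avg_psi, F.m_comp x g hg]
    congr 1
    rw [← F.Psi_comp (Real.sqrt 2 • x) h g hg]
    congr 1
    funext i
    simp
  rw [psi_eq, psi_eq] at h1
  have h2 : (F.avg (fun i => g (x i))).D (g h) ^ 2 = (F.avg x).D h ^ 2 := by linarith
  exact (sq_eq_sq₀ (D_nonneg _ _) (D_nonneg _ _)).1 h2

/-- invariance of the limit. -/
lemma W_inv (hN : Gauge N C) {t : ℝ} (ht : 0 ≤ t) {W : Emb H K}
    (hW : ∀ y, F.Ext N t y → ∀ h, Tendsto (fun k => F.vv (y k).2 h) atTop (𝓝 (W.f h)))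
    (g : H →ₗ[ℝ] H) (hgN : ∀ u, N (g u) = N u) (hg : ∀ u, F.D (g u) = F.D u) (h : H) :
    W.D (g h) = W.D h := by
  obtain ⟨y, hy⟩ := F.exists_Ext hN ht
  set z : ℕ → Fm H := fun k => ⟨(y k).1, fun i => g ((y k).2 i)⟩ with hz
  have hzE : F.Ext N t z := by
    intro k
    constructor
    · show aa N (fun i => g ((y k).2 i)) ≤ t
      have : aa N (fun i => g ((y k).2 i)) = aa N (y k).2 := by
        unfold aa
        simp only [hgN]
      rw [this]
      exact (hy k).1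
    · show _ ≤ F.m (fun i => g ((y k).2 i))
      rw [F.m_comp _ g hg]
      exact (hy k).2
  have h1 := F.W_D_tendsto (hW z hzE) (g h)
  have h2 := F.W_D_tendsto (hW y hy) h
  refine tendsto_nhds_unique h1 (h2.congr fun k => ?_)
  exact (F.avg_comp _ h g hg).symm

/-- the step bound in the limit. -/
lemma W_step (hN : Gauge N C) {t : ℝ} (ht : 0 ≤ t) {W : Emb H K}
    (hW : ∀ y, F.Ext N t y → ∀ h, Tendsto (fun k => F.vv (y k).2 h) atTop (𝓝 (W.f h)))
    (u : H) {τ : ℝ} (hτ : |τ| ≤ 1) :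
    W.D (τ • u) ^ 2 ≤ 16 * (F.MM N (t + N u ^ 2) - F.MM N t) := by
  obtain ⟨y, hy⟩ := F.exists_Ext hN ht
  have h1 := (F.W_D_tendsto (hW y hy) (τ • u)).pow 2
  have h2 := ((F.m_le_of_ext hN hy).const_sub (F.MM N (t + N u ^ 2))).const_mul 16
  refine le_of_tendsto_of_tendsto h1 h2 (Eventually.of_forall fun k => ?_)
  have h3 := F.D_step (y k).2 u hτ
  have h4 : F.m (Fin.append (y k).2 (fun _ : Fin 1 => u)) ≤ F.MM N (t + N u ^ 2) := by
    apply F.le_MM hN
    rw [aa_append]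
    have : aa N (fun _ : Fin 1 => u) = N u ^ 2 := by unfold aa; simp
    rw [this]
    linarith [(hy k).1]
  show (F.avg (y k).2).D (τ • u) ^ 2 ≤ 16 * (F.MM N (t + N u ^ 2) - F.m (y k).2)
  linarith

/-- Lipschitz bound. -/
lemma W_lip (hN : Gauge N C) {t : ℝ} (ht : 0 < t) {W : Emb H K}
    (hW : ∀ y, F.Ext N t y → ∀ h, Tendsto (fun k => F.vv (y k).2 h) atTop (𝓝 (W.f h)))
    (h : H) : W.D h ^ 2 ≤ (64 * (F.MM N t / t)) * N h ^ 2 := by
  have hM0 : 0 ≤ F.MM N t := F.MM_nonneg hN ht.le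
  rcases eq_or_ne h 0 with rfl | hne
  · rw [W.D_zero]
    have : 0 ≤ (64 * (F.MM N t / t)) * N 0 ^ 2 := by positivity
    simpa using this
  have hNh : 0 < N h := (norm_pos_iff.2 hne).trans_le (hN.lo h)
  -- choose `j`
  have hlim : Tendsto (fun j : ℕ => t / (1 - (1 / 2 : ℝ) ^ j) - t) atTop (𝓝 (t / (1 - 0) - t)) := by
    refine Tendsto.sub_const (Tendsto.div tendsto_const_nhds ?_ (by norm_num)) t
    exact tendsto_const_nhds.sub
      (tendsto_pow_atTop_nhds_zero_of_lt_one (by norm_num) (by norm_num))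
  rw [sub_zero, div_one, sub_self] at hlim
  obtain ⟨j, hj1, hj⟩ := ((eventually_ge_atTop 1).and
    (hlim.eventually (gt_mem_nhds (show 0 < N h ^ 2 by positivity)))).exists
  set θ : ℝ := 1 - (1 / 2 : ℝ) ^ j with hθ
  have hθ0 : 0 < θ := by
    have : (1 / 2 : ℝ) ^ j ≤ (1 / 2 : ℝ) ^ 1 := pow_le_pow_of_le_one (by norm_num) (by norm_num) hj1
    rw [hθ]
    norm_num at this ⊢
    linarith
  have hθ1 : θ < 1 := by
    rw [hθ]
    have : (0:ℝ) < (1 / 2 : ℝ) ^ j := by positivity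
    linarith
  set v : ℝ := t / θ - t with hv
  have hv0 : 0 < v := by
    rw [hv, sub_pos, lt_div_iff₀ hθ0]
    nlinarith
  set s : ℝ := Real.sqrt v / N h with hs
  have hs0 : 0 < s := by positivity
  have hs1 : s ≤ 1 := by
    rw [hs, div_le_one hNh]
    rw [Real.sqrt_le_left hNh.le]
    exact hj.le
  have hNs : N (s • h) ^ 2 = v := by
    rw [hN.hom, abs_of_pos hs0, hs, div_mul_cancel₀ _ hNh.ne', Real.sq_sqrt hv0.le]
  have hscale := F.MM_scale hN ht.le hj1
  rw [← hθ] at hscale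
  have hinc : F.MM N (t + v) - F.MM N t ≤ (F.MM N t / t) * v := by
    have e1 : t + v = t / θ := by rw [hv]; ring
    rw [e1]
    have h1 : F.MM N (t / θ) ≤ F.MM N t / θ := by
      rw [le_div_iff₀ hθ0]; linarith
    have h2 : F.MM N t / θ - F.MM N t = (F.MM N t / t) * v := by
      rw [hv]; field_simp
    linarith
  -- the integer
  set n : ℕ := ⌈1 / s⌉₊ with hn
  have hn1 : 1 / s ≤ n := Nat.le_ceil _
  have hn2 : (n : ℝ) ≤ 1 / s + 1 := (Nat.ceil_lt_add_one (by positivity)).le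
  have hn0 : (0 : ℝ) < n := lt_of_lt_of_le (by positivity) hn1
  have hτ : |1 / (n * s)| ≤ 1 := by
    rw [abs_of_pos (by positivity), div_le_one (by positivity)]
    rw [div_le_iff₀ hs0] at hn1
    exact hn1
  have h1 := F.W_step hN ht.le hW (s • h) hτ
  rw [hNs] at h1
  have e2 : (1 / (n * s)) • (s • h) = (1 / (n : ℝ)) • h := by
    rw [smul_smul]
    congr 1
    field_simp
  rw [e2] at h1
  have h2 : W.D h ≤ n * W.D ((1 / (n : ℝ)) • h) := by
    have := W.D_nat n ((1 / (n : ℝ)) • h)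
    rwa [smul_smul, mul_one_div_cancel hn0.ne', one_smul] at this
  have h3 : W.D h ^ 2 ≤ n ^ 2 * W.D ((1 / (n : ℝ)) • h) ^ 2 := by
    rw [← mul_pow]
    exact pow_le_pow_left₀ (W.D_nonneg _) h2 2
  have h4 : W.D ((1 / (n : ℝ)) • h) ^ 2 ≤ 16 * ((F.MM N t / t) * v) := by linarith
  have h5 : (n : ℝ) ^ 2 * v ≤ 4 * N h ^ 2 := by
    have h6 : (n : ℝ) * s ≤ 2 := by
      calc (n : ℝ) * s ≤ (1 / s + 1) * s := mul_le_mul_of_nonneg_right hn2 hs0.le
        _ = 1 + s := by field_simp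
        _ ≤ 2 := by linarith
    have h7 : v = (s * N h) ^ 2 := by
      rw [hs, div_mul_cancel₀ _ hNh.ne', Real.sq_sqrt hv0.le]
    rw [h7]
    have h8 : (n : ℝ) ^ 2 * (s * N h) ^ 2 = ((n * s) * N h) ^ 2 := by ring
    rw [h8]
    have h9 : (n * s) * N h ≤ 2 * N h := mul_le_mul_of_nonneg_right h6 hNh.le
    have h10 : 0 ≤ (n * s) * N h := by positivity
    nlinarith
  have hκ : 0 ≤ F.MM N t / t := by positivity
  calc W.D h ^ 2 ≤ n ^ 2 * W.D ((1 / (n : ℝ)) • h) ^ 2 := h3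
    _ ≤ n ^ 2 * (16 * ((F.MM N t / t) * v)) := mul_le_mul_of_nonneg_left h4 (by positivity)
    _ = 16 * (F.MM N t / t) * (n ^ 2 * v) := by ring
    _ ≤ 16 * (F.MM N t / t) * (4 * N h ^ 2) := mul_le_mul_of_nonneg_left h5 (by positivity)
    _ = _ := by ring

/-- closeness of averages. -/
lemma exists_close (hN : Gauge N C) {η : ℝ} (hη : 0 < η) :
    ∃ t : ℝ, 0 < t ∧ ∀ (n : ℕ) (x : Fin n → H), aa N x ≤ t → ∀ h,
      ‖F.vv x h - F.f h‖ ≤ 2 * η := by
  obtain ⟨r, hr, hb⟩ := F.growth hη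
  set Q := (Mom 2).toReal with hQ
  have hQ0 : 0 ≤ Q := ENNReal.toReal_nonneg
  refine ⟨r ^ 2 / (Q + 1), by positivity, fun n x hx h => ?_⟩
  have h1 : F.vv x h - F.f h = ∫ c, (F.f (h + GG x c) - F.f h) ∂(gam n) := by
    rw [integral_sub (F.integrable_f x h) (integrable_const _)]
    simp [vv]
  rw [h1]
  refine (norm_integral_le_integral_norm _).trans ?_
  have hint : Integrable (fun c => η * (3 / 2) + (η / (2 * r ^ 2)) * ‖GG x c‖ ^ 2) (gam n) :=
    (integrable_const _).add ((integrable_GG_sq x).const_mul _)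
  have h2 : ∫ c, ‖F.f (h + GG x c) - F.f h‖ ∂(gam n) ≤
      ∫ c, (η * (3 / 2) + (η / (2 * r ^ 2)) * ‖GG x c‖ ^ 2) ∂(gam n) := by
    refine integral_mono ((F.integrable_f x h).sub (integrable_const _)).norm hint fun c => ?_
    show ‖F.f (h + GG x c) - F.f h‖ ≤ _
    rw [F.norm_sub, add_sub_cancel_left]
    refine (hb _).trans ?_
    have h3 : (η / (2 * r ^ 2)) * ‖GG x c‖ ^ 2 = η * ((‖GG x c‖ / r) ^ 2 / 2) := by
      field_simp
    rw [h3, ← mul_add]
    apply mul_le_mul_of_nonneg_left _ hη.le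
    nlinarith [sq_nonneg (1 - ‖GG x c‖ / r)]
  refine h2.trans ?_
  rw [integral_add (integrable_const _) ((integrable_GG_sq x).const_mul _),
    integral_const_mul (η / (2 * r ^ 2)) (fun c => ‖GG x c‖ ^ 2), GG_sq, ← hQ]
  simp only [integral_const, probReal_univ, one_smul]
  have h4 := (sum_le_aa hN x).trans hx
  have h5 : Q * ∑ i, ‖x i‖ ^ 2 ≤ r ^ 2 := by
    calc Q * ∑ i, ‖x i‖ ^ 2 ≤ Q * (r ^ 2 / (Q + 1)) := mul_le_mul_of_nonneg_left h4 hQ0
      _ = r ^ 2 * (Q / (Q + 1)) := by ring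
      _ ≤ r ^ 2 * 1 := by
          apply mul_le_mul_of_nonneg_left _ (by positivity)
          rw [div_le_one (by positivity)]
          linarith
      _ = r ^ 2 := mul_one _
  have h6 : (η / (2 * r ^ 2)) * (Q * ∑ i, ‖x i‖ ^ 2) ≤ (η / (2 * r ^ 2)) * r ^ 2 :=
    mul_le_mul_of_nonneg_left h5 (by positivity)
  have h7 : (η / (2 * r ^ 2)) * r ^ 2 = η / 2 := by field_simp
  linarith

/-- all together: an invariant Lipschitz embedding. -/
theorem exists_lipschitz (hN : Gauge N C) {δ : ℝ} (hδ : 0 < δ)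
    (hlow : ∀ x : H, ‖x‖ = 1 → δ ≤ F.D x) :
    ∃ (W : Emb H K) (L : ℝ), 0 ≤ L ∧ (∀ h, W.D h ^ 2 ≤ L * N h ^ 2) ∧
      (∀ x : H, ‖x‖ = 1 → δ / 2 ≤ W.D x) ∧
      (∀ g : H →ₗ[ℝ] H, (∀ u, N (g u) = N u) → (∀ u, F.D (g u) = F.D u) →
        ∀ h, W.D (g h) = W.D h) := by
  obtain ⟨t, ht, hclose⟩ := F.exists_close hN (η := δ / 8) (by positivity)
  obtain ⟨W, hW⟩ := F.exists_W hN ht.le
  refine ⟨W, 64 * (F.MM N t / t), ?_, F.W_lip hN ht hW, fun x hx => ?_,
    fun g hgN hg h => F.W_inv hN ht.le hW g hgN hg h⟩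
  · have := F.MM_nonneg hN ht.le
    positivity
  · obtain ⟨y, hy⟩ := F.exists_Ext hN ht.le
    have h1 : ∀ h, ‖W.f h - F.f h‖ ≤ 2 * (δ / 8) := by
      intro h
      exact le_of_tendsto ((hW y hy h).sub_const (F.f h)).norm
        (Eventually.of_forall fun k => hclose _ _ (hy k).1 h)
    have h2 := h1 x
    have h3 := h1 0
    have h4 := hlow x hx
    have h5 : F.D x ≤ W.D x + ‖W.f x - F.f x‖ + ‖W.f 0 - F.f 0‖ := by
      have e1 : F.D x = ‖F.f x - F.f 0‖ := rfl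
      have e2 : W.D x = ‖W.f x - W.f 0‖ := rfl
      rw [e1, e2]
      have e3 : F.f x - F.f 0 = (W.f x - W.f 0) - (W.f x - F.f x) + (W.f 0 - F.f 0) := by abel
      rw [e3]
      refine (norm_add_le _ _).trans ?_
      gcongr
      exact norm_sub_le _ _
    linarith

end Emb

end

end Pool.H770R2.PD
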