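import Pool.Agent.H770R2.PD6

/-!
# The quadratic form of a Lipschitz embedding
-/

set_option autoImplicit false
set_option linter.unusedVariables false
set_option linter.unusedSectionVars false

namespace Pool.H770R2.PD

open MeasureTheory ProbabilityTheory Pool.H770R2.MazL Filter Topology
open scoped ENNReal NNReal

noncomputable section

variable {H : Type*} [NormedAddCommGroup H] [InnerProductSpace ℝ H]
  {K : Type*} [NormedAddCommGroup K] [InnerProductSpace ℝ K]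
  {N : H → ℝ} {C : ℝ}

namespace Emb

variable (W : Emb H K)

/-- the rescaled squares. -/
def dd (j : ℕ) (h : H) : ℝ := 4 ^ j * W.D ((1 / 2 : ℝ) ^ j • h) ^ 2

/-- the quadratic form. -/
def qq (h : H) : ℝ := ⨆ j, W.dd j h

lemma dd_nonneg (j : ℕ) (h : H) : 0 ≤ W.dd j h := by unfold dd; positivity

lemma dd_mono (h : H) : Monotone fun j => W.dd j h := by
  refine monotone_nat_of_le_succ fun j => ?_
  unfold dd
  have h1 : (1 / 2 : ℝ) ^ j • h = (2 : ℕ) • ((1 / 2 : ℝ) ^ (j + 1) • h) := by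
    rw [← Nat.cast_smul_eq_nsmul ℝ, smul_smul, pow_succ]
    congr 1
    push_cast
    ring
  have h2 : W.D ((1 / 2 : ℝ) ^ j • h) ≤ 2 * W.D ((1 / 2 : ℝ) ^ (j + 1) • h) := by
    have := W.D_nat 2 ((1 / 2 : ℝ) ^ (j + 1) • h)
    rw [h1, ← Nat.cast_smul_eq_nsmul ℝ]
    exact_mod_cast this
  have h3 : W.D ((1 / 2 : ℝ) ^ j • h) ^ 2 ≤ 4 * W.D ((1 / 2 : ℝ) ^ (j + 1) • h) ^ 2 := by
    have := pow_le_pow_left₀ (W.D_nonneg _) h2 2
    rw [mul_pow] at this
    linarith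
  calc (4:ℝ) ^ j * W.D ((1 / 2 : ℝ) ^ j • h) ^ 2
      ≤ 4 ^ j * (4 * W.D ((1 / 2 : ℝ) ^ (j + 1) • h) ^ 2) :=
        mul_le_mul_of_nonneg_left h3 (by positivity)
    _ = _ := by rw [pow_succ]; ring

variable {W}

lemma dd_le (hN : Gauge N C) {L : ℝ} (hL : ∀ h, W.D h ^ 2 ≤ L * N h ^ 2) (j : ℕ) (h : H) :
    W.dd j h ≤ L * N h ^ 2 := by
  unfold dd
  have h1 := hL ((1 / 2 : ℝ) ^ j • h)
  rw [hN.hom, abs_of_pos (by positivity)] at h1
  calc (4:ℝ) ^ j * W.D ((1 / 2 : ℝ) ^ j • h) ^ 2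
      ≤ 4 ^ j * (L * ((1 / 2 : ℝ) ^ j * N h) ^ 2) := mul_le_mul_of_nonneg_left h1 (by positivity)
    _ = (4 * (1 / 2) ^ 2 : ℝ) ^ j * (L * N h ^ 2) := by
        rw [mul_pow (4:ℝ) ((1 / 2 : ℝ) ^ 2) j, ← pow_mul (1 / 2 : ℝ) 2 j, mul_comm 2 j, pow_mul]
        ring
    _ = _ := by norm_num

lemma dd_bdd (hN : Gauge N C) {L : ℝ} (hL : ∀ h, W.D h ^ 2 ≤ L * N h ^ 2) (h : H) :
    BddAbove (Set.range fun j => W.dd j h) := by
  refine ⟨L * N h ^ 2, ?_⟩
  rintro _ ⟨j, rfl⟩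
  exact dd_le hN hL j h

lemma dd_tendsto (hN : Gauge N C) {L : ℝ} (hL : ∀ h, W.D h ^ 2 ≤ L * N h ^ 2) (h : H) :
    Tendsto (fun j => W.dd j h) atTop (𝓝 (W.qq h)) :=
  tendsto_atTop_ciSup (W.dd_mono h) (dd_bdd hN hL h)

lemma qq_le (hN : Gauge N C) {L : ℝ} (hL : ∀ h, W.D h ^ 2 ≤ L * N h ^ 2) (h : H) :
    W.qq h ≤ L * N h ^ 2 := ciSup_le fun j => dd_le hN hL j h

lemma le_qq (hN : Gauge N C) {L : ℝ} (hL : ∀ h, W.D h ^ 2 ≤ L * N h ^ 2) (h : H) :
    W.D h ^ 2 ≤ W.qq h := by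
  have h1 := le_ciSup (dd_bdd hN hL h) 0
  have h2 : W.dd 0 h = W.D h ^ 2 := by unfold dd; simp
  rw [← h2]
  exact h1

lemma qq_nonneg (hN : Gauge N C) {L : ℝ} (hL : ∀ h, W.D h ^ 2 ≤ L * N h ^ 2) (h : H) :
    0 ≤ W.qq h := (sq_nonneg _).trans (le_qq hN hL h)

lemma qq_inv (g : H →ₗ[ℝ] H) (hg : ∀ h, W.D (g h) = W.D h) (h : H) : W.qq (g h) = W.qq h := by
  unfold qq dd
  simp_rw [← map_smul, hg]

/-- the inner product inequality behind the parallelogram law. -/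
lemma par_aux (h k : H) :
    |W.psi (h + k) + W.psi (h - k) - 2 * W.psi h - 2 * W.psi k| ≤
      (1 / 2) * (Real.sqrt (8 * W.psi h - 2 * W.psi (2 • h)) *
        Real.sqrt (8 * W.psi k - 2 * W.psi (2 • k))) := by
  -- inner products of increments
  have hin : ∀ a b : H, inner ℝ (W.f a - W.f 0) (W.f b - W.f 0) =
      W.psi a + W.psi b - W.psi (a - b) := by
    intro a b
    have h1 := @norm_sub_sq_real K _ _ (W.f a - W.f 0) (W.f b - W.f 0)
    rw [sub_sub_sub_cancel_right, W.norm_sub_sq] at h1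
    have h2 : ‖W.f a - W.f 0‖ ^ 2 = 2 * W.psi a := by rw [W.norm_sub_sq, sub_zero]
    have h3 : ‖W.f b - W.f 0‖ ^ 2 = 2 * W.psi b := by rw [W.norm_sub_sq, sub_zero]
    rw [h2, h3] at h1
    linarith
  set u : H → K := fun a => (W.f a - W.f 0) + (W.f (-a) - W.f 0) with hu
  have hsq : ∀ a, ‖u a‖ = Real.sqrt (8 * W.psi a - 2 * W.psi (2 • a)) := by
    intro a
    have h1 : ‖u a‖ ^ 2 = 8 * W.psi a - 2 * W.psi (2 • a) := by
      rw [← real_inner_self_eq_norm_sq, hu]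
      simp only [inner_add_left, inner_add_right, hin]
      have e1 : a - a = 0 := sub_self a
      have e2 : -a - -a = 0 := sub_self _
      have e3 : a - -a = 2 • a := by rw [sub_neg_eq_add, two_nsmul]
      have e4 : -a - a = -(2 • a) := by rw [two_nsmul]; abel
      rw [e1, e2, e3, e4, W.psi_neg, W.psi_neg, W.psi_zero]
      ring
    rw [← h1, Real.sqrt_sq (norm_nonneg _)]
  have hprod : inner ℝ (u h) (u k) =
      -2 * (W.psi (h + k) + W.psi (h - k) - 2 * W.psi h - 2 * W.psi k) := by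
    rw [hu]
    simp only [inner_add_left, inner_add_right, hin]
    have e1 : h - -k = h + k := sub_neg_eq_add h k
    have e2 : -h - k = -(h + k) := by abel
    have e3 : -h - -k = -(h - k) := by abel
    rw [e1, e2, e3, W.psi_neg, W.psi_neg, W.psi_neg, W.psi_neg]
    ring
  have h1 := abs_real_inner_le_norm (u h) (u k)
  rw [hprod, hsq, hsq, abs_mul] at h1
  have h2 : |(-2 : ℝ)| = 2 := by norm_num
  rw [h2] at h1
  linarith

lemma psi_dd (j : ℕ) (h : H) : 4 ^ j * W.psi ((1 / 2 : ℝ) ^ j • h) = W.dd j h / 2 := by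
  unfold dd
  rw [psi_eq]
  ring

lemma qq_par (hN : Gauge N C) {L : ℝ} (hL : ∀ h, W.D h ^ 2 ≤ L * N h ^ 2) (h k : H) :
    W.qq (h + k) + W.qq (h - k) = 2 * W.qq h + 2 * W.qq k := by
  -- the defect tends to zero
  have hdef : ∀ a : H, Tendsto (fun j : ℕ => 4 ^ (j + 1) * (8 * W.psi ((1 / 2 : ℝ) ^ (j + 1) • a) -
      2 * W.psi (2 • ((1 / 2 : ℝ) ^ (j + 1) • a)))) atTop (𝓝 0) := by
    intro a
    have h1 := dd_tendsto hN hL a
    have h2 := h1.comp (tendsto_add_atTop_nat 1)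
    have h3 := (h2.sub h1).const_mul 4
    rw [sub_self, mul_zero] at h3
    refine h3.congr fun j => ?_
    have e1 : 2 • ((1 / 2 : ℝ) ^ (j + 1) • a) = (1 / 2 : ℝ) ^ j • a := by
      rw [← Nat.cast_smul_eq_nsmul ℝ, smul_smul, pow_succ]
      congr 1
      push_cast
      ring
    rw [e1]
    have e2 := psi_dd (W := W) (j + 1) a
    have e3 := psi_dd (W := W) j a
    show 4 * (W.dd (j + 1) a - W.dd j a) = _
    rw [pow_succ] at e2 ⊢
    nlinarith
  have hsq : ∀ a : H, Tendsto (fun j : ℕ => Real.sqrt (4 ^ (j + 1) *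
      (8 * W.psi ((1 / 2 : ℝ) ^ (j + 1) • a) -
      2 * W.psi (2 • ((1 / 2 : ℝ) ^ (j + 1) • a))))) atTop (𝓝 0) := by
    intro a
    have := (hdef a).sqrt
    rwa [Real.sqrt_zero] at this
  have hmul := ((hsq h).mul (hsq k)).const_mul (1 / 2)
  rw [mul_zero, mul_zero] at hmul
  have hlim : Tendsto (fun j : ℕ => (W.dd (j + 1) (h + k) / 2 + W.dd (j + 1) (h - k) / 2 -
      2 * (W.dd (j + 1) h / 2) - 2 * (W.dd (j + 1) k / 2))) atTop
      (𝓝 (W.qq (h + k) / 2 + W.qq (h - k) / 2 - 2 * (W.qq h / 2) - 2 * (W.qq k / 2))) := by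
    have t : ∀ a, Tendsto (fun j : ℕ => W.dd (j + 1) a / 2) atTop (𝓝 (W.qq a / 2)) := fun a =>
      ((dd_tendsto hN hL a).comp (tendsto_add_atTop_nat 1)).div_const 2
    exact (((t _).add (t _)).sub ((t _).const_mul 2)).sub ((t _).const_mul 2)
  have hz : Tendsto (fun j : ℕ => (W.dd (j + 1) (h + k) / 2 + W.dd (j + 1) (h - k) / 2 -
      2 * (W.dd (j + 1) h / 2) - 2 * (W.dd (j + 1) k / 2))) atTop (𝓝 0) := by
    rw [tendsto_zero_iff_abs_tendsto_zero]
    refine squeeze_zero (fun _ => abs_nonneg _) (fun j => ?_) hmul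
    have h4 := par_aux (W := W) ((1 / 2 : ℝ) ^ (j + 1) • h) ((1 / 2 : ℝ) ^ (j + 1) • k)
    have h5 : (0:ℝ) < 4 ^ (j + 1) := by positivity
    have h6 : W.dd (j + 1) (h + k) / 2 + W.dd (j + 1) (h - k) / 2 -
      2 * (W.dd (j + 1) h / 2) - 2 * (W.dd (j + 1) k / 2) =
      4 ^ (j + 1) * (W.psi ((1 / 2 : ℝ) ^ (j + 1) • h + (1 / 2 : ℝ) ^ (j + 1) • k) +
        W.psi ((1 / 2 : ℝ) ^ (j + 1) • h - (1 / 2 : ℝ) ^ (j + 1) • k) -
        2 * W.psi ((1 / 2 : ℝ) ^ (j + 1) • h) - 2 * W.psi ((1 / 2 : ℝ) ^ (j + 1) • k)) := by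
      rw [← psi_dd, ← psi_dd, ← psi_dd, ← psi_dd, smul_add, smul_sub]
      ring
    show |W.dd (j + 1) (h + k) / 2 + W.dd (j + 1) (h - k) / 2 -
      2 * (W.dd (j + 1) h / 2) - 2 * (W.dd (j + 1) k / 2)| ≤ _
    rw [h6, abs_mul, abs_of_pos h5, Real.sqrt_mul h5.le, Real.sqrt_mul h5.le]
    have h7 : Real.sqrt (4 ^ (j + 1)) * Real.sqrt (4 ^ (j + 1)) = 4 ^ (j + 1) :=
      Real.mul_self_sqrt h5.le
    have h8 : ∀ a b : ℝ, (4:ℝ) ^ (j + 1) * ((1 / 2) * (a * b)) =
        (1 / 2) * ((Real.sqrt (4 ^ (j + 1)) * a) * (Real.sqrt (4 ^ (j + 1)) * b)) := by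
      intro a b
      linear_combination (-(1 / 2) * a * b) * h7
    rw [← h8]
    exact mul_le_mul_of_nonneg_left h4 h5.le
  have := tendsto_nhds_unique hlim hz
  linarith

lemma sqrt_dd (j : ℕ) (h : H) : Real.sqrt (W.dd j h) = 2 ^ j * W.D ((1 / 2 : ℝ) ^ j • h) := by
  unfold dd
  have : (4:ℝ) ^ j * W.D ((1 / 2 : ℝ) ^ j • h) ^ 2 = (2 ^ j * W.D ((1 / 2 : ℝ) ^ j • h)) ^ 2 := by
    rw [mul_pow, ← pow_mul, mul_comm j 2, pow_mul]
    norm_num
  rw [this, Real.sqrt_sq]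
  have := W.D_nonneg ((1 / 2 : ℝ) ^ j • h)
  positivity

lemma rho_tri (hN : Gauge N C) {L : ℝ} (hL : ∀ h, W.D h ^ 2 ≤ L * N h ^ 2) (h k : H) :
    Real.sqrt (W.qq (h + k)) ≤ Real.sqrt (W.qq h) + Real.sqrt (W.qq k) := by
  have t : ∀ a, Tendsto (fun j : ℕ => Real.sqrt (W.dd j a)) atTop (𝓝 (Real.sqrt (W.qq a))) :=
    fun a => (dd_tendsto hN hL a).sqrt
  refine le_of_tendsto_of_tendsto (t _) ((t h).add (t k)) (Eventually.of_forall fun j => ?_)
  show Real.sqrt (W.dd j (h + k)) ≤ Real.sqrt (W.dd j h) + Real.sqrt (W.dd j k)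
  rw [sqrt_dd, sqrt_dd, sqrt_dd, smul_add, ← mul_add]
  exact mul_le_mul_of_nonneg_left (W.D_add_le _ _) (by positivity)

lemma qq_zero : W.qq 0 = 0 := by
  unfold qq dd
  simp [W.D_zero]

lemma qq_neg (h : H) : W.qq (-h) = W.qq h := by
  unfold qq dd
  simp_rw [smul_neg, W.D_neg]

lemma qq_nat (hN : Gauge N C) {L : ℝ} (hL : ∀ h, W.D h ^ 2 ≤ L * N h ^ 2) (n : ℕ) (h : H) :
    W.qq ((n : ℝ) • h) = (n : ℝ) ^ 2 * W.qq h := by
  induction n using Nat.strong_induction_on with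
  | _ n ih =>
    match n with
    | 0 => simp [qq_zero]
    | 1 => simp
    | (m + 2) =>
      have h1 := qq_par hN hL (((m + 1 : ℕ) : ℝ) • h) h
      have h2 := ih (m + 1) (by omega)
      have h3 := ih m (by omega)
      have e1 : ((m + 1 : ℕ) : ℝ) • h + h = ((m + 2 : ℕ) : ℝ) • h := by
        push_cast
        rw [add_smul, add_smul, one_smul, two_smul]
        abel
      have e2 : ((m + 1 : ℕ) : ℝ) • h - h = (m : ℝ) • h := by
        push_cast
        rw [add_smul, one_smul, add_sub_cancel_right]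
      rw [e1, e2, h2, h3] at h1
      push_cast at h1 ⊢
      linarith

lemma qq_hom (hN : Gauge N C) {L : ℝ} (hL : ∀ h, W.D h ^ 2 ≤ L * N h ^ 2) (s : ℝ) (h : H) :
    W.qq (s • h) = s ^ 2 * W.qq h := by
  -- rational scalars
  have hrat : ∀ r : ℚ, W.qq ((r : ℝ) • h) = (r : ℝ) ^ 2 * W.qq h := by
    intro r
    have hden : (0 : ℝ) < r.den := by exact_mod_cast r.den_pos
    have h1 := qq_nat hN hL r.den ((r : ℝ) • h)
    have e1 : (r.den : ℝ) • ((r : ℝ) • h) = (r.num : ℝ) • h := by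
      rw [smul_smul]
      congr 1
      have := Rat.den_mul_eq_num r
      exact_mod_cast congrArg (fun z : ℚ => (z : ℝ)) this
    rw [e1] at h1
    have h2 : W.qq ((r.num : ℝ) • h) = (r.num : ℝ) ^ 2 * W.qq h := by
      have e : ((r.num.natAbs : ℕ) : ℝ) = |(r.num : ℝ)| := by rw [Nat.cast_natAbs, Int.cast_abs]
      have := qq_nat hN hL r.num.natAbs h
      rw [e, sq_abs] at this
      rcases abs_choice (r.num : ℝ) with hs | hs
      · rwa [hs] at this
      · rw [hs, neg_smul, qq_neg] at this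
        exact this
    rw [h2] at h1
    have e3 : (r : ℝ) = (r.num : ℝ) / (r.den : ℝ) := by
      exact_mod_cast (Rat.num_div_den r).symm
    rw [e3] at h1 ⊢
    rw [div_pow]
    field_simp
    linarith
  -- continuity
  have hcont : Continuous fun s : ℝ => Real.sqrt (W.qq (s • h)) := by
    have hlip : ∀ s r : ℝ, |Real.sqrt (W.qq (s • h)) - Real.sqrt (W.qq (r • h))| ≤
        (Real.sqrt L * N h) * |s - r| := by
      intro s r
      have hb : ∀ a : ℝ, Real.sqrt (W.qq (a • h)) ≤ (Real.sqrt L * N h) * |a| := by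
        intro a
        have h1 := qq_le hN hL (a • h)
        rw [hN.hom] at h1
        have hNn : 0 ≤ N h := (norm_nonneg _).trans (hN.lo h)
        rcases le_or_gt 0 L with hL0 | hL0
        · refine (Real.sqrt_le_sqrt h1).trans ?_
          rw [Real.sqrt_mul hL0, Real.sqrt_sq (by positivity)]
          apply le_of_eq; ring
        · have h2 : L * (|a| * N h) ^ 2 ≤ 0 := by nlinarith [sq_nonneg (|a| * N h)]
          rw [Real.sqrt_eq_zero'.2 (h1.trans h2)]
          positivity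
      rw [abs_sub_le_iff]
      constructor
      · have h1 := rho_tri hN hL ((s - r) • h) (r • h)
        rw [← add_smul, sub_add_cancel] at h1
        linarith [hb (s - r)]
      · have h1 := rho_tri hN hL ((r - s) • h) (s • h)
        rw [← add_smul, sub_add_cancel] at h1
        have h2 := hb (r - s)
        rw [abs_sub_comm r s] at h2
        linarith
    have hlw : LipschitzWith (Real.toNNReal (Real.sqrt L * N h))
        fun s : ℝ => Real.sqrt (W.qq (s • h)) := by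
      refine LipschitzWith.of_dist_le_mul fun s r => ?_
      rw [Real.dist_eq, Real.dist_eq, Real.coe_toNNReal]
      · exact hlip s r
      · have hNn : 0 ≤ N h := (norm_nonneg _).trans (hN.lo h)
        positivity
    exact hlw.continuous
  have hc2 : Continuous fun s : ℝ => W.qq (s • h) := by
    have : (fun s : ℝ => W.qq (s • h)) = fun s : ℝ => (Real.sqrt (W.qq (s • h))) ^ 2 := by
      funext s
      rw [Real.sq_sqrt (qq_nonneg hN hL _)]
    rw [this]
    exact hcont.pow 2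
  have hc3 : Continuous fun s : ℝ => s ^ 2 * W.qq h := by fun_prop
  have := Rat.isDenseEmbedding_coe_real.dense.equalizer hc2 hc3 (funext fun r => hrat r)
  exact congrFun this s

end Emb

end

end Pool.H770R2.PD
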