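import Pool.Agent.H770R2.PD7
import Pool.Agent.H770R2.Dix4

/-!
# Groups preserving a translation invariant Hilbertian metric are unitarizable
-/

set_option autoImplicit false
set_option linter.unusedVariables false
set_option linter.unusedSectionVars false

namespace Pool.H770R2.PD

open MeasureTheory ProbabilityTheory Pool.H770R2.MazL Filter Topology
open scoped ENNReal NNReal

noncomputable section

section engine

variable {H : Type*} [NormedAddCommGroup H] [InnerProductSpace ℝ H]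
  {K : Type*} [NormedAddCommGroup K] [InnerProductSpace ℝ K] [CompleteSpace K]
  {N : H → ℝ} {C : ℝ}

/-- the main engine: invariant quadratic form. -/
theorem exists_form (F : Emb H K) (hN : Gauge N C) {δ : ℝ} (hδ : 0 < δ)
    (hlow : ∀ x : H, ‖x‖ = 1 → δ ≤ F.D x) :
    ∃ (q : H → ℝ) (c₀ C₀ : ℝ), 0 < c₀ ∧ (∀ x, c₀ * ‖x‖ ^ 2 ≤ q x ∧ q x ≤ C₀ * ‖x‖ ^ 2) ∧
      (∀ x y, q (x + y) + q (x - y) = 2 * q x + 2 * q y) ∧
      (∀ (s : ℝ) x, q (s • x) = s ^ 2 * q x) ∧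
      (∀ x y, Real.sqrt (q (x + y)) ≤ Real.sqrt (q x) + Real.sqrt (q y)) ∧
      (∀ g : H →ₗ[ℝ] H, (∀ u, N (g u) = N u) → (∀ u, F.D (g u) = F.D u) →
        ∀ h, q (g h) = q h) := by
  obtain ⟨W, L, hL0, hL, hW, hinv⟩ := F.exists_lipschitz hN hδ hlow
  refine ⟨W.qq, (δ / 2) ^ 2, L * C ^ 2, by positivity, fun x => ⟨?_, ?_⟩,
    fun x y => Emb.qq_par hN hL x y, fun s x => Emb.qq_hom hN hL s x,
    fun x y => Emb.rho_tri hN hL x y, fun g hg1 hg2 h => Emb.qq_inv g (hinv g hg1 hg2) h⟩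
  · rcases eq_or_ne x 0 with rfl | hx
    · rw [Emb.qq_zero]; simp
    · have hx0 : 0 < ‖x‖ := norm_pos_iff.2 hx
      have h1 : ‖(‖x‖⁻¹ : ℝ) • x‖ = 1 := by
        rw [norm_smul, norm_inv, norm_norm, inv_mul_cancel₀ hx0.ne']
      have h2 := hW _ h1
      have h3 := Emb.le_qq hN hL ((‖x‖⁻¹ : ℝ) • x)
      rw [Emb.qq_hom hN hL] at h3
      have h4 : (δ / 2) ^ 2 ≤ W.D ((‖x‖⁻¹ : ℝ) • x) ^ 2 := pow_le_pow_left₀ (by positivity) h2 2
      have h5 : (δ / 2) ^ 2 ≤ (‖x‖⁻¹) ^ 2 * W.qq x := h4.trans h3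
      rw [inv_pow, inv_mul_eq_div, le_div_iff₀ (by positivity)] at h5
      exact h5
  · refine (Emb.qq_le hN hL x).trans ?_
    have h1 := hN.hi x
    have h2 : 0 ≤ N x := (norm_nonneg _).trans (hN.lo x)
    have h3 : N x ^ 2 ≤ (C * ‖x‖) ^ 2 := pow_le_pow_left₀ h2 h1 2
    calc L * N x ^ 2 ≤ L * (C * ‖x‖) ^ 2 := mul_le_mul_of_nonneg_left h3 hL0
      _ = _ := by ring

end engine

section QF

/-- an equivalent quadratic form. -/
structure QF (H : Type*) [NormedAddCommGroup H] [NormedSpace ℝ H] where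
  /-- the form -/
  q : H → ℝ
  /-- lower constant -/
  c : ℝ
  /-- upper constant -/
  C : ℝ
  hc : 0 < c
  lo : ∀ x, c * ‖x‖ ^ 2 ≤ q x
  hi : ∀ x, q x ≤ C * ‖x‖ ^ 2
  par : ∀ x y, q (x + y) + q (x - y) = 2 * q x + 2 * q y
  hom : ∀ (s : ℝ) x, q (s • x) = s ^ 2 * q x
  tri : ∀ x y, Real.sqrt (q (x + y)) ≤ Real.sqrt (q x) + Real.sqrt (q y)

variable {H : Type*} [NormedAddCommGroup H] [NormedSpace ℝ H]

/-- type synonym. -/
def QF.Sp (Q : QF H) : Type _ := H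

instance (Q : QF H) : AddCommGroup Q.Sp := inferInstanceAs (AddCommGroup H)
instance (Q : QF H) : Module ℝ Q.Sp := inferInstanceAs (Module ℝ H)
instance (Q : QF H) : Norm Q.Sp := ⟨fun x => Real.sqrt (Q.q x)⟩

lemma QF.norm_def (Q : QF H) (x : H) : ‖(show Q.Sp from x)‖ = Real.sqrt (Q.q x) := rfl

lemma QF.nonneg (Q : QF H) (x : H) : 0 ≤ Q.q x :=
  le_trans (mul_nonneg Q.hc.le (by positivity)) (Q.lo x)

lemma QF.sqrt_smul (Q : QF H) (s : ℝ) (x : H) :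
    Real.sqrt (Q.q (s • x)) = ‖s‖ * Real.sqrt (Q.q x) := by
  rw [Q.hom, Real.sqrt_mul (sq_nonneg s), Real.sqrt_sq_eq_abs, Real.norm_eq_abs]

lemma QF.sqrt_zero_iff (Q : QF H) (x : H) : Real.sqrt (Q.q x) = 0 ↔ x = 0 := by
  constructor
  · intro h
    have h1 : Q.q x = 0 := (Real.sqrt_eq_zero (Q.nonneg x)).1 h
    have h2 := Q.lo x
    rw [h1] at h2
    have h3 : ‖x‖ ^ 2 ≤ 0 := by
      by_contra hcon
      push Not at hcon
      have := mul_pos Q.hc hcon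
      linarith
    have h4 : ‖x‖ = 0 := by
      have := sq_nonneg ‖x‖
      nlinarith [norm_nonneg x]
    exact norm_eq_zero.1 h4
  · rintro rfl
    have h1 := Q.hom 0 0
    rw [zero_smul] at h1
    rw [h1]
    simp

lemma QF.sqrt_par (Q : QF H) (x y : H) :
    Real.sqrt (Q.q (x + y)) * Real.sqrt (Q.q (x + y)) +
    Real.sqrt (Q.q (x - y)) * Real.sqrt (Q.q (x - y)) =
      2 * (Real.sqrt (Q.q x) * Real.sqrt (Q.q x) + Real.sqrt (Q.q y) * Real.sqrt (Q.q y)) := by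
  rw [Real.mul_self_sqrt (Q.nonneg _), Real.mul_self_sqrt (Q.nonneg _),
    Real.mul_self_sqrt (Q.nonneg _), Real.mul_self_sqrt (Q.nonneg _)]
  have := Q.par x y
  linarith

lemma QF.core (Q : QF H) : NormedSpace.Core ℝ Q.Sp where
  norm_nonneg x := Real.sqrt_nonneg _
  norm_smul s x := Q.sqrt_smul s x
  norm_triangle x y := Q.tri x y
  norm_eq_zero_iff x := Q.sqrt_zero_iff x

instance (Q : QF H) : NormedAddCommGroup Q.Sp := NormedAddCommGroup.ofCore Q.core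

instance (Q : QF H) : NormedSpace ℝ Q.Sp := NormedSpace.ofCore Q.core

instance (Q : QF H) : InnerProductSpace ℝ Q.Sp :=
  InnerProductSpace.ofNorm ℝ (fun x y => Q.sqrt_par x y)

/-- representation of the form by a linear map into a Hilbert space. -/
theorem QF.exists_map (Q : QF H) :
    ∃ (Φ : H →L[ℝ] UniformSpace.Completion Q.Sp), ∀ x, ‖Φ x‖ ^ 2 = Q.q x := by
  let Φ0 : H →ₗ[ℝ] UniformSpace.Completion Q.Sp :=
    (UniformSpace.Completion.toComplₗᵢ (𝕜 := ℝ) (E := Q.Sp)).toLinearMap.comp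
      ({ toFun := fun x => x, map_add' := fun _ _ => rfl, map_smul' := fun _ _ => rfl } :
        H →ₗ[ℝ] Q.Sp)
  have h1 : ∀ x, ‖Φ0 x‖ = Real.sqrt (Q.q x) := by
    intro x
    show ‖UniformSpace.Completion.toComplₗᵢ (𝕜 := ℝ) (E := Q.Sp) (show Q.Sp from x)‖ = _
    rw [LinearIsometry.norm_map]
    rfl
  have h2 : ∀ x, ‖Φ0 x‖ ≤ Real.sqrt (|Q.C|) * ‖x‖ := by
    intro x
    rw [h1, ← Real.sqrt_sq (norm_nonneg x), ← Real.sqrt_mul (abs_nonneg _)]
    apply Real.sqrt_le_sqrt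
    refine (Q.hi x).trans ?_
    exact mul_le_mul_of_nonneg_right (le_abs_self _) (by positivity)
  refine ⟨Φ0.mkContinuous _ h2, fun x => ?_⟩
  rw [LinearMap.mkContinuous_apply, h1, Real.sq_sqrt (Q.nonneg x)]

end QF

end

end Pool.H770R2.PD
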