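import Pool.Agent.H770R2.PD8

/-!
# Groups preserving a translation invariant Hilbertian metric are unitarizable
-/

set_option autoImplicit false
set_option linter.unusedVariables false
set_option linter.unusedSectionVars false

namespace Pool.H770R2.PD

open MeasureTheory ProbabilityTheory Pool.H770R2.MazL Filter Topology
open scoped ENNReal NNReal

noncomputable section

/-- real version: a group of linear maps preserving a translation invariant Hilbertian metric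
preserves an equivalent quadratic form. -/
theorem exists_form_group {H : Type*} [NormedAddCommGroup H] [InnerProductSpace ℝ H]
    {K : Type*} [NormedAddCommGroup K] [InnerProductSpace ℝ K] [CompleteSpace K]
    {G : Type*} [Group G] (ρ : G → H →ₗ[ℝ] H) (h1 : ∀ x, ρ 1 x = x)
    (hmul : ∀ g g' x, ρ (g * g') x = ρ g (ρ g' x))
    (F : Emb H K) {δ : ℝ} (hδ : 0 < δ) (hlow : ∀ x : H, ‖x‖ = 1 → δ ≤ F.D x)
    (hinv : ∀ g u, F.D (ρ g u) = F.D u) :
    ∃ Q : QF H, ∀ g u, Q.q (ρ g u) = Q.q u := by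
  -- boundedness
  have hcont : Tendsto F.D (𝓝 0) (𝓝 0) := by
    have := F.D_cont.tendsto 0
    rwa [F.D_zero] at this
  obtain ⟨r, hr, hr2⟩ := (Metric.tendsto_nhds_nhds.1 hcont) δ hδ
  have hsm : ∀ x : H, ‖x‖ < r → F.D x < δ := by
    intro x hx
    have := hr2 (x := x) (by simpa using hx)
    rw [Real.dist_eq, sub_zero, abs_of_nonneg (F.D_nonneg x)] at this
    exact this
  have hb : ∀ g x, ‖ρ g x‖ ≤ (1 / r) * ‖x‖ := by
    intro g x
    by_contra hcon
    push Not at hcon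
    have hpos : 0 < ‖ρ g x‖ := lt_of_le_of_lt (by positivity) hcon
    set y : H := (‖ρ g x‖⁻¹ : ℝ) • x with hy
    have e1 : ‖ρ g y‖ = 1 := by
      rw [hy, map_smul, norm_smul, norm_inv, norm_norm, inv_mul_cancel₀ hpos.ne']
    have e2 : ‖y‖ < r := by
      rw [hy, norm_smul, norm_inv, norm_norm, inv_mul_eq_div, div_lt_iff₀ hpos]
      rw [one_div, inv_mul_lt_iff₀ hr] at hcon
      exact hcon
    have e3 := hsm y e2
    have e4 := hlow _ e1
    rw [hinv] at e4
    linarith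
  set N : H → ℝ := fun x => ⨆ g, ‖ρ g x‖ with hN
  have hbdd : ∀ x, BddAbove (Set.range fun g => ‖ρ g x‖) := by
    intro x
    refine ⟨(1 / r) * ‖x‖, ?_⟩
    rintro _ ⟨g, rfl⟩
    exact hb g x
  have hG : Gauge N (1 / r) := by
    refine ⟨fun x => ?_, fun x => ciSup_le fun g => hb g x, fun c x => ?_⟩
    · have := le_ciSup (hbdd x) 1
      rwa [h1] at this
    · show (⨆ g, ‖ρ g (c • x)‖) = |c| * ⨆ g, ‖ρ g x‖
      rw [Real.mul_iSup_of_nonneg (abs_nonneg c)]
      congr 1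
      funext g
      rw [map_smul, norm_smul, Real.norm_eq_abs]
  have hNinv : ∀ g u, N (ρ g u) = N u := by
    intro g u
    show (⨆ g', ‖ρ g' (ρ g u)‖) = ⨆ g', ‖ρ g' u‖
    have : (fun g' => ‖ρ g' (ρ g u)‖) = fun g' => (fun k => ‖ρ k u‖) ((Equiv.mulRight g) g') := by
      funext g'
      show ‖ρ g' (ρ g u)‖ = ‖ρ (g' * g) u‖
      rw [hmul]
    rw [this]
    exact (Equiv.mulRight g).iSup_comp (g := fun k => ‖ρ k u‖)
  obtain ⟨q, c₀, C₀, hc₀, hbd, hpar, hhom, htri, hq⟩ := exists_form F hG hδ hlow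
  exact ⟨⟨q, c₀, C₀, hc₀, fun x => (hbd x).1, fun x => (hbd x).2, hpar, hhom, htri⟩,
    fun g u => hq (ρ g) (hNinv g) (hinv g) u⟩

open Pool.H770R2.Dix

/-- complex version. -/
theorem unitarizable_of_metric {H : Type*} [NormedAddCommGroup H] [InnerProductSpace ℂ H]
    [CompleteSpace H] {K : Type*} [NormedAddCommGroup K] [InnerProductSpace ℝ K]
    [CompleteSpace K] {G : Type*} [Group G] (π : G →* (H →L[ℂ] H)ˣ) (f : H → K)
    (hf : Continuous f) (htr : ∀ x y z, ‖f (x + z) - f (y + z)‖ = ‖f x - f y‖)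
    (hinv : ∀ g x y, ‖f (((π g : (H →L[ℂ] H)ˣ) : H →L[ℂ] H) x) -
      f (((π g : (H →L[ℂ] H)ˣ) : H →L[ℂ] H) y)‖ = ‖f x - f y‖)
    {δ : ℝ} (hδ : 0 < δ) (hlow : ∀ x y, ‖x - y‖ = 1 → δ ≤ ‖f x - f y‖) :
    Unitarizable π := by
  let _ : InnerProductSpace ℝ H := InnerProductSpace.rclikeToReal ℂ H
  let F : Emb H K := ⟨f, htr, hf⟩
  obtain ⟨Q, hQ⟩ := exists_form_group (H := H) (K := K) (G := G)
    (fun g => (((π g : (H →L[ℂ] H)ˣ) : H →L[ℂ] H).toLinearMap).restrictScalars ℝ)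
    (fun x => by simp) (fun g g' x => by simp) F hδ
    (fun x hx => by
      have := hlow x 0 (by rwa [sub_zero])
      exact this)
    (fun g u => by
      have := hinv g u 0
      rw [map_zero] at this
      exact this)
  obtain ⟨Φ, hΦ⟩ := Q.exists_map
  -- symmetrise under multiplication by `I`
  set K' := UniformSpace.Completion Q.Sp
  let I' : H →L[ℝ] H := (Complex.I • (ContinuousLinearMap.id ℂ H)).restrictScalars ℝ
  have hI' : ∀ x, I' x = Complex.I • x := fun x => rfl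
  let Ψ : H →L[ℝ] WithLp 2 (K' × K') :=
    (WithLp.prodContinuousLinearEquiv 2 ℝ K' K').symm.toContinuousLinearMap.comp
      (Φ.prod (Φ.comp I'))
  have hΨ : ∀ x, ‖Ψ x‖ ^ 2 = Q.q x + Q.q (Complex.I • x) := by
    intro x
    rw [WithLp.prod_norm_sq_eq_of_L2, ← hΦ, ← hΦ]
    rfl
  refine unit_of_Phi π Ψ Q.hc (fun x => ?_) (fun x => ?_) (fun g x => ?_)
  · rw [hΨ]
    have := Q.nonneg (Complex.I • x)
    linarith [Q.lo x]
  · have h1 : ‖Ψ (Complex.I • x)‖ ^ 2 = ‖Ψ x‖ ^ 2 := by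
      rw [hΨ, hΨ, smul_smul, Complex.I_mul_I, neg_one_smul]
      have : Q.q (-x) = Q.q x := by
        have := Q.hom (-1) x
        rw [neg_one_smul] at this
        rw [this]; ring
      rw [this]
      ring
    exact (sq_eq_sq₀ (norm_nonneg _) (norm_nonneg _)).1 h1
  · have h1 : ‖Ψ (((π g : (H →L[ℂ] H)ˣ) : H →L[ℂ] H) x)‖ ^ 2 = ‖Ψ x‖ ^ 2 := by
      rw [hΨ, hΨ, ← map_smul]
      have e1 := hQ g x
      have e2 := hQ g (Complex.I • x)
      have e1' : Q.q (((π g : (H →L[ℂ] H)ˣ) : H →L[ℂ] H) x) = Q.q x := e1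
      have e2' : Q.q (((π g : (H →L[ℂ] H)ˣ) : H →L[ℂ] H) (Complex.I • x)) =
        Q.q (Complex.I • x) := e2
      rw [e1', e2']
    exact (sq_eq_sq₀ (norm_nonneg _) (norm_nonneg _)).1 h1

end

end Pool.H770R2.PD
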